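import Pool.Agent.H53R2.Ev

set_option autoImplicit false

namespace Pool.Agent.H53R2

open LaurentPolynomial

theorem elim_adjoin {C M 𝒢 I : Type} [CommRing C] [AddCommGroup M] [Module C M] [Monoid 𝒢]
    [Fintype I] (θ : I → 𝒢 →* C) (A : I → M) (h : ∀ g, ∑ i, θ i g • A i = 0)
    (c : I → C) (hc : c ∈ Algebra.adjoin C (Set.range fun g : 𝒢 => fun i => θ i g)) :
    ∑ i, c i • A i = 0 := by
  rw [← Subalgebra.mem_toSubmodule, Algebra.adjoin_eq_span] at hc
  induction hc using Submodule.span_induction with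
  | mem x hx =>
    have hx' : x ∈ Set.range fun g : 𝒢 => fun i => θ i g := by
      let Θ : 𝒢 →* (I → C) :=
        { toFun := fun g i => θ i g
          map_one' := by ext i; simp
          map_mul' := by intro a b; ext i; simp }
      have : (Set.range fun g : 𝒢 => fun i => θ i g) = (MonoidHom.mrange Θ : Set (I → C)) := rfl
      rw [this, Submonoid.closure_eq] at hx
      exact hx
    obtain ⟨g, rfl⟩ := hx'
    exact h g
  | zero => simp
  | add x y _ _ hx hy =>
    simp only [Pi.add_apply, add_smul, Finset.sum_add_distrib, hx, hy, add_zero]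
  | smul a x _ hx =>
    simp only [Pi.smul_apply, smul_eq_mul, mul_smul, ← Finset.smul_sum, hx, smul_zero]

theorem elim {C M 𝒢 I : Type} [CommRing C] [AddCommGroup M] [Module C M] [Monoid 𝒢] [Fintype I]
    [DecidableEq I] (θ : I → 𝒢 →* C) (A : I → M) (h : ∀ g, ∑ i, θ i g • A i = 0) (N : Finset I)
    (x : I → I → 𝒢) :
    (∏ i ∈ N, ∏ j ∈ Nᶜ, (θ i (x i j) - θ j (x i j))) • ∑ i ∈ N, A i = 0 := by
  set 𝒮 := Algebra.adjoin C (Set.range fun g : 𝒢 => fun i => θ i g) with h𝒮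
  let cst : C → (I → C) := fun a => algebraMap C (I → C) a
  have hcst : ∀ a, cst a ∈ 𝒮 := fun a => Subalgebra.algebraMap_mem _ a
  have hcst' : ∀ a k, cst a k = a := fun a k => rfl
  let u : I → I → (I → C) := fun i j => (fun k => θ k (x i j)) - cst (θ j (x i j))
  have hu : ∀ i j, u i j ∈ 𝒮 := fun i j =>
    sub_mem (Algebra.subset_adjoin ⟨x i j, rfl⟩) (hcst _)
  let d : I → C := fun i => ∏ j ∈ Nᶜ, (θ i (x i j) - θ j (x i j))
  let e : I → C := cst (∏ i ∈ N, d i) - ∏ i ∈ N, (cst (d i) - ∏ j ∈ Nᶜ, u i j)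
  have he : e ∈ 𝒮 :=
    sub_mem (hcst _) (prod_mem fun i _ => sub_mem (hcst _) (prod_mem fun j _ => hu i j))
  have h1 : ∀ k ∈ N, e k = ∏ i ∈ N, d i := by
    intro k hk
    have : (∏ i ∈ N, (cst (d i) - ∏ j ∈ Nᶜ, u i j)) k = 0 := by
      rw [Finset.prod_apply]
      refine Finset.prod_eq_zero hk ?_
      rw [Pi.sub_apply, hcst', Finset.prod_apply]
      exact sub_self _
    show cst (∏ i ∈ N, d i) k - _ = _
    rw [this, hcst', sub_zero]
  have h2 : ∀ k ∈ Nᶜ, e k = 0 := by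
    intro k hk
    have : (∏ i ∈ N, (cst (d i) - ∏ j ∈ Nᶜ, u i j)) k = ∏ i ∈ N, d i := by
      rw [Finset.prod_apply]
      refine Finset.prod_congr rfl fun i _ => ?_
      rw [Pi.sub_apply, hcst', Finset.prod_apply, Finset.prod_eq_zero hk, sub_zero]
      exact sub_self _
    show cst (∏ i ∈ N, d i) k - _ = _
    rw [this, hcst', sub_self]
  have h3 := elim_adjoin θ A h e he
  rw [← Finset.sum_add_sum_compl N, Finset.sum_congr rfl (fun k hk => by rw [h1 k hk]),
    Finset.sum_congr (s₁ := Nᶜ) rfl (fun k hk => by rw [h2 k hk])] at h3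
  simpa [← Finset.smul_sum] using h3

theorem A_coeff_toLaurent (f : Polynomial ℤ) (k : ℕ) :
    (Polynomial.toLaurent f).coeff (k : ℤ) = f.coeff k := by
  rw [coeff_toLaurent]
  exact Finsupp.mapDomain_apply (f := Nat.castEmbedding) (Nat.castEmbedding (R := ℤ)).injective _ _

theorem A_coeff_toLaurent_neg (f : Polynomial ℤ) (k : ℤ) (hk : k < 0) :
    (Polynomial.toLaurent f).coeff k = 0 := by
  rw [coeff_toLaurent]
  apply Finsupp.mapDomain_of_notMem_range
  rintro ⟨n, hn⟩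
  have : (n : ℤ) = k := hn
  omega

theorem A_coeff_mul_T (f : ℤ[T;T⁻¹]) (m j : ℤ) : (f * T m).coeff (j + m) = f.coeff j := by
  have := AddMonoidAlgebra.coeff_mul_single_eq_coeff_mul (R := ℤ) (x := f) (r := 1) (m := m)
    (m₁ := j + m) j (by intro a _; simp)
  simpa using this

/-- the substitution on polynomials -/
theorem A_psi_toLaurent (a : ℤ) (f : Polynomial ℤ) :
    psi a (Polynomial.toLaurent f) = Polynomial.eval₂ C (T a) f := by
  have : (psi a).comp (Polynomial.toLaurent (R := ℤ)) = Polynomial.eval₂RingHom C (T a) := by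
    apply Polynomial.ringHom_ext
    · intro c
      simp
    · simp [psi_T]
  exact congrArg (fun φ => φ f) this

theorem roots (𝓕 : Finset ℤ[T;T⁻¹]) : ∃ n : ℕ, 0 < n ∧ ∀ 𝔭 : Ideal ℤ[T;T⁻¹], 𝔭.IsPrime →
    (∀ a : ℕ, 0 < a → ∃ g ∈ 𝓕, (∃ j : ℤ, C (g.coeff j) ∉ 𝔭) ∧ psi a g ∈ 𝔭) → T n - 1 ∈ 𝔭 := by
  classical
  have hex := fun g : ℤ[T;T⁻¹] => exists_T_pow g
  choose m g' hg' using hex
  let N := ∑ g ∈ 𝓕, (g' g).natDegree
  refine ⟨(N + 1).factorial, Nat.factorial_pos _, ?_⟩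
  intro 𝔭 h𝔭 h
  let K := ℤ[T;T⁻¹] ⧸ 𝔭
  let mk : ℤ[T;T⁻¹] →+* K := Ideal.Quotient.mk 𝔭
  let φ : ℤ →+* K := mk.comp C
  have hmk : ∀ f, mk f = 0 ↔ f ∈ 𝔭 := fun f => Ideal.Quotient.eq_zero_iff_mem
  have : IsDomain K := Ideal.Quotient.isDomain 𝔭
  -- the roots
  let R : ℤ[T;T⁻¹] → Finset K := fun g => ((g' g).map φ).roots.toFinset
  have hR : (𝓕.biUnion R).card ≤ N := by
    refine Finset.card_biUnion_le.trans (Finset.sum_le_sum fun g _ => ?_)
    refine (Multiset.toFinset_card_le _).trans ((Polynomial.card_roots' _).trans ?_)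
    exact Polynomial.natDegree_map_le
  have hmem : ∀ a : ℕ, 0 < a → mk (T 1) ^ a ∈ 𝓕.biUnion R := by
    intro a ha
    obtain ⟨g, hg, ⟨j, hj⟩, hgp⟩ := h a ha
    rw [Finset.mem_biUnion]
    refine ⟨g, hg, ?_⟩
    rw [Multiset.mem_toFinset, Polynomial.mem_roots', Polynomial.IsRoot.def, Polynomial.eval_map]
    constructor
    · intro h0
      have hc : g.coeff j = (Polynomial.toLaurent (g' g)).coeff (j + m g) := by
        rw [hg', A_coeff_mul_T]
      rcases lt_or_ge (j + m g) 0 with hlt | hge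
      · rw [A_coeff_toLaurent_neg _ _ hlt] at hc
        rw [hc, map_zero] at hj
        exact hj 𝔭.zero_mem
      · obtain ⟨k, hk⟩ := Int.eq_ofNat_of_zero_le hge
        rw [hk, A_coeff_toLaurent] at hc
        have h1 : ((g' g).map φ).coeff k = 0 := by rw [h0, Polynomial.coeff_zero]
        rw [Polynomial.coeff_map, ← hc] at h1
        exact hj ((hmk _).1 h1)
    · have h1 : mk (psi a (Polynomial.toLaurent (g' g))) = 0 := by
        rw [hg', map_mul, map_mul, (hmk _).2 hgp, zero_mul]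
      rw [A_psi_toLaurent, Polynomial.hom_eval₂] at h1
      have h2 : mk (T (a : ℤ)) = mk (T 1) ^ a := by
        rw [← map_pow, T_pow, mul_one]
      rw [h2] at h1
      exact h1
  -- pigeonhole
  obtain ⟨x, hx, y, hy, hxy, hxy'⟩ := Finset.exists_ne_map_eq_of_card_lt_of_maps_to
    (s := Finset.range (N + 1)) (t := 𝓕.biUnion R) (by rw [Finset.card_range]; omega)
    (f := fun a => mk (T 1) ^ (a + 1)) (fun a _ => hmem (a + 1) (Nat.succ_pos a))
  have key : ∀ x y : ℕ, x < y → y < N + 1 → mk (T 1) ^ (x + 1) = mk (T 1) ^ (y + 1) →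
      T ((N + 1).factorial : ℤ) - 1 ∈ 𝔭 := by
    intro x y hlt hy h
    have hne : mk (T 1) ≠ 0 := by
      have : IsUnit (mk (T 1)) := (isUnit_T (R := ℤ) 1).map mk
      exact this.ne_zero
    have h1 : mk (T 1) ^ (y - x) = 1 := by
      have h2 : y + 1 = (x + 1) + (y - x) := by omega
      have h3 : mk (T 1) ^ (x + 1) * 1 = mk (T 1) ^ (x + 1) * mk (T 1) ^ (y - x) := by
        rw [mul_one, ← pow_add, ← h2]; exact h
      exact (mul_left_cancel₀ (pow_ne_zero _ hne) h3).symm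
    have h4 : (y - x) ∣ (N + 1).factorial := Nat.dvd_factorial (by omega) (by omega)
    rw [← hmk, map_sub, map_one, sub_eq_zero]
    have h5 : mk (T ((N + 1).factorial : ℤ)) = mk (T 1) ^ ((N + 1).factorial) := by
      rw [← map_pow, T_pow, mul_one]
    obtain ⟨c, hc⟩ := h4
    rw [h5, hc, pow_mul, h1, one_pow]
  rw [Finset.mem_range] at hx hy
  rcases lt_or_gt_of_ne hxy with h1 | h1
  · exact key x y h1 hy hxy'
  · exact key y x h1 hx hxy'.symm

end Pool.Agent.H53R2
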