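import Pool.Agent.H53R2.Defs

set_option autoImplicit false

namespace Pool.Agent.H53R2

section T1

variable {Q E : Type} [Group Q] [AddCommGroup E] [DistribMulAction Q E]

theorem Zn_zero (S : Set Q) : Zn E S 0 = ⊥ := rfl

theorem Zn_succ (S : Set Q) (k : ℕ) : Zn E S (k + 1) = up S (Zn E S k) :=
  Function.iterate_succ_apply' _ _ _

theorem mem_Zn_succ {S : Set Q} {k : ℕ} {e : E} :
    e ∈ Zn E S (k + 1) ↔ ∀ s ∈ S, s • e - e ∈ Zn E S k := by
  rw [Zn_succ, mem_up]

theorem mem_Zn_zero {S : Set Q} {e : E} : e ∈ Zn E S 0 ↔ e = 0 := by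
  rw [Zn_zero, AddSubgroup.mem_bot]

theorem Zn_le_succ (S : Set Q) (k : ℕ) : Zn E S k ≤ Zn E S (k + 1) := by
  induction k with
  | zero => rw [Zn_zero]; exact bot_le
  | succ k ih =>
    intro e he
    rw [mem_Zn_succ] at he ⊢
    exact fun s hs => ih (he s hs)

theorem Zn_mono_k {S : Set Q} {k l : ℕ} (h : k ≤ l) : Zn E S k ≤ Zn E S l :=
  monotone_nat_of_le_succ (fun k => Zn_le_succ S k) h

theorem Zn_anti {S S' : Set Q} (h : S ⊆ S') (k : ℕ) : Zn E S' k ≤ Zn E S k := by
  induction k with
  | zero => exact le_rfl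
  | succ k ih =>
    intro e he
    rw [mem_Zn_succ] at he ⊢
    exact fun s hs => ih (he s (h hs))

theorem ActNil.anti {S S' : Set Q} (h : S ⊆ S') (hS : ActNil S' E) : ActNil S E := by
  obtain ⟨k, hk⟩ := hS
  exact ⟨k, top_le_iff.1 (hk ▸ Zn_anti h k)⟩

/-- `Zn E S k` is stable under every `q` normalizing `S`. -/
theorem Zn_stable {S : Set Q} {q : Q} (hq : ∀ s ∈ S, q⁻¹ * s * q ∈ S) (k : ℕ) {e : E}
    (he : e ∈ Zn E S k) : q • e ∈ Zn E S k := by
  induction k generalizing e with
  | zero =>
    rw [mem_Zn_zero] at he ⊢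
    rw [he, smul_zero]
  | succ k ih =>
    rw [mem_Zn_succ] at he ⊢
    intro s hs
    have h1 := ih (he _ (hq s hs))
    have h2 : q • ((q⁻¹ * s * q) • e - e) = s • q • e - q • e := by
      rw [smul_sub, ← mul_smul, ← mul_smul]
      congr 2
      group
    rwa [h2] at h1

theorem Zn_stable_of_commute {Q E : Type} [Group Q] [AddCommGroup E] [DistribMulAction Q E]
    {S : Set Q} {q : Q} (hq : ∀ s ∈ S, ∀ e : E, s • q • e = q • s • e) (k : ℕ) {e : E}
    (he : e ∈ Zn E S k) : q • e ∈ Zn E S k := by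
  induction k generalizing e with
  | zero =>
    rw [mem_Zn_zero] at he ⊢
    rw [he, smul_zero]
  | succ k ih =>
    rw [mem_Zn_succ] at he ⊢
    intro s hs
    have h1 := ih (he s hs)
    rwa [smul_sub, ← hq s hs] at h1

theorem Zn_conj {Q E : Type} [Group Q] [AddCommGroup E] [DistribMulAction Q E]
    (S : Set Q) (q : Q) (k : ℕ) (e : E) :
    q • e ∈ Zn E ((fun s => q * s * q⁻¹) '' S) k ↔ e ∈ Zn E S k := by
  induction k generalizing e with
  | zero =>
    rw [mem_Zn_zero, mem_Zn_zero]
    exact smul_eq_zero_iff_eq q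
  | succ k ih =>
    rw [mem_Zn_succ, mem_Zn_succ]
    constructor
    · intro h s hs
      have h1 := h _ ⟨s, hs, rfl⟩
      rw [← ih, smul_sub]
      convert h1 using 2
      simp only [← mul_smul]
      congr 1
      group
    · rintro h _ ⟨s, hs, rfl⟩
      have h1 := h s hs
      rw [← ih, smul_sub] at h1
      convert h1 using 2
      simp only [← mul_smul]
      congr 1
      group

theorem ActNil.conj {S : Set Q} (h : ActNil S E) (q : Q) :
    ActNil ((fun s => q * s * q⁻¹) '' S) E := by
  obtain ⟨k, hk⟩ := h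
  refine ⟨k, ?_⟩
  rw [eq_top_iff]
  intro e _
  have := (Zn_conj (E := E) S q k (q⁻¹ • e)).2 (by rw [hk]; trivial)
  rwa [smul_inv_smul] at this

theorem Zn_stable_self {S : Set Q} (k : ℕ) {q : Q} (hq : q ∈ S) {e : E}
    (he : e ∈ Zn E S k) : q • e ∈ Zn E S k ∧ q⁻¹ • e ∈ Zn E S k := by
  induction k generalizing e with
  | zero =>
    rw [mem_Zn_zero] at he
    subst he
    simp
  | succ k ih =>
    have h0 := mem_Zn_succ.1 he q hq
    have h1 : q • e = e + (q • e - e) := by abel
    have h2 : q⁻¹ • e = e - q⁻¹ • (q • e - e) := by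
      rw [smul_sub, inv_smul_smul]; abel
    refine ⟨?_, ?_⟩
    · rw [h1]
      exact add_mem he (Zn_le_succ S k h0)
    · rw [h2]
      exact sub_mem he (Zn_le_succ S k (ih h0).2)

theorem Zn_stable_closure {S : Set Q} (k : ℕ) {q : Q} (hq : q ∈ Subgroup.closure S) {e : E}
    (he : e ∈ Zn E S k) : q • e ∈ Zn E S k := by
  have key : ∀ e, (e ∈ Zn E S k → q • e ∈ Zn E S k) ∧ (e ∈ Zn E S k → q⁻¹ • e ∈ Zn E S k) := by
    induction hq using Subgroup.closure_induction with
    | mem x hx => exact fun e => ⟨fun h => (Zn_stable_self k hx h).1, fun h => (Zn_stable_self k hx h).2⟩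
    | one => intro e; simp
    | mul x y _ _ hx hy =>
      intro e
      refine ⟨fun h => ?_, fun h => ?_⟩
      · rw [mul_smul]; exact (hx _).1 ((hy _).1 h)
      · rw [mul_inv_rev, mul_smul]; exact (hy _).2 ((hx _).2 h)
    | inv x _ hx =>
      intro e
      rw [inv_inv]
      exact ⟨(hx e).2, (hx e).1⟩
  exact (key e).1 he

theorem Zn_closure (S : Set Q) (k : ℕ) : Zn E (Subgroup.closure S : Set Q) k = Zn E S k := by
  apply le_antisymm (Zn_anti Subgroup.subset_closure k)
  induction k with
  | zero => exact le_rfl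
  | succ k ih =>
    intro e he
    rw [mem_Zn_succ]
    intro q hq
    apply ih
    rw [SetLike.mem_coe] at hq
    induction hq using Subgroup.closure_induction with
    | mem x hx => exact mem_Zn_succ.1 he x hx
    | one => simp
    | mul x y hx hy hx' hy' =>
      have h2 : (x * y) • e - e = x • (y • e - e) + (x • e - e) := by
        rw [smul_sub, mul_smul]; abel
      rw [h2]
      exact add_mem (Zn_stable_closure k hx hy') hx'
    | inv x hx hx' =>
      have h2 : x⁻¹ • e - e = - (x⁻¹ • (x • e - e)) := by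
        rw [smul_sub, inv_smul_smul]; abel
      rw [h2]
      exact neg_mem (Zn_stable_closure k (inv_mem hx) hx')

theorem ActNil.closure {S : Set Q} (h : ActNil S E) :
    ActNil (Subgroup.closure S : Set Q) E := by
  obtain ⟨k, hk⟩ := h
  exact ⟨k, by rw [Zn_closure, hk]⟩

/-- equivariant injections -/
theorem Zn_comap {E' : Type} [AddCommGroup E'] [DistribMulAction Q E'] (φ : E' →+ E)
    (hφ : Function.Injective φ) (heq : ∀ (q : Q) (e : E'), φ (q • e) = q • φ e) (S : Set Q) (k : ℕ)
    (e : E') : φ e ∈ Zn E S k ↔ e ∈ Zn E' S k := by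
  induction k generalizing e with
  | zero => rw [mem_Zn_zero, mem_Zn_zero, map_eq_zero_iff φ hφ]
  | succ k ih =>
    rw [mem_Zn_succ, mem_Zn_succ]
    refine forall₂_congr fun s hs => ?_
    rw [← heq, ← map_sub, ih]

theorem ActNil.comap {E' : Type} [AddCommGroup E'] [DistribMulAction Q E'] (φ : E' →+ E)
    (hφ : Function.Injective φ) (heq : ∀ (q : Q) (e : E'), φ (q • e) = q • φ e) {S : Set Q}
    (h : ActNil S E) : ActNil S E' := by
  obtain ⟨k, hk⟩ := h
  refine ⟨k, ?_⟩
  rw [eq_top_iff]
  intro e _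
  rw [← Zn_comap φ hφ heq, hk]
  trivial

/-- equivariant surjections -/
theorem Zn_map {E' : Type} [AddCommGroup E'] [DistribMulAction Q E'] (φ : E →+ E')
    (hφ : Function.Surjective φ) (heq : ∀ (q : Q) (e : E), φ (q • e) = q • φ e) (S : Set Q) (k : ℕ)
    (h : Zn E S k = ⊤) : Zn E' S k = ⊤ := by
  have key : ∀ e, e ∈ Zn E S k → φ e ∈ Zn E' S k := by
    clear h
    induction k with
    | zero =>
      intro e he
      rw [mem_Zn_zero] at he ⊢
      rw [he, map_zero]
    | succ k ih =>
      intro e he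
      rw [mem_Zn_succ] at he ⊢
      intro s hs
      rw [← heq, ← map_sub]
      exact ih _ (he s hs)
  rw [eq_top_iff]
  intro e' _
  obtain ⟨e, rfl⟩ := hφ e'
  exact key e (h ▸ trivial)

theorem ActNil.map {E' : Type} [AddCommGroup E'] [DistribMulAction Q E'] (φ : E →+ E')
    (hφ : Function.Surjective φ) (heq : ∀ (q : Q) (e : E), φ (q • e) = q • φ e) {S : Set Q}
    (h : ActNil S E) : ActNil S E' := by
  obtain ⟨k, hk⟩ := h
  exact ⟨k, Zn_map φ hφ heq S k hk⟩

/-- the union of two sets acting nilpotently acts nilpotently, if one upper series is stable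
under the other set -/
theorem ActNil_union {S₁ S₂ : Set Q} (h1 : ActNil S₁ E) (h2 : ActNil S₂ E)
    (hst : ∀ k, ∀ s ∈ S₂, ∀ e ∈ Zn E S₁ k, s • e ∈ Zn E S₁ k) : ActNil (S₁ ∪ S₂) E := by
  obtain ⟨a, ha⟩ := h1
  obtain ⟨b, hb⟩ := h2
  have key : ∀ i, Zn E S₁ i ≤ Zn E (S₁ ∪ S₂) (i * b) := by
    intro i
    induction i with
    | zero => rw [Zn_zero]; exact bot_le
    | succ i ih =>
      have sub : ∀ j, ∀ e ∈ Zn E S₁ (i + 1), e ∈ Zn E S₂ j → e ∈ Zn E (S₁ ∪ S₂) (i * b + j) := by
        intro j
        induction j with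
        | zero =>
          intro e _ h
          rw [mem_Zn_zero] at h
          rw [h]
          exact zero_mem _
        | succ j ihj =>
          intro e he1 he2
          rw [← add_assoc, mem_Zn_succ]
          rintro s (hs | hs)
          · exact Zn_mono_k (Nat.le_add_right _ _) (ih (mem_Zn_succ.1 he1 s hs))
          · exact ihj _ (sub_mem (hst (i + 1) s hs e he1) he1) (mem_Zn_succ.1 he2 s hs)
      intro e he
      have := sub b e he (hb ▸ trivial)
      rwa [← Nat.succ_mul] at this
  exact ⟨a * b, top_le_iff.1 (ha ▸ key a)⟩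

/-- commuting sets of operators -/
theorem ActNil_of_commute {S T : Set Q} {j l : ℕ}
    (hc : ∀ s ∈ S, ∀ t ∈ T, ∀ e : E, s • t • e = t • s • e)
    (hS : Zn E S j = ⊤) (hT : Zn E S 1 ≤ Zn E T l) : Zn E T (j * l) = ⊤ := by
  have mono : ∀ (i : ℕ) (X Y : AddSubgroup E), X ≤ Y → (up T)^[i] X ≤ (up T)^[i] Y := by
    intro i
    induction i with
    | zero => intro X Y h; exact h
    | succ i ih =>
      intro X Y h
      rw [Function.iterate_succ_apply, Function.iterate_succ_apply]
      exact ih _ _ (fun e he t ht => h (he t ht))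
  -- main claim
  have key : ∀ i, Zn E S (i + 1) ≤ (up T)^[l] (Zn E S i) := by
    intro i
    induction i with
    | zero => exact hT
    | succ i ih =>
      -- for `e ∈ Z_{i+2}(S)`; products of `(t-1)` applied to `e`
      have gen : ∀ (r : ℕ) (X Y : AddSubgroup E),
          (∀ e : E, (∀ s ∈ S, s • e - e ∈ Y) → e ∈ X) →
          ∀ e : E, (∀ s ∈ S, s • e - e ∈ (up T)^[r] Y) → e ∈ (up T)^[r] X := by
        intro r
        induction r with
        | zero => intro X Y h; exact h
        | succ r ihr =>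
          intro X Y h
          rw [Function.iterate_succ_apply, Function.iterate_succ_apply]
          refine ihr (up T X) (up T Y) ?_
          intro e he t ht
          apply h
          intro s hs
          have h1 := he s hs t ht
          have h2 : s • (t • e - e) - (t • e - e) = t • (s • e - e) - (s • e - e) := by
            rw [smul_sub, smul_sub, hc s hs t ht]; abel
          rwa [h2]
      intro e he
      refine gen l (Zn E S (i + 1)) (Zn E S i) (fun e he => mem_Zn_succ.2 he) e ?_
      intro s hs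
      exact ih (mem_Zn_succ.1 he s hs)
  have fin : ∀ i, Zn E S i ≤ Zn E T (i * l) := by
    intro i
    induction i with
    | zero => rw [Zn_zero]; exact bot_le
    | succ i ih =>
      refine (key i).trans ?_
      refine (mono l _ _ ih).trans ?_
      unfold Zn
      rw [← Function.iterate_add_apply, Nat.succ_mul, add_comm]
  exact top_le_iff.1 (hS ▸ fin j)

end T1

end Pool.Agent.H53R2
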