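import Pool.Agent.H53R2.FinNil
import Pool.Agent.H53R2.Up

set_option autoImplicit false

namespace Pool.Agent.H53R2

open scoped commutatorElement

/-- the restricted action on a stable subgroup -/
@[reducible] def F_act {Q B : Type} [Group Q] [AddCommGroup B] [DistribMulAction Q B]
    (X : AddSubgroup B) (hX : ∀ q : Q, ∀ b ∈ X, q • b ∈ X) : DistribMulAction Q ↥X where
  smul q b := ⟨q • b.1, hX q b.1 b.2⟩
  one_smul b := Subtype.ext (one_smul Q b.1)
  mul_smul q r b := Subtype.ext (mul_smul q r b.1)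
  smul_zero q := Subtype.ext (smul_zero q)
  smul_add q b c := Subtype.ext (smul_add q b.1 c.1)

section

variable {Q B : Type} [Group Q] [AddCommGroup B] [DistribMulAction Q B]

theorem F_same {S₁ S₂ : Set Q}
    (h : ∀ s ∈ S₁, (∀ b : B, s • b = b) ∨ ∃ s' ∈ S₂, ∀ b : B, s • b = s' • b) (k : ℕ) :
    Zn B S₂ k ≤ Zn B S₁ k := by
  induction k with
  | zero => exact le_rfl
  | succ k ih =>
    intro e he
    rw [mem_Zn_succ] at he ⊢
    intro s hs
    rcases h s hs with h1 | ⟨s', hs', h1⟩
    · rw [h1, sub_self]; exact zero_mem _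
    · rw [h1]; exact ih (he s' hs')

theorem F_same_nil {S₁ S₂ : Set Q}
    (h : ∀ s ∈ S₁, (∀ b : B, s • b = b) ∨ ∃ s' ∈ S₂, ∀ b : B, s • b = s' • b)
    (h2 : ActNil S₂ B) : ActNil S₁ B := by
  obtain ⟨k, hk⟩ := h2
  exact ⟨k, top_le_iff.1 (hk ▸ F_same h k)⟩

theorem F_triv {S : Set Q} (h : ∀ s ∈ S, ∀ b : B, s • b = b) : ActNil S B := by
  refine ⟨1, ?_⟩
  rw [eq_top_iff]
  intro e _
  rw [mem_Zn_succ]
  intro s hs
  rw [h s hs, sub_self]
  exact zero_mem _

theorem F_empty : ActNil (∅ : Set Q) B := F_triv (fun s hs => hs.elim)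

/-- finite families of commuting operators -/
theorem F_finite {ι : Type} [DecidableEq ι] (f : ι → Q) (hnil : ∀ i, ActNil ({f i} : Set Q) B)
    (hc : ∀ i j, ∀ b : B, f i • f j • b = f j • f i • b) (F : Finset ι) :
    ActNil (f '' (F : Set ι)) B := by
  induction F using Finset.induction_on with
  | empty => simpa using F_empty
  | insert a F ha ih =>
    rw [Finset.coe_insert, Set.image_insert_eq, Set.insert_eq, Set.union_comm]
    refine ActNil_union ih (hnil a) ?_
    rintro k s hs e he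
    rw [Set.mem_singleton_iff] at hs
    subst hs
    refine Zn_stable_of_commute ?_ k he
    rintro _ ⟨i, _, rfl⟩ e
    exact hc i a e

end

theorem lemmaK {Q E : Type} [Group Q] [Group.FG Q] [AddCommGroup E] [DistribMulAction Q E]
    (hmax : MaxN Q) (n : ℕ) (hn : 0 < n) (Q' S₀ : Subgroup Q) [Q'.Normal] [S₀.Normal]
    [Q'.FiniteIndex] (m : ℕ) (hm : Lw Q' m Q' ≤ S₀) (hle : S₀ ≤ Q')
    (hS₀ : ∀ s ∈ S₀, ∀ e : E, s • e = e)
    (star : ∀ (B : Type) [AddCommGroup B] [DistribMulAction Q B] (φ : B →+ E),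
      Function.Injective φ → (∀ (q : Q) (b : B), φ (q • b) = q • φ b) →
      ∀ z ∈ Q', (∀ q ∈ Q', ∀ b : B, z • q • b = q • z • b) → ActNil ({z ^ n} : Set Q) B) :
    ∃ Q'' : Subgroup Q, Q''.Normal ∧ Q''.FiniteIndex ∧ S₀ ≤ Q'' ∧ ActNil (Q'' : Set Q) E := by
  classical
  have key : ∀ S : {N : Subgroup Q // N.Normal}, S₀ ≤ S.1 →
      ∀ (B : Type) [AddCommGroup B] [DistribMulAction Q B] (φ : B →+ E),
      Function.Injective φ → (∀ (q : Q) (b : B), φ (q • b) = q • φ b) →
      (∀ s ∈ S.1, ∀ b : B, s • b = b) →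
      ∃ Q'' : Subgroup Q, Q''.Normal ∧ Q''.FiniteIndex ∧ S₀ ≤ Q'' ∧ ActNil (Q'' : Set Q) B := by
    intro S
    induction S using hmax.wf.induction with
    | _ S ih =>
    intro hS B _ _ φ hφ heq htriv
    have hSn : S.1.Normal := S.2
    by_cases hfi : S.1.FiniteIndex
    · exact ⟨S.1, hSn, hfi, hS, F_triv htriv⟩
    -- an element
    have hz : ∃ z ∈ Q', (∀ q ∈ Q', ⁅z, q⁆ ∈ S.1) ∧ z ^ n ∉ S.1 := by
      by_contra hcon
      push Not at hcon
      exact hfi (fin_lemma Q Q' S.1 m n hn (hm.trans hS) hcon)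
    obtain ⟨z, hzQ, hzc, hzn⟩ := hz
    have hzcomm : ∀ q ∈ Q', ∀ b : B, z • q • b = q • z • b := by
      intro q hq b
      have h1 := htriv _ (hzc q hq) (q • z • b)
      rw [← h1, ← mul_smul, ← mul_smul, ← mul_smul]
      congr 1
      rw [commutatorElement_def]
      group
    have hznil := star B φ hφ heq z hzQ hzcomm
    -- powers of z commute as well
    have hwcomm : ∀ q ∈ Q', ∀ b : B, z ^ n • q • b = q • z ^ n • b := by
      have : ∀ (k : ℕ), ∀ q ∈ Q', ∀ b : B, z ^ k • q • b = q • z ^ k • b := by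
        intro k
        induction k with
        | zero => intro q _ b; simp
        | succ k ihk =>
          intro q hq b
          rw [pow_succ, mul_smul, mul_smul, hzcomm q hq, ihk q hq]
      exact this n
    -- all conjugates
    have hgcomm : ∀ g : Q, ∀ q ∈ Q', ∀ b : B,
        (g * z ^ n * g⁻¹) • q • b = q • (g * z ^ n * g⁻¹) • b := by
      intro g q hq b
      have hq2 : g⁻¹ * q * g ∈ Q' := by
        have := (inferInstance : Q'.Normal).conj_mem q hq g⁻¹
        simpa using this
      have h1 := hwcomm _ hq2 (g⁻¹ • b)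
      have h2 := congrArg (fun x => g • x) h1
      simp only [← mul_smul] at h2 ⊢
      have e1 : g * z ^ n * g⁻¹ * q = g * (z ^ n * ((g⁻¹ * q * g) * g⁻¹)) := by group
      have e2 : q * (g * z ^ n * g⁻¹) = g * ((g⁻¹ * q * g) * (z ^ n * g⁻¹)) := by group
      rw [e1, e2]
      simpa only [mul_assoc] using h2
    have hgmem : ∀ g : Q, g * z ^ n * g⁻¹ ∈ Q' := fun g =>
      (inferInstance : Q'.Normal).conj_mem _ (Q'.pow_mem hzQ n) g
    -- finitely many operators
    let f : Q ⧸ Q' → Q := fun c => c.out * z ^ n * (c.out)⁻¹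
    have hfin : Fintype (Q ⧸ Q') := Fintype.ofFinite _
    have hf1 : ActNil (f '' ((Finset.univ : Finset (Q ⧸ Q')) : Set (Q ⧸ Q'))) B := by
      apply F_finite
      · intro c
        have := hznil.conj (c.out)
        rwa [Set.image_singleton] at this
      · intro c d b
        exact hgcomm _ _ (hgmem _) b
    -- the larger normal subgroup
    let S' : Subgroup Q := S.1 ⊔ Subgroup.normalClosure {z ^ n}
    have hS'n : S'.Normal := inferInstance
    have hlt : S.1 < S' := by
      refine lt_of_le_of_ne le_sup_left ?_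
      intro h
      apply hzn
      rw [h]
      exact (le_sup_right : Subgroup.normalClosure {z ^ n} ≤ S')
        (Subgroup.subset_normalClosure (Set.mem_singleton _))
    have hcl : S' = Subgroup.closure ((S.1 : Set Q) ∪ Set.range fun g : Q => g * z ^ n * g⁻¹) := by
      rw [Subgroup.closure_union, Subgroup.closure_eq]
      show S.1 ⊔ Subgroup.normalClosure {z ^ n} = _
      congr 1
      unfold Subgroup.normalClosure
      congr 1
      ext x
      rw [Group.mem_conjugatesOfSet_iff]
      constructor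
      · rintro ⟨a, ha, hax⟩
        rw [Set.mem_singleton_iff] at ha
        subst ha
        obtain ⟨c, hc⟩ := isConj_iff.mp hax
        exact ⟨c, hc⟩
      · rintro ⟨g, rfl⟩
        exact ⟨z ^ n, rfl, isConj_iff.mpr ⟨g, rfl⟩⟩
    have hS'nil : ActNil (S' : Set Q) B := by
      rw [hcl]
      apply ActNil.closure
      refine F_same_nil ?_ hf1
      rintro s (hs | ⟨g, rfl⟩)
      · exact Or.inl (htriv s hs)
      · right
        refine ⟨f (QuotientGroup.mk g), ⟨_, Finset.mem_coe.mpr (Finset.mem_univ _), rfl⟩, ?_⟩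
        intro b
        obtain ⟨q, hq⟩ := QuotientGroup.mk_out_eq_mul Q' g
        show (g * z ^ n * g⁻¹) • b =
          (((QuotientGroup.mk g : Q ⧸ Q').out) * z ^ n * ((QuotientGroup.mk g : Q ⧸ Q').out)⁻¹) • b
        rw [hq]
        have h1 := hwcomm q.1⁻¹ (Q'.inv_mem q.2) (g⁻¹ • b)
        have h2 := congrArg (fun x => (g * q.1) • x) h1
        simp only [← mul_smul] at h2 ⊢
        have e1 : g * z ^ n * g⁻¹ = g * q.1 * (q.1⁻¹ * (z ^ n * g⁻¹)) := by group
        have e2 : g * q.1 * z ^ n * (g * q.1)⁻¹ = g * q.1 * (z ^ n * (q.1⁻¹ * g⁻¹)) := by group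
        rw [e1, e2]
        exact h2.symm
    have hS'comm : ∀ s ∈ S', ∀ t ∈ Q', ∀ b : B, s • t • b = t • s • b := by
      intro s hs
      rw [hcl] at hs
      induction hs using Subgroup.closure_induction with
      | mem x hx =>
        intro t ht b
        rcases hx with hx | ⟨g, rfl⟩
        · rw [htriv x hx, htriv x hx]
        · exact hgcomm g t ht b
      | one => intro t _ b; simp
      | mul x y _ _ hx hy =>
        intro t ht b
        rw [mul_smul, mul_smul, hy t ht, hx t ht]
      | inv x _ hx =>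
        intro t ht b
        have h1 := hx t ht (x⁻¹ • b)
        rw [smul_inv_smul] at h1
        rw [← h1, inv_smul_smul]
    obtain ⟨j, hj⟩ := hS'nil
    -- fixed points
    have hst : ∀ q : Q, ∀ b ∈ Zn B (S' : Set Q) 1, q • b ∈ Zn B (S' : Set Q) 1 := by
      intro q b hb
      refine Zn_stable ?_ 1 hb
      intro s hs
      have := hS'n.conj_mem s hs q⁻¹
      simpa using this
    let _ : DistribMulAction Q ↥(Zn B (S' : Set Q) 1) := F_act _ hst
    have heq1 : ∀ (q : Q) (b : ↥(Zn B (S' : Set Q) 1)),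
        (Zn B (S' : Set Q) 1).subtype (q • b) = q • (Zn B (S' : Set Q) 1).subtype b :=
      fun q b => rfl
    obtain ⟨Q0, hQ0n, hQ0f, hQ0S, l, hl⟩ := ih ⟨S', hS'n⟩ hlt (hS.trans hlt.le)
      ↥(Zn B (S' : Set Q) 1) (φ.comp (Zn B (S' : Set Q) 1).subtype)
      (hφ.comp Subtype.val_injective)
      (fun q b => heq q b.1)
      (by
        intro s hs b
        apply Subtype.ext
        have h1 := (mem_Zn_succ.1 b.2) s hs
        rw [mem_Zn_zero, sub_eq_zero] at h1
        exact h1)
    have hT : Zn B (S' : Set Q) 1 ≤ Zn B (Q0 : Set Q) l := by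
      intro b hb
      have h1 := (Zn_comap (Zn B (S' : Set Q) 1).subtype Subtype.val_injective heq1 (Q0 : Set Q) l
        ⟨b, hb⟩).mpr (hl ▸ trivial)
      exact h1
    refine ⟨Q0 ⊓ Q', inferInstance, inferInstance, le_inf hQ0S hle, j * l, ?_⟩
    apply ActNil_of_commute (S := (S' : Set Q)) _ hj
    · exact hT.trans (Zn_anti (fun x hx => hx.1) l)
    · intro s hs t ht b
      exact hS'comm s hs t ht.2 b
  exact key ⟨S₀, inferInstance⟩ le_rfl E (AddMonoidHom.id E) Function.injective_id
    (fun _ _ => rfl) hS₀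

end Pool.Agent.H53R2
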