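import Pool.Agent.H53R2.LwBasic
import Pool.Agent.H53R2.Up

set_option autoImplicit false

namespace Pool.Agent.H53R2

open scoped commutatorElement

section construction

variable {G Q : Type} [Group G] [Group Q] (X Y : Subgroup G) [hX : X.Normal] [hY : Y.Normal]

/-- conjugation on the section -/
noncomputable def G_cj (g : G) : ↥Y ⧸ X.subgroupOf Y →* ↥Y ⧸ X.subgroupOf Y :=
  QuotientGroup.map _ _ (MulAut.conjNormal g : MulAut ↥Y).toMonoidHom (by
    intro y hy
    rw [Subgroup.mem_comap, Subgroup.mem_subgroupOf]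
    rw [Subgroup.mem_subgroupOf] at hy
    have : ((MulAut.conjNormal g : MulAut ↥Y) y : G) = g * y * g⁻¹ := MulAut.conjNormal_apply g y
    show ((MulAut.conjNormal g : MulAut ↥Y) y : G) ∈ X
    rw [this]
    exact hX.conj_mem _ hy g)

theorem G_cj_mk (g : G) (y : ↥Y) : G_cj X Y g (QuotientGroup.mk y) =
    QuotientGroup.mk ((MulAut.conjNormal g : MulAut ↥Y) y) := rfl

theorem G_cj_one (x : ↥Y ⧸ X.subgroupOf Y) : G_cj X Y 1 x = x := by
  obtain ⟨y, rfl⟩ := QuotientGroup.mk_surjective x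
  rw [G_cj_mk, map_one]
  rfl

theorem G_cj_mul (g h : G) (x : ↥Y ⧸ X.subgroupOf Y) :
    G_cj X Y (g * h) x = G_cj X Y g (G_cj X Y h x) := by
  obtain ⟨y, rfl⟩ := QuotientGroup.mk_surjective x
  rw [G_cj_mk, G_cj_mk, G_cj_mk, map_mul]
  rfl

theorem G_cj_eq (p : G →* Q) (hker : ⁅Y, p.ker⁆ ≤ X) {g h : G} (hgh : p g = p h)
    (x : ↥Y ⧸ X.subgroupOf Y) : G_cj X Y g x = G_cj X Y h x := by
  obtain ⟨y, rfl⟩ := QuotientGroup.mk_surjective x
  rw [G_cj_mk, G_cj_mk, QuotientGroup.eq, Subgroup.mem_subgroupOf]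
  rw [Subgroup.coe_mul, Subgroup.coe_inv, MulAut.conjNormal_apply, MulAut.conjNormal_apply]
  have hk : g⁻¹ * h ∈ p.ker := by
    rw [MonoidHom.mem_ker, map_mul, map_inv, hgh, inv_mul_cancel]
  have h1 : ⁅(y : G)⁻¹, g⁻¹ * h⁆ ∈ X :=
    hker (Subgroup.commutator_mem_commutator (Y.inv_mem y.2) hk)
  have h2 := hX.conj_mem _ h1 g
  have h3 : (g * (y : G) * g⁻¹)⁻¹ * (h * (y : G) * h⁻¹) = g * ⁅(y : G)⁻¹, g⁻¹ * h⁆ * g⁻¹ := by
    rw [commutatorElement_def]; group
  rw [h3]
  exact h2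

end construction

theorem exists_secMod {G Q : Type} [Group G] [Group Q] (p : G →* Q) (hp : Function.Surjective p)
    (X Y : Subgroup G) [X.Normal] [Y.Normal] (hYY : ⁅Y, Y⁆ ≤ X) (hker : ⁅Y, p.ker⁆ ≤ X) :
    ∃ (E : Type) (_ : AddCommGroup E) (_ : DistribMulAction Q E), Nonempty (SecMod p X Y E) := by
  let cg : CommGroup (↥Y ⧸ X.subgroupOf Y) :=
    { (inferInstance : Group (↥Y ⧸ X.subgroupOf Y)) with
      mul_comm := by
        intro a b
        obtain ⟨x, rfl⟩ := QuotientGroup.mk_surjective a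
        obtain ⟨y, rfl⟩ := QuotientGroup.mk_surjective b
        have h1 : ⁅(y : G)⁻¹, (x : G)⁻¹⁆ ∈ X :=
          hYY (Subgroup.commutator_mem_commutator (Y.inv_mem y.2) (Y.inv_mem x.2))
        have h2 : (QuotientGroup.mk (x * y) : ↥Y ⧸ X.subgroupOf Y) = QuotientGroup.mk (y * x) := by
          rw [QuotientGroup.eq, Subgroup.mem_subgroupOf]
          have h3 : (((x * y)⁻¹ * (y * x) : ↥Y) : G) = ⁅(y : G)⁻¹, (x : G)⁻¹⁆ := by
            rw [commutatorElement_def]
            simp [mul_assoc]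
          rw [h3]
          exact h1
        exact h2 }
  have hs : ∀ q, p (Function.surjInv hp q) = q := Function.surjInv_eq hp
  let act : DistribMulAction Q (Additive (↥Y ⧸ X.subgroupOf Y)) :=
    { smul := fun q e => Additive.ofMul (G_cj X Y (Function.surjInv hp q) e.toMul)
      one_smul := by
        intro e
        show Additive.ofMul (G_cj X Y (Function.surjInv hp 1) e.toMul) = e
        rw [G_cj_eq X Y p hker (h := 1) (by rw [hs, map_one]), G_cj_one]
        rfl
      mul_smul := by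
        intro q r e
        show Additive.ofMul (G_cj X Y (Function.surjInv hp (q * r)) e.toMul) =
          Additive.ofMul (G_cj X Y (Function.surjInv hp q) (G_cj X Y (Function.surjInv hp r) e.toMul))
        rw [G_cj_eq X Y p hker (h := Function.surjInv hp q * Function.surjInv hp r)
          (by rw [map_mul, hs, hs, hs]), G_cj_mul]
      smul_zero := by
        intro q
        show Additive.ofMul (G_cj X Y (Function.surjInv hp q) 1) = 0
        rw [map_one]
        rfl
      smul_add := by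
        intro q a b
        show Additive.ofMul (G_cj X Y (Function.surjInv hp q) (a.toMul * b.toMul)) = _
        rw [map_mul]
        rfl }
  refine ⟨Additive (↥Y ⧸ X.subgroupOf Y), inferInstance, act, ⟨?_⟩⟩
  refine
    { π :=
        { toFun := fun y => Multiplicative.ofAdd (Additive.ofMul
            (QuotientGroup.mk y : ↥Y ⧸ X.subgroupOf Y))
          map_one' := rfl
          map_mul' := fun _ _ => rfl }
      surj := ?_
      ker := ?_
      act := ?_ }
  · intro e
    obtain ⟨y, hy⟩ := QuotientGroup.mk_surjective (e.toAdd.toMul)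
    exact ⟨y, by show Multiplicative.ofAdd (Additive.ofMul (QuotientGroup.mk y)) = e; rw [hy]; rfl⟩
  · intro y
    have h1 : (QuotientGroup.mk y : ↥Y ⧸ X.subgroupOf Y) = 1 ↔ (y : G) ∈ X := by
      rw [QuotientGroup.eq_one_iff, Subgroup.mem_subgroupOf]
    exact h1
  · intro g y y' hy
    show Multiplicative.ofAdd (Additive.ofMul (QuotientGroup.mk y' : ↥Y ⧸ X.subgroupOf Y)) =
      Multiplicative.ofAdd (Additive.ofMul (G_cj X Y (Function.surjInv hp (p g))
        (QuotientGroup.mk y)))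
    rw [G_cj_eq X Y p hker (h := g) (by rw [hs]), G_cj_mk]
    congr 3
    apply Subtype.ext
    rw [hy, MulAut.conjNormal_apply]

section

variable {G Q E : Type} [Group G] [Group Q] [AddCommGroup E] [DistribMulAction Q E]
  {p : G →* Q} {X Y : Subgroup G}

/-- `g ∈ Y` has image `e` in the section module -/
def SecMod.rep (s : SecMod p X Y E) (g : G) (e : E) : Prop :=
  ∃ hg : g ∈ Y, s.π ⟨g, hg⟩ = Multiplicative.ofAdd e

variable (s : SecMod p X Y E)

theorem SecMod.rep_unique {s : SecMod p X Y E} {g : G} {e e' : E} (h : s.rep g e)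
    (h' : s.rep g e') : e = e' := by
  obtain ⟨hg, h1⟩ := h
  obtain ⟨hg', h2⟩ := h'
  exact Multiplicative.ofAdd.injective (h1.symm.trans h2)

theorem SecMod.rep_one : s.rep 1 0 := ⟨Y.one_mem, by
  have : (⟨1, Y.one_mem⟩ : ↥Y) = 1 := rfl
  rw [this, map_one]; rfl⟩

variable {s}

theorem SecMod.rep_mul {g h : G} {e f : E} (hg : s.rep g e) (hh : s.rep h f) :
    s.rep (g * h) (e + f) := by
  obtain ⟨h1, h2⟩ := hg
  obtain ⟨h3, h4⟩ := hh
  refine ⟨Y.mul_mem h1 h3, ?_⟩
  have : (⟨g * h, Y.mul_mem h1 h3⟩ : ↥Y) = ⟨g, h1⟩ * ⟨h, h3⟩ := rfl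
  rw [this, map_mul, h2, h4, ofAdd_add]

theorem SecMod.rep_inv {g : G} {e : E} (hg : s.rep g e) : s.rep g⁻¹ (-e) := by
  obtain ⟨h1, h2⟩ := hg
  refine ⟨Y.inv_mem h1, ?_⟩
  have : (⟨g⁻¹, Y.inv_mem h1⟩ : ↥Y) = ⟨g, h1⟩⁻¹ := rfl
  rw [this, map_inv, h2, ofAdd_neg]

theorem SecMod.rep_zpow {g : G} {e : E} (hg : s.rep g e) (k : ℤ) : s.rep (g ^ k) (k • e) := by
  obtain ⟨h1, h2⟩ := hg
  refine ⟨Y.zpow_mem h1 k, ?_⟩
  have : (⟨g ^ k, Y.zpow_mem h1 k⟩ : ↥Y) = ⟨g, h1⟩ ^ k := rfl
  rw [this, map_zpow, h2, ofAdd_zsmul]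

theorem SecMod.rep_conj [hY : Y.Normal] {g : G} {e : E} (hg : s.rep g e) (x : G) :
    s.rep (x * g * x⁻¹) (p x • e) := by
  obtain ⟨h1, h2⟩ := hg
  refine ⟨hY.conj_mem g h1 x, ?_⟩
  rw [s.act x ⟨g, h1⟩ _ rfl, h2]
  rfl

theorem SecMod.rep_comm [hY : Y.Normal] {g : G} {e : E} (hg : s.rep g e) (x : G) :
    s.rep ⁅g, x⁆ (e - p x • e) := by
  have h1 := SecMod.rep_mul hg (SecMod.rep_conj (SecMod.rep_inv hg) x)
  rw [smul_neg, ← sub_eq_add_neg] at h1
  have h2 : ⁅g, x⁆ = g * (x * g⁻¹ * x⁻¹) := by rw [commutatorElement_def]; group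
  rw [h2]
  exact h1

theorem SecMod.rep_prod {n : ℕ} (g : Fin n → G) (e : Fin n → E) (h : ∀ k, s.rep (g k) (e k)) :
    s.rep (List.ofFn g).prod (∑ k, e k) := by
  induction n with
  | zero => simpa using s.rep_one
  | succ n ih =>
    rw [List.ofFn_succ, List.prod_cons, Fin.sum_univ_succ]
    exact SecMod.rep_mul (h 0) (ih _ _ fun k => h k.succ)

theorem SecMod.exists_rep (s : SecMod p X Y E) (e : E) : ∃ g, s.rep g e := by
  obtain ⟨y, hy⟩ := s.surj (Multiplicative.ofAdd e)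
  exact ⟨y, y.2, hy⟩

end

theorem SecMod.lw_le {G Q E : Type} [Group G] [Group Q] [AddCommGroup E] [DistribMulAction Q E]
    {p : G →* Q} {X Y : Subgroup G} [X.Normal] [Y.Normal] (s : SecMod p X Y E) (M : Subgroup Q)
    (k : ℕ) (h : Zn E (M : Set Q) k = ⊤) : Lw (M.comap p) k Y ≤ X := by
  let W : ℕ → Subgroup G := fun j =>
    { carrier := {g | ∃ e ∈ Zn E (M : Set Q) j, s.rep g e}
      one_mem' := ⟨0, zero_mem _, s.rep_one⟩
      mul_mem' := by
        rintro a b ⟨e, he, h1⟩ ⟨f, hf, h2⟩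
        exact ⟨e + f, add_mem he hf, SecMod.rep_mul h1 h2⟩
      inv_mem' := by
        rintro a ⟨e, he, h1⟩
        exact ⟨-e, neg_mem he, SecMod.rep_inv h1⟩ }
  have key : ∀ i j, i + j = k → Lw (M.comap p) i Y ≤ W j := by
    intro i
    induction i with
    | zero =>
      intro j hj y hy
      have hj' : j = k := by omega
      subst hj'
      refine ⟨(s.π ⟨y, hy⟩).toAdd, h ▸ trivial, hy, rfl⟩
    | succ i ih =>
      intro j hj
      rw [Lw_succ, Subgroup.commutator_le]
      intro y hy g hg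
      obtain ⟨e, he, hye⟩ := ih (j + 1) (by omega) hy
      refine ⟨e - p g • e, ?_, SecMod.rep_comm hye g⟩
      have h1 := neg_mem ((mem_Zn_succ.1 he) (p g) hg)
      rwa [neg_sub] at h1
  intro y hy
  obtain ⟨e, he, hye, h1⟩ := key k 0 rfl hy
  rw [mem_Zn_zero] at he
  subst he
  exact (s.ker ⟨y, hye⟩).mp h1

theorem SecMod.uimod {G Q E : Type} [Group G] [Group Q] [AddCommGroup E] [DistribMulAction Q E]
    {p : G →* Q} (hp : Function.Surjective p) {X Y : Subgroup G} [X.Normal] [Y.Normal]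
    (s : SecMod p X Y E) (hY : Y ≤ p.ker) (u : UI) (hu : u.Grp G) : u.Mod Q E := by
  intro m t b
  obtain ⟨m', rfl⟩ := hp m
  obtain ⟨t', rfl⟩ := hp t
  obtain ⟨y, hy⟩ := s.exists_rep b
  have h1 := SecMod.rep_comm hy m'
  rw [hu y m' t'] at h1
  have h2 : ∀ k : Fin u.n, s.rep (FreeGroup.lift ![y, m', t'] (u.w k) *
      ⁅y, t' ^ (u.i k) * m' * t' ^ (-(u.i k))⁆ ^ (u.e k) *
      (FreeGroup.lift ![y, m', t'] (u.w k))⁻¹)
      (u.e k • (FreeGroup.lift ![1, p m', p t'] (u.w k) •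
      (b - (p t' ^ (u.i k) * p m' * p t' ^ (-(u.i k))) • b))) := by
    intro k
    have h3 := SecMod.rep_conj (SecMod.rep_zpow (SecMod.rep_comm hy
      (t' ^ (u.i k) * m' * t' ^ (-(u.i k)))) (u.e k)) (FreeGroup.lift ![y, m', t'] (u.w k))
    have h4 : p (FreeGroup.lift ![y, m', t'] (u.w k)) =
        FreeGroup.lift ![1, p m', p t'] (u.w k) := by
      have h5 : p.comp (FreeGroup.lift ![y, m', t']) = FreeGroup.lift ![1, p m', p t'] := by
        apply FreeGroup.ext_hom
        intro i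
        rw [MonoidHom.comp_apply, FreeGroup.lift_apply_of, FreeGroup.lift_apply_of]
        fin_cases i
        · exact hY hy.1
        · rfl
        · rfl
      rw [← h5]; rfl
    rw [h4, map_mul, map_mul, map_zpow, map_zpow, smul_comm] at h3
    exact h3
  have h6 := SecMod.rep_prod _ _ h2
  exact SecMod.rep_unique h1 h6

theorem UI.Grp.of_surjective {u : UI} {G H : Type} [Group G] [Group H] (hG : u.Grp G) (f : G →* H)
    (hf : Function.Surjective f) : u.Grp H := by
  intro b m t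
  obtain ⟨b, rfl⟩ := hf b
  obtain ⟨m, rfl⟩ := hf m
  obtain ⟨t, rfl⟩ := hf t
  have h1 := congrArg f (hG b m t)
  rw [map_commutatorElement, map_list_prod, List.map_ofFn] at h1
  rw [h1]
  congr 2
  funext k
  have h5 : f.comp (FreeGroup.lift ![b, m, t]) = FreeGroup.lift ![f b, f m, f t] := by
    apply FreeGroup.ext_hom
    intro i
    rw [MonoidHom.comp_apply, FreeGroup.lift_apply_of, FreeGroup.lift_apply_of]
    fin_cases i <;> rfl
  rw [← h5]
  simp only [Function.comp_apply, map_mul, map_zpow, map_inv, map_commutatorElement,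
    MonoidHom.comp_apply]

theorem G_mod_prod {u : UI} {Q E F : Type} [Group Q] [AddCommGroup E] [DistribMulAction Q E]
    [AddCommGroup F] [DistribMulAction Q F] (hE : u.Mod Q E) (hF : u.Mod Q F) :
    u.Mod Q (E × F) := by
  intro m t b
  apply Prod.ext
  · have := hE m t b.1
    rw [Prod.fst_sum]
    exact this
  · have := hF m t b.2
    rw [Prod.snd_sum]
    exact this

/-- the product of the sections of a descending series -/
theorem exists_prod_secMod {G Q : Type} [Group G] [Group Q] (p : G →* Q)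
    (hp : Function.Surjective p) (u : UI) (hu : u.Grp G) (D : ℕ → Subgroup G)
    (hD : ∀ i, (D i).Normal) (hDker : ∀ i, D i ≤ p.ker)
    (hDD : ∀ i, ⁅D i, p.ker⁆ ≤ D (i + 1)) (r : ℕ) :
    ∃ (E : Type) (_ : AddCommGroup E) (_ : DistribMulAction Q E), u.Mod Q E ∧
      ∀ M : Subgroup Q, ActNil (M : Set Q) E → ∀ i < r, ∃ k, Lw (M.comap p) k (D i) ≤ D (i + 1) := by
  induction r with
  | zero =>
    let act : DistribMulAction Q PUnit.{1} :=
      { smul := fun _ e => e
        one_smul := fun _ => rfl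
        mul_smul := fun _ _ _ => rfl
        smul_zero := fun _ => rfl
        smul_add := fun _ _ _ => rfl }
    exact ⟨PUnit, inferInstance, act, fun _ _ _ => Subsingleton.elim _ _,
      fun M _ i hi => (Nat.not_lt_zero i hi).elim⟩
  | succ r ih =>
    obtain ⟨E, _, _, hE, hE2⟩ := ih
    have := hD r
    have := hD (r + 1)
    obtain ⟨F, _, _, ⟨s⟩⟩ := exists_secMod p hp (D (r + 1)) (D r)
      ((Subgroup.commutator_mono le_rfl (hDker r)).trans (hDD r)) (hDD r)
    refine ⟨E × F, inferInstance, inferInstance, G_mod_prod hE (s.uimod hp (hDker r) u hu), ?_⟩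
    intro M hM i hi
    rcases Nat.lt_succ_iff_lt_or_eq.mp hi with hi | rfl
    · refine hE2 M ?_ i hi
      exact hM.map (AddMonoidHom.fst E F) Prod.fst_surjective (fun _ _ => rfl)
    · obtain ⟨k, hk⟩ := hM.map (AddMonoidHom.snd E F) Prod.snd_surjective (fun _ _ => rfl)
      exact ⟨k, s.lw_le M k hk⟩

end Pool.Agent.H53R2
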