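import Pool.Agent.H53R2.P1
import Pool.Agent.H53R2.Alg
import Pool.Agent.H53R2.LemmaK
import Pool.Agent.H53R2.SecMod

set_option autoImplicit false

namespace Pool.Agent.H53R2

open LaurentPolynomial
open scoped commutatorElement

/-- the centralizer of `F` modulo `K` in `F` -/
def H_cen {Q : Type} [Group Q] (F K : Subgroup Q) [hK : K.Normal] : Subgroup Q where
  carrier := {y | y ∈ F ∧ ∀ x ∈ F, ⁅x, y⁆ ∈ K}
  one_mem' := ⟨F.one_mem, fun x _ => by rw [commutatorElement_one_right]; exact K.one_mem⟩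
  mul_mem' := by
    rintro a b ⟨ha, ha2⟩ ⟨hb, hb2⟩
    refine ⟨F.mul_mem ha hb, fun x hx => ?_⟩
    have h1 : ⁅x, a * b⁆ = ⁅x, a⁆ * (a * ⁅x, b⁆ * a⁻¹) := by
      simp only [commutatorElement_def]; group
    rw [h1]
    exact K.mul_mem (ha2 x hx) (hK.conj_mem _ (hb2 x hx) a)
  inv_mem' := by
    rintro a ⟨ha, ha2⟩
    refine ⟨F.inv_mem ha, fun x hx => ?_⟩
    have h1 : ⁅x, a⁻¹⁆ = a⁻¹ * ⁅x, a⁆⁻¹ * a⁻¹⁻¹ := by
      simp only [commutatorElement_def]; group
    rw [h1]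
    exact hK.conj_mem _ (K.inv_mem (ha2 x hx)) a⁻¹

section

variable {Q : Type} [Group Q] {F K : Subgroup Q} [K.Normal]

theorem H_mem_cen {y : Q} : y ∈ H_cen F K ↔ y ∈ F ∧ ∀ x ∈ F, ⁅x, y⁆ ∈ K := Iff.rfl

theorem H_cen_le : H_cen F K ≤ F := fun _ h => h.1

instance H_cen_normal [hF : F.Normal] : (H_cen F K).Normal := by
  have hK : K.Normal := inferInstance
  constructor
  rintro y ⟨hy, hy2⟩ g
  refine ⟨hF.conj_mem y hy g, fun x hx => ?_⟩
  have h1 := hK.conj_mem _ (hy2 (g⁻¹ * x * g) (by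
    have := hF.conj_mem x hx g⁻¹
    simpa using this)) g
  have h2 : g * ⁅g⁻¹ * x * g, y⁆ * g⁻¹ = ⁅x, g * y * g⁻¹⁆ := by
    simp only [commutatorElement_def]; group
  rwa [h2] at h1

theorem H_cen_mono {K' : Subgroup Q} [K'.Normal] (h : K ≤ K') : H_cen F K ≤ H_cen F K' :=
  fun _ hy => ⟨hy.1, fun x hx => h (hy.2 x hx)⟩

end

theorem H_pow_nil {Q B : Type} [Group Q] [AddCommGroup B] [DistribMulAction Q B] (w : Q)
    (D : AddMonoid.End B) (hD : ∀ b, D b = w • b - b) (h : ℕ) :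
    ∀ b : B, (D ^ h) b = 0 → b ∈ Zn B ({w} : Set Q) h := by
  induction h with
  | zero =>
    intro b hb
    rw [mem_Zn_zero]
    simpa using hb
  | succ h ih =>
    intro b hb
    rw [mem_Zn_succ]
    intro s hs
    rw [Set.mem_singleton_iff] at hs
    subst hs
    rw [← hD]
    apply ih
    rw [pow_succ] at hb
    exact hb

theorem H_prime (f : ℤ[T;T⁻¹]) (n : ℕ)
    (hn : ∀ 𝔭 : Ideal ℤ[T;T⁻¹], 𝔭.IsPrime →
      (∀ a : ℕ, 0 < a → ∃ g ∈ ({f} : Finset ℤ[T;T⁻¹]), (∃ j : ℤ, C (g.coeff j) ∉ 𝔭) ∧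
        psi a g ∈ 𝔭) → T n - 1 ∈ 𝔭) (hf : f.coeff 0 = 1)
    {Q B : Type} [Group Q] [AddCommGroup B] [DistribMulAction Q B] (z : Q)
    (h : ∀ a : ℕ, 0 < a → ∀ b : B, ev B (z ^ (a : ℤ)) f b = 0) :
    ActNil ({z ^ n} : Set Q) B := by
  have h1 : (T n - 1 : ℤ[T;T⁻¹]) ∈ (RingHom.ker (ev B z)).radical := by
    rw [Ideal.radical_eq_sInf, Submodule.mem_sInf]
    rintro P ⟨hP, hPp⟩
    apply hn P hPp
    intro a ha
    refine ⟨f, Finset.mem_singleton_self f, ⟨0, ?_⟩, ?_⟩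
    · rw [hf, map_one]
      exact (Ideal.ne_top_iff_one P).mp hPp.ne_top
    · apply hP
      rw [RingHom.mem_ker, ← ev_pow]
      exact AddMonoidHom.ext (h a ha)
  obtain ⟨k, hk⟩ := h1
  rw [RingHom.mem_ker, map_pow] at hk
  refine ⟨k, ?_⟩
  rw [eq_top_iff]
  intro b _
  refine H_pow_nil (z ^ n) (ev B z (T n - 1)) ?_ k b ?_
  · intro b
    rw [map_sub, map_one]
    show ev B z (T n) b - b = _
    rw [ev_T, zpow_natCast]
  · rw [hk]; rfl

/-- the polynomial of a universal identity -/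
noncomputable def H_pol (u : UI) : ℤ[T;T⁻¹] := 1 - ∑ k : Fin u.n, C (u.e k) * T (u.i k)

theorem H_pol_coeff (u : UI) : (H_pol u).coeff 0 = 1 := by
  unfold H_pol
  have h1 : ∀ k : Fin u.n, ((C (u.e k) * T (u.i k) : ℤ[T;T⁻¹])).coeff 0 = 0 := by
    intro k
    rw [← single_eq_C_mul_T, AddMonoidAlgebra.coeff_single, Finsupp.single_apply,
      if_neg (u.hi k)]
  rw [AddMonoidAlgebra.coeff_sub, AddMonoidAlgebra.coeff_sum, Finsupp.sub_apply,
    Finsupp.finsetSum_apply, Finset.sum_eq_zero (fun k _ => h1 k), sub_zero,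
    AddMonoidAlgebra.coeff_one_zero]

theorem H_pol_ev (u : UI) {Q B : Type} [Group Q] [AddCommGroup B] [DistribMulAction Q B] (z : Q)
    (b : B) : ev B z (H_pol u) b = b - ∑ k : Fin u.n, u.e k • z ^ (u.i k) • b := by
  unfold H_pol
  rw [ev_sub, ev_one, map_sum]
  congr 1
  have h1 : ∀ (s : Finset (Fin u.n)) (f : Fin u.n → AddMonoid.End B),
      (∑ k ∈ s, f k) b = ∑ k ∈ s, f k b := fun s f => AddMonoidHom.finsetSum_apply f s b
  rw [h1]
  refine Finset.sum_congr rfl fun k _ => ?_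
  rw [ev_mul, ev_C, ev_T]

theorem SecMod.rep_mem_zero {G Q E : Type} [Group G] [Group Q] [AddCommGroup E]
    [DistribMulAction Q E] {p : G →* Q} {X Y : Subgroup G} {s : SecMod p X Y E} {g : G} {e : E}
    (h : s.rep g e) (hg : g ∈ X) : e = 0 := by
  obtain ⟨hgY, h1⟩ := h
  have h2 := (s.ker ⟨g, hgY⟩).mpr hg
  rw [h1] at h2
  exact h2

/-- the action of an element of `Q` on the section of conjugation, when it centralizes it -/
theorem H_triv {Q E : Type} [Group Q] [AddCommGroup E] [DistribMulAction Q E] {X Y : Subgroup Q}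
    [Y.Normal] (s : SecMod (MonoidHom.id Q) X Y E) (x : Q) (hx : ∀ y ∈ Y, ⁅x, y⁆ ∈ X) (e : E) :
    x • e = e := by
  obtain ⟨y, hy⟩ := s.exists_rep e
  have h1 := SecMod.rep_comm hy x
  have h2 : ⁅y, x⁆ ∈ X := by
    rw [← commutatorElement_inv]
    exact X.inv_mem (hx y hy.1)
  have h3 := SecMod.rep_mem_zero h1 h2
  exact (sub_eq_zero.mp h3).symm

theorem H_step (u : UI) {Q : Type} [Group Q] [Group.FG Q] (hmax : MaxN Q) (hG : u.Grp Q)
    (n : ℕ) (hn0 : 0 < n)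
    (hn : ∀ 𝔭 : Ideal ℤ[T;T⁻¹], 𝔭.IsPrime →
      (∀ a : ℕ, 0 < a → ∃ g ∈ ({H_pol u} : Finset ℤ[T;T⁻¹]), (∃ j : ℤ, C (g.coeff j) ∉ 𝔭) ∧
        psi a g ∈ 𝔭) → T n - 1 ∈ 𝔭)
    (F Q' K K' : Subgroup Q) [F.Normal] [Q'.Normal] [Q'.FiniteIndex] [K.Normal] [K'.Normal]
    (hFQ : F ≤ Q') (m : ℕ) (hm : Lw Q' m Q' ≤ F) (hK : ⁅K, Q'⁆ ≤ K') :
    ∃ Q'' : Subgroup Q, Q''.Normal ∧ Q''.FiniteIndex ∧ F ≤ Q'' ∧
      ∃ k, Lw Q'' k (H_cen F K) ≤ H_cen F K' := by
  have hFY : ∀ x ∈ F, ∀ y ∈ H_cen F K, ⁅x, y⁆ ∈ H_cen F K' := by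
    intro x hx y hy
    refine ⟨?_, fun x' hx' => ?_⟩
    · rw [commutatorElement_def]
      exact F.mul_mem (F.mul_mem (F.mul_mem hx hy.1) (F.inv_mem hx)) (F.inv_mem hy.1)
    · rw [← commutatorElement_inv]
      exact K'.inv_mem (hK (Subgroup.commutator_mem_commutator (hy.2 x hx) (hFQ hx')))
  obtain ⟨E, _, _, ⟨s⟩⟩ := exists_secMod (MonoidHom.id Q) Function.surjective_id (H_cen F K')
    (H_cen F K) (by
      rw [Subgroup.commutator_le]
      intro a ha b hb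
      exact hFY a ha.1 b hb) (by
      have : (MonoidHom.id Q).ker = ⊥ := (MonoidHom.ker_eq_bot_iff _).mpr Function.injective_id
      rw [this, Subgroup.commutator_bot_right]
      exact bot_le)
  have hS₀ : ∀ x ∈ F, ∀ e : E, x • e = e := fun x hx => H_triv s x (hFY x hx)
  -- the identity
  have hid : ∀ t ∈ Q', ∀ e : E, e - ∑ k : Fin u.n, u.e k • t ^ (u.i k) • e = 0 := by
    intro t ht e
    obtain ⟨y, hy⟩ := s.exists_rep e
    have hyY : y ∈ H_cen F K := hy.1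
    have hcn : (H_cen F K).Normal := inferInstance
    -- the conjugates
    let yk : Fin u.n → ↥(H_cen F K) := fun k =>
      ⟨t ^ (u.i k) * y * (t ^ (u.i k))⁻¹, hcn.conj_mem y hyY _⟩
    have h1 : s.rep (List.ofFn fun k => ((yk k : ↥(H_cen F K)) : Q) ^ (u.e k)).prod
        (∑ k : Fin u.n, u.e k • t ^ (u.i k) • e) :=
      SecMod.rep_prod _ _ fun k => SecMod.rep_zpow (SecMod.rep_conj hy (t ^ (u.i k))) (u.e k)
    have h2 := SecMod.rep_mul hy (SecMod.rep_inv h1)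
    rw [← sub_eq_add_neg] at h2
    refine SecMod.rep_mem_zero h2 ?_
    have hmemY : y * (List.ofFn fun k => ((yk k : ↥(H_cen F K)) : Q) ^ (u.e k)).prod⁻¹ ∈
        H_cen F K := h2.1
    refine ⟨hmemY.1, fun x hx => ?_⟩
    -- the homomorphism
    have hcentral : ∀ c ∈ K, ∀ g ∈ Q', (QuotientGroup.mk g : Q ⧸ K') * QuotientGroup.mk c =
        QuotientGroup.mk c * QuotientGroup.mk g := by
      intro c hc g hg
      rw [← QuotientGroup.mk_mul, ← QuotientGroup.mk_mul, QuotientGroup.eq]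
      have h3 : ⁅c⁻¹, g⁻¹⁆ ∈ K' :=
        hK (Subgroup.commutator_mem_commutator (K.inv_mem hc) (Q'.inv_mem hg))
      have h4 : (g * c)⁻¹ * (c * g) = ⁅c⁻¹, g⁻¹⁆ := by
        simp only [commutatorElement_def]; group
      rw [h4]
      exact h3
    let θ : ↥(H_cen F K) →* Q ⧸ K' :=
      { toFun := fun y => QuotientGroup.mk ⁅x, (y : Q)⁆
        map_one' := by
          show (QuotientGroup.mk ⁅x, (1 : Q)⁆ : Q ⧸ K') = 1
          rw [commutatorElement_one_right]; rfl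
        map_mul' := by
          intro a b
          show (QuotientGroup.mk ⁅x, (a : Q) * (b : Q)⁆ : Q ⧸ K') = _
          have h5 : ⁅x, (a : Q) * (b : Q)⁆ = ⁅x, (a : Q)⁆ * ((a : Q) * ⁅x, (b : Q)⁆ * (a : Q)⁻¹) := by
            simp only [commutatorElement_def]; group
          rw [h5, QuotientGroup.mk_mul, QuotientGroup.mk_mul, QuotientGroup.mk_mul,
            hcentral _ (b.2.2 x hx) a (hFQ a.2.1), QuotientGroup.mk_inv, mul_inv_cancel_right] }
    have hθ : ∀ y : ↥(H_cen F K), θ y = QuotientGroup.mk ⁅x, (y : Q)⁆ := fun _ => rfl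
    -- the universal identity
    have h6 := congrArg (fun g => (QuotientGroup.mk g : Q ⧸ K')) (hG x y t)
    have h7 : (QuotientGroup.mk (List.ofFn fun k : Fin u.n =>
        FreeGroup.lift ![x, y, t] (u.w k) * ⁅x, t ^ (u.i k) * y * t ^ (-(u.i k))⁆ ^ (u.e k) *
        (FreeGroup.lift ![x, y, t] (u.w k))⁻¹).prod : Q ⧸ K') =
        θ (List.ofFn fun k => yk k ^ (u.e k)).prod := by
      rw [← QuotientGroup.mk'_apply, map_list_prod, map_list_prod, List.map_ofFn, List.map_ofFn]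
      congr 2
      funext k
      simp only [Function.comp_apply, QuotientGroup.mk'_apply]
      rw [map_zpow, hθ, QuotientGroup.mk_mul, QuotientGroup.mk_mul, QuotientGroup.mk_zpow,
        QuotientGroup.mk_inv]
      have h8 : ⁅x, t ^ (u.i k) * y * t ^ (-(u.i k))⁆ = ⁅x, ((yk k : ↥(H_cen F K)) : Q)⁆ := by
        rw [zpow_neg]
      rw [h8]
      have hγ : FreeGroup.lift ![x, y, t] (u.w k) ∈ Q' := by
        have h9 : (FreeGroup.lift ![x, y, t]).range ≤ Q' := by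
          apply FreeGroup.range_lift_le
          rintro _ ⟨i, rfl⟩
          fin_cases i
          · exact hFQ hx
          · exact hFQ hyY.1
          · exact ht
        exact h9 ⟨_, rfl⟩
      have h10 := hcentral (⁅x, ((yk k : ↥(H_cen F K)) : Q)⁆ ^ (u.e k))
        (K.zpow_mem ((yk k).2.2 x hx) _) _ hγ
      rw [QuotientGroup.mk_zpow] at h10
      rw [h10, mul_inv_cancel_right]
    have h11 : θ ⟨y, hyY⟩ = θ (List.ofFn fun k => yk k ^ (u.e k)).prod := by
      rw [hθ]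
      exact h6.trans h7
    have h12 : θ (⟨y, hyY⟩ * (List.ofFn fun k => yk k ^ (u.e k)).prod⁻¹) = 1 := by
      rw [map_mul, map_inv, h11, mul_inv_cancel]
    rw [hθ, QuotientGroup.eq_one_iff] at h12
    have h13 : ((⟨y, hyY⟩ * (List.ofFn fun k => yk k ^ (u.e k)).prod⁻¹ : ↥(H_cen F K)) : Q) =
        y * (List.ofFn fun k => ((yk k : ↥(H_cen F K)) : Q) ^ (u.e k)).prod⁻¹ := by
      rw [Subgroup.coe_mul, Subgroup.coe_inv]
      congr 2
      have h14 := map_list_prod (H_cen F K).subtype (List.ofFn fun k => yk k ^ (u.e k))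
      rw [List.map_ofFn] at h14
      exact h14
    rw [h13] at h12
    exact h12
  have hstar : ∀ (B : Type) [AddCommGroup B] [DistribMulAction Q B] (φ : B →+ E),
      Function.Injective φ → (∀ (q : Q) (b : B), φ (q • b) = q • φ b) →
      ∀ z ∈ Q', (∀ q ∈ Q', ∀ b : B, z • q • b = q • z • b) → ActNil ({z ^ n} : Set Q) B := by
    intro B _ _ φ hφ heq z hz _
    apply H_prime (H_pol u) n hn (H_pol_coeff u)
    intro a ha b
    rw [H_pol_ev]
    apply hφ
    rw [map_zero, map_sub, map_sum]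
    have h1 := hid (z ^ (a : ℤ)) (Q'.zpow_mem hz _) (φ b)
    rw [← h1]
    congr 1
    refine Finset.sum_congr rfl fun k _ => ?_
    rw [map_zsmul, heq]
  obtain ⟨Q'', h1, h2, h3, k, h4⟩ := lemmaK hmax n hn0 Q' F m hm hFQ hS₀ hstar
  refine ⟨Q'', h1, h2, h3, k, ?_⟩
  have h5 := s.lw_le Q'' k h4
  exact h5

theorem H_center (u : UI) {Q E : Type} [Group Q] [Group.FG Q] [AddCommGroup E]
    [DistribMulAction Q E] (hmax : MaxN Q) (hE : u.Mod Q E)
    (hN : ∀ N : Subgroup Q, N.Normal → ActNil (N : Set Q) E → N = ⊥)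
    (F Q' : Subgroup Q) [F.Normal] [Q'.Normal] [Q'.FiniteIndex] (hFQ : F ≤ Q') (m : ℕ)
    (hm : Lw Q' m Q' ≤ F) :
    ∃ Q'' : Subgroup Q, Q''.Normal ∧ Q''.FiniteIndex ∧ F ≤ Q'' ∧
      ∃ k, Lw Q'' k (H_cen F ⊥) ≤ ⊥ := by
  have hFY : ∀ x ∈ F, ∀ y ∈ H_cen F ⊥, ⁅x, y⁆ ∈ (⊥ : Subgroup Q) := fun x hx y hy => hy.2 x hx
  obtain ⟨E', _, _, ⟨s⟩⟩ := exists_secMod (MonoidHom.id Q) Function.surjective_id (⊥ : Subgroup Q)
    (H_cen F ⊥) (by
      rw [Subgroup.commutator_le]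
      intro a ha b hb
      exact hFY a ha.1 b hb) (by
      have : (MonoidHom.id Q).ker = ⊥ := (MonoidHom.ker_eq_bot_iff _).mpr Function.injective_id
      rw [this, Subgroup.commutator_bot_right])
  have hS₀ : ∀ x ∈ F, ∀ e : E', x • e = e := fun x hx => H_triv s x (hFY x hx)
  obtain ⟨n, hn0, hn⟩ := P1 u
  have hinj : Function.Injective s.π := by
    rw [injective_iff_map_eq_one]
    intro y hy
    have := (s.ker y).mp hy
    exact Subtype.ext this
  let e : ↥(H_cen F ⊥) ≃* Multiplicative E' := MulEquiv.ofBijective s.π ⟨hinj, s.surj⟩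
  have hstar : ∀ (B : Type) [AddCommGroup B] [DistribMulAction Q B] (φ : B →+ E'),
      Function.Injective φ → (∀ (q : Q) (b : B), φ (q • b) = q • φ b) →
      ∀ z ∈ Q', (∀ q ∈ Q', ∀ b : B, z • q • b = q • z • b) → ActNil ({z ^ n} : Set Q) B := by
    intro B _ _ φ hφ heq z _ hz2
    let ι : Multiplicative B →* Q :=
      (H_cen F ⊥).subtype.comp (e.symm.toMonoidHom.comp (AddMonoidHom.toMultiplicative φ))
    refine hn Q E B hE hN ι ?_ ?_ Q' inferInstance inferInstance z hz2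
    · intro a b hab
      have h1 := e.symm.injective (Subtype.val_injective hab)
      exact hφ h1
    · intro q b
      show ((e.symm (Multiplicative.ofAdd (φ (q • b)))) : Q) =
        q * (e.symm (Multiplicative.ofAdd (φ b)) : Q) * q⁻¹
      have hn1 : (H_cen F (⊥ : Subgroup Q)).Normal := inferInstance
      have h2 : e.symm (Multiplicative.ofAdd (φ (q • b))) =
          ⟨q * (e.symm (Multiplicative.ofAdd (φ b)) : Q) * q⁻¹, hn1.conj_mem _ (Subtype.mem _) q⟩ := by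
        rw [MulEquiv.symm_apply_eq]
        show _ = s.π _
        rw [s.act q (e.symm (Multiplicative.ofAdd (φ b))) _ rfl]
        have h3 : s.π (e.symm (Multiplicative.ofAdd (φ b))) = Multiplicative.ofAdd (φ b) :=
          e.apply_symm_apply _
        rw [h3, heq]
        rfl
      rw [h2]
  obtain ⟨Q'', h1, h2, h3, k, h4⟩ := lemmaK hmax n hn0 Q' F m hm hFQ hS₀ hstar
  exact ⟨Q'', h1, h2, h3, k, s.lw_le Q'' k h4⟩

/-- the upper central series of `F` -/
def H_C {Q : Type} [Group Q] (F : Subgroup Q) [F.Normal] : ℕ → {K : Subgroup Q // K.Normal}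
  | 0 => ⟨⊥, inferInstance⟩
  | i + 1 => ⟨@H_cen Q _ F (H_C F i).1 (H_C F i).2,
      haveI := (H_C F i).2; H_cen_normal⟩

theorem lemmaB1 (u : UI) {Q E : Type} [Group Q] [Group.FG Q] [AddCommGroup E]
    [DistribMulAction Q E] (hmax : MaxN Q) (hvn : VN Q) (hG : u.Grp Q) (hE : u.Mod Q E)
    (hN : ∀ N : Subgroup Q, N.Normal → ActNil (N : Set Q) E → N = ⊥) : VNil Q := by
  obtain ⟨Q1, hQ1n, hQ1f, m, c, hc⟩ := hvn
  set F : Subgroup Q := Lw Q1 m Q1 with hF
  have hFn : F.Normal := Lw_normal Q1 m Q1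
  have hFQ1 : F ≤ Q1 := Lw_le Q1 Q1 m
  obtain ⟨n, hn0, hn⟩ := roots {H_pol u}
  obtain ⟨QZ, hZ1, hZ2, hZ3, kZ, hZ4⟩ := H_center u hmax hE hN F Q1 hFQ1 m le_rfl
  -- all terms of the upper central series are good
  have good : ∀ i, ∃ Q' : Subgroup Q, Q'.Normal ∧ Q'.FiniteIndex ∧ F ≤ Q' ∧ Q' ≤ Q1 ∧
      ∃ l, Lw Q' l (H_C F i).1 = ⊥ := by
    intro i
    induction i with
    | zero => exact ⟨Q1, hQ1n, hQ1f, hFQ1, le_rfl, 0, rfl⟩
    | succ i ih =>
      obtain ⟨Q', h1, h2, h3, h4, l, h5⟩ := ih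
      have hCn := (H_C F i).2
      set K : Subgroup Q := (H_C F i).1 with hK
      have hm' : Lw Q' m Q' ≤ F := Lw_mono h4 h4 m
      have key : ∀ j, ∃ Q'' : Subgroup Q, Q''.Normal ∧ Q''.FiniteIndex ∧ F ≤ Q'' ∧ Q'' ≤ Q' ∧
          ∃ k, Lw Q'' k (H_cen F K) ≤ H_cen F (Lw Q' j K) := by
        intro j
        induction j with
        | zero => exact ⟨Q', h1, h2, h3, le_rfl, 0, le_rfl⟩
        | succ j ihj =>
          obtain ⟨Q'', g1, g2, g3, g4, k, g5⟩ := ihj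
          obtain ⟨Q3, e1, e2, e3, k', e5⟩ := H_step u hmax hG n hn0 hn F Q' (Lw Q' j K)
            (Lw Q' (j + 1) K) h3 m hm' (by rw [Lw_succ])
          refine ⟨Q'' ⊓ Q3, inferInstance, inferInstance, le_inf g3 e3, inf_le_left.trans g4,
            k' + k, ?_⟩
          rw [Lw_add]
          exact (Lw_mono inf_le_right ((Lw_mono inf_le_left le_rfl k).trans g5) k').trans e5
      obtain ⟨Q'', g1, g2, g3, g4, k, g5⟩ := key l
      refine ⟨Q'' ⊓ QZ, inferInstance, inferInstance, le_inf g3 hZ3,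
        (inf_le_left.trans g4).trans h4, kZ + k, ?_⟩
      rw [Lw_add, eq_bot_iff]
      refine le_trans (Lw_mono inf_le_right ?_ kZ) hZ4
      refine (Lw_mono inf_le_left le_rfl k).trans (g5.trans ?_)
      exact H_cen_mono h5.le
  -- the series reaches `F`
  have hreach : ∀ j i, i + j = c → Lw F i F ≤ (H_C F j).1 := by
    intro j
    induction j with
    | zero =>
      intro i hi
      have : i = c := by omega
      subst this
      rw [hc]
      exact bot_le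
    | succ j ih =>
      intro i hi y hy
      refine ⟨Lw_le F F i hy, fun x hx => ?_⟩
      rw [← commutatorElement_inv]
      apply Subgroup.inv_mem
      apply ih (i + 1) (by omega)
      rw [Lw_succ]
      exact Subgroup.commutator_mem_commutator hy hx
  obtain ⟨Q2, h1, h2, h3, h4, l, h5⟩ := good c
  refine ⟨Q2, h1, h2, l + m, ?_⟩
  rw [Lw_add, eq_bot_iff]
  calc Lw Q2 l (Lw Q2 m Q2) ≤ Lw Q2 l F := Lw_mono le_rfl (Lw_mono h4 h4 m) l
    _ ≤ Lw Q2 l (H_C F c).1 := Lw_mono le_rfl (hreach c 0 (Nat.zero_add c)) l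
    _ ≤ ⊥ := h5.le

end Pool.Agent.H53R2
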