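import Pool.Agent.H53R2.LwBasic
import Pool.Agent.Helper111.EN.Basic
import Pool.Agent.Helper294.HallC.Base

set_option autoImplicit false

namespace Pool.Agent.H53R2

open scoped commutatorElement

theorem E_torsion (H : Type) [Group H] [Group.FG H] [Group.IsNilpotent H] (n : ℕ) (hn : 0 < n)
    (h : ∀ z ∈ Subgroup.center H, z ^ n = 1) (x : H) : IsOfFinOrder x := by
  obtain ⟨e, he⟩ := Helper111.EN.resid_tors n hn (fun x hx => ⟨1, by rw [pow_one]; exact h x hx⟩) x
  exact isOfFinOrder_iff_pow_eq_one.mpr ⟨n ^ e, Nat.pow_pos hn, he⟩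

theorem fin_nil (H : Type) [Group H] [Group.FG H] [Group.IsNilpotent H] (n : ℕ) (hn : 0 < n)
    (h : ∀ z ∈ Subgroup.center H, z ^ n = 1) : Finite H :=
  Helper111.EN.finite_of_fg_nilpotent H (E_torsion H n hn h)

theorem E_lcs {G : Type} [Group G] (m : ℕ) :
    (⊤ : Subgroup G).lowerCentralSeries m = Lw ⊤ m ⊤ := by
  induction m with
  | zero => rfl
  | succ m ih => rw [Lw_succ, ← ih, Subgroup.lowerCentralSeries_succ]

theorem E_nilp {G : Type} [Group G] (m : ℕ) (h : Lw (⊤ : Subgroup G) m ⊤ = ⊥) :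
    Group.IsNilpotent G := by
  rw [Subgroup.nilpotent_iff_lowerCentralSeries]
  exact ⟨m, by rw [E_lcs, h]⟩

theorem E_map_mk {G : Type} [Group G] (Q' : Subgroup G) (m : ℕ) :
    (Lw (⊤ : Subgroup ↥Q') m ⊤).map Q'.subtype = Lw Q' m Q' := by
  rw [map_Lw, ← MonoidHom.range_eq_map, Subgroup.range_subtype]

theorem fin_lemma (Q : Type) [Group Q] [Group.FG Q] (Q' S : Subgroup Q) [Q'.Normal] [S.Normal]
    [Q'.FiniteIndex] (m n : ℕ) (hn : 0 < n) (hm : Lw Q' m Q' ≤ S)
    (h : ∀ z ∈ Q', (∀ q ∈ Q', ⁅z, q⁆ ∈ S) → z ^ n ∈ S) : S.FiniteIndex := by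
  have hfg : Group.FG ↥Q' := Subgroup.fg_of_index_ne_zero Q'
  have hnil : Group.IsNilpotent (↥Q' ⧸ S.subgroupOf Q') := by
    apply E_nilp m
    have h1 : Lw (⊤ : Subgroup ↥Q') m ⊤ ≤ S.subgroupOf Q' := by
      intro x hx
      have h2 : (x : Q) ∈ (Lw (⊤ : Subgroup ↥Q') m ⊤).map Q'.subtype := ⟨x, hx, rfl⟩
      rw [E_map_mk] at h2
      exact Subgroup.mem_subgroupOf.mpr (hm h2)
    have h3 := map_Lw (QuotientGroup.mk' (S.subgroupOf Q')) (⊤ : Subgroup ↥Q') m ⊤
    rw [Subgroup.map_top_of_surjective _ (QuotientGroup.mk'_surjective _)] at h3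
    rw [← h3, eq_bot_iff]
    rintro _ ⟨x, hx, rfl⟩
    rw [Subgroup.mem_bot, QuotientGroup.mk'_apply, QuotientGroup.eq_one_iff]
    exact h1 hx
  have hfg2 : Group.FG (↥Q' ⧸ S.subgroupOf Q') := QuotientGroup.fg _
  have hfin : Finite (↥Q' ⧸ S.subgroupOf Q') := by
    apply fin_nil _ n hn
    intro zb hzb
    obtain ⟨z, rfl⟩ := QuotientGroup.mk'_surjective (S.subgroupOf Q') zb
    rw [← map_pow, QuotientGroup.mk'_apply, QuotientGroup.eq_one_iff, Subgroup.mem_subgroupOf]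
    apply h z z.2
    intro q hq
    have h1 := (Subgroup.mem_center_iff.mp hzb) (QuotientGroup.mk' _ (⟨q, hq⟩ : ↥Q'))
    have h2 : QuotientGroup.mk' (S.subgroupOf Q') ⁅z, (⟨q, hq⟩ : ↥Q')⁆ = 1 := by
      rw [map_commutatorElement, commutatorElement_eq_one_iff_mul_comm]
      exact h1.symm
    rw [QuotientGroup.mk'_apply, QuotientGroup.eq_one_iff, Subgroup.mem_subgroupOf] at h2
    exact h2
  have hfi : (S.subgroupOf Q').FiniteIndex := Subgroup.finiteIndex_of_finite_quotient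
  have h4 : (S ⊓ Q').index ≠ 0 := by
    have h5 := Subgroup.relIndex_mul_index (H := S ⊓ Q') (K := Q') inf_le_right
    rw [← h5]
    refine mul_ne_zero ?_ Subgroup.FiniteIndex.index_ne_zero
    rw [Subgroup.inf_relIndex_right]
    exact hfi.index_ne_zero
  exact ⟨fun h6 => h4 (Nat.eq_zero_of_zero_dvd (h6 ▸ Subgroup.index_dvd_of_le inf_le_left))⟩

/-- finitely generated nilpotent groups: all subgroups are finitely generated. -/
theorem nil_maxC (H : Type) [Group H] [Group.FG H] [Group.IsNilpotent H] :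
    ∀ S : Subgroup H, S.FG := by
  intro S
  have h := Helper111.EN.NSc.NS_of_nilpotent_fg (⊤ : Subgroup H)
    (Group.isNilpotent_top.2 inferInstance) Group.FG.out
  exact h S le_top

/-- finitely generated nilpotent groups are products of finitely many cyclic subgroups. -/
theorem nil_bddGen (H : Type) [Group H] [Group.FG H] [Group.IsNilpotent H] :
    ∃ (r : ℕ) (t : Fin r → H), ∀ h : H, ∃ k : Fin r → ℤ, h = (List.ofFn fun i => t i ^ k i).prod := by
  have key := Helper294.HallC.polyInd (G := H) (nil_maxC H) inferInstance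
    (fun R => ∃ (r : ℕ) (t : Fin r → H), ∀ h ∈ R, ∃ k : Fin r → ℤ,
      h = (List.ofFn fun i => t i ^ k i).prod) ?_ ?_
  · obtain ⟨r, t, h⟩ := key
    exact ⟨r, t, fun x => h x trivial⟩
  · refine ⟨0, Fin.elim0, fun h hh => ⟨Fin.elim0, ?_⟩⟩
    rw [Subgroup.mem_bot] at hh
    rw [hh]; simp
  · rintro R t ht ⟨r, s, hs⟩
    refine ⟨r + 1, Fin.cons t s, ?_⟩
    rintro x ⟨k, hk⟩
    obtain ⟨l, hl⟩ := hs _ hk
    refine ⟨Fin.cons k l, ?_⟩
    rw [List.ofFn_succ, List.prod_cons]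
    simp only [Fin.cons_zero, Fin.cons_succ]
    rw [← hl, zpow_neg, mul_inv_cancel_left]

end Pool.Agent.H53R2
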