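import Pool.Agent.H53R2.Variety

set_option autoImplicit false

namespace Pool.Agent.H53R2

open scoped commutatorElement

/-- the partial products `t₀^{k₀} ⋯ t_{s-1}^{k_{s-1}}` -/
def J_w {P : Type} [Group P] (t : ℕ → P) (k : ℕ → ℤ) : ℕ → P
  | 0 => 1
  | s + 1 => J_w t k s * t s ^ k s

theorem J_w_eq {P : Type} [Group P] (t : ℕ → P) (k : ℕ → ℤ) (r : ℕ) :
    (List.ofFn fun i : Fin r => t i ^ k i).prod = J_w t k r := by
  induction r with
  | zero => simp [J_w]
  | succ r ih =>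
    rw [List.ofFn_succ', List.prod_concat]
    simp only [Fin.val_castSucc, Fin.val_last]
    rw [ih]
    rfl

theorem J_w_congr {P : Type} [Group P] (t : ℕ → P) (k k' : ℕ → ℤ) (s : ℕ)
    (h : ∀ i < s, k i = k' i) : J_w t k s = J_w t k' s := by
  induction s with
  | zero => rfl
  | succ s ih =>
    simp only [J_w]
    rw [ih (fun i hi => h i (by omega)), h s (by omega)]

theorem map_J_w {P G : Type} [Group P] [Group G] (f : P →* G) (t : ℕ → P) (k : ℕ → ℤ) (s : ℕ) :
    f (J_w t k s) = J_w (fun i => f (t i)) k s := by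
  induction s with
  | zero => exact map_one f
  | succ s ih =>
    simp only [J_w]
    rw [map_mul, map_zpow, ih]

theorem aut_J_w {P : Type} [Group P] (α : MulAut P) (t : ℕ → P) (k : ℕ → ℤ)
    (h : ∀ i, α (t i) = t i) (s : ℕ) : α (J_w t k s) = J_w t k s := by
  induction s with
  | zero => exact map_one α
  | succ s ih =>
    simp only [J_w]
    rw [map_mul, map_zpow, ih, h]

/-- the orbit of the commutator `[y,x]` -/
def J_S {P : Type} [Group P] (y x : P) (t : ℕ → P) (s : ℕ) : Set P :=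
  {σ | ∃ k : ℕ → ℤ, σ = ⁅y, J_w t k s * x * (J_w t k s)⁻¹⁆}

theorem J_step {P : Type} [Group P] (y x : P) (t : ℕ → P) (s : ℕ) (α : MulAut P)
    (hy : α y = y) (hx : α x = t s * x * (t s)⁻¹) (ht : ∀ i, α (t i) = t i) :
    J_S y x t (s + 1) = {σ | ∃ j : ℤ, ∃ ρ ∈ J_S y x t s, σ = (α ^ j) ρ} := by
  have key : ∀ (k : ℕ → ℤ) (j : ℤ), (α ^ j) ⁅y, J_w t k s * x * (J_w t k s)⁻¹⁆ =
      ⁅y, (J_w t k s * t s ^ j) * x * (J_w t k s * t s ^ j)⁻¹⁆ := by
    intro k j
    rw [map_commutatorElement, zpow_fixed α y hy, map_mul, map_mul, map_inv,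
      zpow_conj α (t s) x (ht s) hx, zpow_fixed α _ (aut_J_w α t k ht s)]
    congr 1
    group
  ext σ
  constructor
  · rintro ⟨k, rfl⟩
    exact ⟨k s, _, ⟨k, rfl⟩, (key k (k s)).symm⟩
  · rintro ⟨j, _, ⟨k, rfl⟩, rfl⟩
    refine ⟨Function.update k s j, ?_⟩
    rw [key]
    have h1 : J_w t (Function.update k s j) (s + 1) = J_w t k s * t s ^ j := by
      simp only [J_w]
      rw [Function.update_self, J_w_congr t (Function.update k s j) k s]
      intro i hi
      rw [Function.update_of_ne (by omega)]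
    rw [h1]

theorem J_fin {P : Type} [Group P] (hH : QHopf P) (y x : P) (t : ℕ → P) (r : ℕ)
    (hα : ∀ s < r, ∃ α : MulAut P, α y = y ∧ α x = t s * x * (t s)⁻¹ ∧ ∀ i, α (t i) = t i)
    (s : ℕ) (hs : s ≤ r) :
    ∃ R : Finset P, Subgroup.normalClosure (R : Set P) =
      Subgroup.normalClosure (J_S y x t s) := by
  classical
  induction s with
  | zero =>
    refine ⟨{⁅y, x⁆}, ?_⟩
    congr 1
    ext σ
    rw [Finset.coe_singleton, Set.mem_singleton_iff]
    constructor
    · rintro rfl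
      exact ⟨0, by simp [J_w]⟩
    · rintro ⟨k, rfl⟩
      simp [J_w]
  | succ s ih =>
    obtain ⟨R, hR⟩ := ih (by omega)
    obtain ⟨α, hy, hx, ht⟩ := hα s (by omega)
    obtain ⟨R', hR'⟩ := hopf_orbit hH α R
    refine ⟨R', ?_⟩
    rw [hR', J_step y x t s α hy hx ht]
    apply le_antisymm
    · apply Subgroup.normalClosure_le_normal
      rintro σ ⟨k, ρ, hρ, rfl⟩
      have h1 : ρ ∈ Subgroup.normalClosure (J_S y x t s) := by
        rw [← hR]; exact Subgroup.subset_normalClosure hρ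
      have h2 : (α ^ k) ρ ∈ (Subgroup.normalClosure (J_S y x t s)).map
        ((α ^ k : MulAut P) : P ≃* P).toMonoidHom := ⟨ρ, h1, rfl⟩
      rw [map_normalClosure_aut] at h2
      refine Subgroup.normalClosure_mono ?_ h2
      rintro _ ⟨τ, hτ, rfl⟩
      exact ⟨k, τ, hτ, rfl⟩
    · apply Subgroup.normalClosure_le_normal
      rintro σ ⟨k, ρ, hρ, rfl⟩
      have h1 : ρ ∈ Subgroup.normalClosure (R : Set P) := by
        rw [hR]; exact Subgroup.subset_normalClosure hρ
      have h2 : (α ^ k) ρ ∈ (Subgroup.normalClosure (R : Set P)).map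
        ((α ^ k : MulAut P) : P ≃* P).toMonoidHom := ⟨ρ, h1, rfl⟩
      rw [map_normalClosure_aut] at h2
      refine Subgroup.normalClosure_mono ?_ h2
      rintro _ ⟨τ, hτ, rfl⟩
      exact ⟨k, τ, hτ, rfl⟩

/-- finitely many elements of the orbit suffice -/
theorem J_fin' {P : Type} [Group P] (hH : QHopf P) (y x : P) (t : ℕ → P) (r : ℕ)
    (hα : ∀ s < r, ∃ α : MulAut P, α y = y ∧ α x = t s * x * (t s)⁻¹ ∧ ∀ i, α (t i) = t i) :
    ∃ K : Finset (ℕ → ℤ), ∀ k : ℕ → ℤ, ⁅y, J_w t k r * x * (J_w t k r)⁻¹⁆ ∈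
      Subgroup.normalClosure {σ | ∃ k' ∈ K, σ = ⁅y, J_w t k' r * x * (J_w t k' r)⁻¹⁆} := by
  classical
  obtain ⟨R, hR⟩ := J_fin hH y x t r hα r le_rfl
  have h1 : ∀ ρ ∈ R, ∃ K : Finset (ℕ → ℤ), ρ ∈ Subgroup.normalClosure
      {σ | ∃ k' ∈ K, σ = ⁅y, J_w t k' r * x * (J_w t k' r)⁻¹⁆} := by
    intro ρ hρ
    have h2 : ρ ∈ Subgroup.normalClosure (J_S y x t r) := by
      rw [← hR]; exact Subgroup.subset_normalClosure hρ
    obtain ⟨F, hF, h3⟩ := mem_normalClosure_finite _ _ h2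
    have h4 : ∀ σ ∈ F, ∃ k : ℕ → ℤ, σ = ⁅y, J_w t k r * x * (J_w t k r)⁻¹⁆ := fun σ hσ => hF hσ
    choose! f hf using h4
    refine ⟨F.image f, Subgroup.normalClosure_mono ?_ h3⟩
    intro σ hσ
    exact ⟨f σ, Finset.mem_image_of_mem f hσ, hf σ hσ⟩
  choose! K hK using h1
  refine ⟨R.biUnion K, fun k => ?_⟩
  have h5 : ⁅y, J_w t k r * x * (J_w t k r)⁻¹⁆ ∈ Subgroup.normalClosure (R : Set P) := by
    rw [hR]; exact Subgroup.subset_normalClosure ⟨k, rfl⟩
  refine Subgroup.normalClosure_le_normal ?_ h5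
  intro ρ hρ
  refine Subgroup.normalClosure_mono ?_ (hK ρ hρ)
  rintro σ ⟨k', hk', rfl⟩
  exact ⟨k', Finset.mem_biUnion.mpr ⟨ρ, hρ, hk'⟩, rfl⟩

theorem J_aut (W : Set (FreeGroup ℕ)) (n : ℕ) (i j : Fin n) (hij : j ≠ i) :
    ∃ α : MulAut (RF W n), (∀ l, l ≠ i → α (RF.gen W l) = RF.gen W l) ∧
      α (RF.gen W i) = RF.gen W j * RF.gen W i * (RF.gen W j)⁻¹ := by
  classical
  have e1 : ∀ l : Fin n, RF.lift (RF_inVar W n)
      (Function.update (RF.gen W) i (RF.gen W j * RF.gen W i * (RF.gen W j)⁻¹))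
      (Function.update (RF.gen W) i ((RF.gen W j)⁻¹ * RF.gen W i * (RF.gen W j)) l) =
      RF.gen W l := by
    intro l
    by_cases hl : l = i
    · subst hl
      rw [Function.update_self, map_mul, map_mul, map_inv, RF.lift_gen, RF.lift_gen,
        Function.update_self, Function.update_of_ne hij]
      group
    · rw [Function.update_of_ne hl, RF.lift_gen, Function.update_of_ne hl]
  have e2 : ∀ l : Fin n, RF.lift (RF_inVar W n)
      (Function.update (RF.gen W) i ((RF.gen W j)⁻¹ * RF.gen W i * (RF.gen W j)))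
      (Function.update (RF.gen W) i (RF.gen W j * RF.gen W i * (RF.gen W j)⁻¹) l) =
      RF.gen W l := by
    intro l
    by_cases hl : l = i
    · subst hl
      rw [Function.update_self, map_mul, map_mul, map_inv, RF.lift_gen, RF.lift_gen,
        Function.update_self, Function.update_of_ne hij]
      group
    · rw [Function.update_of_ne hl, RF.lift_gen, Function.update_of_ne hl]
  refine ⟨RF.aut _ _ e1 e2, ?_, ?_⟩
  · intro l hl
    rw [RF.aut_gen, Function.update_of_ne hl]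
  · rw [RF.aut_gen, Function.update_self]

/-- the multi-parameter version -/
theorem multi_hopf (W : Set (FreeGroup ℕ)) (r : ℕ) (hH : QHopf (RF W (2 + r))) :
    ∃ K : Finset (Fin r → ℤ), ∀ (G : Type) [Group G], InVar W G → ∀ (y x : G) (t : Fin r → G)
      (k : Fin r → ℤ),
      ⁅y, (List.ofFn fun i => t i ^ k i).prod * x * ((List.ofFn fun i => t i ^ k i).prod)⁻¹⁆ ∈
        Subgroup.normalClosure {g : G | ∃ k' ∈ K, g =
          ⁅y, (List.ofFn fun i => t i ^ k' i).prod * x *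
            ((List.ofFn fun i => t i ^ k' i).prod)⁻¹⁆} := by
  classical
  set Y : RF W (2 + r) := RF.gen W ⟨0, by omega⟩ with hY
  set X : RF W (2 + r) := RF.gen W ⟨1, by omega⟩ with hX
  set T : ℕ → RF W (2 + r) := fun i => if h : i < r then RF.gen W ⟨2 + i, by omega⟩ else 1 with hT
  have hα : ∀ s < r, ∃ α : MulAut (RF W (2 + r)), α Y = Y ∧ α X = T s * X * (T s)⁻¹ ∧
      ∀ i, α (T i) = T i := by
    intro s hs
    obtain ⟨α, h1, h2⟩ := J_aut W (2 + r) ⟨1, by omega⟩ ⟨2 + s, by omega⟩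
      (by intro h; rw [Fin.mk.injEq] at h; omega)
    refine ⟨α, ?_, ?_, ?_⟩
    · exact h1 _ (by intro h; rw [Fin.mk.injEq] at h; omega)
    · rw [hX, h2]
      simp only [hT, dif_pos hs]
    · intro i
      by_cases hi : i < r
      · simp only [hT, dif_pos hi]
        exact h1 _ (by intro h; rw [Fin.mk.injEq] at h; omega)
      · simp only [hT, dif_neg hi, map_one]
  obtain ⟨K, hK⟩ := J_fin' hH Y X T r hα
  refine ⟨K.image (fun k i => k i), ?_⟩
  intro G _ hG y x t k
  set f : Fin (2 + r) → G := fun i => if h0 : (i : ℕ) = 0 then y else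
    if h1 : (i : ℕ) = 1 then x else t ⟨(i : ℕ) - 2, by omega⟩ with hf
  have fY : RF.lift hG f Y = y := by
    rw [hY, RF.lift_gen]; simp [hf]
  have fX : RF.lift hG f X = x := by
    rw [hX, RF.lift_gen]; simp [hf]
  have fT : ∀ i : Fin r, RF.lift hG f (T i) = t i := by
    intro i
    simp only [hT, dif_pos i.2]
    rw [RF.lift_gen]
    simp only [hf]
    rw [dif_neg (by omega), dif_neg (by omega)]
    congr 1
    apply Fin.ext
    simp
  -- the images of the products
  have hprod : ∀ k : ℕ → ℤ, RF.lift hG f (J_w T k r) = (List.ofFn fun i : Fin r => t i ^ k i).prod := by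
    intro k
    rw [← J_w_eq, map_list_prod, List.map_ofFn]
    congr 2
    funext i
    rw [Function.comp_apply, map_zpow, fT]
  have hk := hK (fun i => if h : i < r then k ⟨i, h⟩ else 0)
  have h1 : RF.lift hG f ⁅Y, J_w T (fun i => if h : i < r then k ⟨i, h⟩ else 0) r * X *
      (J_w T (fun i => if h : i < r then k ⟨i, h⟩ else 0) r)⁻¹⁆ ∈
      (Subgroup.normalClosure {σ | ∃ k' ∈ K, σ = ⁅Y, J_w T k' r * X * (J_w T k' r)⁻¹⁆}).map
        (RF.lift hG f) := ⟨_, hk, rfl⟩
  have h2 : (Subgroup.normalClosure {σ | ∃ k' ∈ K, σ = ⁅Y, J_w T k' r * X *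
      (J_w T k' r)⁻¹⁆}).map (RF.lift hG f) ≤ Subgroup.normalClosure
      {g : G | ∃ k' ∈ K.image (fun k i => k i), g =
          ⁅y, (List.ofFn fun i : Fin r => t i ^ k' i).prod * x *
            ((List.ofFn fun i => t i ^ k' i).prod)⁻¹⁆} := by
    rw [Subgroup.map_le_iff_le_comap]
    apply Subgroup.normalClosure_le_normal
    rintro _ ⟨k', hk', rfl⟩
    rw [SetLike.mem_coe, Subgroup.mem_comap]
    apply Subgroup.subset_normalClosure
    refine ⟨fun i => k' i, Finset.mem_image_of_mem _ hk', ?_⟩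
    rw [map_commutatorElement, map_mul, map_mul, map_inv, fY, fX, hprod]
  have h3 := h2 h1
  rw [map_commutatorElement, map_mul, map_mul, map_inv, fY, fX, hprod] at h3
  simpa using h3

end Pool.Agent.H53R2
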