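import Pool.Agent.H53R2.LwBasic
import Pool.Agent.H53R2.FinNil
import Pool.Agent.H53R2.SecMod
import Pool.Agent.H53R2.MultiHopf
import Pool.Agent.Helper294.HallC.NoeOfFg

set_option autoImplicit false

namespace Pool.Agent.H53R2

open scoped commutatorElement

section

variable {G : Type} [Group G]

/-- chains of normal subgroups stabilize on the section `B/A` -/
def K_acc (A B : Subgroup G) : Prop :=
  ∀ f : ℕ → Subgroup G, Monotone f → (∀ n, (f n).Normal) →
    ∃ n, ∀ m, n ≤ m → f m ⊓ B ≤ (f n ⊓ B) ⊔ A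

theorem K_maxN_iff : MaxN G ↔ ∀ f : ℕ → Subgroup G, Monotone f → (∀ n, (f n).Normal) →
    ∃ n, ∀ m, n ≤ m → f m = f n := by
  unfold MaxN
  rw [wellFoundedGT_iff_monotone_chain_condition]
  constructor
  · intro h f hf hn
    obtain ⟨n, hn'⟩ := h ⟨fun i => ⟨f i, hn i⟩, fun i j hij => hf hij⟩
    exact ⟨n, fun m hm => (congrArg Subtype.val (hn' m hm)).symm⟩
  · intro h a
    obtain ⟨n, hn⟩ := h (fun i => (a i).1) (fun i j hij => a.2 hij) (fun i => (a i).2)
    exact ⟨n, fun m hm => Subtype.ext (hn m hm).symm⟩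

theorem K_acc_trans {A B C : Subgroup G} [A.Normal] [B.Normal] (hBC : B ≤ C)
    (h1 : K_acc A B) (h2 : K_acc B C) : K_acc A C := by
  intro f hf hn
  obtain ⟨n₁, hn₁⟩ := h1 f hf hn
  obtain ⟨n₂, hn₂⟩ := h2 f hf hn
  refine ⟨max n₁ n₂, fun m hm => ?_⟩
  set n := max n₁ n₂ with hnn
  have e1 : f m ⊓ B ≤ (f n ⊓ B) ⊔ A :=
    (hn₁ m (le_trans (le_max_left _ _) hm)).trans
      (sup_le_sup_right (inf_le_inf_right _ (hf (le_max_left _ _))) _)
  have e2 : f m ⊓ C ≤ (f n ⊓ C) ⊔ B :=
    (hn₂ m (le_trans (le_max_right _ _) hm)).trans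
      (sup_le_sup_right (inf_le_inf_right _ (hf (le_max_right _ _))) _)
  intro x hx
  obtain ⟨y, hy, b, hb, rfl⟩ := Subgroup.mem_sup_of_normal_right.1 (e2 hx)
  have hb' : b ∈ f m ⊓ B := by
    refine ⟨?_, hb⟩
    have h3 : y ∈ f m := hf hm hy.1
    have h4 := (f m).mul_mem ((f m).inv_mem h3) hx.1
    rwa [inv_mul_cancel_left] at h4
  obtain ⟨y', hy', a, ha, rfl⟩ := Subgroup.mem_sup_of_normal_right.1 (e1 hb')
  rw [← mul_assoc]
  refine Subgroup.mul_mem_sup (mul_mem hy ⟨hy'.1, hBC hy'.2⟩) ha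

theorem K_maxN_of_acc (h : K_acc (⊥ : Subgroup G) ⊤) : MaxN G := by
  rw [K_maxN_iff]
  intro f hf hn
  obtain ⟨n, h⟩ := h f hf hn
  refine ⟨n, fun m hm => le_antisymm ?_ (hf hm)⟩
  have := h m hm
  rwa [inf_top_eq, inf_top_eq, sup_bot_eq] at this

/-- Noetherian section modules -/
theorem K_acc_of_noe {Q E : Type} [Group Q] [AddCommGroup E] [DistribMulAction Q E] {p : G →* Q}
    (hp : Function.Surjective p) {X Y : Subgroup G} [Y.Normal] (s : SecMod p X Y E)
    (h : Helper294.HallC.Noe Q E) : K_acc X Y := by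
  intro f hf hn
  let g : ℕ → AddSubgroup E := fun n =>
    { carrier := {e | ∃ y : ↥Y, (y : G) ∈ f n ∧ s.π y = Multiplicative.ofAdd e}
      zero_mem' := ⟨1, (f n).one_mem, by rw [map_one]; rfl⟩
      add_mem' := by
        rintro a b ⟨y, hy, hya⟩ ⟨y', hy', hyb⟩
        exact ⟨y * y', (f n).mul_mem hy hy', by rw [map_mul, hya, hyb]; rfl⟩
      neg_mem' := by
        rintro a ⟨y, hy, hya⟩
        exact ⟨y⁻¹, (f n).inv_mem hy, by rw [map_inv, hya]; rfl⟩ }
  have hg : Monotone g := by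
    rintro i j hij e ⟨y, hy, hye⟩
    exact ⟨y, hf hij hy, hye⟩
  have hst : ∀ n, Helper294.HallC.Stb Q (g n) := by
    rintro n q e ⟨y, hy, hye⟩
    obtain ⟨x, rfl⟩ := hp q
    refine ⟨⟨x * y * x⁻¹, (inferInstance : Y.Normal).conj_mem _ y.2 x⟩, (hn n).conj_mem _ hy x, ?_⟩
    rw [s.act x y _ rfl, hye]
    rfl
  obtain ⟨n, hn'⟩ := h g hg hst
  refine ⟨n, fun m hm => ?_⟩
  rintro x ⟨hx1, hx2⟩
  have h1 : (s.π ⟨x, hx2⟩).toAdd ∈ g m := ⟨⟨x, hx2⟩, hx1, rfl⟩
  rw [hn' m hm] at h1
  obtain ⟨y, hy, hye⟩ := h1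
  have h2 : s.π (y⁻¹ * ⟨x, hx2⟩) = 1 := by
    rw [map_mul, map_inv, hye]
    exact inv_mul_cancel _
  rw [s.ker] at h2
  have h3 : x = y * ((y : G)⁻¹ * x) := by rw [mul_inv_cancel_left]
  rw [h3]
  exact Subgroup.mul_mem_sup ⟨hy, y.2⟩ h2

/-- finitely generated section modules -/
theorem K_fgm {Q E : Type} [Group Q] [AddCommGroup E] [DistribMulAction Q E] {p : G →* Q}
    {X Y : Subgroup G} [X.Normal] [Y.Normal] (s : SecMod p X Y E) (S : Finset G)
    (hS : (S : Set G) ⊆ Y) (hY : Y ≤ Subgroup.normalClosure (S : Set G) ⊔ X) (hXY : X ≤ Y) :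
    Helper294.HallC.FGM Q E := by
  classical
  let S' : Finset E := S.attach.image fun x => (s.π ⟨x.1, hS x.2⟩).toAdd
  refine ⟨S', ?_⟩
  set C := AddSubgroup.closure {a : E | ∃ g : Q, ∃ s ∈ S', a = g • s} with hC
  have hCst : ∀ (q : Q), ∀ e ∈ C, q • e ∈ C := by
    intro q e he
    induction he using AddSubgroup.closure_induction with
    | mem x hx =>
      obtain ⟨g, s, hs, rfl⟩ := hx
      exact AddSubgroup.subset_closure ⟨q * g, s, hs, by rw [mul_smul]⟩
    | zero => rw [smul_zero]; exact zero_mem _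
    | add x y _ _ hx hy => rw [smul_add]; exact add_mem hx hy
    | neg x _ hx => rw [smul_neg]; exact neg_mem hx
  let P : Subgroup G :=
    { carrier := {g | ∃ h : g ∈ Y, (s.π ⟨g, h⟩).toAdd ∈ C}
      one_mem' := ⟨Y.one_mem, by
        have : s.π ⟨1, Y.one_mem⟩ = 1 := map_one s.π
        rw [this]; exact C.zero_mem⟩
      mul_mem' := by
        rintro a b ⟨ha, ha'⟩ ⟨hb, hb'⟩
        refine ⟨Y.mul_mem ha hb, ?_⟩
        have : s.π ⟨a * b, Y.mul_mem ha hb⟩ = s.π ⟨a, ha⟩ * s.π ⟨b, hb⟩ :=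
          map_mul s.π ⟨a, ha⟩ ⟨b, hb⟩
        rw [this]; exact C.add_mem ha' hb'
      inv_mem' := by
        rintro a ⟨ha, ha'⟩
        refine ⟨Y.inv_mem ha, ?_⟩
        have : s.π ⟨a⁻¹, Y.inv_mem ha⟩ = (s.π ⟨a, ha⟩)⁻¹ := map_inv s.π ⟨a, ha⟩
        rw [this]; exact C.neg_mem ha' }
  have hPn : P.Normal := by
    constructor
    rintro a ⟨ha, ha'⟩ g
    refine ⟨(inferInstance : Y.Normal).conj_mem a ha g, ?_⟩
    rw [s.act g ⟨a, ha⟩ _ rfl]
    exact hCst _ _ ha'
  have hle : Y ≤ P := by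
    refine hY.trans (sup_le (Subgroup.normalClosure_le_normal ?_) ?_)
    · intro x hx
      refine ⟨hS hx, AddSubgroup.subset_closure ⟨1, (s.π ⟨x, hS hx⟩).toAdd, ?_, (one_smul _ _).symm⟩⟩
      exact Finset.mem_image_of_mem (fun x : {x // x ∈ S} => (s.π ⟨x.1, hS x.2⟩).toAdd)
        (Finset.mem_attach S ⟨x, hx⟩)
    · intro x hx
      refine ⟨hXY hx, ?_⟩
      rw [(s.ker ⟨x, hXY hx⟩).2 hx]
      exact C.zero_mem
  rw [eq_top_iff]
  intro e _
  obtain ⟨y, hy⟩ := s.surj (Multiplicative.ofAdd e)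
  obtain ⟨h1, h2⟩ := hle y.2
  have : (s.π ⟨(y : G), h1⟩).toAdd = e := by
    show (s.π y).toAdd = e
    rw [hy]; rfl
  rwa [this] at h2

/-- the lower central terms of a finitely generated group are normally finitely generated -/
theorem K_nfg [Group.FG G] (m : ℕ) : ∃ S : Finset G,
    Lw (⊤ : Subgroup G) m ⊤ = Subgroup.normalClosure (S : Set G) := by
  classical
  obtain ⟨A, hA⟩ := (Group.FG.out : (⊤ : Subgroup G).FG)
  induction m with
  | zero =>
    refine ⟨A, ?_⟩
    rw [Lw_zero, eq_comm, eq_top_iff, ← hA]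
    exact Subgroup.closure_le_normalClosure
  | succ m ih =>
    obtain ⟨B, hB⟩ := ih
    refine ⟨(B ×ˢ A).image fun ba => ⁅ba.1, ba.2⁆, ?_⟩
    rw [Lw_succ, hB]
    set K := Subgroup.normalClosure ((((B ×ˢ A).image fun ba => ⁅ba.1, ba.2⁆ : Finset G)) : Set G)
      with hK
    apply le_antisymm
    · -- central elements modulo `K`
      have hc : Subgroup.normalClosure (B : Set G) ≤
          (Subgroup.center (G ⧸ K)).comap (QuotientGroup.mk' K) := by
        apply Subgroup.normalClosure_le_normal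
        intro b hb
        rw [SetLike.mem_coe, Subgroup.mem_comap, Subgroup.mem_center_iff]
        intro g
        obtain ⟨g, rfl⟩ := QuotientGroup.mk'_surjective K g
        have : (⊤ : Subgroup G) ≤ (Subgroup.centralizer {QuotientGroup.mk' K b}).comap
            (QuotientGroup.mk' K) := by
          rw [← hA, Subgroup.closure_le]
          intro a ha
          rw [SetLike.mem_coe, Subgroup.mem_comap, Subgroup.mem_centralizer_singleton_iff]
          have h1 : ⁅b, a⁆ ∈ K := by
            apply Subgroup.subset_normalClosure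
            rw [Finset.coe_image]
            exact ⟨(b, a), Finset.mem_coe.2 (Finset.mk_mem_product hb ha), rfl⟩
          have h2 : QuotientGroup.mk' K ⁅b, a⁆ = 1 := (QuotientGroup.eq_one_iff _).2 h1
          rw [map_commutatorElement, commutatorElement_eq_one_iff_mul_comm] at h2
          exact h2.symm
        have h3 := this (Subgroup.mem_top g)
        rw [Subgroup.mem_comap, Subgroup.mem_centralizer_singleton_iff] at h3
        exact h3
      rw [Subgroup.commutator_le]
      intro x hx g _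
      have h1 := hc hx
      rw [Subgroup.mem_comap, Subgroup.mem_center_iff] at h1
      rw [← QuotientGroup.eq_one_iff, ← QuotientGroup.mk'_apply, map_commutatorElement,
        commutatorElement_eq_one_iff_mul_comm]
      exact (h1 _).symm
    · apply Subgroup.normalClosure_le_normal
      intro x hx
      rw [Finset.coe_image] at hx
      obtain ⟨⟨b, a⟩, hba, rfl⟩ := hx
      rw [Finset.mem_coe, Finset.mem_product] at hba
      exact Subgroup.commutator_mem_commutator (Subgroup.subset_normalClosure hba.1)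
        (Subgroup.mem_top _)

/-- three subgroups lemma modulo a normal subgroup -/
theorem K_three {N X R : Subgroup G} [R.Normal] (h : ⁅⁅X, N⁆, N⁆ ≤ R) : ⁅X, ⁅N, N⁆⁆ ≤ R := by
  have hmap : ∀ Y : Subgroup G, Y ≤ R → Y.map (QuotientGroup.mk' R) = ⊥ := by
    intro Y hY
    rw [eq_bot_iff]
    rintro _ ⟨x, hx, rfl⟩
    exact (QuotientGroup.eq_one_iff x).2 (hY hx)
  have h1 : ⁅⁅X.map (QuotientGroup.mk' R), N.map (QuotientGroup.mk' R)⁆,
      N.map (QuotientGroup.mk' R)⁆ = ⊥ := by
    rw [← Subgroup.map_commutator, ← Subgroup.map_commutator]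
    exact hmap _ h
  have h2 := Subgroup.commutator_commutator_eq_bot_of_rotate
    (H₁ := N.map (QuotientGroup.mk' R)) (H₂ := N.map (QuotientGroup.mk' R))
    (H₃ := X.map (QuotientGroup.mk' R)) (by rw [Subgroup.commutator_comm (N.map _) (X.map _)]; exact h1) h1
  rw [← Subgroup.map_commutator, Subgroup.commutator_comm, ← Subgroup.map_commutator] at h2
  intro x hx
  have h3 : QuotientGroup.mk' R x ∈ (⊥ : Subgroup (G ⧸ R)) := by
    rw [← h2]
    exact ⟨x, hx, rfl⟩
  exact (QuotientGroup.eq_one_iff x).1 h3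

/-- generation of the factors of the lower central series of `N` -/
theorem K_step (N : Subgroup G) [N.Normal] (r : ℕ) (t : Fin r → G)
    (ht : ∀ g : G, ∃ k : Fin r → ℤ, ∃ ν ∈ N, g = ν * (List.ofFn fun i => t i ^ k i).prod)
    (K : Finset (Fin r → ℤ))
    (hK : ∀ (y x : G) (k : Fin r → ℤ),
      ⁅y, (List.ofFn fun i => t i ^ k i).prod * x * ((List.ofFn fun i => t i ^ k i).prod)⁻¹⁆ ∈
        Subgroup.normalClosure {g : G | ∃ k' ∈ K, g =
          ⁅y, (List.ofFn fun i => t i ^ k' i).prod * x *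
            ((List.ofFn fun i => t i ^ k' i).prod)⁻¹⁆})
    (S₀ : Finset G) (hS₀ : (S₀ : Set G) ⊆ N)
    (hS₀' : N ≤ Subgroup.normalClosure (S₀ : Set G) ⊔ ⁅N, N⁆) (j : ℕ) :
    ∃ S : Finset G, (S : Set G) ⊆ Lw N j N ∧
      Lw N j N ≤ Subgroup.normalClosure (S : Set G) ⊔ Lw N (j + 1) N := by
  classical
  induction j with
  | zero => exact ⟨S₀, hS₀, by rw [Lw_succ]; exact hS₀'⟩
  | succ j ih =>
    obtain ⟨S, hS, hS'⟩ := ih
    let w : (Fin r → ℤ) → G := fun k => (List.ofFn fun i => t i ^ k i).prod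
    have hwN : ∀ k, ∀ x ∈ N, w k * x * (w k)⁻¹ ∈ N := fun k x hx =>
      (inferInstance : N.Normal).conj_mem x hx (w k)
    let S' : Finset G := ((S ×ˢ S₀) ×ˢ K).image fun a => ⁅a.1.1, w a.2 * a.1.2 * (w a.2)⁻¹⁆
    have hmem : ∀ y ∈ S, ∀ x ∈ S₀, ∀ k ∈ K, ⁅y, w k * x * (w k)⁻¹⁆ ∈ S' := by
      intro y hy x hx k hk
      exact Finset.mem_image_of_mem (fun a : (G × G) × (Fin r → ℤ) =>
        ⁅a.1.1, w a.2 * a.1.2 * (w a.2)⁻¹⁆)
        (Finset.mk_mem_product (Finset.mk_mem_product hy hx) hk)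
    refine ⟨S', ?_, ?_⟩
    · intro x hx
      rw [Finset.mem_coe, Finset.mem_image] at hx
      obtain ⟨⟨⟨y, x⟩, k⟩, ha, rfl⟩ := hx
      rw [Finset.mem_product, Finset.mem_product] at ha
      rw [Lw_succ]
      exact Subgroup.commutator_mem_commutator (hS ha.1.1) (hwN k x (hS₀ ha.1.2))
    · set R := Subgroup.normalClosure (S' : Set G) ⊔ Lw N (j + 2) N with hR
      have hRn : R.Normal := by rw [hR]; infer_instance
      have hR2 : Lw N (j + 2) N ≤ R := le_sup_right
      have hR1 : Subgroup.normalClosure (S' : Set G) ≤ R := le_sup_left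
      -- the subgroup of elements commuting with `y` modulo `R`
      have comm_iff : ∀ a b : G, ⁅a, b⁆ ∈ R ↔
          QuotientGroup.mk' R a * QuotientGroup.mk' R b =
            QuotientGroup.mk' R b * QuotientGroup.mk' R a := by
        intro a b
        rw [← commutatorElement_eq_one_iff_mul_comm, ← map_commutatorElement]
        exact (QuotientGroup.eq_one_iff _).symm
      have step1 : ∀ y ∈ S, ∀ x ∈ N, ⁅y, x⁆ ∈ R := by
        intro y hy
        let Cy : Subgroup G := (Subgroup.centralizer {QuotientGroup.mk' R y}).comap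
          (QuotientGroup.mk' R)
        have hCy : ∀ x, x ∈ Cy ↔ ⁅y, x⁆ ∈ R := by
          intro x
          rw [comm_iff]
          show x ∈ (Subgroup.centralizer {QuotientGroup.mk' R y}).comap (QuotientGroup.mk' R) ↔ _
          rw [Subgroup.mem_comap, Subgroup.mem_centralizer_singleton_iff]
          exact eq_comm
        have h1 : ⁅N, N⁆ ≤ Cy := by
          intro x hx
          rw [hCy]
          have h2 : ⁅Lw N j N, ⁅N, N⁆⁆ ≤ R := by
            apply K_three
            rw [← Lw_succ, ← Lw_succ]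
            exact hR2
          exact h2 (Subgroup.commutator_mem_commutator (hS hy) hx)
        have h2 : ∀ x ∈ S₀, ∀ k, w k * x * (w k)⁻¹ ∈ Cy := by
          intro x hx k
          rw [hCy]
          refine (Subgroup.normalClosure_mono ?_ |>.trans hR1) (hK y x k)
          rintro _ ⟨k', hk', rfl⟩
          exact hmem y hy x hx k' hk'
        have h3 : Subgroup.normalClosure (S₀ : Set G) ≤ Cy := by
          rw [Subgroup.normalClosure, Subgroup.closure_le]
          intro x hx
          rw [Group.mem_conjugatesOfSet_iff] at hx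
          obtain ⟨x₀, hx₀, hc⟩ := hx
          obtain ⟨g, hg⟩ := isConj_iff.1 hc
          obtain ⟨k, ν, hν, rfl⟩ := ht g
          have h4 : x = ⁅ν, w k * x₀ * (w k)⁻¹⁆ * (w k * x₀ * (w k)⁻¹) := by
            rw [← hg, commutatorElement_def]
            show ν * w k * x₀ * (ν * w k)⁻¹ = _
            group
          rw [h4]
          exact Cy.mul_mem (h1 (Subgroup.commutator_mem_commutator hν (hwN k _ (hS₀ hx₀))))
            (h2 x₀ hx₀ k)
        have h5 : N ≤ Cy := hS₀'.trans (sup_le h3 h1)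
        intro x hx
        exact (hCy x).1 (h5 hx)
      -- the subgroup of elements commuting with `N` modulo `R`
      let D : Subgroup G := (Subgroup.centralizer (N.map (QuotientGroup.mk' R) :
        Set (G ⧸ R))).comap (QuotientGroup.mk' R)
      have hNn : (N.map (QuotientGroup.mk' R)).Normal :=
        (inferInstance : N.Normal).map _ (QuotientGroup.mk'_surjective R)
      have hDn : D.Normal := Subgroup.Normal.comap inferInstance _
      have hD : ∀ y, y ∈ D ↔ ∀ x ∈ N, ⁅y, x⁆ ∈ R := by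
        intro y
        show y ∈ (Subgroup.centralizer (N.map (QuotientGroup.mk' R) :
          Set (G ⧸ R))).comap (QuotientGroup.mk' R) ↔ _
        rw [Subgroup.mem_comap, Subgroup.mem_centralizer_iff]
        constructor
        · intro h x hx
          rw [comm_iff]
          exact (h _ ⟨x, hx, rfl⟩).symm
        · rintro h _ ⟨x, hx, rfl⟩
          exact ((comm_iff _ _).1 (h x hx)).symm
      have h6 : Lw N j N ≤ D := by
        refine hS'.trans (sup_le (Subgroup.normalClosure_le_normal ?_) ?_)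
        · intro y hy
          rw [SetLike.mem_coe, hD]
          exact step1 y hy
        · intro y hy
          rw [hD]
          intro x hx
          apply hR2
          rw [Lw_succ N (j + 1)]
          exact Subgroup.commutator_mem_commutator hy hx
      rw [Lw_succ, Subgroup.commutator_le]
      intro y hy x hx
      exact (hD y).1 (h6 hy) x hx

end

theorem B2core (W : Set (FreeGroup ℕ)) (hH : ∀ n, QHopf (RF W n)) (G : Type) [Group G]
    [Group.FG G] (hG : InVar W G) (m c : ℕ)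
    (h : Lw (Lw (⊤ : Subgroup G) m ⊤) c (Lw (⊤ : Subgroup G) m ⊤) = ⊥) : MaxN G := by
  set N := Lw (⊤ : Subgroup G) m ⊤ with hN
  have hNn : N.Normal := by rw [hN]; infer_instance
  let p : G →* G ⧸ N := QuotientGroup.mk' N
  have hp : Function.Surjective p := QuotientGroup.mk'_surjective N
  have hker : p.ker = N := QuotientGroup.ker_mk' N
  have hfg : Group.FG (G ⧸ N) := QuotientGroup.fg _
  have hnil : Group.IsNilpotent (G ⧸ N) := by
    apply E_nilp m
    have h3 := map_Lw p (⊤ : Subgroup G) m ⊤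
    rw [Subgroup.map_top_of_surjective _ hp] at h3
    rw [← h3, eq_bot_iff]
    rintro _ ⟨x, hx, rfl⟩
    exact (QuotientGroup.eq_one_iff x).2 hx
  have hmaxc := nil_maxC (G ⧸ N)
  have hpc : Helper294.HallC.PC (G ⧸ N) :=
    ⟨(inferInstance : Group.IsSolvable (G ⧸ N)), hmaxc⟩
  obtain ⟨r, t', ht'⟩ := nil_bddGen (G ⧸ N)
  choose t ht using fun i => hp (t' i)
  have hgen : ∀ g : G, ∃ k : Fin r → ℤ, ∃ ν ∈ N, g = ν * (List.ofFn fun i => t i ^ k i).prod := by
    intro g
    obtain ⟨k, hk⟩ := ht' (p g)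
    refine ⟨k, g * ((List.ofFn fun i => t i ^ k i).prod)⁻¹, ?_, by group⟩
    rw [← hker, MonoidHom.mem_ker, map_mul, map_inv, map_list_prod, List.map_ofFn]
    have : (⇑p ∘ fun i => t i ^ k i) = fun i => t' i ^ k i := by
      ext i; simp [ht]
    rw [this, ← hk, mul_inv_cancel]
  obtain ⟨K, hK⟩ := multi_hopf W r (hH (2 + r))
  obtain ⟨S₀, hS₀⟩ := K_nfg (G := G) m
  have hS₀N : (S₀ : Set G) ⊆ N := by
    rw [hN, hS₀]; exact Subgroup.subset_normalClosure
  have hgenj := K_step N r t hgen K (fun y x k => hK G hG y x t k) S₀ hS₀N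
    (by rw [← hS₀]; exact le_sup_left)
  -- the chain condition on all the sections
  have hacc : ∀ j, K_acc (Lw N (j + 1) N) (Lw N j N) := by
    intro j
    obtain ⟨E, _, _, ⟨s⟩⟩ := exists_secMod p hp (Lw N (j + 1) N) (Lw N j N)
      (by rw [Lw_succ]; exact Subgroup.commutator_mono le_rfl (Lw_le N N j))
      (by rw [Lw_succ, hker])
    obtain ⟨S, hS1, hS2⟩ := hgenj j
    exact K_acc_of_noe hp s (Helper294.HallC.noe_of_fg hpc
      (K_fgm s S hS1 hS2 (Lw_succ_le N j N)))
  have hacc2 : ∀ j, K_acc (Lw N j N) N := by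
    intro j
    induction j with
    | zero =>
      intro f hf hn
      exact ⟨0, fun m _ => inf_le_right.trans le_sup_right⟩
    | succ j ih => exact K_acc_trans (Lw_le N N j) (hacc j) ih
  have hacc3 : K_acc N (⊤ : Subgroup G) := by
    intro f hf hn
    have hwf := Helper294.HallC.MaxC.wf hmaxc
    rw [wellFoundedGT_iff_monotone_chain_condition] at hwf
    obtain ⟨n, hn'⟩ := hwf ⟨fun i => (f i).map p, fun i j hij => Subgroup.map_mono (hf hij)⟩
    refine ⟨n, fun m hm => ?_⟩
    rw [inf_top_eq, inf_top_eq, ← hker, ← Subgroup.comap_map_eq]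
    have h1 : (f n).map p = (f m).map p := hn' m hm
    rw [h1]
    exact Subgroup.le_comap_map _ _
  have h4 := hacc2 c
  rw [h] at h4
  exact K_maxN_of_acc (K_acc_trans le_top h4 hacc3)

theorem maxN_of_finiteIndex {G : Type} [Group G] (H : Subgroup G) [H.Normal] [H.FiniteIndex]
    (h : MaxN H) : MaxN G := by
  rw [K_maxN_iff] at h ⊢
  intro f hf hn
  obtain ⟨n₁, h₁⟩ := h (fun n => (f n).subgroupOf H)
    (fun i j hij => Subgroup.comap_mono (hf hij)) (fun n => (hn n).subgroupOf H)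
  have : Finite (G ⧸ H) := Subgroup.finite_quotient_of_finiteIndex
  have hwf : WellFoundedGT (Subgroup (G ⧸ H)) := inferInstance
  rw [wellFoundedGT_iff_monotone_chain_condition] at hwf
  obtain ⟨n₂, h₂⟩ := hwf ⟨fun i => (f i).map (QuotientGroup.mk' H),
    fun i j hij => Subgroup.map_mono (hf hij)⟩
  refine ⟨max n₁ n₂, fun m hm => le_antisymm ?_ (hf hm)⟩
  intro x hx
  have e2 : (f (max n₁ n₂)).map (QuotientGroup.mk' H) = (f m).map (QuotientGroup.mk' H) :=
    (h₂ _ (le_max_right _ _)).symm.trans (h₂ m (le_trans (le_max_right _ _) hm))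
  have h3 : QuotientGroup.mk' H x ∈ (f (max n₁ n₂)).map (QuotientGroup.mk' H) := by
    rw [e2]; exact ⟨x, hx, rfl⟩
  obtain ⟨y, hy, hyx⟩ := h3
  have h4 : y⁻¹ * x ∈ H := by
    rw [← QuotientGroup.eq]
    exact hyx
  have h5 : (⟨y⁻¹ * x, h4⟩ : ↥H) ∈ (f m).subgroupOf H := by
    rw [Subgroup.mem_subgroupOf]
    exact (f m).mul_mem ((f m).inv_mem (hf hm hy)) hx
  have e1 : (f m).subgroupOf H = (f (max n₁ n₂)).subgroupOf H :=
    (h₁ m (le_trans (le_max_left _ _) hm)).trans (h₁ _ (le_max_left _ _)).symm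
  rw [e1, Subgroup.mem_subgroupOf] at h5
  have h6 := (f (max n₁ n₂)).mul_mem hy h5
  rwa [mul_inv_cancel_left] at h6

theorem lemmaB2 (W : Set (FreeGroup ℕ))
    (hH : ∀ n, QHopf (RF W n)) (G : Type) [Group G] [Group.FG G] (hG : InVar W G)
    (hvn : VN G) : MaxN G := by
  obtain ⟨G₁, h1, h2, m, c, h3⟩ := hvn
  have hfg : Group.FG ↥G₁ := Subgroup.fg_of_index_ne_zero G₁
  have hvar : InVar W ↥G₁ := by
    intro w hw f
    have h4 := hG w hw (fun i => (f i : G))
    apply Subtype.ext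
    rw [Subgroup.coe_one, ← h4]
    have : (G₁.subtype).comp (FreeGroup.lift f) = FreeGroup.lift (fun i => (f i : G)) := by
      ext i; simp
    exact congrArg (fun φ => φ w) this
  refine maxN_of_finiteIndex G₁ (B2core W hH ↥G₁ hvar m c ?_)
  apply Subgroup.map_injective G₁.subtype_injective
  rw [map_Lw, E_map_mk, Subgroup.map_bot, h3]

end Pool.Agent.H53R2
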