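import Pool.Agent.H53R2.Defs

set_option autoImplicit false

namespace Pool.Agent.H53R2

open scoped commutatorElement

/-! ### T13 : varieties -/

theorem InVar.of_surjective {W : Set (FreeGroup ℕ)} {G H : Type} [Group G] [Group H]
    (hG : InVar W G) (f : G →* H) (hf : Function.Surjective f) : InVar W H := by
  intro w hw g
  choose s hs using hf
  have h1 := hG w hw (fun n => s (g n))
  have h2 : FreeGroup.lift g = f.comp (FreeGroup.lift (fun n => s (g n))) := by
    apply FreeGroup.ext_hom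
    intro a
    simp [hs]
  rw [h2, MonoidHom.comp_apply, h1, map_one]

theorem InVar.of_injective {W : Set (FreeGroup ℕ)} {G H : Type} [Group G] [Group H]
    (hG : InVar W G) (f : H →* G) (hf : Function.Injective f) : InVar W H := by
  intro w hw g
  apply hf
  have h1 := hG w hw (fun n => f (g n))
  have h2 : FreeGroup.lift (fun n => f (g n)) = f.comp (FreeGroup.lift g) := by
    apply FreeGroup.ext_hom
    intro a
    simp
  rw [map_one, ← h1, h2, MonoidHom.comp_apply]

theorem InVar.quot {W : Set (FreeGroup ℕ)} {G : Type} [Group G] (hG : InVar W G)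
    (N : Subgroup G) [N.Normal] : InVar W (G ⧸ N) :=
  hG.of_surjective (QuotientGroup.mk' N) (QuotientGroup.mk'_surjective N)

theorem InVar.subgroup {W : Set (FreeGroup ℕ)} {G : Type} [Group G] (hG : InVar W G)
    (H : Subgroup G) : InVar W ↥H :=
  hG.of_injective H.subtype H.subtype_injective

/-- the relatively free group of rank `n` -/
def verb (W : Set (FreeGroup ℕ)) (n : ℕ) : Subgroup (FreeGroup (Fin n)) :=
  Subgroup.normalClosure {x | ∃ w ∈ W, ∃ f : ℕ → FreeGroup (Fin n), x = FreeGroup.lift f w}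

instance (W : Set (FreeGroup ℕ)) (n : ℕ) : (verb W n).Normal := Subgroup.normalClosure_normal

abbrev RF (W : Set (FreeGroup ℕ)) (n : ℕ) : Type := FreeGroup (Fin n) ⧸ verb W n

theorem RF_inVar (W : Set (FreeGroup ℕ)) (n : ℕ) : InVar W (RF W n) := by
  intro w hw g
  have hs := QuotientGroup.mk'_surjective (verb W n)
  choose s hs using hs
  have h2 : FreeGroup.lift g =
      (QuotientGroup.mk' (verb W n)).comp (FreeGroup.lift (fun k => s (g k))) := by
    apply FreeGroup.ext_hom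
    intro a
    rw [MonoidHom.comp_apply, FreeGroup.lift_apply_of, FreeGroup.lift_apply_of, hs]
  rw [h2, MonoidHom.comp_apply, QuotientGroup.mk'_apply, QuotientGroup.eq_one_iff]
  exact Subgroup.subset_normalClosure ⟨w, hw, _, rfl⟩

theorem verb_le_ker {W : Set (FreeGroup ℕ)} {n : ℕ} {G : Type} [Group G] (hG : InVar W G)
    (f : Fin n → G) : verb W n ≤ (FreeGroup.lift f).ker := by
  apply Subgroup.normalClosure_le_normal
  rintro x ⟨w, hw, g, rfl⟩
  have h2 : FreeGroup.lift (fun k => FreeGroup.lift f (g k)) =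
      (FreeGroup.lift f).comp (FreeGroup.lift g) := by
    apply FreeGroup.ext_hom
    intro a
    simp
  rw [SetLike.mem_coe, MonoidHom.mem_ker, ← MonoidHom.comp_apply, ← h2]
  exact hG w hw _

/-- universal property -/
noncomputable def RF.lift {W : Set (FreeGroup ℕ)} {n : ℕ} {G : Type} [Group G] (hG : InVar W G)
    (f : Fin n → G) : RF W n →* G :=
  QuotientGroup.lift (verb W n) (FreeGroup.lift f) (fun _ hx => verb_le_ker hG f hx)

theorem RF.lift_mk {W : Set (FreeGroup ℕ)} {n : ℕ} {G : Type} [Group G] (hG : InVar W G)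
    (f : Fin n → G) (x : FreeGroup (Fin n)) :
    RF.lift hG f (QuotientGroup.mk' (verb W n) x) = FreeGroup.lift f x := rfl

/-- the generators of the relatively free group -/
def RF.gen (W : Set (FreeGroup ℕ)) {n : ℕ} (i : Fin n) : RF W n :=
  QuotientGroup.mk' (verb W n) (FreeGroup.of i)

theorem RF.lift_gen {W : Set (FreeGroup ℕ)} {n : ℕ} {G : Type} [Group G] (hG : InVar W G)
    (f : Fin n → G) (i : Fin n) : RF.lift hG f (RF.gen W i) = f i := by
  rw [RF.gen, RF.lift_mk, FreeGroup.lift_apply_of]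

theorem RF.hom_ext {W : Set (FreeGroup ℕ)} {n : ℕ} {G : Type} [Group G] {f g : RF W n →* G}
    (h : ∀ i, f (RF.gen W i) = g (RF.gen W i)) : f = g := by
  apply QuotientGroup.monoidHom_ext
  apply FreeGroup.ext_hom
  intro i
  exact h i

/-- automorphisms of relatively free groups from pairs of inverse substitutions -/
noncomputable def RF.aut {W : Set (FreeGroup ℕ)} {n : ℕ} (f g : Fin n → RF W n)
    (hfg : ∀ i, RF.lift (RF_inVar W n) f (g i) = RF.gen W i)
    (hgf : ∀ i, RF.lift (RF_inVar W n) g (f i) = RF.gen W i) : MulAut (RF W n) :=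
  MonoidHom.toMulEquiv (RF.lift (RF_inVar W n) f) (RF.lift (RF_inVar W n) g)
    (by
      apply RF.hom_ext
      intro i
      rw [MonoidHom.comp_apply, RF.lift_gen, hgf, MonoidHom.id_apply])
    (by
      apply RF.hom_ext
      intro i
      rw [MonoidHom.comp_apply, RF.lift_gen, hfg, MonoidHom.id_apply])

theorem RF.aut_gen {W : Set (FreeGroup ℕ)} {n : ℕ} (f g : Fin n → RF W n)
    (hfg : ∀ i, RF.lift (RF_inVar W n) f (g i) = RF.gen W i)
    (hgf : ∀ i, RF.lift (RF_inVar W n) g (f i) = RF.gen W i) (i : Fin n) :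
    RF.aut f g hfg hgf (RF.gen W i) = f i :=
  RF.lift_gen (RF_inVar W n) f i

/-- `G` and all its quotients are Hopfian. -/
def QHopf (P : Type) [Group P] : Prop :=
  ∀ (N : Subgroup P) [N.Normal] (φ : P ⧸ N →* P ⧸ N), Function.Surjective φ → Function.Injective φ

theorem map_normalClosure_aut {P : Type} [Group P] (α : MulAut P) (S : Set P) :
    (Subgroup.normalClosure S).map (α : P ≃* P).toMonoidHom =
      Subgroup.normalClosure ((fun x => α x) '' S) := by
  rw [Subgroup.map_normalClosure S _ (α : P ≃* P).surjective]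
  rfl

theorem hopf_auto {P : Type} [Group P] (hH : QHopf P) (α : MulAut P) (ρ : P) :
    ρ ∈ Subgroup.normalClosure {x : P | ∃ k : ℕ, x = (α ^ (-((k : ℤ) + 1))) ρ} := by
  set D : Subgroup P := Subgroup.normalClosure {x : P | ∃ k : ℕ, x = (α ^ (-(k : ℤ))) ρ} with hD
  have hmap : D.map ((α⁻¹ : MulAut P) : P ≃* P).toMonoidHom =
      Subgroup.normalClosure {x : P | ∃ k : ℕ, x = (α ^ (-((k : ℤ) + 1))) ρ} := by
    rw [hD, map_normalClosure_aut]
    congr 1
    ext x
    constructor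
    · rintro ⟨_, ⟨k, rfl⟩, rfl⟩
      refine ⟨k, ?_⟩
      have : -((k : ℤ) + 1) = -1 + -(k : ℤ) := by ring
      rw [this, zpow_add, MulAut.mul_apply, zpow_neg_one]
    · rintro ⟨k, rfl⟩
      refine ⟨_, ⟨k, rfl⟩, ?_⟩
      have : -((k : ℤ) + 1) = -1 + -(k : ℤ) := by ring
      rw [this, zpow_add, MulAut.mul_apply, zpow_neg_one]
  have hle : D.map ((α⁻¹ : MulAut P) : P ≃* P).toMonoidHom ≤ D := by
    rw [hmap]
    apply Subgroup.normalClosure_mono
    rintro x ⟨k, rfl⟩
    exact ⟨k + 1, by push_cast; rfl⟩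
  have : D.Normal := Subgroup.normalClosure_normal
  have hinj := hH D (QuotientGroup.map D D ((α⁻¹ : MulAut P) : P ≃* P).toMonoidHom
    (Subgroup.map_le_iff_le_comap.mp hle)) (by
      intro y
      obtain ⟨y, rfl⟩ := QuotientGroup.mk'_surjective D y
      refine ⟨QuotientGroup.mk' D (α y), ?_⟩
      change QuotientGroup.mk' D (α⁻¹ (α y)) = QuotientGroup.mk' D y
      rw [MulAut.inv_apply_self])
  have h1 : QuotientGroup.mk' D (α ρ) = 1 := by
    apply hinj
    rw [map_one]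
    change QuotientGroup.mk' D (α⁻¹ (α ρ)) = 1
    rw [MulAut.inv_apply_self, QuotientGroup.mk'_apply, QuotientGroup.eq_one_iff]
    exact Subgroup.subset_normalClosure ⟨0, by simp⟩
  rw [QuotientGroup.mk'_apply, QuotientGroup.eq_one_iff] at h1
  rw [← hmap]
  exact ⟨α ρ, h1, MulAut.inv_apply_self _ _ _⟩

theorem mem_normalClosure_finite {P : Type} [Group P] (S : Set P) (x : P)
    (hx : x ∈ Subgroup.normalClosure S) :
    ∃ F : Finset P, (F : Set P) ⊆ S ∧ x ∈ Subgroup.normalClosure (F : Set P) := by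
  classical
  refine Subgroup.closure_induction (p := fun x _ => ∃ F : Finset P, (F : Set P) ⊆ S ∧
    x ∈ Subgroup.normalClosure (F : Set P)) ?_ ?_ ?_ ?_ hx
  · intro y hy
    rw [Group.mem_conjugatesOfSet_iff] at hy
    obtain ⟨a, ha, hay⟩ := hy
    refine ⟨{a}, by simpa using ha, ?_⟩
    rw [isConj_iff] at hay
    obtain ⟨c, rfl⟩ := hay
    exact Subgroup.normalClosure_normal.conj_mem _
      (Subgroup.subset_normalClosure (by simp)) c
  · exact ⟨∅, by simp, Subgroup.one_mem _⟩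
  · rintro y z _ _ ⟨F, hF, hy⟩ ⟨F', hF', hz⟩
    refine ⟨F ∪ F', by simp [hF, hF'], ?_⟩
    refine Subgroup.mul_mem _ (Subgroup.normalClosure_mono ?_ hy)
      (Subgroup.normalClosure_mono ?_ hz) <;> simp
  · rintro y _ ⟨F, hF, hy⟩
    exact ⟨F, hF, Subgroup.inv_mem _ hy⟩

/-- a single orbit under an automorphism -/
theorem hopf_orbit_one {P : Type} [Group P] (hH : QHopf P) (α : MulAut P) (ρ : P) :
    ∃ R : Finset P, (∀ x ∈ R, ∃ k : ℤ, x = (α ^ k) ρ) ∧
      ∀ k : ℤ, (α ^ k) ρ ∈ Subgroup.normalClosure (R : Set P) := by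
  classical
  obtain ⟨F₁, hF₁, h1⟩ := mem_normalClosure_finite _ _ (hopf_auto hH α ρ)
  obtain ⟨F₂, hF₂, h2⟩ := mem_normalClosure_finite _ _ (hopf_auto hH α⁻¹ ρ)
  have hb1 : ∃ K : ℕ, ∀ x ∈ F₁, ∃ k : ℕ, k < K ∧ x = (α ^ (-((k : ℤ) + 1))) ρ := by
    have : ∀ x ∈ F₁, ∃ k : ℕ, x = (α ^ (-((k : ℤ) + 1))) ρ := fun x hx => hF₁ hx
    choose! f hf using this
    refine ⟨F₁.sup f + 1, fun x hx => ⟨f x, ?_, hf x hx⟩⟩
    exact Nat.lt_succ_of_le (Finset.le_sup hx)
  have hb2 : ∃ K : ℕ, ∀ x ∈ F₂, ∃ k : ℕ, k < K ∧ x = (α⁻¹ ^ (-((k : ℤ) + 1))) ρ := by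
    have : ∀ x ∈ F₂, ∃ k : ℕ, x = (α⁻¹ ^ (-((k : ℤ) + 1))) ρ := fun x hx => hF₂ hx
    choose! f hf using this
    refine ⟨F₂.sup f + 1, fun x hx => ⟨f x, ?_, hf x hx⟩⟩
    exact Nat.lt_succ_of_le (Finset.le_sup hx)
  obtain ⟨K₁, hK₁⟩ := hb1
  obtain ⟨K₂, hK₂⟩ := hb2
  set K : ℕ := max K₁ K₂ with hK
  set R : Finset P := (Finset.range (K + 1)).image (fun k : ℕ => (α ^ (-(k : ℤ))) ρ) with hR
  set M : Subgroup P := Subgroup.normalClosure (R : Set P) with hM
  have hmem : ∀ k : ℕ, k ≤ K → (α ^ (-(k : ℤ))) ρ ∈ M := by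
    intro k hk
    apply Subgroup.subset_normalClosure
    rw [hR, Finset.coe_image]
    exact ⟨k, by simp; omega, rfl⟩
  -- `α ρ ∈ M`
  have hup : α ρ ∈ M := by
    have h3 : α ρ ∈ (Subgroup.normalClosure (F₁ : Set P)).map (α : P ≃* P).toMonoidHom :=
      ⟨ρ, h1, rfl⟩
    rw [map_normalClosure_aut] at h3
    refine (Subgroup.normalClosure_le_normal ?_) h3
    rintro _ ⟨x, hx, rfl⟩
    obtain ⟨k, hk, rfl⟩ := hK₁ x hx
    have : α ((α ^ (-((k : ℤ) + 1))) ρ) = (α ^ (-(k : ℤ))) ρ := by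
      have h4 : -(k : ℤ) = 1 + -((k : ℤ) + 1) := by ring
      rw [h4, zpow_add, MulAut.mul_apply, zpow_one]
    change α ((α ^ (-((k : ℤ) + 1))) ρ) ∈ M
    rw [this]
    exact hmem k (by omega)
  -- `α^(-K-1) ρ ∈ M`
  have hdown : (α ^ (-((K : ℤ) + 1))) ρ ∈ M := by
    have h3 : (α ^ (-((K : ℤ) + 1))) ρ ∈ (Subgroup.normalClosure (F₂ : Set P)).map
        ((α ^ (-((K : ℤ) + 1)) : MulAut P) : P ≃* P).toMonoidHom :=
      ⟨ρ, h2, rfl⟩
    rw [map_normalClosure_aut] at h3
    refine (Subgroup.normalClosure_le_normal ?_) h3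
    rintro _ ⟨x, hx, rfl⟩
    obtain ⟨k, hk, rfl⟩ := hK₂ x hx
    have : (α ^ (-((K : ℤ) + 1))) ((α⁻¹ ^ (-((k : ℤ) + 1))) ρ) =
        (α ^ (-((K - k : ℕ) : ℤ))) ρ := by
      have h4 : -((K - k : ℕ) : ℤ) = -((K : ℤ) + 1) + ((k : ℤ) + 1) := by
        rw [Nat.cast_sub (by omega)]; ring
      rw [h4, zpow_add, MulAut.mul_apply, inv_zpow', neg_neg]
    change (α ^ (-((K : ℤ) + 1))) ((α⁻¹ ^ (-((k : ℤ) + 1))) ρ) ∈ M
    rw [this]
    exact hmem (K - k) (by omega)
  have : M.Normal := Subgroup.normalClosure_normal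
  have hαM : M.map (α : P ≃* P).toMonoidHom ≤ M := by
    rw [hM, map_normalClosure_aut]
    apply Subgroup.normalClosure_le_normal
    rintro _ ⟨x, hx, rfl⟩
    rw [hR, Finset.coe_image] at hx
    obtain ⟨k, hk, rfl⟩ := hx
    rw [SetLike.mem_coe]
    rcases Nat.eq_zero_or_pos k with h0 | h0
    · subst h0; simpa using hup
    · have : α ((α ^ (-(k : ℤ))) ρ) = (α ^ (-((k - 1 : ℕ) : ℤ))) ρ := by
        have h4 : -((k - 1 : ℕ) : ℤ) = 1 + -(k : ℤ) := by
          rw [Nat.cast_sub (by omega)]; push_cast; ring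
        rw [h4, zpow_add, MulAut.mul_apply, zpow_one]
      change α ((α ^ (-(k : ℤ))) ρ) ∈ M
      rw [this]
      refine hmem (k - 1) ?_
      simp at hk
      omega
  have hαM' : M.map ((α⁻¹ : MulAut P) : P ≃* P).toMonoidHom ≤ M := by
    conv_lhs => rw [hM]
    rw [map_normalClosure_aut]
    apply Subgroup.normalClosure_le_normal
    rintro _ ⟨x, hx, rfl⟩
    rw [hR, Finset.coe_image] at hx
    obtain ⟨k, hk, rfl⟩ := hx
    rw [SetLike.mem_coe]
    have : α⁻¹ ((α ^ (-(k : ℤ))) ρ) = (α ^ (-((k + 1 : ℕ) : ℤ))) ρ := by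
      have h4 : -((k + 1 : ℕ) : ℤ) = -1 + -(k : ℤ) := by
        push_cast; ring
      rw [h4, zpow_add, MulAut.mul_apply, zpow_neg_one]
    change α⁻¹ ((α ^ (-(k : ℤ))) ρ) ∈ M
    rw [this]
    simp at hk
    rcases Nat.lt_or_ge k K with h0 | h0
    · exact hmem (k + 1) (by omega)
    · have : k = K := by omega
      subst this
      push_cast
      exact hdown
  refine ⟨R, ?_, ?_⟩
  · intro x hx
    rw [hR, Finset.mem_image] at hx
    obtain ⟨k, _, rfl⟩ := hx
    exact ⟨_, rfl⟩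
  · have hρ : ρ ∈ M := by simpa using hmem 0 (by omega)
    have hpos : ∀ k : ℕ, (α ^ (k : ℤ)) ρ ∈ M := by
      intro k
      induction k with
      | zero => simpa using hρ
      | succ k ih =>
        have : (α ^ ((k + 1 : ℕ) : ℤ)) ρ = α ((α ^ (k : ℤ)) ρ) := by
          have h4 : ((k + 1 : ℕ) : ℤ) = 1 + (k : ℤ) := by
            push_cast; ring
          rw [h4, zpow_add, MulAut.mul_apply, zpow_one]
        rw [this]
        exact hαM ⟨_, ih, rfl⟩
    have hneg : ∀ k : ℕ, (α ^ (-(k : ℤ))) ρ ∈ M := by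
      intro k
      induction k with
      | zero => simpa using hρ
      | succ k ih =>
        have : (α ^ (-((k + 1 : ℕ) : ℤ))) ρ = α⁻¹ ((α ^ (-(k : ℤ))) ρ) := by
          have h4 : -((k + 1 : ℕ) : ℤ) = -1 + -(k : ℤ) := by
            push_cast; ring
          rw [h4, zpow_add, MulAut.mul_apply, zpow_neg_one]
        rw [this]
        exact hαM' ⟨_, ih, rfl⟩
    intro k
    rcases Int.le_total 0 k with h0 | h0
    · lift k to ℕ using h0
      exact hpos k
    · obtain ⟨j, hj⟩ := Int.eq_ofNat_of_zero_le (neg_nonneg.mpr h0)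
      have : k = -(j : ℤ) := by omega
      rw [this]
      exact hneg j

/-- orbits of finite sets under an automorphism have finitely generated normal closure -/
theorem hopf_orbit {P : Type} [Group P] (hH : QHopf P) (α : MulAut P) (R : Finset P) :
    ∃ R' : Finset P, Subgroup.normalClosure (R' : Set P) =
      Subgroup.normalClosure {x : P | ∃ k : ℤ, ∃ ρ ∈ R, x = (α ^ k) ρ} := by
  classical
  choose F hF1 hF2 using fun ρ => hopf_orbit_one hH α ρ
  refine ⟨R.biUnion F, le_antisymm ?_ ?_⟩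
  · apply Subgroup.normalClosure_mono
    intro x hx
    rw [Finset.mem_coe, Finset.mem_biUnion] at hx
    obtain ⟨ρ, hρ, hx⟩ := hx
    obtain ⟨k, hk⟩ := hF1 ρ x hx
    exact ⟨k, ρ, hρ, hk⟩
  · apply Subgroup.normalClosure_le_normal
    rintro x ⟨k, ρ, hρ, rfl⟩
    refine Subgroup.normalClosure_mono ?_ (hF2 ρ k)
    intro y hy
    rw [Finset.mem_coe, Finset.mem_biUnion]
    exact ⟨ρ, hρ, hy⟩

/-- elements of a normal closure as products of conjugates -/
theorem mem_normalClosure_prod {P : Type} [Group P] (S : Set P) (x : P)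
    (hx : x ∈ Subgroup.normalClosure S) :
    ∃ (n : ℕ) (g s : Fin n → P) (e : Fin n → ℤ), (∀ k, s k ∈ S) ∧
      x = (List.ofFn fun k => g k * s k ^ e k * (g k)⁻¹).prod := by
  refine Subgroup.closure_induction (p := fun x _ => ∃ (n : ℕ) (g s : Fin n → P) (e : Fin n → ℤ),
    (∀ k, s k ∈ S) ∧ x = (List.ofFn fun k => g k * s k ^ e k * (g k)⁻¹).prod) ?_ ?_ ?_ ?_ hx
  · intro y hy
    rw [Group.mem_conjugatesOfSet_iff] at hy
    obtain ⟨a, ha, hay⟩ := hy
    rw [isConj_iff] at hay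
    obtain ⟨c, rfl⟩ := hay
    exact ⟨1, fun _ => c, fun _ => a, fun _ => 1, fun _ => ha, by simp⟩
  · exact ⟨0, Fin.elim0, Fin.elim0, Fin.elim0, fun k => k.elim0, by simp⟩
  · rintro y z _ _ ⟨n, g, s, e, hs, rfl⟩ ⟨n', g', s', e', hs', rfl⟩
    refine ⟨n + n', Fin.append g g', Fin.append s s', Fin.append e e', ?_, ?_⟩
    · intro k
      refine Fin.addCases (fun i => ?_) (fun i => ?_) k
      · rw [Fin.append_left]; exact hs i
      · rw [Fin.append_right]; exact hs' i
    · rw [List.ofFn_add, List.prod_append]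
      simp
  · rintro y hy ⟨n, g, s, e, hs, rfl⟩
    refine ⟨n, fun k => g (Fin.rev k), fun k => s (Fin.rev k), fun k => - e (Fin.rev k),
      fun k => hs _, ?_⟩
    clear hs hy
    induction n with
    | zero => simp
    | succ n ih =>
      rw [List.ofFn_succ, List.prod_cons, mul_inv_rev, ih, List.ofFn_succ', List.concat_eq_append,
        List.prod_append]
      congr 1
      · simp [Fin.rev_castSucc]
      · simp [mul_assoc]

theorem zpow_fixed {P : Type} [Group P] (α : MulAut P) (t : P) (h : α t = t) (j : ℤ) :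
    (α ^ j) t = t := by
  induction j using Int.induction_on with
  | zero => rw [zpow_zero, MulAut.one_apply]
  | succ i ih => rw [zpow_add, zpow_one, MulAut.mul_apply, h, ih]
  | pred i ih =>
    rw [sub_eq_add_neg, zpow_add, zpow_neg_one, MulAut.mul_apply]
    have : α⁻¹ t = t := by
      conv_lhs => rw [← h]
      rw [MulAut.inv_apply_self]
    rw [this, ih]

theorem zpow_conj {P : Type} [Group P] (α : MulAut P) (t m : P) (ht : α t = t)
    (hm : α m = t * m * t⁻¹) (j : ℤ) : (α ^ j) m = t ^ j * m * t ^ (-j) := by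
  induction j using Int.induction_on with
  | zero => simp
  | succ i ih =>
    rw [zpow_add, zpow_one, MulAut.mul_apply, hm, map_mul, map_mul, map_inv, ih,
      zpow_fixed α t ht]
    group
  | pred i ih =>
    rw [sub_eq_add_neg, zpow_add, zpow_neg_one, MulAut.mul_apply]
    have : α⁻¹ m = t⁻¹ * m * t := by
      have h1 : α (t⁻¹ * m * t) = m := by
        rw [map_mul, map_mul, map_inv, ht, hm]; group
      rw [← h1, MulAut.inv_apply_self, h1]
    rw [this, map_mul, map_mul, map_inv, ih, zpow_fixed α t ht]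
    group

theorem exists_UI (W : Set (FreeGroup ℕ)) (hH : QHopf (RF W 3)) :
    ∃ u : UI, ∀ (G : Type) [Group G], InVar W G → u.Grp G := by
  set b : RF W 3 := RF.gen W 0 with hb
  set m : RF W 3 := RF.gen W 1 with hm
  set t : RF W 3 := RF.gen W 2 with ht
  have e1 : ∀ i : Fin 3, RF.lift (RF_inVar W 3) ![b, t * m * t⁻¹, t]
      ((![b, t⁻¹ * m * t, t] : Fin 3 → RF W 3) i) = RF.gen W i := by
    have g0 := RF.lift_gen (RF_inVar W 3) ![b, t * m * t⁻¹, t] 0
    have g1 := RF.lift_gen (RF_inVar W 3) ![b, t * m * t⁻¹, t] 1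
    have g2 := RF.lift_gen (RF_inVar W 3) ![b, t * m * t⁻¹, t] 2
    rw [← hb] at g0
    rw [← hm] at g1
    rw [← ht] at g2
    intro i
    fin_cases i
    · exact g0
    · change RF.lift (RF_inVar W 3) ![b, t * m * t⁻¹, t] (t⁻¹ * m * t) = m
      rw [map_mul, map_mul, map_inv, g1, g2]
      change t⁻¹ * (t * m * t⁻¹) * t = m
      group
    · exact g2
  have e2 : ∀ i : Fin 3, RF.lift (RF_inVar W 3) ![b, t⁻¹ * m * t, t]
      ((![b, t * m * t⁻¹, t] : Fin 3 → RF W 3) i) = RF.gen W i := by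
    have g0 := RF.lift_gen (RF_inVar W 3) ![b, t⁻¹ * m * t, t] 0
    have g1 := RF.lift_gen (RF_inVar W 3) ![b, t⁻¹ * m * t, t] 1
    have g2 := RF.lift_gen (RF_inVar W 3) ![b, t⁻¹ * m * t, t] 2
    rw [← hb] at g0
    rw [← hm] at g1
    rw [← ht] at g2
    intro i
    fin_cases i
    · exact g0
    · change RF.lift (RF_inVar W 3) ![b, t⁻¹ * m * t, t] (t * m * t⁻¹) = m
      rw [map_mul, map_mul, map_inv, g1, g2]
      change t * (t⁻¹ * m * t) * t⁻¹ = m
      group
    · exact g2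
  set α : MulAut (RF W 3) := RF.aut _ _ e1 e2 with hα
  have hαb : α b = b := RF.aut_gen _ _ e1 e2 0
  have hαm : α m = t * m * t⁻¹ := RF.aut_gen _ _ e1 e2 1
  have hαt : α t = t := RF.aut_gen _ _ e1 e2 2
  obtain ⟨n, g, s, e, hs, hx⟩ := mem_normalClosure_prod _ _ (hopf_auto hH α ⁅b, m⁆)
  choose kk hkk using hs
  have hs' : ∀ i, s i = ⁅b, t ^ (-((kk i : ℤ) + 1)) * m * t ^ (-(-((kk i : ℤ) + 1)))⁆ := by
    intro i
    rw [hkk i, map_commutatorElement, zpow_fixed α b hαb, zpow_conj α t m hαt hαm]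
  choose w hw using fun i => QuotientGroup.mk'_surjective (verb W 3) (g i)
  refine ⟨⟨n, w, fun i => -((kk i : ℤ) + 1), e, fun i => by omega⟩, ?_⟩
  intro G _ hG b' m' t'
  have h1 := congrArg (RF.lift hG ![b', m', t']) hx
  have gb : RF.lift hG ![b', m', t'] b = b' := RF.lift_gen hG ![b', m', t'] 0
  have gm : RF.lift hG ![b', m', t'] m = m' := RF.lift_gen hG ![b', m', t'] 1
  have gt : RF.lift hG ![b', m', t'] t = t' := RF.lift_gen hG ![b', m', t'] 2
  rw [map_commutatorElement, gb, gm, map_list_prod, List.map_ofFn] at h1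
  rw [h1]
  congr 2
  funext i
  change RF.lift hG ![b', m', t'] (g i * s i ^ e i * (g i)⁻¹) = _
  rw [map_mul, map_mul, map_inv, map_zpow, hs', map_commutatorElement, map_mul, map_mul, map_zpow,
    map_zpow, gb, gm, gt, ← hw i, RF.lift_mk]

end Pool.Agent.H53R2
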