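import Pool.Agent.H53R2.RDefs
import Pool.Agent.H53R2.Variety

set_option autoImplicit false

namespace Pool.Agent.H53R2

open scoped commutatorElement

/-- `L` commutes with its conjugates `t^i L t^{-i}`, `i ≠ 0`. -/
def Cfg {G : Type} [Group G] (t : G) (L : Subgroup G) : Prop :=
  ∀ i : ℤ, i ≠ 0 → ∀ a ∈ L, ∀ b ∈ L,
    a * (t ^ i * b * t ^ (-i)) = (t ^ i * b * t ^ (-i)) * a

/-- some two elements do not commute -/
def NonAb {G : Type} [Group G] (L : Subgroup G) : Prop := ∃ a ∈ L, ∃ b ∈ L, ⁅a, b⁆ ≠ 1

/-- the unrestricted wreath product of `K` with the infinite cyclic group -/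
abbrev WP (K : Type) [Group K] : Type := RegularWreathProduct K (Multiplicative ℤ)

/-- the copy of `K` at the position `0` -/
def wi (K : Type) [Group K] : K →* WP K where
  toFun k := ⟨Pi.mulSingle 1 k, 1⟩
  map_one' := by
    ext
    · simp
    · rfl
  map_mul' a b := by
    ext i
    · simp [Pi.mulSingle_mul]
    · rfl

/-- the shift -/
def ws (K : Type) [Group K] : WP K := RegularWreathProduct.inl (Multiplicative.ofAdd 1)

/-- the restricted wreath product of `K` with the infinite cyclic group: the subgroup generated by
the copy of `K` at `0` and the shift -/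
def WZ (K : Type) [Group K] : Subgroup (WP K) := Subgroup.closure (Set.range (wi K) ∪ {ws K})

/-- the relations: the shift centralizes the centre of the copy of `K` at `0` -/
def CWN (K : Type) [Group K] : Subgroup ↥(WZ K) :=
  Subgroup.normalClosure {x | ∃ z ∈ Subgroup.center K, (x : WP K) = ⁅wi K z, ws K⁆}

instance (K : Type) [Group K] : (CWN K).Normal := Subgroup.normalClosure_normal

/-- the central wreath product of `K` with the infinite cyclic group -/
abbrev CW (K : Type) [Group K] : Type := ↥(WZ K) ⧸ CWN K

end Pool.Agent.H53R2
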