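import Pool.Agent.H53R2.RDefs
import Pool.Agent.Helper111.QI.Resid

/-! Task Q4 (helper55) -/

set_option autoImplicit false

namespace Pool.Agent.H53R2

/-- Task Q4: a finitely generated commutative domain in which every nonzero element divides a power
of a fixed nonzero element is finite -/
theorem Q_field (R : Type) [CommRing R] [IsDomain R] [Algebra.FiniteType ℤ R] (f : R) (hf : f ≠ 0)
    (h : ∀ r : R, r ≠ 0 → ∃ n : ℕ, r ∣ f ^ n) : Finite R := by
  have hJ : IsJacobsonRing ℤ := Pool.Agent.Helper111.QI.jac_int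
  have hJR : IsJacobsonRing R := isJacobsonRing_of_finiteType (A := ℤ) (B := R)
  by_cases hF : ∃ m : Ideal R, m.IsMaximal ∧ m = ⊥
  · obtain ⟨m, hm, hm0⟩ := hF
    have := hm
    have h1 : Finite (R ⧸ m) := Pool.Agent.Helper111.QI.residue_finite R m
    have h2 : Function.Injective (Ideal.Quotient.mk m) := by
      rw [injective_iff_map_eq_zero]
      intro a ha
      rw [Ideal.Quotient.eq_zero_iff_mem, hm0] at ha
      exact (Submodule.mem_bot R).1 ha
    exact Finite.of_injective _ h2
  · exfalso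
    have h3 : (⊥ : Ideal R).jacobson = ⊥ :=
      isJacobsonRing_iff_prime_eq.1 hJR ⊥ Ideal.isPrime_bot
    have h4 : f ∈ (⊥ : Ideal R).jacobson := by
      rw [Ideal.jacobson, Submodule.mem_sInf]
      intro (m : Ideal R) hm
      have hmm : m.IsMaximal := hm.2
      have hm0 : m ≠ ⊥ := fun h0 => hF ⟨m, hmm, h0⟩
      obtain ⟨r, hr, hr0⟩ := Submodule.exists_mem_ne_zero_of_ne_bot hm0
      obtain ⟨n, hn⟩ := h r hr0
      exact hmm.isPrime.mem_of_pow_mem n (m.mem_of_dvd hn hr)
    rw [h3] at h4
    exact hf ((Submodule.mem_bot R).1 h4)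

end Pool.Agent.H53R2
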