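import Pool.Agent.H53R2.Defs
import Pool.Agent.Helper294.HallC.Defs

set_option autoImplicit false

namespace Pool.Agent.H53R2

open Pool.Agent.Helper294.HallC

/-- residually finite groups -/
def RFin (G : Type) [Group G] : Prop :=
  ∀ g : G, g ≠ 1 → ∃ N : Subgroup G, N.Normal ∧ N.FiniteIndex ∧ g ∉ N

section

variable {R A : Type} [CommRing R] [AddCommGroup A] [Module R A]

/-- after inverting `g`, the quotient `X/Y` is `r`-torsion-free, and zero if it is `r`-divisible. -/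
def PP (g r : R) (Y X : Submodule R A) : Prop :=
  (∀ x ∈ X, r • x ∈ Y → ∃ n : ℕ, g ^ n • x ∈ Y) ∧
  ((∀ x ∈ X, ∃ n : ℕ, ∃ x' ∈ X, g ^ n • x - r • x' ∈ Y) → ∀ x ∈ X, ∃ n : ℕ, g ^ n • x ∈ Y)

/-- generic property of `X/Y` -/
def Good (f : R) (Y X : Submodule R A) : Prop :=
  ∀ g : R, f ∣ g → g ≠ 0 → ∀ r : R, r ≠ 0 → (∀ n : ℕ, ¬ r ∣ g ^ n) → PP g r Y X

/-- the `RH`-submodule generated by `S` -/
def gen (R : Type) {A Γ : Type} [CommRing R] [AddCommGroup A] [Module R A] [Group Γ]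
    [DistribMulAction Γ A] (H : Subgroup Γ) (S : Finset A) : Submodule R A :=
  Submodule.span R {a : A | ∃ g ∈ H, ∃ s ∈ S, a = g • s}

/-- translate of a submodule by a group element -/
def tr {R A Γ : Type} [CommRing R] [AddCommGroup A] [Module R A] [Group Γ]
    [DistribMulAction Γ A] [SMulCommClass Γ R A] (g : Γ) (B : Submodule R A) : Submodule R A where
  carrier := {x | g⁻¹ • x ∈ B}
  zero_mem' := by
    show g⁻¹ • (0 : A) ∈ B
    rw [smul_zero]; exact B.zero_mem
  add_mem' := by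
    intro a b ha hb
    show g⁻¹ • (a + b) ∈ B
    rw [smul_add]; exact B.add_mem ha hb
  smul_mem' := by
    intro r a ha
    show g⁻¹ • (r • a) ∈ B
    rw [smul_comm]; exact B.smul_mem r ha

theorem mem_tr {R A Γ : Type} [CommRing R] [AddCommGroup A] [Module R A] [Group Γ]
    [DistribMulAction Γ A] [SMulCommClass Γ R A] {g : Γ} {B : Submodule R A} {x : A} :
    x ∈ tr g B ↔ g⁻¹ • x ∈ B := Iff.rfl

end

end Pool.Agent.H53R2
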