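import Mathlib
import Pool.Agent.H53R2.RDefs
import Pool.Agent.Helper294.HallC.NoeOfFg

set_option autoImplicit false

namespace Pool.Agent.H53R2

open Pool.Agent.Helper294.HallC

theorem Q2_gen_stable {Γ A R : Type} [Group Γ] [AddCommGroup A] [DistribMulAction Γ A]
    [CommRing R] [Module R A] [SMulCommClass Γ R A] (H : Subgroup Γ) (S : Finset A) (h : Γ)
    (hh : h ∈ H) (x : A) (hx : x ∈ gen R H S) : h • x ∈ gen R H S := by
  unfold gen at hx ⊢
  refine Submodule.span_induction (p := fun z _ =>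
    h • z ∈ Submodule.span R {a : A | ∃ g ∈ H, ∃ s ∈ S, a = g • s}) ?_ ?_ ?_ ?_ hx
  · rintro a ⟨g, hg, s, hs, rfl⟩
    exact Submodule.subset_span ⟨h * g, H.mul_mem hh hg, s, hs, by rw [mul_smul]⟩
  · rw [smul_zero]; exact Submodule.zero_mem _
  · intro a b _ _ ha hb
    rw [smul_add]; exact Submodule.add_mem _ ha hb
  · intro r a _ ha
    rw [smul_comm]; exact Submodule.smul_mem _ _ ha

/-- the action of a subgroup on a stable additive subgroup -/
@[reducible] def Q2_act {Γ A : Type} [Group Γ] [AddCommGroup A] [DistribMulAction Γ A]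
    (P : Subgroup Γ) (D : AddSubgroup A) (hD : ∀ g ∈ P, ∀ x ∈ D, g • x ∈ D) :
    DistribMulAction ↥P ↥D where
  smul g x := ⟨(g : Γ) • (x : A), hD g g.2 x x.2⟩
  one_smul x := Subtype.ext (one_smul Γ (x : A))
  mul_smul g h x := Subtype.ext (mul_smul (g : Γ) (h : Γ) (x : A))
  smul_zero g := Subtype.ext (smul_zero (g : Γ))
  smul_add g x y := Subtype.ext (smul_add (g : Γ) (x : A) (y : A))

/-- Task Q2 -/
theorem Q_acc {Γ A R : Type} [Group Γ] [AddCommGroup A] [DistribMulAction Γ A] [CommRing R]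
    [Module R A] [SMulCommClass Γ R A] (hΓ : PC Γ) (Z : Subgroup Γ) [Z.Normal] (ρ : ↥Z →* R)
    (hρ : ∀ (z : ↥Z) (a : A), (z : Γ) • a = ρ z • a)
    (hR : AddSubgroup.closure (Set.range ρ) = ⊤) (H : Subgroup Γ) (S : Finset A)
    (B : ℕ → Submodule R A) (hB : Monotone B) (hle : ∀ n, B n ≤ gen R H S)
    (hst : ∀ n, ∀ g ∈ H, ∀ x ∈ B n, g • x ∈ B n) : ∃ N, ∀ n, N ≤ n → B n = B N := by
  classical
  have hP : ∀ g ∈ H ⊔ Z, ∃ h ∈ H, ∃ z : ↥Z, g = h * z := by
    intro g hg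
    have h1 : g ∈ ((H ⊔ Z : Subgroup Γ) : Set Γ) := hg
    rw [Subgroup.mul_normal] at h1
    obtain ⟨h, hh, z, hz, rfl⟩ := h1
    exact ⟨h, hh, ⟨z, hz⟩, rfl⟩
  -- stability under `H` of a submodule gives stability under `H ⊔ Z`
  have hstab : ∀ (C : Submodule R A), (∀ g ∈ H, ∀ x ∈ C, g • x ∈ C) →
      ∀ g ∈ H ⊔ Z, ∀ x ∈ C, g • x ∈ C := by
    intro C hC g hg x hx
    obtain ⟨h, hh, z, rfl⟩ := hP g hg
    rw [mul_smul, hρ]
    exact hC h hh _ (C.smul_mem _ hx)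
  have hDst : ∀ g ∈ H ⊔ Z, ∀ x ∈ (gen R H S).toAddSubgroup, g • x ∈ (gen R H S).toAddSubgroup :=
    hstab (gen R H S) (fun g hg x hx => Q2_gen_stable H S g hg x hx)
  letI : DistribMulAction ↥(H ⊔ Z) ↥((gen R H S).toAddSubgroup) :=
    Q2_act (H ⊔ Z) (gen R H S).toAddSubgroup hDst
  have hsmem : ∀ s ∈ S, s ∈ gen R H S := by
    intro s hs
    exact Submodule.subset_span ⟨1, H.one_mem, s, hs, by rw [one_smul]⟩
  -- the closure in `A`
  have hmemC : ∀ x ∈ gen R H S,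
      x ∈ AddSubgroup.closure {a : A | ∃ g ∈ H ⊔ Z, ∃ s ∈ S, a = g • s} := by
    have hz : ∀ (z : ↥Z), ∀ x ∈ AddSubgroup.closure {a : A | ∃ g ∈ H ⊔ Z, ∃ s ∈ S, a = g • s},
        ρ z • x ∈ AddSubgroup.closure {a : A | ∃ g ∈ H ⊔ Z, ∃ s ∈ S, a = g • s} := by
      intro z x hx
      induction hx using AddSubgroup.closure_induction with
      | mem x hx =>
        obtain ⟨g, hg, s, hs, rfl⟩ := hx
        rw [← hρ, ← mul_smul]
        exact AddSubgroup.subset_closure ⟨z * g, (H ⊔ Z).mul_mem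
          ((le_sup_right : Z ≤ H ⊔ Z) z.2) hg, s, hs, rfl⟩
      | zero => rw [smul_zero]; exact AddSubgroup.zero_mem _
      | add x y _ _ hx hy => rw [smul_add]; exact AddSubgroup.add_mem _ hx hy
      | neg x _ hx => rw [smul_neg]; exact AddSubgroup.neg_mem _ hx
    have hr : ∀ (r : R), ∀ x ∈ AddSubgroup.closure {a : A | ∃ g ∈ H ⊔ Z, ∃ s ∈ S, a = g • s},
        r • x ∈ AddSubgroup.closure {a : A | ∃ g ∈ H ⊔ Z, ∃ s ∈ S, a = g • s} := by
      intro r
      have hr' : r ∈ AddSubgroup.closure (Set.range ρ) := by rw [hR]; trivial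
      induction hr' using AddSubgroup.closure_induction with
      | mem r hr => obtain ⟨z, rfl⟩ := hr; exact hz z
      | zero => intro x _; rw [zero_smul]; exact AddSubgroup.zero_mem _
      | add a b _ _ ha hb =>
        intro x hx; rw [add_smul]; exact AddSubgroup.add_mem _ (ha x hx) (hb x hx)
      | neg a _ ha => intro x hx; rw [neg_smul]; exact AddSubgroup.neg_mem _ (ha x hx)
    intro x hx
    refine Submodule.span_induction (p := fun z _ =>
      z ∈ AddSubgroup.closure {a : A | ∃ g ∈ H ⊔ Z, ∃ s ∈ S, a = g • s}) ?_ ?_ ?_ ?_ hx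
    · rintro a ⟨g, hg, s, hs, rfl⟩
      exact AddSubgroup.subset_closure ⟨g, (le_sup_left : H ≤ H ⊔ Z) hg, s, hs, rfl⟩
    · exact AddSubgroup.zero_mem _
    · intro a b _ _ ha hb
      exact AddSubgroup.add_mem _ ha hb
    · intro r a _ ha
      exact hr r a ha
  have hfg : FGM ↥(H ⊔ Z) ↥((gen R H S).toAddSubgroup) := by
    refine ⟨S.attach.image (fun s : ↥S => (⟨(s : A), hsmem s s.2⟩ :
      ↥((gen R H S).toAddSubgroup))), ?_⟩
    rw [eq_top_iff]
    rintro ⟨x, hx⟩ -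
    have key : ∀ y ∈ AddSubgroup.closure {a : A | ∃ g ∈ H ⊔ Z, ∃ s ∈ S, a = g • s},
        ∃ hy : y ∈ (gen R H S).toAddSubgroup, (⟨y, hy⟩ : ↥((gen R H S).toAddSubgroup)) ∈
          AddSubgroup.closure {a : ↥((gen R H S).toAddSubgroup) | ∃ g : ↥(H ⊔ Z),
            ∃ s ∈ S.attach.image (fun s : ↥S => (⟨(s : A), hsmem s s.2⟩ :
              ↥((gen R H S).toAddSubgroup))), a = g • s} := by
      intro y hy
      induction hy using AddSubgroup.closure_induction with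
      | mem y hy =>
        obtain ⟨g, hg, s, hs, rfl⟩ := hy
        refine ⟨hDst g hg s (hsmem s hs), AddSubgroup.subset_closure
          ⟨⟨g, hg⟩, ⟨s, hsmem s hs⟩, ?_, rfl⟩⟩
        exact Finset.mem_image.2 ⟨⟨s, hs⟩, Finset.mem_attach _ _, rfl⟩
      | zero => exact ⟨AddSubgroup.zero_mem _, AddSubgroup.zero_mem _⟩
      | add a b _ _ ha hb =>
        obtain ⟨ha1, ha2⟩ := ha
        obtain ⟨hb1, hb2⟩ := hb
        exact ⟨AddSubgroup.add_mem _ ha1 hb1, AddSubgroup.add_mem _ ha2 hb2⟩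
      | neg a _ ha =>
        obtain ⟨ha1, ha2⟩ := ha
        exact ⟨AddSubgroup.neg_mem _ ha1, AddSubgroup.neg_mem _ ha2⟩
    exact (key x (hmemC x hx)).2
  have hnoe : Noe ↥(H ⊔ Z) ↥((gen R H S).toAddSubgroup) := noe_of_fg (pc_sub hΓ _) hfg
  obtain ⟨N, hN⟩ := hnoe (fun n => (B n).toAddSubgroup.comap (gen R H S).toAddSubgroup.subtype)
    (by
      intro m n hmn x hx
      exact hB hmn hx)
    (by
      intro n g x hx
      exact hstab (B n) (hst n) g g.2 x hx)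
  refine ⟨N, fun n hn => ?_⟩
  have h1 := hN n hn
  apply le_antisymm _ (hB hn)
  intro x hx
  have h2 : (⟨x, hle n hx⟩ : ↥((gen R H S).toAddSubgroup)) ∈
      (B n).toAddSubgroup.comap (gen R H S).toAddSubgroup.subtype := hx
  have h3 : (⟨x, hle n hx⟩ : ↥((gen R H S).toAddSubgroup)) ∈
      (B N).toAddSubgroup.comap (gen R H S).toAddSubgroup.subtype := by
    rw [← h1]; exact h2
  exact h3

end Pool.Agent.H53R2
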