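import Pool.Agent.H53R2.RGood
import Pool.Agent.H53R2.RAcc
import Pool.Agent.Helper294.HallC.Base

set_option autoImplicit false

namespace Pool.Agent.H53R2

open Pool.Agent.Helper294.HallC

section

variable {R A Γ : Type} [CommRing R] [AddCommGroup A] [Module R A] [Group Γ]
  [DistribMulAction Γ A] [SMulCommClass Γ R A]

theorem tr_mono {g : Γ} {B C : Submodule R A} (h : B ≤ C) : tr g B ≤ tr g C := fun _ hx => h hx

theorem tr_tr (g h : Γ) (B : Submodule R A) : tr g (tr h B) = tr (g * h) B := by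
  ext x
  rw [mem_tr, mem_tr, mem_tr, mul_inv_rev, mul_smul]

theorem tr_one (B : Submodule R A) : tr (1 : Γ) B = B := by
  ext x
  rw [mem_tr, inv_one, one_smul]

theorem smul_mem_tr {g : Γ} {B : Submodule R A} {x : A} (h : x ∈ B) : g • x ∈ tr g B := by
  rw [mem_tr, inv_smul_smul]; exact h

theorem tr_sup (g : Γ) (B C : Submodule R A) : tr g (B ⊔ C) = tr g B ⊔ tr g C := by
  apply le_antisymm
  · intro x hx
    rw [mem_tr, Submodule.mem_sup] at hx
    obtain ⟨b, hb, c, hc, h⟩ := hx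
    have h1 : x = g • b + g • c := by rw [← smul_add, h, smul_inv_smul]
    rw [h1]
    exact Submodule.add_mem_sup (smul_mem_tr hb) (smul_mem_tr hc)
  · exact sup_le (tr_mono le_sup_left) (tr_mono le_sup_right)

/-- stability under a subgroup -/
def HSt (H : Subgroup Γ) (B : Submodule R A) : Prop := ∀ g ∈ H, ∀ x ∈ B, g • x ∈ B

theorem HSt.tr_eq {H : Subgroup Γ} {B : Submodule R A} (h : HSt H B) {g : Γ} (hg : g ∈ H) :
    tr g B = B := by
  apply le_antisymm
  · intro x hx
    have := h g hg _ hx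
    rwa [smul_inv_smul] at this
  · intro x hx
    exact h _ (H.inv_mem hg) x hx

omit [SMulCommClass Γ R A] in
theorem HSt.sup {H : Subgroup Γ} {B C : Submodule R A} (h : HSt H B) (h' : HSt H C) :
    HSt H (B ⊔ C) := by
  intro g hg x hx
  rw [Submodule.mem_sup] at hx
  obtain ⟨b, hb, c, hc, rfl⟩ := hx
  rw [smul_add]
  exact Submodule.add_mem_sup (h g hg b hb) (h' g hg c hc)

omit [SMulCommClass Γ R A] in
theorem HSt.inf {H : Subgroup Γ} {B C : Submodule R A} (h : HSt H B) (h' : HSt H C) :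
    HSt H (B ⊓ C) := fun g hg x hx => ⟨h g hg x hx.1, h' g hg x hx.2⟩

theorem HSt.tr {H : Subgroup Γ} {B : Submodule R A} (h : HSt H B) {t : Γ}
    (ht : ∀ g ∈ H, t⁻¹ * g * t ∈ H) : HSt H (tr t B) := by
  intro g hg x hx
  rw [mem_tr] at hx ⊢
  have h1 := h _ (ht g hg) _ hx
  rw [← mul_smul] at h1 ⊢
  convert h1 using 2
  group

omit [SMulCommClass Γ R A] in
theorem HSt.iSup {H : Subgroup Γ} {ι : Type} {B : ι → Submodule R A} (h : ∀ i, HSt H (B i)) :
    HSt H (⨆ i, B i) := by
  intro g hg x hx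
  induction hx using Submodule.iSup_induction' with
  | mem i x hx => exact Submodule.mem_iSup_of_mem i (h i g hg x hx)
  | zero => rw [smul_zero]; exact Submodule.zero_mem _
  | add x y _ _ hx hy => rw [smul_add]; exact Submodule.add_mem _ hx hy

omit [SMulCommClass Γ R A] in
theorem gen_le {H : Subgroup Γ} {S : Finset A} {B : Submodule R A} :
    gen R H S ≤ B ↔ ∀ g ∈ H, ∀ s ∈ S, g • s ∈ B := by
  rw [gen, Submodule.span_le]
  constructor
  · intro h g hg s hs
    exact h ⟨g, hg, s, hs, rfl⟩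
  · rintro h _ ⟨g, hg, s, hs, rfl⟩
    exact h g hg s hs

omit [SMulCommClass Γ R A] in
theorem mem_gen {H : Subgroup Γ} {S : Finset A} {g : Γ} (hg : g ∈ H) {s : A} (hs : s ∈ S) :
    g • s ∈ gen R H S := Submodule.subset_span ⟨g, hg, s, hs, rfl⟩

theorem gen_HSt (H : Subgroup Γ) (S : Finset A) : HSt H (gen R H S) := by
  intro g hg
  have h1 : gen R H S ≤ tr g⁻¹ (gen R H S) := by
    rw [gen_le]
    intro h hh s hs
    rw [mem_tr, inv_inv, ← mul_smul]
    exact mem_gen (H.mul_mem hg hh) hs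
  intro x hx
  have := h1 hx
  rwa [mem_tr, inv_inv] at this

theorem Good.of_dvd {f f' : R} {Y X : Submodule R A} (h : Good f Y X) (hd : f ∣ f') :
    Good f' Y X := fun g hg => h g (hd.trans hg)

theorem Good.trans {f : R} {Y X W : Submodule R A} (hYX : Y ≤ X) (hXW : X ≤ W)
    (h1 : Good f Y X) (h2 : Good f X W) : Good f Y W := fun g hg hg0 r hr hn =>
  PP.trans hYX hXW (h1 g hg hg0 r hr hn) (h2 g hg hg0 r hr hn)

theorem Good.iUnion {f : R} (X : ℕ → Submodule R A) (hX : Monotone X)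
    (h : ∀ n, Good f (X n) (X (n + 1))) : Good f (X 0) (⨆ n, X n) := fun g hg hg0 r hr hn =>
  PP.iUnion X hX (fun n => h n g hg hg0 r hr hn)

theorem Good.sup {f : R} {U V : Submodule R A} (h : Good f (V ⊓ U) V) : Good f U (U ⊔ V) :=
  fun g hg hg0 r hr hn => PP.sup (h g hg hg0 r hr hn)

theorem Good.tr {f : R} {Y X : Submodule R A} (t : Γ) (h : Good f Y X) :
    Good f (tr t Y) (tr t X) := fun g hg hg0 r hr hn => PP.tr t (h g hg hg0 r hr hn)

/-- the induction hypothesis -/
def Phi (R : Type) {A Γ : Type} [CommRing R] [AddCommGroup A] [Module R A] [Group Γ]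
    [DistribMulAction Γ A] (H : Subgroup Γ) (S : Finset A) : Prop :=
  ∀ Y : Submodule R A, HSt H Y → ∃ f : R, f ≠ 0 ∧ Good f Y (Y ⊔ gen R H S)

theorem phi_step [IsDomain R]
    (hacc : ∀ (H : Subgroup Γ) (S : Finset A) (B : ℕ → Submodule R A), Monotone B →
      (∀ n, B n ≤ gen R H S) → (∀ n, HSt H (B n)) → ∃ N, ∀ n, N ≤ n → B n = B N)
    (S : Finset A) (H P : Subgroup Γ) (t : Γ) (hHP : H ≤ P) (ht : t ∈ P)
    (hn : ∀ x, x ∈ H ↔ t * x * t⁻¹ ∈ H) (hP : ∀ x ∈ P, ∃ k : ℤ, t ^ (-k) * x ∈ H)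
    (hH : Phi R H S) : Phi R P S := by
  classical
  intro Y hY
  have hYH : HSt H Y := fun g hg => hY g (hHP hg)
  set V : Submodule R A := gen R H S with hV
  have hVH : HSt H V := gen_HSt H S
  -- conjugation
  have hc1 : ∀ g ∈ H, t⁻¹ * g * t ∈ H := by
    intro g hg
    rw [hn]
    have : t * (t⁻¹ * g * t) * t⁻¹ = g := by group
    rwa [this]
  have hc2 : ∀ g ∈ H, t⁻¹⁻¹ * g * t⁻¹ ∈ H := by
    intro g hg
    rw [inv_inv]
    exact (hn g).1 hg
  have hYt : tr t Y = Y := hY.tr_eq ht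
  have hYt' : tr t⁻¹ Y = Y := hY.tr_eq (P.inv_mem ht)
  -- the sequence `U`
  let U : ℕ → Submodule R A := fun n => Nat.rec Y (fun _ B => tr t⁻¹ (B ⊔ V)) n
  have hU0 : U 0 = Y := rfl
  have hUs : ∀ n, U (n + 1) = tr t⁻¹ (U n ⊔ V) := fun n => rfl
  have hUH : ∀ n, HSt H (U n) := by
    intro n
    induction n with
    | zero => exact hYH
    | succ n ih => rw [hUs]; exact (ih.sup hVH).tr hc2
  have hUmono : Monotone U := by
    apply monotone_nat_of_le_succ
    intro n
    induction n with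
    | zero =>
      rw [hUs, hU0, tr_sup, hYt']
      exact le_sup_left
    | succ n ih =>
      rw [hUs n, hUs (n + 1)]
      exact tr_mono (sup_le_sup_right ih V)
  -- the finitely many types of sections
  obtain ⟨N, hN⟩ := hacc H S (fun n => V ⊓ U n) (fun i j hij => inf_le_inf_left V (hUmono hij))
    (fun n => inf_le_left) (fun n => hVH.inf (hUH n))
  have hB : ∀ n, ∃ f : R, f ≠ 0 ∧ Good f (V ⊓ U n) V := by
    intro n
    obtain ⟨f, hf, hg⟩ := hH (V ⊓ U n) (hVH.inf (hUH n))
    refine ⟨f, hf, ?_⟩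
    rwa [← hV, sup_eq_right.2 (inf_le_left : V ⊓ U n ≤ V)] at hg
  choose f hf0 hfg using hB
  let f1 : R := ∏ n ∈ Finset.range (N + 1), f n
  have hf1 : f1 ≠ 0 := Finset.prod_ne_zero_iff.2 fun n _ => hf0 n
  have hgood1 : ∀ n, Good f1 (V ⊓ U n) V := by
    intro n
    by_cases h : n ≤ N
    · exact (hfg n).of_dvd (Finset.dvd_prod_of_mem f (Finset.mem_range.2 (Nat.lt_succ_of_le h)))
    · have h1 : V ⊓ U n = V ⊓ U N := hN n (by omega)
      rw [h1]
      exact (hfg N).of_dvd (Finset.dvd_prod_of_mem f (Finset.mem_range.2 (Nat.lt_succ_self N)))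
  -- the sequence `W`
  let W : ℕ → Submodule R A := fun n => tr (t ^ n) (U n)
  have hW0 : W 0 = Y := by
    show tr (t ^ 0) (U 0) = Y
    rw [pow_zero, tr_one, hU0]
  have hWs : ∀ n, W (n + 1) = tr (t ^ n) (U n ⊔ V) := by
    intro n
    show tr (t ^ (n + 1)) (U (n + 1)) = _
    rw [hUs, tr_tr, pow_succ, mul_inv_cancel_right]
  have hWmono : Monotone W := by
    apply monotone_nat_of_le_succ
    intro n
    rw [hWs]
    exact tr_mono le_sup_left
  have hgood2 : ∀ n, Good f1 (W n) (W (n + 1)) := by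
    intro n
    rw [hWs]
    exact ((hgood1 n).sup).tr (t ^ n)
  set X : Submodule R A := ⨆ n, W n with hX
  have hYX : Y ≤ X := hW0 ▸ le_iSup W 0
  have hgood3 : Good f1 Y X := by
    have := Good.iUnion W hWmono hgood2
    rwa [hW0] at this
  -- `X` and its translates
  have hVX : V ≤ X := by
    refine le_trans ?_ (le_iSup W (0 + 1))
    rw [hWs 0, pow_zero, tr_one]
    exact le_sup_right
  have hWX : ∀ n, tr t (W n) ≤ W (n + 1) := by
    intro n
    induction n with
    | zero =>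
      rw [hW0, hYt]
      exact hW0 ▸ hWmono (Nat.zero_le _)
    | succ n ih =>
      rw [hWs n, tr_tr, ← pow_succ', tr_sup]
      refine sup_le ?_ ?_
      · have h1 : tr (t ^ (n + 1)) (U n) = tr t (W n) := by
          show _ = tr t (tr (t ^ n) (U n))
          rw [tr_tr, ← pow_succ']
        rw [h1]
        exact ih.trans (hWmono (Nat.le_succ _))
      · rw [hWs (n + 1)]
        exact tr_mono le_sup_right
  have htX : tr t X ≤ X := by
    intro x hx
    rw [mem_tr, hX, Submodule.mem_iSup_of_directed _ hWmono.directed_le] at hx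
    obtain ⟨n, hn'⟩ := hx
    exact (le_iSup W (n + 1)) (hWX n hn')
  have hXt : X ≤ tr t X ⊔ V := by
    rw [hX]
    refine iSup_le fun n => ?_
    induction n with
    | zero =>
      rw [hW0, ← hYt]
      exact (tr_mono hYX).trans le_sup_left
    | succ n ih =>
      rw [hWs, tr_sup]
      refine sup_le ih ?_
      cases n with
      | zero => rw [pow_zero, tr_one]; exact le_sup_right
      | succ n =>
        refine le_trans ?_ le_sup_left
        rw [pow_succ', ← tr_tr]
        refine tr_mono ?_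
        refine le_trans ?_ (le_iSup W (n + 1))
        rw [hWs]
        exact tr_mono le_sup_right
  have hXeq : X = tr t X ⊔ V := le_antisymm hXt (sup_le htX hVX)
  have hWH : ∀ n, HSt H (W n) := by
    intro n
    have hcn : ∀ n : ℕ, ∀ g ∈ H, (t ^ n)⁻¹ * g * t ^ n ∈ H := by
      intro n
      induction n with
      | zero => intro g hg; simpa using hg
      | succ n ih =>
        intro g hg
        have h1 := hc1 _ (ih g hg)
        have h2 : (t ^ (n + 1))⁻¹ * g * t ^ (n + 1) = t⁻¹ * ((t ^ n)⁻¹ * g * t ^ n) * t := by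
          rw [pow_succ]; group
        rwa [h2]
    exact (hUH n).tr (hcn n)
  have hXH : HSt H X := HSt.iSup hWH
  obtain ⟨f2, hf2, hg2⟩ := hH (tr t X) (hXH.tr hc1)
  rw [← hV, ← hXeq] at hg2
  -- the translates of `X`
  let T : ℕ → Submodule R A := fun m => tr (t⁻¹ ^ m) X
  have hT0 : T 0 = X := by
    show tr (t⁻¹ ^ 0) X = X
    rw [pow_zero, tr_one]
  have hTeq : ∀ m, T m = tr (t⁻¹ ^ (m + 1)) (tr t X) := by
    intro m
    rw [tr_tr, pow_succ, inv_mul_cancel_right]
  have hTmono : Monotone T := by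
    apply monotone_nat_of_le_succ
    intro m
    rw [hTeq m]
    exact tr_mono htX
  have hgood4 : ∀ m, Good f2 (T m) (T (m + 1)) := by
    intro m
    rw [hTeq m]
    exact hg2.tr _
  have hgood5 : Good f2 X (⨆ m, T m) := by
    have := Good.iUnion T hTmono hgood4
    rwa [hT0] at this
  have hXT : X ≤ ⨆ m, T m := hT0 ▸ le_iSup T 0
  -- identification
  have hfin : Y ⊔ gen R P S = ⨆ m, T m := by
    apply le_antisymm
    · refine sup_le (hYX.trans hXT) ?_
      rw [gen_le]
      intro g hg s hs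
      obtain ⟨k, hk⟩ := hP g hg
      have h1 : (t ^ (-k) * g) • s ∈ V := mem_gen hk hs
      have h2 : g • s = t ^ k • (t ^ (-k) * g) • s := by
        rw [← mul_smul, ← mul_assoc, ← zpow_add, add_neg_cancel, zpow_zero, one_mul]
      rw [h2]
      have h3 : t ^ k • (t ^ (-k) * g) • s ∈ tr (t ^ k) V := smul_mem_tr h1
      refine (?_ : tr (t ^ k) V ≤ _) h3
      obtain ⟨n, rfl | rfl⟩ := k.eq_nat_or_neg
      · refine le_trans ?_ (hXT)
        refine le_trans ?_ (le_iSup W (n + 1))
        rw [hWs, zpow_natCast]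
        exact tr_mono le_sup_right
      · refine le_trans ?_ (le_iSup T n)
        show _ ≤ tr (t⁻¹ ^ n) X
        rw [zpow_neg, zpow_natCast, ← inv_pow]
        exact tr_mono hVX
    · have hP1 : ∀ g ∈ P, tr g (Y ⊔ gen R P S) = Y ⊔ gen R P S := fun g hg =>
        (hY.sup (gen_HSt P S)).tr_eq hg
      have hU1 : ∀ n, U n ≤ Y ⊔ gen R P S := by
        intro n
        induction n with
        | zero => exact le_sup_left
        | succ n ih =>
          rw [hUs, ← hP1 t⁻¹ (P.inv_mem ht)]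
          refine tr_mono (sup_le ih (le_trans ?_ le_sup_right))
          rw [hV, gen_le]
          exact fun g hg s hs => mem_gen (hHP hg) hs
      have hX1 : X ≤ Y ⊔ gen R P S := by
        refine iSup_le fun n => ?_
        rw [← hP1 (t ^ n) (P.pow_mem ht n)]
        exact tr_mono (hU1 n)
      refine iSup_le fun m => ?_
      rw [← hP1 (t⁻¹ ^ m) (P.pow_mem (P.inv_mem ht) m)]
      exact tr_mono hX1
  refine ⟨f1 * f2, mul_ne_zero hf1 hf2, ?_⟩
  rw [hfin]
  exact Good.trans hYX hXT (hgood3.of_dvd (dvd_mul_right _ _)) (hgood5.of_dvd (dvd_mul_left _ _))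

end

/-- Task Q3 -/
theorem Q_generic {Γ A R : Type} [Group Γ] [AddCommGroup A] [DistribMulAction Γ A] [CommRing R]
    [IsDomain R] [Module R A] [SMulCommClass Γ R A] (hΓ : PC Γ) (Z : Subgroup Γ) [Z.Normal]
    (ρ : ↥Z →* R) (hρ : ∀ (z : ↥Z) (a : A), (z : Γ) • a = ρ z • a)
    (hR : AddSubgroup.closure (Set.range ρ) = ⊤) (S : Finset A) :
    ∃ f : R, f ≠ 0 ∧ Good f (⊥ : Submodule R A) (gen R (⊤ : Subgroup Γ) S) := by
  have key : Phi R (⊤ : Subgroup Γ) S := by
    refine poly_ind hΓ (fun H => Phi R H S) ?_ ?_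
    · intro Y _
      obtain ⟨f, hf, hg⟩ := good_base Y S
      refine ⟨f, hf, ?_⟩
      have h1 : gen R (⊥ : Subgroup Γ) S = Submodule.span R (S : Set A) := by
        apply le_antisymm
        · rw [gen_le]
          intro g hg s hs
          rw [Subgroup.mem_bot] at hg
          rw [hg, one_smul]
          exact Submodule.subset_span hs
        · rw [Submodule.span_le]
          intro s hs
          have := mem_gen (R := R) (Subgroup.one_mem (⊥ : Subgroup Γ)) (Finset.mem_coe.1 hs)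
          rwa [one_smul] at this
      rw [h1]
      exact hg
    · intro H P t h1 h2 h3 h4 h5
      exact phi_step (fun H S B hB hle hst => Q_acc hΓ Z ρ hρ hR H S B hB hle hst) S H P t
        h1 h2 h3 h4 h5
  obtain ⟨f, hf, hg⟩ := key ⊥ (by
    intro g _ x hx
    rw [Submodule.mem_bot] at hx ⊢
    rw [hx, smul_zero])
  rw [bot_sup_eq] at hg
  exact ⟨f, hf, hg⟩

end Pool.Agent.H53R2
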