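import Pool.Agent.H53R2.RSimple0
import Pool.Agent.H53R2.RGen
import Pool.Agent.H53R2.RField

set_option autoImplicit false

namespace Pool.Agent.H53R2

open Pool.Agent.Helper294.HallC

/-- Task Q5: P. Hall's theorem on simple modules -/
theorem Q_simple {Γ A : Type} [Group Γ] [Group.FG Γ] [Group.IsNilpotent Γ] [AddCommGroup A]
    [DistribMulAction Γ A] [Nontrivial A]
    (h : ∀ B : AddSubgroup A, Stb Γ B → B = ⊥ ∨ B = ⊤) : Finite A :=
  Q_simple_of @Q_generic @Q_field h

end Pool.Agent.H53R2
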