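import Pool.Agent.H53R2.RMono0
import Pool.Agent.H53R2.RSimple

set_option autoImplicit false

namespace Pool.Agent.H53R2

open Pool.Agent.Helper294.HallC

/-- Task R1 -/
theorem R_mono {Γ A : Type} [Group Γ] [Group.FG Γ] [Group.IsNilpotent Γ] [AddCommGroup A]
    [DistribMulAction Γ A] (hA : FGM Γ A) (K : AddSubgroup A) (hK : K ≠ ⊥)
    (hmin : ∀ B : AddSubgroup A, Stb Γ B → B ≠ ⊥ → K ≤ B) : Finite A :=
  R_mono_of @Q_generic @Q_field hA K hK hmin

end Pool.Agent.H53R2
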