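-- =====FILE CCl2.lean
import Pool.Agent.H53R2.CDefs
import Pool.Agent.H53R2.RMono

set_option autoImplicit false
set_option linter.unusedVariables false

namespace Pool.Agent.H53R2

open Pool.Agent.Helper294.HallC
open scoped commutatorElement

theorem exists_max_normal {G : Type} [Group G] (c : G) (hc : c ≠ 1) :
    ∃ N : Subgroup G, N.Normal ∧ c ∉ N ∧
      ∀ M : Subgroup G, M.Normal → N ≤ M → c ∉ M → M = N := by
  obtain ⟨N, -, hN⟩ := zorn_le_nonempty₀ {N : Subgroup G | N.Normal ∧ c ∉ N} (by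
    intro C hC hchain y hy
    have hne : C.Nonempty := ⟨y, hy⟩
    have hdir : DirectedOn (· ≤ ·) C := hchain.directedOn
    refine ⟨sSup C, ⟨⟨?_⟩, ?_⟩, fun z hz => le_sSup hz⟩
    · intro n hn g
      rw [Subgroup.mem_sSup_of_directedOn hne hdir] at hn ⊢
      obtain ⟨K, hK, hnK⟩ := hn
      exact ⟨K, hK, (hC hK).1.conj_mem n hnK g⟩
    · intro h
      rw [Subgroup.mem_sSup_of_directedOn hne hdir] at h
      obtain ⟨K, hK, hcK⟩ := h
      exact (hC hK).2 hcK) ⊥ ⟨inferInstance, by rwa [Subgroup.mem_bot]⟩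
  refine ⟨N, hN.prop.1, hN.prop.2, fun M hM hNM hcM => ?_⟩
  exact (hN.eq_of_le ⟨hM, hcM⟩ hNM).symm

theorem conj_finite {G : Type} [Group G] (t : G) (Z : Subgroup G)
    (hcomm : ∀ a ∈ Z, ∀ b ∈ Z, a * b = b * a) (ht : ∀ j : ℤ, ∀ a ∈ Z, t ^ j * a * t ^ (-j) ∈ Z)
    (S : Finset G) (hS : Subgroup.closure {x | ∃ j : ℤ, ∃ s ∈ S, x = t ^ j * s * t ^ (-j)} = Z)
    (c : G) (hc : c ∈ Z) (hc1 : c ≠ 1)
    (hmin : ∀ B : Subgroup G, B ≤ Z → (∀ j : ℤ, ∀ b ∈ B, t ^ j * b * t ^ (-j) ∈ B) → B ≠ ⊥ →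
      c ∈ B) : Finite ↥Z := by
  classical
  let _C : CommGroup ↥Z :=
    { (inferInstance : Group ↥Z) with
      mul_comm := fun a b => Subtype.ext (hcomm a a.2 b b.2) }
  let _act : DistribMulAction (Multiplicative ℤ) (Additive ↥Z) :=
    { smul := fun n a => Additive.ofMul
        ⟨t ^ n.toAdd * (a.toMul : G) * t ^ (-n.toAdd), ht _ _ a.toMul.2⟩
      one_smul := by
        intro a
        apply Additive.toMul.injective
        apply Subtype.ext
        show t ^ (0:ℤ) * (a.toMul : G) * t ^ (-(0:ℤ)) = a.toMul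
        simp
      mul_smul := by
        intro m n a
        apply Additive.toMul.injective
        apply Subtype.ext
        show t ^ (m.toAdd + n.toAdd) * (a.toMul : G) * t ^ (-(m.toAdd + n.toAdd)) =
          t ^ m.toAdd * (t ^ n.toAdd * (a.toMul : G) * t ^ (-n.toAdd)) * t ^ (-m.toAdd)
        rw [neg_add_rev, zpow_add, zpow_add]
        group
      smul_zero := by
        intro n
        apply Additive.toMul.injective
        apply Subtype.ext
        show t ^ n.toAdd * (1 : G) * t ^ (-n.toAdd) = 1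
        rw [mul_one, zpow_neg, mul_inv_cancel]
      smul_add := by
        intro n a b
        apply Additive.toMul.injective
        apply Subtype.ext
        show t ^ n.toAdd * ((a.toMul : G) * (b.toMul : G)) * t ^ (-n.toAdd) =
          (t ^ n.toAdd * (a.toMul : G) * t ^ (-n.toAdd)) *
            (t ^ n.toAdd * (b.toMul : G) * t ^ (-n.toAdd))
        rw [zpow_neg]
        group }
  have hSZ : ∀ s ∈ S, s ∈ Z := by
    intro s hs
    rw [← hS]
    exact Subgroup.subset_closure ⟨0, s, hs, by simp⟩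
  have hsm : ∀ (n : Multiplicative ℤ) (x : G) (hx : x ∈ Z),
      n • (Additive.ofMul (⟨x, hx⟩ : ↥Z)) =
        Additive.ofMul (⟨t ^ n.toAdd * x * t ^ (-n.toAdd), ht _ _ hx⟩ : ↥Z) := fun n x hx => rfl
  have hA : FGM (Multiplicative ℤ) (Additive ↥Z) := by
    refine ⟨S.attach.image fun s : {x // x ∈ S} => Additive.ofMul (⟨s.1, hSZ s.1 s.2⟩ : ↥Z), ?_⟩
    rw [eq_top_iff]
    rintro a -
    have key : ∀ x ∈ Subgroup.closure {x | ∃ j : ℤ, ∃ s ∈ S, x = t ^ j * s * t ^ (-j)},
        ∀ hx : x ∈ Z, Additive.ofMul (⟨x, hx⟩ : ↥Z) ∈ AddSubgroup.closure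
          {a : Additive ↥Z | ∃ g : Multiplicative ℤ, ∃ s ∈ S.attach.image
            (fun s : {x // x ∈ S} => Additive.ofMul (⟨s.1, hSZ s.1 s.2⟩ : ↥Z)), a = g • s} := by
      intro x hx
      induction hx using Subgroup.closure_induction with
      | mem x hx =>
        obtain ⟨j, s, hs, rfl⟩ := hx
        intro hx
        refine AddSubgroup.subset_closure ⟨Multiplicative.ofAdd j,
          Additive.ofMul (⟨s, hSZ s hs⟩ : ↥Z), ?_, ?_⟩
        · rw [Finset.mem_image]
          exact ⟨⟨s, hs⟩, Finset.mem_attach _ _, rfl⟩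
        · rw [hsm]; rfl
      | one => intro hx; exact zero_mem _
      | mul x y hx hy h1 h2 =>
        intro _
        rw [hS] at hx hy
        exact add_mem (h1 hx) (h2 hy)
      | inv x hx h1 =>
        intro _
        rw [hS] at hx
        exact neg_mem (h1 hx)
    exact key a.toMul.1 (by rw [hS]; exact a.toMul.2) a.toMul.2
  have hfin : Finite (Additive ↥Z) := by
    refine R_mono hA (AddSubgroup.zmultiples (Additive.ofMul (⟨c, hc⟩ : ↥Z))) ?_ ?_
    · rw [Ne, AddSubgroup.zmultiples_eq_bot]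
      intro h
      apply hc1
      exact congrArg (fun a : Additive ↥Z => (a.toMul : G)) h
    · intro B hB hB0
      rw [AddSubgroup.zmultiples_le]
      let B' : Subgroup G :=
        { carrier := {x : G | ∃ h : x ∈ Z, Additive.ofMul (⟨x, h⟩ : ↥Z) ∈ B}
          one_mem' := ⟨Z.one_mem, B.zero_mem⟩
          mul_mem' := by
            rintro x y ⟨hx, hx'⟩ ⟨hy, hy'⟩
            exact ⟨Z.mul_mem hx hy, B.add_mem hx' hy'⟩
          inv_mem' := by
            rintro x ⟨hx, hx'⟩
            exact ⟨Z.inv_mem hx, B.neg_mem hx'⟩ }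
      have h1 : c ∈ B' := by
        apply hmin B'
        · rintro x ⟨hx, -⟩; exact hx
        · rintro j x ⟨hx, hx'⟩
          exact ⟨ht j x hx, hB (Multiplicative.ofAdd j) _ hx'⟩
        · intro h
          apply hB0
          rw [eq_bot_iff]
          intro b hb
          have h2 : (b.toMul : G) ∈ B' := ⟨b.toMul.2, hb⟩
          rw [h, Subgroup.mem_bot] at h2
          rw [AddSubgroup.mem_bot]
          apply Additive.toMul.injective
          exact Subtype.ext h2
      obtain ⟨_, h2⟩ := h1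
      exact h2
  exact Finite.of_equiv _ (Additive.toMul : Additive ↥Z ≃ ↥Z)

theorem class2_top {W : Set (FreeGroup ℕ)} {G : Type} [Group G] (hG : InVar W G) (t : G)
    (L : Subgroup G) (htop : Subgroup.closure ((L : Set G) ∪ {t}) = ⊤) (hfg : L.FG)
    (hcfg : Cfg t L) (hc2 : ∀ a ∈ L, ∀ b ∈ L, ∀ c ∈ L, ⁅⁅a, b⁆, c⁆ = 1) (hna : NonAb L) :
    ∃ (G' : Type) (_ : Group G') (_ : InVar W G') (K : Subgroup G') (s : G') (ψ : ↥L →* ↥K),
      Function.Surjective ψ ∧ Finite ↥K ∧ Cfg s K ∧ NonAb K ∧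
        ∀ z : ↥K, z ∈ Subgroup.center ↥K → s * (z : G') = z * s := by
  obtain ⟨a, ha, b, hb, hab⟩ := hna
  obtain ⟨N, hN, hcN, hmax⟩ := exists_max_normal ⁅a, b⁆ hab
  set q : G →* G ⧸ N := QuotientGroup.mk' N with hq
  have hqs : Function.Surjective q := QuotientGroup.mk'_surjective N
  set K : Subgroup (G ⧸ N) := L.map q with hK
  set t' : G ⧸ N := q t with ht'
  set c : G ⧸ N := q ⁅a, b⁆ with hc
  have hc1 : c ≠ 1 := by
    intro h
    exact hcN ((QuotientGroup.eq_one_iff _).1 h)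
  -- the monolith
  have hmon : ∀ M : Subgroup (G ⧸ N), M.Normal → M ≠ ⊥ → c ∈ M := by
    intro M hM hM0
    by_contra hcM
    have h1 := hmax (M.comap q) (hM.comap q) (by
      intro x hx
      rw [Subgroup.mem_comap, hq, QuotientGroup.mk'_apply, (QuotientGroup.eq_one_iff x).2 hx]
      exact M.one_mem) hcM
    apply hM0
    rw [eq_bot_iff]
    intro x hx
    obtain ⟨y, rfl⟩ := hqs x
    have h2 : y ∈ M.comap q := hx
    rw [h1] at h2
    exact Subgroup.mem_bot.2 ((QuotientGroup.eq_one_iff y).2 h2)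
  have hgen : Subgroup.closure ((K : Set (G ⧸ N)) ∪ {t'}) = ⊤ := by
    have h1 : (Subgroup.closure ((L : Set G) ∪ {t})).map q =
        Subgroup.closure ((K : Set (G ⧸ N)) ∪ {t'}) := by
      rw [MonoidHom.map_closure, Set.image_union, Set.image_singleton, hK, Subgroup.coe_map]
    rw [← h1, htop, Subgroup.map_top_of_surjective q hqs]
  have hcfg' : Cfg t' K := by
    rintro i hi _ ⟨x, hx, rfl⟩ _ ⟨y, hy, rfl⟩
    have h1 := congrArg q (hcfg i hi x hx y hy)
    simpa only [map_mul, map_zpow] using h1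
  have hc2' : ∀ a ∈ K, ∀ b ∈ K, ∀ c ∈ K, ⁅⁅a, b⁆, c⁆ = 1 := by
    rintro _ ⟨x, hx, rfl⟩ _ ⟨y, hy, rfl⟩ _ ⟨z, hz, rfl⟩
    rw [← map_commutatorElement, ← map_commutatorElement, hc2 x hx y hy z hz, map_one]
  have haK : q a ∈ K := ⟨a, ha, rfl⟩
  have hbK : q b ∈ K := ⟨b, hb, rfl⟩
  have hcab : c = ⁅q a, q b⁆ := by rw [hc, map_commutatorElement]
  have hcK : c ∈ K := by
    rw [hcab]
    exact K.mul_mem (K.mul_mem (K.mul_mem haK hbK) (K.inv_mem haK)) (K.inv_mem hbK)
  have hKfg : Group.FG ↥K := by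
    have h1 : Group.FG ↥L := (Group.fg_iff_subgroup_fg L).2 hfg
    have h2 : Group.FG ↥K := Group.fg_of_surjective (f := q.subgroupMap L)
      (q.subgroupMap_surjective L)
    exact h2
  have hKnil : Group.IsNilpotent ↥K := by
    apply E_nilp 2
    apply Subgroup.map_injective K.subtype_injective
    rw [E_map_mk, Subgroup.map_bot, eq_bot_iff]
    show ⁅⁅K, K⁆, K⁆ ≤ ⊥
    rw [Subgroup.commutator_le]
    intro x hx y hy
    have h1 : ⁅K, K⁆ ≤ Subgroup.centralizer (K : Set (G ⧸ N)) := by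
      rw [Subgroup.commutator_le]
      intro u hu v hv
      rw [Subgroup.mem_centralizer_iff]
      intro w hw
      have h2 := hc2' u hu v hv w hw
      rw [commutatorElement_eq_one_iff_mul_comm] at h2
      exact h2.symm
    have h2 := Subgroup.mem_centralizer_iff.1 (h1 hx) y hy
    rw [Subgroup.mem_bot, commutatorElement_eq_one_iff_mul_comm]
    exact h2.symm
  -- the centre of `K`
  have hcen : ∀ z : ↥K, z ∈ Subgroup.center ↥K ↔ ∀ y ∈ K, y * (z : G ⧸ N) = z * y := by
    intro z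
    rw [Subgroup.mem_center_iff]
    constructor
    · intro h y hy
      exact congrArg Subtype.val (h ⟨y, hy⟩)
    · intro h y
      exact Subtype.ext (h y y.2)
  obtain ⟨S0, hS0⟩ := nil_maxC ↥K (Subgroup.center ↥K)
  set Zi : Subgroup (G ⧸ N) := Subgroup.closure
    {x | ∃ j : ℤ, ∃ z : ↥K, z ∈ Subgroup.center ↥K ∧ x = t' ^ j * z * t' ^ (-j)} with hZi
  set H : Subgroup (G ⧸ N) := Subgroup.closure
    {x | ∃ j : ℤ, ∃ z ∈ K, x = t' ^ j * z * t' ^ (-j)} with hH
  have hKH : K ≤ H := fun x hx => Subgroup.subset_closure ⟨0, x, hx, by simp⟩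
  -- conjugation by powers of `t'`
  have hconj : ∀ (X : Subgroup (G ⧸ N)) (P : (G ⧸ N) → Prop),
      X = Subgroup.closure {x | ∃ j : ℤ, ∃ z : G ⧸ N, P z ∧ x = t' ^ j * z * t' ^ (-j)} →
      ∀ j : ℤ, ∀ x ∈ X, t' ^ j * x * t' ^ (-j) ∈ X := by
    intro X P hX j x hx
    subst hX
    induction hx using Subgroup.closure_induction with
    | mem x hx =>
      obtain ⟨i, z, hz, rfl⟩ := hx
      refine Subgroup.subset_closure ⟨j + i, z, hz, ?_⟩
      rw [neg_add_rev, zpow_add, zpow_add]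
      group
    | one => rw [mul_one, zpow_neg, mul_inv_cancel]; exact one_mem _
    | mul x y _ _ h1 h2 =>
      have : t' ^ j * (x * y) * t' ^ (-j) = (t' ^ j * x * t' ^ (-j)) * (t' ^ j * y * t' ^ (-j)) := by
        rw [zpow_neg]; group
      rw [this]; exact mul_mem h1 h2
    | inv x _ h1 =>
      have : t' ^ j * x⁻¹ * t' ^ (-j) = (t' ^ j * x * t' ^ (-j))⁻¹ := by
        rw [zpow_neg]; group
      rw [this]; exact inv_mem h1
  have hconjZ : ∀ j : ℤ, ∀ x ∈ Zi, t' ^ j * x * t' ^ (-j) ∈ Zi := by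
    apply hconj Zi (fun z => ∃ h : z ∈ K, (⟨z, h⟩ : ↥K) ∈ Subgroup.center ↥K)
    rw [hZi]
    congr 1
    ext x
    constructor
    · rintro ⟨j, z, hz, rfl⟩
      exact ⟨j, z, ⟨z.2, hz⟩, rfl⟩
    · rintro ⟨j, z, ⟨h, hz⟩, rfl⟩
      exact ⟨j, ⟨z, h⟩, hz, rfl⟩
  have hconjH : ∀ j : ℤ, ∀ x ∈ H, t' ^ j * x * t' ^ (-j) ∈ H :=
    hconj H (fun z => z ∈ K) hH
  have hZH : Zi ≤ H := by
    rw [hZi, Subgroup.closure_le]
    rintro x ⟨j, z, hz, rfl⟩
    exact Subgroup.subset_closure ⟨j, z, z.2, rfl⟩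
  -- `Zi` is centralized by `H`
  have hZcen : ∀ x ∈ Zi, ∀ y ∈ H, x * y = y * x := by
    have h1 : Zi ≤ Subgroup.centralizer (H : Set (G ⧸ N)) := by
      rw [hZi, Subgroup.closure_le]
      rintro x ⟨j, z, hz, rfl⟩
      have h2 : H ≤ Subgroup.centralizer {t' ^ j * (z : G ⧸ N) * t' ^ (-j)} := by
        rw [hH, Subgroup.closure_le]
        rintro y ⟨i, w, hw, rfl⟩
        rw [SetLike.mem_coe, Subgroup.mem_centralizer_singleton_iff]
        have hzw : ∀ k : ℤ, (t' ^ k * (z : G ⧸ N) * t' ^ (-k)) * w = w * (t' ^ k * z * t' ^ (-k)) := by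
          intro k
          by_cases hk : k = 0
          · subst hk
            simp only [zpow_zero, one_mul, neg_zero, mul_one]
            exact ((hcen z).1 hz w hw).symm
          · exact (hcfg' k hk w hw z z.2).symm
        have h3 := hzw (j - i)
        have e1 : t' ^ j * (z : G ⧸ N) * t' ^ (-j) =
            t' ^ i * (t' ^ (j - i) * z * t' ^ (-(j - i))) * t' ^ (-i) := by
          rw [zpow_neg, zpow_neg, zpow_neg, zpow_sub]; group
        rw [e1]
        calc t' ^ i * w * t' ^ (-i) * (t' ^ i * (t' ^ (j - i) * z * t' ^ (-(j - i))) * t' ^ (-i))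
            = t' ^ i * (w * (t' ^ (j - i) * z * t' ^ (-(j - i)))) * t' ^ (-i) := by
              rw [zpow_neg t' i]; group
          _ = t' ^ i * ((t' ^ (j - i) * z * t' ^ (-(j - i))) * w) * t' ^ (-i) := by rw [h3]
          _ = t' ^ i * (t' ^ (j - i) * z * t' ^ (-(j - i))) * t' ^ (-i) * (t' ^ i * w * t' ^ (-i)) := by
              rw [zpow_neg t' i]; group
      rw [SetLike.mem_coe, Subgroup.mem_centralizer_iff]
      intro y hy
      have h3 := h2 hy
      rw [Subgroup.mem_centralizer_singleton_iff] at h3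
      exact h3
    intro x hx y hy
    exact (Subgroup.mem_centralizer_iff.1 (h1 hx) y hy).symm
  -- stable subgroups of `Zi` are normal
  have hnormal : ∀ B : Subgroup (G ⧸ N), B ≤ Zi → (∀ j : ℤ, ∀ b ∈ B, t' ^ j * b * t' ^ (-j) ∈ B) →
      B.Normal := by
    intro B hB hBt
    rw [← Subgroup.normalizer_eq_top_iff, eq_top_iff, ← hgen, Subgroup.closure_le]
    rintro x (hx | hx)
    · rw [SetLike.mem_coe, Subgroup.mem_normalizer_iff]
      intro y
      have hconjx : ∀ b ∈ B, x * b * x⁻¹ = b := by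
        intro b hb
        rw [← hZcen b (hB hb) x (hKH hx), mul_inv_cancel_right]
      constructor
      · intro hy; rw [hconjx y hy]; exact hy
      · intro hy
        have h3 : x⁻¹ * (x * y * x⁻¹) * x = y := by group
        have h4 : x⁻¹ * (x * y * x⁻¹) * x = x * y * x⁻¹ := by
          rw [mul_assoc, hZcen _ (hB hy) x (hKH hx), ← mul_assoc, inv_mul_cancel, one_mul]
        rw [← h3, h4]; exact hy
    · rw [Set.mem_singleton_iff] at hx
      subst hx
      rw [SetLike.mem_coe, Subgroup.mem_normalizer_iff]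
      intro y
      constructor
      · intro hy
        have := hBt 1 y hy
        rwa [zpow_one, zpow_neg, zpow_one] at this
      · intro hy
        have := hBt (-1) _ hy
        have e : t' ^ (-1:ℤ) * (t' * y * t'⁻¹) * t' ^ (-(-1:ℤ)) = y := by
          simp only [neg_neg, zpow_one, zpow_neg]; group
        rwa [e] at this
  have hcZK : (⟨c, hcK⟩ : ↥K) ∈ Subgroup.center ↥K := by
    rw [hcen]
    intro y hy
    have h1 := hc2' (q a) haK (q b) hbK y hy
    rw [← hcab, commutatorElement_eq_one_iff_mul_comm] at h1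
    exact h1.symm
  have hcZi : c ∈ Zi := Subgroup.subset_closure ⟨0, ⟨c, hcK⟩, hcZK, by simp⟩
  -- finiteness of `Zi`
  classical
  have hZfin : Finite ↥Zi := by
    refine conj_finite t' Zi (fun x hx y hy => hZcen x hx y (hZH hy)) hconjZ
      (S0.image fun z : ↥K => (z : G ⧸ N)) ?_ c hcZi hc1 ?_
    · apply le_antisymm
      · rw [Subgroup.closure_le]
        rintro x ⟨j, s, hs, rfl⟩
        rw [Finset.mem_image] at hs
        obtain ⟨z, hz, rfl⟩ := hs
        refine Subgroup.subset_closure ⟨j, z, ?_, rfl⟩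
        rw [← hS0]
        exact Subgroup.subset_closure hz
      · rw [hZi, Subgroup.closure_le]
        rintro x ⟨j, z, hz, rfl⟩
        rw [← hS0] at hz
        rw [SetLike.mem_coe]
        induction hz using Subgroup.closure_induction with
        | mem z hz =>
          exact Subgroup.subset_closure ⟨j, z, Finset.mem_image.2 ⟨z, hz, rfl⟩, rfl⟩
        | one =>
          rw [Subgroup.coe_one, mul_one, zpow_neg, mul_inv_cancel]; exact one_mem _
        | mul z w _ _ h1 h2 =>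
          have : t' ^ j * ((z * w : ↥K) : G ⧸ N) * t' ^ (-j) =
              (t' ^ j * z * t' ^ (-j)) * (t' ^ j * w * t' ^ (-j)) := by
            rw [Subgroup.coe_mul, zpow_neg]; group
          rw [this]; exact mul_mem h1 h2
        | inv z _ h1 =>
          have : t' ^ j * ((z⁻¹ : ↥K) : G ⧸ N) * t' ^ (-j) = (t' ^ j * z * t' ^ (-j))⁻¹ := by
            rw [Subgroup.coe_inv, zpow_neg]; group
          rw [this]; exact inv_mem h1
    · intro B hB hBt hB0
      exact hmon B (hnormal B hB hBt) hB0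
  have hcenfin : Finite ↥(Subgroup.center ↥K) := by
    have hinj : Function.Injective (fun z : ↥(Subgroup.center ↥K) =>
        (⟨((z : ↥K) : G ⧸ N), Subgroup.subset_closure ⟨0, z, z.2, by simp⟩⟩ : ↥Zi)) := by
      intro z w h
      have := congrArg Subtype.val h
      exact Subtype.ext (Subtype.ext this)
    exact Finite.of_injective _ hinj
  have hKfin : Finite ↥K := by
    refine fin_nil ↥K (Nat.card ↥(Subgroup.center ↥K)) Nat.card_pos ?_
    intro z hz
    have h1 : (⟨z, hz⟩ : ↥(Subgroup.center ↥K)) ^ (Nat.card ↥(Subgroup.center ↥K)) = 1 :=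
      pow_card_eq_one'
    exact congrArg Subtype.val h1
  -- a power of `t'` centralizes `Zi`
  obtain ⟨k, hk0, hk⟩ : ∃ k : ℕ, 0 < k ∧ ∀ x ∈ Zi, t' ^ k * x = x * t' ^ k := by
    let τ : Equiv.Perm ↥Zi :=
      { toFun := fun x => ⟨t' * x * t'⁻¹, by
          have := hconjZ 1 x x.2
          rwa [zpow_one, zpow_neg, zpow_one] at this⟩
        invFun := fun x => ⟨t'⁻¹ * x * t', by
          have := hconjZ (-1) x x.2
          rwa [neg_neg, zpow_one, zpow_neg, zpow_one] at this⟩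
        left_inv := by intro x; apply Subtype.ext; show t'⁻¹ * (t' * x * t'⁻¹) * t' = x; group
        right_inv := by intro x; apply Subtype.ext; show t' * (t'⁻¹ * x * t') * t'⁻¹ = x; group }
    have hpow : ∀ (n : ℕ) (x : ↥Zi), (((τ ^ n) x : ↥Zi) : G ⧸ N) = t' ^ n * x * (t' ^ n)⁻¹ := by
      intro n x
      induction n with
      | zero => simp
      | succ n ih =>
        rw [pow_succ', Equiv.Perm.mul_apply]
        show t' * ((τ ^ n) x : ↥Zi) * t'⁻¹ = _
        rw [ih, pow_succ']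
        group
    have hfin : Finite (Equiv.Perm ↥Zi) := inferInstance
    refine ⟨Nat.card (Equiv.Perm ↥Zi), Nat.card_pos, fun x hx => ?_⟩
    have h1 : τ ^ Nat.card (Equiv.Perm ↥Zi) = 1 := pow_card_eq_one'
    have h2 := hpow (Nat.card (Equiv.Perm ↥Zi)) ⟨x, hx⟩
    rw [h1] at h2
    have h3 : x = t' ^ Nat.card (Equiv.Perm ↥Zi) * x * (t' ^ Nat.card (Equiv.Perm ↥Zi))⁻¹ := h2
    conv_rhs => rw [h3]
    rw [inv_mul_cancel_right]
  refine ⟨G ⧸ N, inferInstance, hG.quot N, K, t' ^ k, q.subgroupMap L,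
    q.subgroupMap_surjective L, hKfin, ?_, ⟨q a, haK, q b, hbK, by rw [← hcab]; exact hc1⟩, ?_⟩
  · intro i hi x hx y hy
    have h1 : (k : ℤ) * i ≠ 0 := mul_ne_zero (by exact_mod_cast hk0.ne') hi
    have h2 := hcfg' (k * i) h1 x hx y hy
    rw [← zpow_natCast, ← zpow_mul, ← zpow_mul, mul_neg]
    exact h2
  · intro z hz
    exact hk z (Subgroup.subset_closure ⟨0, z, hz, by simp⟩)

/-- Task C7 -/
theorem class2 {W : Set (FreeGroup ℕ)} {G : Type} [Group G] (hG : InVar W G) (t : G)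
    (L : Subgroup G) (hfg : L.FG) (hcfg : Cfg t L)
    (hc2 : ∀ a ∈ L, ∀ b ∈ L, ∀ c ∈ L, ⁅⁅a, b⁆, c⁆ = 1) (hna : NonAb L) :
    ∃ (G' : Type) (_ : Group G') (_ : InVar W G') (K : Subgroup G') (s : G') (ψ : ↥L →* ↥K),
      Function.Surjective ψ ∧ Finite ↥K ∧ Cfg s K ∧ NonAb K ∧
        ∀ z : ↥K, z ∈ Subgroup.center ↥K → s * (z : G') = z * s := by
  set G1 : Subgroup G := Subgroup.closure ((L : Set G) ∪ {t}) with hG1
  have hLG : L ≤ G1 := fun x hx => Subgroup.subset_closure (Or.inl hx)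
  have htG : t ∈ G1 := Subgroup.subset_closure (Or.inr rfl)
  set L1 : Subgroup ↥G1 := L.subgroupOf G1 with hL1
  let e : ↥L1 ≃* ↥L := Subgroup.subgroupOfEquivOfLe hLG
  have hmemL1 : ∀ x : ↥G1, x ∈ L1 ↔ (x : G) ∈ L := fun x => Subgroup.mem_subgroupOf
  obtain ⟨G', i1, i2, K, s, ψ, h1, h2, h3, h4, h5⟩ := class2_top (W := W) (G := ↥G1)
    (hG.subgroup G1) ⟨t, htG⟩ L1 (by
      apply Subgroup.map_injective G1.subtype_injective
      rw [MonoidHom.map_closure, ← MonoidHom.range_eq_map, Subgroup.range_subtype]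
      conv_rhs => rw [hG1]
      congr 1
      ext x
      constructor
      · rintro ⟨y, hy, rfl⟩
        rcases hy with hy | hy
        · exact Or.inl ((hmemL1 y).1 hy)
        · right
          rw [Set.mem_singleton_iff] at hy ⊢
          rw [hy]; rfl
      · rintro (hx | hx)
        · exact ⟨⟨x, hLG hx⟩, Or.inl ((hmemL1 _).2 hx), rfl⟩
        · rw [Set.mem_singleton_iff] at hx
          subst hx
          exact ⟨⟨x, htG⟩, Or.inr rfl, rfl⟩)
    (by
      have h1 : Group.FG ↥L := (Group.fg_iff_subgroup_fg L).2 hfg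
      have h2 : Group.FG ↥L1 := Group.fg_of_surjective (f := e.symm.toMonoidHom) e.symm.surjective
      exact (Group.fg_iff_subgroup_fg L1).1 h2)
    (by
      intro i hi a ha b hb
      apply Subtype.ext
      exact hcfg i hi a ((hmemL1 a).1 ha) b ((hmemL1 b).1 hb))
    (by
      intro a ha b hb c hc
      apply Subtype.ext
      exact hc2 a ((hmemL1 a).1 ha) b ((hmemL1 b).1 hb) c ((hmemL1 c).1 hc))
    (by
      obtain ⟨a, ha, b, hb, hab⟩ := hna
      refine ⟨⟨a, hLG ha⟩, (hmemL1 _).2 ha, ⟨b, hLG hb⟩, (hmemL1 _).2 hb, fun h => hab ?_⟩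
      exact congrArg Subtype.val h)
  exact ⟨G', i1, i2, K, s, ψ.comp e.symm.toMonoidHom,
    h1.comp e.symm.surjective, h2, h3, h4, h5⟩

end Pool.Agent.H53R2
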