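import Pool.Agent.H53R2.Defs

set_option autoImplicit false

namespace Pool.Agent.H53R2

open scoped commutatorElement

section

variable {G H : Type} [Group G] [Group H]

theorem Lw_zero (S X : Subgroup G) : Lw S 0 X = X := rfl

theorem Lw_succ (S : Subgroup G) (k : ℕ) (X : Subgroup G) : Lw S (k + 1) X = ⁅Lw S k X, S⁆ :=
  Function.iterate_succ_apply' _ _ _

theorem Lw_succ' (S : Subgroup G) (k : ℕ) (X : Subgroup G) : Lw S (k + 1) X = Lw S k ⁅X, S⁆ :=
  Function.iterate_succ_apply _ _ _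

theorem Lw_add (S : Subgroup G) (k l : ℕ) (X : Subgroup G) :
    Lw S (k + l) X = Lw S k (Lw S l X) :=
  Function.iterate_add_apply _ _ _ _

theorem Lw_mono {S S' X X' : Subgroup G} (hS : S ≤ S') (hX : X ≤ X') (k : ℕ) :
    Lw S k X ≤ Lw S' k X' := by
  induction k with
  | zero => exact hX
  | succ k ih =>
    rw [Lw_succ, Lw_succ]
    exact Subgroup.commutator_mono ih hS

instance Lw_normal (S : Subgroup G) [S.Normal] (k : ℕ) (X : Subgroup G) [X.Normal] :
    (Lw S k X).Normal := by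
  induction k with
  | zero => assumption
  | succ k ih =>
    rw [Lw_succ]
    infer_instance

theorem Lw_succ_le (S : Subgroup G) [S.Normal] (k : ℕ) (X : Subgroup G) [X.Normal] :
    Lw S (k + 1) X ≤ Lw S k X := by
  rw [Lw_succ]
  exact Subgroup.commutator_le_left _ _

theorem Lw_anti (S : Subgroup G) [S.Normal] (X : Subgroup G) [X.Normal] {k l : ℕ} (h : k ≤ l) :
    Lw S l X ≤ Lw S k X :=
  antitone_nat_of_succ_le (f := fun k => Lw S k X) (fun k => Lw_succ_le S k X) h

theorem Lw_le (S : Subgroup G) [S.Normal] (X : Subgroup G) [X.Normal] (k : ℕ) :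
    Lw S k X ≤ X := Lw_anti S X (Nat.zero_le k)

theorem Lw_bot (S : Subgroup G) (k : ℕ) : Lw S k ⊥ = ⊥ := by
  induction k with
  | zero => rfl
  | succ k ih => rw [Lw_succ, ih, Subgroup.commutator_bot_left]

theorem map_Lw (f : G →* H) (S : Subgroup G) (k : ℕ) (X : Subgroup G) :
    (Lw S k X).map f = Lw (S.map f) k (X.map f) := by
  induction k with
  | zero => rfl
  | succ k ih => rw [Lw_succ, Lw_succ, Subgroup.map_commutator, ih]

theorem Lw_comap_le (f : G →* H) (S : Subgroup H) (k : ℕ) (X : Subgroup H) :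
    Lw (S.comap f) k (X.comap f) ≤ (Lw S k X).comap f := by
  rw [← Subgroup.map_le_iff_le_comap, map_Lw]
  exact Lw_mono (Subgroup.map_comap_le _ _) (Subgroup.map_comap_le _ _) k

theorem MaxN.of_surjective (h : MaxN G) (f : G →* H) (hf : Function.Surjective f) : MaxN H := by
  unfold MaxN at h ⊢
  have hmono : StrictMono (fun N : {N : Subgroup H // N.Normal} =>
      (⟨N.1.comap f, N.2.comap f⟩ : {N : Subgroup G // N.Normal})) := by
    intro N M hNM
    refine lt_of_le_of_ne ?_ ?_
    · exact Subgroup.comap_mono (f := f) hNM.le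
    · intro heq
      have h1 : N.1.comap f = M.1.comap f := congrArg Subtype.val heq
      have h2 := Subgroup.comap_injective hf h1
      exact hNM.ne (Subtype.ext h2)
  exact hmono.wellFoundedGT

theorem VN.of_surjective (h : VN G) (f : G →* H) (hf : Function.Surjective f) : VN H := by
  obtain ⟨G₁, h1, h2, m, c, h3⟩ := h
  refine ⟨G₁.map f, h1.map f hf, ?_, m, c, ?_⟩
  · constructor
    have := Subgroup.index_map_dvd G₁ hf
    exact fun h0 => h2.index_ne_zero (Nat.eq_zero_of_zero_dvd (h0 ▸ this))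
  · rw [← map_Lw, ← map_Lw, h3, Subgroup.map_bot]

/-- maximal elements exist -/
theorem MaxN.exists_max (h : MaxN G) (P : Subgroup G → Prop) (hP : ∀ N, P N → N.Normal)
    (hne : ∃ N, P N) : ∃ N, P N ∧ ∀ M, P M → N ≤ M → M = N := by
  obtain ⟨N₀, hN₀⟩ := hne
  obtain ⟨N, hN, hmax⟩ := h.wf.has_min {N : {N : Subgroup G // N.Normal} | P N.1}
    ⟨⟨N₀, hP N₀ hN₀⟩, hN₀⟩
  refine ⟨N.1, hN, fun M hM hle => ?_⟩
  by_contra hne
  exact hmax ⟨M, hP M hM⟩ hM (lt_of_le_of_ne hle (fun h => hne (congrArg Subtype.val h).symm))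

end

end Pool.Agent.H53R2
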