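import Pool.Agent.H53R2.CDefs
import Pool.Agent.H53R2.LwBasic

set_option autoImplicit false

namespace Pool.Agent.H53R2

open scoped commutatorElement

/-- derived series of a subgroup -/
def Dr {G : Type} [Group G] (L : Subgroup G) (r : ℕ) : Subgroup G :=
  (fun X : Subgroup G => ⁅X, X⁆)^[r] L

theorem Dr_zero {G : Type} [Group G] (L : Subgroup G) : Dr L 0 = L := rfl

theorem Dr_succ {G : Type} [Group G] (L : Subgroup G) (r : ℕ) :
    Dr L (r + 1) = ⁅Dr L r, Dr L r⁆ := Function.iterate_succ_apply' _ _ _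

theorem Dr_le {G : Type} [Group G] (L : Subgroup G) (r : ℕ) : Dr L r ≤ derivedSeries G r := by
  induction r with
  | zero => exact le_top
  | succ r ih => rw [Dr_succ]; exact Subgroup.commutator_mono ih ih

theorem Dr_le_self {G : Type} [Group G] (L : Subgroup G) (r : ℕ) : Dr L r ≤ L := by
  induction r with
  | zero => exact le_rfl
  | succ r ih =>
    rw [Dr_succ]
    refine le_trans ?_ ih
    rw [Subgroup.commutator_le]
    intro a ha b hb
    rw [commutatorElement_def]
    exact (Dr L r).mul_mem ((Dr L r).mul_mem ((Dr L r).mul_mem ha hb) ((Dr L r).inv_mem ha))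
      ((Dr L r).inv_mem hb)

/-- Task C2 -/
theorem exists_metab {G : Type} [Group G] (d : ℕ) (hd : derivedSeries G d = ⊥) (L : Subgroup G)
    (hL : NonAb L) : ∃ L₁ : Subgroup G, L₁ ≤ L ∧ L₁.FG ∧ ⁅⁅L₁, L₁⁆, ⁅L₁, L₁⁆⁆ = ⊥ ∧ NonAb L₁ := by
  classical
  -- the last nonabelian term
  have key : ∃ r, NonAb (Dr L r) ∧ ¬ NonAb (Dr L (r + 1)) := by
    by_contra hcon
    push Not at hcon
    have h1 : ∀ r, NonAb (Dr L r) := by
      intro r
      induction r with
      | zero => exact hL
      | succ r ih => exact hcon r ih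
    obtain ⟨a, ha, b, hb, hab⟩ := h1 d
    have h2 := Dr_le L d ha
    rw [hd, Subgroup.mem_bot] at h2
    rw [h2, commutatorElement_one_left] at hab
    exact hab rfl
  obtain ⟨r, ⟨a, ha, b, hb, hab⟩, hr⟩ := key
  have hle : Subgroup.closure ({a, b} : Set G) ≤ Dr L r := by
    rw [Subgroup.closure_le]
    rintro x (rfl | rfl)
    · exact ha
    · exact hb
  refine ⟨Subgroup.closure {a, b}, hle.trans (Dr_le_self L r), ⟨{a, b}, by simp⟩, ?_, a,
    Subgroup.subset_closure (Or.inl rfl), b, Subgroup.subset_closure (Or.inr rfl), hab⟩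
  rw [eq_bot_iff]
  refine (Subgroup.commutator_mono (Subgroup.commutator_mono hle hle)
    (Subgroup.commutator_mono hle hle)).trans ?_
  rw [← Dr_succ, Subgroup.commutator_le]
  intro x hx y hy
  by_contra h
  exact hr ⟨x, hx, y, hy, h⟩

end Pool.Agent.H53R2
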