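import Pool.Agent.H53R2.RS

set_option autoImplicit false

namespace Pool.Agent.H53R2

open Pool.Agent.Helper294.HallC
open scoped commutatorElement

/-- pulling back residual finiteness from a quotient -/
theorem rf_pull {G H : Type} [Group G] [Group H] (f : G →* H) (hf : Function.Surjective f)
    (hH : RFin H) (g : G) (hg : f g ≠ 1) :
    ∃ N : Subgroup G, N.Normal ∧ N.FiniteIndex ∧ g ∉ N := by
  obtain ⟨N, h1, h2, h3⟩ := hH (f g) hg
  exact ⟨N.comap f, h1.comap f, finiteIndex_comap f hf N h2, h3⟩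

/-- finite-by-abelian groups are nilpotent-by-finite -/
theorem vnil_of_finite_commutator {G : Type} [Group G] (D : Subgroup G) [D.Normal] [Finite ↥D]
    (h : ⁅(⊤ : Subgroup G), (⊤ : Subgroup G)⁆ ≤ D) : VNil G := by
  refine ⟨Subgroup.centralizer (D : Set G), inferInstance, finiteIndex_centralizer D, 2, ?_⟩
  have h1 : Lw (Subgroup.centralizer (D : Set G)) 2 (Subgroup.centralizer (D : Set G)) =
      ⁅⁅Subgroup.centralizer (D : Set G), Subgroup.centralizer (D : Set G)⁆,
        Subgroup.centralizer (D : Set G)⁆ := rfl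
  rw [h1, eq_bot_iff, Subgroup.commutator_le]
  intro a ha b hb
  rw [Subgroup.mem_centralizer_iff] at hb
  rw [Subgroup.mem_bot, commutatorElement_eq_one_iff_mul_comm]
  exact hb a (h (Subgroup.commutator_mono le_top le_top ha))

/-- Task C3: finitely generated metabelian groups are residually finite -/
theorem RFin_metab (L : Type) [Group L] [Group.FG L]
    (h : ⁅⁅(⊤ : Subgroup L), (⊤ : Subgroup L)⁆, ⁅(⊤ : Subgroup L), (⊤ : Subgroup L)⁆⁆ = ⊥) :
    RFin L := by
  classical
  set D : Subgroup L := ⁅(⊤ : Subgroup L), (⊤ : Subgroup L)⁆ with hD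
  have hDn : D.Normal := by rw [hD]; infer_instance
  let p : L →* L ⧸ D := QuotientGroup.mk' D
  have hp : Function.Surjective p := QuotientGroup.mk'_surjective D
  have hker : p.ker = D := QuotientGroup.ker_mk' D
  have hqfg : Group.FG (L ⧸ D) := QuotientGroup.fg D
  have hq1 : Lw (⊤ : Subgroup (L ⧸ D)) 1 ⊤ = ⊥ := by
    have h1 := map_Lw p (⊤ : Subgroup L) 1 ⊤
    rw [Subgroup.map_top_of_surjective _ hp] at h1
    rw [← h1, Lw_succ, Lw_zero, ← hD, eq_bot_iff]
    rintro _ ⟨x, hx, rfl⟩
    exact (QuotientGroup.eq_one_iff x).2 hx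
  have hqvn : VNil (L ⧸ D) := ⟨⊤, inferInstance, inferInstance, 1, hq1⟩
  intro g hg
  by_cases hgD : g ∈ D
  · obtain ⟨E, _, _, ⟨s⟩⟩ := exists_secMod p hp (⊥ : Subgroup L) D (by rw [h])
      (by rw [hker, h])
    obtain ⟨S, hS⟩ := K_nfg (G := L) 1
    have hS' : D = Subgroup.normalClosure (S : Set L) := hS
    have hSD : (S : Set L) ⊆ D := by
      rw [hS']; exact Subgroup.subset_normalClosure
    have hfgm : FGM (L ⧸ D) E := K_fgm s S hSD (by rw [← hS']; exact le_sup_left) bot_le
    have hnil : Group.IsNilpotent (L ⧸ D) := E_nilp 1 hq1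
    set e : E := (s.π ⟨g, hgD⟩).toAdd with he
    have hrep : s.rep g e := ⟨hgD, rfl⟩
    have he0 : e ≠ 0 := by
      intro h0
      have h1 : s.π ⟨g, hgD⟩ = 1 := by
        have : s.π ⟨g, hgD⟩ = Multiplicative.ofAdd e := rfl
        rw [this, h0]; rfl
      exact hg (Subgroup.mem_bot.1 ((s.ker _).1 h1))
    obtain ⟨B, hB1, hB2, hB3⟩ := R_mod hfgm e he0
    -- the normal subgroup corresponding to `B`
    let N : Subgroup L :=
      { carrier := {x | ∃ b ∈ B, s.rep x b}
        one_mem' := ⟨0, B.zero_mem, s.rep_one⟩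
        mul_mem' := by
          rintro a b ⟨a', ha, ha'⟩ ⟨b', hb, hb'⟩
          exact ⟨a' + b', B.add_mem ha hb, SecMod.rep_mul ha' hb'⟩
        inv_mem' := by
          rintro a ⟨a', ha, ha'⟩
          exact ⟨-a', B.neg_mem ha, SecMod.rep_inv ha'⟩ }
    have hNn : N.Normal := by
      constructor
      rintro x ⟨b, hb, hxb⟩ y
      exact ⟨p y • b, hB1 _ _ hb, SecMod.rep_conj hxb y⟩
    have hgN : g ∉ N := by
      rintro ⟨b, hb, hgb⟩
      rw [SecMod.rep_unique hrep hgb] at hB2
      exact hB2 hb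
    -- the image of `D` in `L/N` is finite
    let q : L →* L ⧸ N := QuotientGroup.mk' N
    have hq : Function.Surjective q := QuotientGroup.mk'_surjective N
    have hfin : Finite ↥(D.map q) := by
      have h1 : Finite (Multiplicative (E ⧸ B)) := hB3
      let f : ↥D →* Multiplicative (E ⧸ B) :=
        (AddMonoidHom.toMultiplicative (QuotientAddGroup.mk' B)).comp s.π
      have hf : f.ker ≤ (q.subgroupMap D).ker := by
        intro y hy
        rw [MonoidHom.mem_ker] at hy ⊢
        have h2 : QuotientAddGroup.mk' B (s.π y).toAdd = 0 := hy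
        have h3 : (s.π y).toAdd ∈ B := by
          rw [← QuotientAddGroup.ker_mk' B, AddMonoidHom.mem_ker]; exact h2
        have h4 : (y : L) ∈ N := ⟨_, h3, y.2, rfl⟩
        apply Subtype.ext
        show q y = 1
        exact (QuotientGroup.eq_one_iff _).2 h4
      have h5 : f.ker.FiniteIndex := inferInstance
      have h6 : (q.subgroupMap D).ker.FiniteIndex := Subgroup.finiteIndex_of_le hf
      have h7 : Finite (↥D ⧸ (q.subgroupMap D).ker) := Subgroup.finite_quotient_of_finiteIndex
      have h8 := q.subgroupMap_surjective D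
      exact Finite.of_surjective _
        ((QuotientGroup.quotientKerEquivOfSurjective _ h8).surjective)
    have hDq : (D.map q).Normal := hDn.map q hq
    have hvnil : VNil (L ⧸ N) := by
      refine vnil_of_finite_commutator (D.map q) ?_
      have e1 : (⊤ : Subgroup (L ⧸ N)) = (⊤ : Subgroup L).map q :=
        (Subgroup.map_top_of_surjective _ hq).symm
      rw [e1, ← Subgroup.map_commutator]
    have hLNfg : Group.FG (L ⧸ N) := QuotientGroup.fg N
    exact rf_pull q hq (T_vnil hvnil) g (fun h => hgN ((QuotientGroup.eq_one_iff g).1 h))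
  · exact rf_pull p hp (T_vnil hqvn) g (fun h => hgD ((QuotientGroup.eq_one_iff g).1 h))

end Pool.Agent.H53R2
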