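import Pool.Agent.H53R2.CMet

set_option autoImplicit false

namespace Pool.Agent.H53R2

open scoped commutatorElement

section

variable {G : Type} [Group G]

/-- the subgroup generated by the conjugates `z^i x z^{-i}` -/
def Orb (z x : G) : Subgroup G := Subgroup.closure (Set.range fun i : ℤ => z ^ i * x * z ^ (-i))

theorem orb_mem (z x : G) (i : ℤ) : z ^ i * x * z ^ (-i) ∈ Orb z x :=
  Subgroup.subset_closure ⟨i, rfl⟩

theorem self_mem_orb (z x : G) : x ∈ Orb z x := by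
  have := orb_mem z x 0
  simpa using this

/-- invariance of a subgroup -/
def Inv (z : G) (X : Subgroup G) : Prop := ∀ (n : ℤ), ∀ u ∈ X, z ^ n * u * z ^ (-n) ∈ X

theorem orb_inv (z x : G) : Inv z (Orb z x) := by
  intro n u hu
  unfold Orb at hu ⊢
  induction hu using Subgroup.closure_induction with
  | mem u hu =>
    obtain ⟨i, rfl⟩ := hu
    apply Subgroup.subset_closure
    refine ⟨n + i, ?_⟩
    show z ^ (n + i) * x * z ^ (-(n + i)) = z ^ n * (z ^ i * x * z ^ (-i)) * z ^ (-n)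
    rw [neg_add_rev, zpow_add, zpow_add]
    group
  | one => simp
  | mul a b _ _ ha hb =>
    have h : z ^ n * (a * b) * z ^ (-n) = (z ^ n * a * z ^ (-n)) * (z ^ n * b * z ^ (-n)) := by
      group
    rw [h]
    exact Subgroup.mul_mem _ ha hb
  | inv a _ ha =>
    have h : z ^ n * a⁻¹ * z ^ (-n) = (z ^ n * a * z ^ (-n))⁻¹ := by group
    rw [h]
    exact Subgroup.inv_mem _ ha

theorem Inv.comm {z : G} {X : Subgroup G} (h : Inv z X) : Inv z ⁅X, X⁆ := by
  intro n u hu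
  have h1 : (⁅X, X⁆).map (MulAut.conj (z ^ n)).toMonoidHom ≤ ⁅X, X⁆ := by
    have h2 : X.map (MulAut.conj (z ^ n)).toMonoidHom ≤ X := by
      rintro _ ⟨a, ha, rfl⟩
      have := h n a ha
      rw [zpow_neg] at this
      exact this
    rw [Subgroup.map_commutator]
    exact Subgroup.commutator_mono h2 h2
  have h3 := h1 ⟨u, hu, rfl⟩
  rw [zpow_neg]
  exact h3

theorem orb_pow_le (z x : G) (m : ℕ) : Orb (z ^ m) x ≤ Orb z x := by
  rw [Orb, Subgroup.closure_le]
  rintro _ ⟨i, rfl⟩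
  have := orb_mem z x (m * i)
  have e : (z ^ m) ^ i = z ^ ((m : ℤ) * i) := by rw [zpow_mul, zpow_natCast]
  have e' : (z ^ m) ^ (-i) = z ^ (-((m : ℤ) * i)) := by
    rw [← mul_neg, zpow_mul, zpow_natCast]
  show (z ^ m) ^ i * x * (z ^ m) ^ (-i) ∈ Orb z x
  rw [e, e']
  exact this

theorem orb_le_of_mem {z x w : G} (hw : w ∈ Orb z x) : Orb z w ≤ Orb z x := by
  rw [Orb, Subgroup.closure_le]
  rintro _ ⟨i, rfl⟩
  exact orb_inv z x i w hw

/-- elements commuting with all generators -/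
theorem commute_closure {x : G} {S : Set G} (h : ∀ s ∈ S, Commute x s) {u : G}
    (hu : u ∈ Subgroup.closure S) : Commute x u := by
  induction hu using Subgroup.closure_induction with
  | mem u hu => exact h u hu
  | one => exact Commute.one_right _
  | mul a b _ _ ha hb => exact ha.mul_right hb
  | inv a _ ha => exact ha.inv_right

theorem commute_shift {z x u : G} (n : ℤ) (h : Commute x (z ^ (-n) * u * z ^ n)) :
    Commute (z ^ n * x * z ^ (-n)) u := by
  have h1 : x * (z ^ (-n) * u * z ^ n) = (z ^ (-n) * u * z ^ n) * x := h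
  show z ^ n * x * z ^ (-n) * u = u * (z ^ n * x * z ^ (-n))
  calc z ^ n * x * z ^ (-n) * u = z ^ n * (x * (z ^ (-n) * u * z ^ n)) * z ^ (-n) := by group
    _ = z ^ n * ((z ^ (-n) * u * z ^ n) * x) * z ^ (-n) := by rw [h1]
    _ = u * (z ^ n * x * z ^ (-n)) := by group

theorem isolated_symm {x y z : G} (h : ∀ i : ℤ, i ≠ 0 → Commute x (z ^ i * y * z ^ (-i))) :
    ∀ i : ℤ, i ≠ 0 → Commute y (z ^ i * x * z ^ (-i)) := by
  intro i hi
  apply Commute.symm
  apply commute_shift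
  have := h (-i) (neg_ne_zero.2 hi)
  rwa [neg_neg] at this

/-- first reduction -/
theorem red_step (d : ℕ) (hd : derivedSeries G d = ⊥) (x y z : G)
    (h : ∀ i : ℤ, i ≠ 0 → Commute x (z ^ i * y * z ^ (-i))) (hxy : ¬ Commute x y) :
    ∃ w ∈ Orb z y, ∃ m : ℕ, ¬ Commute x w ∧
      (∀ i : ℤ, i ≠ 0 → Commute x ((z ^ m) ^ i * w * (z ^ m) ^ (-i))) ∧
      ∀ u ∈ ⁅Orb (z ^ m) w, Orb (z ^ m) w⁆, Commute x u := by
  classical
  have key : ∃ r, (∃ w ∈ Dr (Orb z y) r, ¬ Commute x w) ∧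
      ∀ u ∈ Dr (Orb z y) (r + 1), Commute x u := by
    by_contra hcon
    push Not at hcon
    have h1 : ∀ r, ∃ w ∈ Dr (Orb z y) r, ¬ Commute x w := by
      intro r
      induction r with
      | zero => exact ⟨y, self_mem_orb z y, hxy⟩
      | succ r ih =>
        exact hcon r ih
    obtain ⟨w, hw, hxw⟩ := h1 d
    have h2 := Dr_le (Orb z y) d hw
    rw [hd, Subgroup.mem_bot] at h2
    rw [h2] at hxw
    exact hxw (Commute.one_right x)
  obtain ⟨r, ⟨w, hw, hxw⟩, hr⟩ := key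
  have hwY : w ∈ Orb z y := Dr_le_self _ r hw
  -- `w` involves finitely many conjugates
  have hfin : ∃ s : ℕ, w ∈ Subgroup.closure {g | ∃ i : ℤ, |i| ≤ s ∧ g = z ^ i * y * z ^ (-i)} := by
    unfold Orb at hwY
    clear hw hxw
    induction hwY using Subgroup.closure_induction with
    | mem u hu =>
      obtain ⟨i, rfl⟩ := hu
      exact ⟨i.natAbs, Subgroup.subset_closure ⟨i, by simp, rfl⟩⟩
    | one => exact ⟨0, Subgroup.one_mem _⟩
    | mul a b _ _ ha hb =>
      obtain ⟨s, hs⟩ := ha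
      obtain ⟨s', hs'⟩ := hb
      refine ⟨max s s', Subgroup.mul_mem _ (Subgroup.closure_mono ?_ hs)
        (Subgroup.closure_mono ?_ hs')⟩
      · rintro g ⟨i, hi, e⟩
        exact ⟨i, hi.trans (by exact_mod_cast le_max_left s s'), e⟩
      · rintro g ⟨i, hi, e⟩
        exact ⟨i, hi.trans (by exact_mod_cast le_max_right s s'), e⟩
    | inv a _ ha =>
      obtain ⟨s, hs⟩ := ha
      exact ⟨s, Subgroup.inv_mem _ hs⟩
  obtain ⟨s, hs⟩ := hfin
  refine ⟨w, hwY, s + 1, hxw, ?_, ?_⟩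
  · intro i hi
    have e : ∀ g : G, (z ^ (s + 1)) ^ i * g * (z ^ (s + 1)) ^ (-i) =
        z ^ (((s : ℤ) + 1) * i) * g * z ^ (-(((s : ℤ) + 1) * i)) := by
      intro g
      have e1 : (z ^ (s + 1)) ^ i = z ^ (((s : ℤ) + 1) * i) := by
        rw [zpow_mul]; congr 1
        rw [← Nat.cast_succ, zpow_natCast]
      have e2 : (z ^ (s + 1)) ^ (-i) = z ^ (-(((s : ℤ) + 1) * i)) := by
        rw [zpow_neg, e1, zpow_neg]
      rw [e1, e2]
    rw [e]
    set n : ℤ := ((s : ℤ) + 1) * i with hn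
    have hnabs : (s : ℤ) < |n| := by
      rw [hn, abs_mul]
      have h1 : 1 ≤ |i| := Int.one_le_abs hi
      have h2 : |(s : ℤ) + 1| = s + 1 := abs_of_nonneg (by positivity)
      rw [h2]
      nlinarith
    -- the conjugate of `w`
    have hclo : ∀ g ∈ Subgroup.closure {g | ∃ i : ℤ, |i| ≤ s ∧ g = z ^ i * y * z ^ (-i)},
        Commute x (z ^ n * g * z ^ (-n)) := by
      intro g hg
      induction hg using Subgroup.closure_induction with
      | mem g hg =>
        obtain ⟨j, hj, rfl⟩ := hg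
        have h1 : z ^ n * (z ^ j * y * z ^ (-j)) * z ^ (-n) = z ^ (n + j) * y * z ^ (-(n + j)) := by
          rw [neg_add_rev, zpow_add, zpow_add]
          group
        rw [h1]
        apply h
        intro h0
        have h2 : j = -n := by omega
        rw [h2, abs_neg] at hj
        omega
      | one => simp
      | mul a b _ _ ha hb =>
        have h1 : z ^ n * (a * b) * z ^ (-n) = (z ^ n * a * z ^ (-n)) * (z ^ n * b * z ^ (-n)) := by
          group
        rw [h1]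
        exact ha.mul_right hb
      | inv a _ ha =>
        have h1 : z ^ n * a⁻¹ * z ^ (-n) = (z ^ n * a * z ^ (-n))⁻¹ := by group
        rw [h1]
        exact ha.inv_right
    exact hclo w hs
  · intro u hu
    apply hr
    rw [Dr_succ]
    have hinv : ∀ r, Inv z (Dr (Orb z y) r) := by
      intro r
      induction r with
      | zero => exact orb_inv z y
      | succ r ih => rw [Dr_succ]; exact ih.comm
    have hle : Orb (z ^ (s + 1)) w ≤ Dr (Orb z y) r := by
      refine (orb_pow_le z w (s + 1)).trans ?_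
      rw [Orb, Subgroup.closure_le]
      rintro _ ⟨i, rfl⟩
      exact hinv r i w hw
    exact Subgroup.commutator_mono hle hle hu

/-- both reductions -/
theorem red_two (d : ℕ) (hd : derivedSeries G d = ⊥) (x y z : G)
    (h : ∀ i : ℤ, i ≠ 0 → Commute x (z ^ i * y * z ^ (-i))) (hxy : ¬ Commute x y) :
    ∃ x' y' z' : G, ¬ Commute x' y' ∧
      (∀ i : ℤ, i ≠ 0 → Commute x' (z' ^ i * y' * z' ^ (-i))) ∧
      (∀ u ∈ ⁅Orb z' y', Orb z' y'⁆, Commute x' u) ∧
      (∀ u ∈ ⁅Orb z' x', Orb z' x'⁆, Commute y' u) := by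
  obtain ⟨w, hw, m, h1, h2, h3⟩ := red_step d hd x y z h hxy
  obtain ⟨v, hv, m', g1, g2, g3⟩ := red_step d hd w x (z ^ m) (isolated_symm h2)
    (fun h => h1 h.symm)
  refine ⟨v, w, (z ^ m) ^ m', fun h => g1 h.symm, isolated_symm g2, ?_, g3⟩
  intro u hu
  -- `u` commutes with all conjugates of `x`
  have hu' : u ∈ ⁅Orb (z ^ m) w, Orb (z ^ m) w⁆ :=
    Subgroup.commutator_mono (orb_pow_le _ _ _) (orb_pow_le _ _ _) hu
  apply Commute.symm
  refine commute_closure (S := Set.range fun i : ℤ => (z ^ m) ^ i * x * (z ^ m) ^ (-i)) ?_ hv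
  rintro _ ⟨i, rfl⟩
  apply Commute.symm
  apply commute_shift
  apply h3
  have := (orb_inv (z ^ m) w).comm (-i) u hu'
  rwa [neg_neg] at this

end

theorem inVar_prod {W : Set (FreeGroup ℕ)} {G H : Type} [Group G] [Group H] (hG : InVar W G)
    (hH : InVar W H) : InVar W (G × H) := by
  intro w hw f
  have h1 : (MonoidHom.fst G H) (FreeGroup.lift f w) = 1 := by
    have e : (MonoidHom.fst G H).comp (FreeGroup.lift f) = FreeGroup.lift (fun n => (f n).1) := by
      apply FreeGroup.ext_hom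
      intro n
      simp
    have := hG w hw (fun n => (f n).1)
    rw [← e] at this
    exact this
  have h2 : (MonoidHom.snd G H) (FreeGroup.lift f w) = 1 := by
    have e : (MonoidHom.snd G H).comp (FreeGroup.lift f) = FreeGroup.lift (fun n => (f n).2) := by
      apply FreeGroup.ext_hom
      intro n
      simp
    have := hH w hw (fun n => (f n).2)
    rw [← e] at this
    exact this
  exact Prod.ext h1 h2

/-- replacing the action of `P` on the normal subgroup `N` by the faithful quotient -/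
theorem trick {W : Set (FreeGroup ℕ)} {G : Type} [Group G] (hG : InVar W G) (P N : Subgroup G)
    (hPN : ∀ g ∈ P, ∀ n ∈ N, g * n * g⁻¹ ∈ N) :
    ∃ (G' : Type) (_ : Group G') (_ : InVar W G') (α : ↥P →* G') (β : ↥N →* G'),
      Function.Injective β ∧ (∀ g : ↥P, (∀ n ∈ N, Commute (g : G) n) → α g = 1) ∧
      ∀ (g : ↥P) (n : ↥N), α g * β n * (α g)⁻¹ = β ⟨g * n * (g : G)⁻¹, hPN g g.2 n n.2⟩ := by
  let Γ : Subgroup (G × G) :=
    { carrier := {p | p.1 ∈ P ∧ p.1⁻¹ * p.2 ∈ N}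
      one_mem' := ⟨P.one_mem, by simp [N.one_mem]⟩
      mul_mem' := by
        rintro ⟨a, b⟩ ⟨c, d⟩ ⟨h1, h2⟩ ⟨h3, h4⟩
        refine ⟨P.mul_mem h1 h3, ?_⟩
        have h5 := hPN _ (P.inv_mem h3) _ h2
        have h6 := N.mul_mem h5 h4
        have e : c⁻¹ * (a⁻¹ * b) * c⁻¹⁻¹ * (c⁻¹ * d) = (a * c)⁻¹ * (b * d) := by group
        have h7 : c⁻¹ * (a⁻¹ * b) * c⁻¹⁻¹ * (c⁻¹ * d) ∈ N := h6
        rw [e] at h7
        exact h7
      inv_mem' := by
        rintro ⟨a, b⟩ ⟨h1, h2⟩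
        refine ⟨P.inv_mem h1, ?_⟩
        have h5 := hPN _ h1 _ (N.inv_mem h2)
        have e : a * (a⁻¹ * b)⁻¹ * a⁻¹ = a⁻¹⁻¹ * b⁻¹ := by group
        have h6 : a * (a⁻¹ * b)⁻¹ * a⁻¹ ∈ N := h5
        rw [e] at h6
        exact h6 }
  let Δ : Subgroup ↥Γ :=
    { carrier := {p | p.1.1 = p.1.2 ∧ ∀ n ∈ N, Commute p.1.1 n}
      one_mem' := ⟨rfl, fun n _ => Commute.one_left n⟩
      mul_mem' := by
        rintro a b ⟨h1, h2⟩ ⟨h3, h4⟩
        exact ⟨congrArg₂ (· * ·) h1 h3, fun n hn => (h2 n hn).mul_left (h4 n hn)⟩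
      inv_mem' := by
        rintro a ⟨h1, h2⟩
        exact ⟨congrArg (·⁻¹) h1, fun n hn => (h2 n hn).inv_left⟩ }
  have hΔ : Δ.Normal := by
    constructor
    rintro ⟨⟨c, c'⟩, hc⟩ ⟨h1, h2⟩ ⟨⟨a, b⟩, ha, hb⟩
    have h1' : c = c' := h1
    subst h1'
    have h2' : ∀ n ∈ N, Commute c n := h2
    refine ⟨?_, ?_⟩
    · show a * c * a⁻¹ = b * c * b⁻¹
      have h3 : c * (a⁻¹ * b) = (a⁻¹ * b) * c := h2' _ hb
      have h4 : b * c = a * ((a⁻¹ * b) * c) := by group
      rw [h4, ← h3]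
      group
    · intro n hn
      show Commute (a * c * a⁻¹) n
      have h3 : a⁻¹ * n * a⁻¹⁻¹ ∈ N := hPN _ (P.inv_mem ha) n hn
      have h4 : c * (a⁻¹ * n * a⁻¹⁻¹) = (a⁻¹ * n * a⁻¹⁻¹) * c := h2' _ h3
      show a * c * a⁻¹ * n = n * (a * c * a⁻¹)
      calc a * c * a⁻¹ * n = a * (c * (a⁻¹ * n * a⁻¹⁻¹)) * a⁻¹ := by group
        _ = a * ((a⁻¹ * n * a⁻¹⁻¹) * c) * a⁻¹ := by rw [h4]
        _ = n * (a * c * a⁻¹) := by group
  have hGG : InVar W (G × G) := inVar_prod hG hG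
  let α₀ : ↥P →* ↥Γ :=
    { toFun := fun g => ⟨((g : G), (g : G)), g.2, by
        show (g : G)⁻¹ * g ∈ N
        rw [inv_mul_cancel]; exact N.one_mem⟩
      map_one' := rfl
      map_mul' := fun _ _ => rfl }
  let β₀ : ↥N →* ↥Γ :=
    { toFun := fun n => ⟨((1 : G), (n : G)), P.one_mem, by
        show (1 : G)⁻¹ * n ∈ N
        rw [inv_one, one_mul]; exact n.2⟩
      map_one' := rfl
      map_mul' := fun a b => by
        apply Subtype.ext
        exact Prod.ext (one_mul (1 : G)).symm rfl }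
  refine ⟨↥Γ ⧸ Δ, inferInstance, (hGG.subgroup Γ).quot Δ, (QuotientGroup.mk' Δ).comp α₀,
    (QuotientGroup.mk' Δ).comp β₀, ?_, ?_, ?_⟩
  · rw [injective_iff_map_eq_one]
    intro n hn
    have h1 : β₀ n ∈ Δ := (QuotientGroup.eq_one_iff _).1 hn
    have h2 : (1 : G) = (n : G) := h1.1
    exact Subtype.ext h2.symm
  · intro g hg
    exact (QuotientGroup.eq_one_iff _).2 ⟨rfl, hg⟩
  · intro g n
    show QuotientGroup.mk' Δ (α₀ g) * QuotientGroup.mk' Δ (β₀ n) * (QuotientGroup.mk' Δ (α₀ g))⁻¹ =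
      QuotientGroup.mk' Δ (β₀ _)
    rw [← map_mul, ← map_inv, ← map_mul]
    congr 1
    apply Subtype.ext
    refine Prod.ext ?_ rfl
    show (g : G) * 1 * (g : G)⁻¹ = 1
    rw [mul_one, mul_inv_cancel]

/-- making the conjugates of `x` commute -/
theorem step34 {W : Set (FreeGroup ℕ)} {G : Type} [Group G] (hG : InVar W G) (x y z : G)
    (h1 : ¬ Commute x y) (h2 : ∀ i : ℤ, i ≠ 0 → Commute x (z ^ i * y * z ^ (-i)))
    (hX : ∀ u ∈ ⁅Orb z x, Orb z x⁆, Commute y u) :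
    ∃ (G' : Type) (_ : Group G') (_ : InVar W G') (x' y' z' : G'), ¬ Commute x' y' ∧
      (∀ i : ℤ, i ≠ 0 → Commute x' (z' ^ i * y' * z' ^ (-i))) ∧
      (∀ i j : ℤ, Commute (z' ^ i * x' * z' ^ (-i)) (z' ^ j * x' * z' ^ (-j))) ∧
      ((∀ u ∈ ⁅Orb z y, Orb z y⁆, Commute x u) →
        ∀ u ∈ ⁅Orb z' y', Orb z' y'⁆, Commute x' u) ∧
      ((∀ i j : ℤ, Commute (z ^ i * y * z ^ (-i)) (z ^ j * y * z ^ (-j))) →
        ∀ i j : ℤ, Commute (z' ^ i * y' * z' ^ (-i)) (z' ^ j * y' * z' ^ (-j))) := by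
  classical
  let P : Subgroup G := Subgroup.closure {x, z}
  have hxP : x ∈ P := Subgroup.subset_closure (Or.inl rfl)
  have hzP : z ∈ P := Subgroup.subset_closure (Or.inr rfl)
  let N : Subgroup G := Subgroup.closure {n | ∃ g ∈ P, n = g * y * g⁻¹}
  have hPN : ∀ g ∈ P, ∀ n ∈ N, g * n * g⁻¹ ∈ N := by
    intro g hg n hn
    have h3 : N.map (MulAut.conj g).toMonoidHom ≤ N := by
      show (Subgroup.closure _).map _ ≤ _
      rw [MonoidHom.map_closure, Subgroup.closure_le]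
      rintro _ ⟨_, ⟨g', hg', rfl⟩, rfl⟩
      apply Subgroup.subset_closure
      refine ⟨g * g', P.mul_mem hg hg', ?_⟩
      show g * (g' * y * g'⁻¹) * g⁻¹ = g * g' * y * (g * g')⁻¹
      group
    exact h3 ⟨n, hn, rfl⟩
  have hyN : ∀ g ∈ P, g * y * g⁻¹ ∈ N := fun g hg => Subgroup.subset_closure ⟨g, hg, rfl⟩
  have hziN : ∀ i : ℤ, z ^ i * y * z ^ (-i) ∈ N := by
    intro i
    rw [zpow_neg]
    exact hyN _ (P.zpow_mem hzP i)
  have hy1 : y ∈ N := by simpa using hziN 0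
  -- `P` normalizes the orbit of `x`
  have hPX : ∀ g ∈ P, ∀ u ∈ ⁅Orb z x, Orb z x⁆, g * u * g⁻¹ ∈ ⁅Orb z x, Orb z x⁆ := by
    intro g hg
    have h3 : ∀ g ∈ P, (Orb z x).map (MulAut.conj g).toMonoidHom ≤ Orb z x := by
      intro g hg
      have h4 : P ≤ Subgroup.normalizer (Orb z x : Set G) := by
        show Subgroup.closure _ ≤ _
        rw [Subgroup.closure_le]
        rintro g (rfl | rfl)
        · exact Subgroup.le_normalizer (self_mem_orb z g)
        · rw [SetLike.mem_coe, Subgroup.mem_normalizer_iff]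
          intro u
          constructor
          · intro hu
            have := orb_inv g x 1 u hu
            simpa using this
          · intro hu
            have := orb_inv g x (-1) _ hu
            have e : g ^ (-1 : ℤ) * (g * u * g⁻¹) * g ^ (-(-1) : ℤ) = u := by group
            rwa [e] at this
      rintro _ ⟨u, hu, rfl⟩
      have := (Subgroup.mem_normalizer_iff.1 (h4 hg) u).1 hu
      exact this
    intro u hu
    have h5 : (⁅Orb z x, Orb z x⁆).map (MulAut.conj g).toMonoidHom ≤ ⁅Orb z x, Orb z x⁆ := by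
      rw [Subgroup.map_commutator]
      exact Subgroup.commutator_mono (h3 g hg) (h3 g hg)
    exact h5 ⟨u, hu, rfl⟩
  -- the commutator subgroup of the orbit centralizes `N`
  have hXN : ∀ u ∈ ⁅Orb z x, Orb z x⁆, ∀ n ∈ N, Commute u n := by
    intro u hu n hn
    refine commute_closure ?_ hn
    rintro _ ⟨g, hg, rfl⟩
    have h3 := hX _ (hPX g⁻¹ (P.inv_mem hg) u hu)
    rw [inv_inv] at h3
    have h4 : y * (g⁻¹ * u * g) = (g⁻¹ * u * g) * y := h3
    show u * (g * y * g⁻¹) = g * y * g⁻¹ * u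
    calc u * (g * y * g⁻¹) = g * ((g⁻¹ * u * g) * y) * g⁻¹ := by group
      _ = g * (y * (g⁻¹ * u * g)) * g⁻¹ := by rw [h4]
      _ = g * y * g⁻¹ * u := by group
  obtain ⟨G', hGr, hG', α, β, hβ, hα, hαβ⟩ := trick hG P N hPN
  let x' : G' := α ⟨x, hxP⟩
  let y' : G' := β ⟨y, hy1⟩
  let z' : G' := α ⟨z, hzP⟩
  have hzy : ∀ i : ℤ, z' ^ i * y' * z' ^ (-i) = β ⟨z ^ i * y * z ^ (-i), hziN i⟩ := by
    intro i
    have h3 := hαβ (⟨z, hzP⟩ ^ i) ⟨y, hy1⟩
    rw [map_zpow] at h3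
    rw [zpow_neg]
    refine h3.trans ?_
    congr 1
    apply Subtype.ext
    show z ^ i * y * (z ^ i)⁻¹ = z ^ i * y * z ^ (-i)
    rw [zpow_neg]
  have hcomm : ∀ (g : ↥P) (n : ↥N), Commute (α g) (β n) ↔ Commute (g : G) (n : G) := by
    intro g n
    have h3 := hαβ g n
    constructor
    · intro h
      have h4 : α g * β n * (α g)⁻¹ = β n := by rw [h.eq, mul_inv_cancel_right]
      rw [h4] at h3
      have h5 := congrArg Subtype.val (hβ h3)
      have h6 : (n : G) = (g : G) * n * (g : G)⁻¹ := h5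
      show (g : G) * n = n * g
      rw [eq_mul_inv_iff_mul_eq] at h6
      exact h6.symm
    · intro h
      have h4 : (⟨(g : G) * n * (g : G)⁻¹, hPN g g.2 n n.2⟩ : ↥N) = n := by
        apply Subtype.ext
        show (g : G) * n * (g : G)⁻¹ = n
        rw [h.eq, mul_inv_cancel_right]
      rw [h4] at h3
      show α g * β n = β n * α g
      rw [mul_inv_eq_iff_eq_mul] at h3
      exact h3
  refine ⟨G', hGr, hG', x', y', z', ?_, ?_, ?_, ?_, ?_⟩
  · intro h
    exact h1 ((hcomm _ _).1 h)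
  · intro i hi
    rw [hzy]
    exact (hcomm _ _).2 (h2 i hi)
  · intro i j
    have e : ∀ i : ℤ, z' ^ i * x' * z' ^ (-i) =
        α (⟨z, hzP⟩ ^ i * ⟨x, hxP⟩ * ⟨z, hzP⟩ ^ (-i)) := by
      intro i
      rw [map_mul, map_mul, map_zpow, map_zpow]
    rw [e, e, ← commutatorElement_eq_one_iff_commute, ← map_commutatorElement]
    apply hα
    intro n hn
    refine hXN _ ?_ n hn
    exact Subgroup.commutator_mem_commutator (orb_mem z x i) (orb_mem z x j)
  · intro hy u hu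
    -- `u` is the image of an element of the commutator subgroup of the orbit of `y`
    have hYN : Orb z y ≤ N := by
      rw [Orb, Subgroup.closure_le]
      rintro _ ⟨i, rfl⟩
      exact hziN i
    have h3 : Orb z' y' ≤ ((Orb z y).subgroupOf N).map β := by
      rw [Orb, Subgroup.closure_le]
      rintro _ ⟨i, rfl⟩
      refine ⟨⟨z ^ i * y * z ^ (-i), hziN i⟩, ?_, (hzy i).symm⟩
      exact Subgroup.mem_subgroupOf.2 (orb_mem z y i)
    have h4 := Subgroup.commutator_mono h3 h3 hu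
    rw [← Subgroup.map_commutator] at h4
    obtain ⟨v, hv, rfl⟩ := h4
    refine (hcomm _ _).2 (hy v ?_)
    have h5 : (⁅(Orb z y).subgroupOf N, (Orb z y).subgroupOf N⁆).map N.subtype ≤
        ⁅Orb z y, Orb z y⁆ := by
      rw [Subgroup.map_commutator]
      exact Subgroup.commutator_mono (Subgroup.map_comap_le _ _) (Subgroup.map_comap_le _ _)
    exact h5 ⟨v, hv, rfl⟩
  · intro hy i j
    rw [hzy, hzy, ← commutatorElement_eq_one_iff_commute, ← map_commutatorElement]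
    have h3 := hy i j
    rw [← commutatorElement_eq_one_iff_commute] at h3
    have h4 : ⁅(⟨z ^ i * y * z ^ (-i), hziN i⟩ : ↥N),
        (⟨z ^ j * y * z ^ (-j), hziN j⟩ : ↥N)⁆ = 1 :=
      Subtype.ext h3
    rw [h4, map_one]

/-- Task C1 -/
theorem exists_cfg {W : Set (FreeGroup ℕ)} (d : ℕ)
    (hd : ∀ (G : Type) [Group G], InVar W G → derivedSeries G d = ⊥)
    (G : Type) [Group G] (hG : InVar W G) (x y z : G)
    (h : ∀ i : ℤ, i ≠ 0 → ⁅x, z ^ i * y * z ^ (-i)⁆ = 1) (hxy : ⁅x, y⁆ ≠ 1) :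
    ∃ (G' : Type) (_ : Group G') (_ : InVar W G') (t : G') (L : Subgroup G'),
      Cfg t L ∧ NonAb L := by
  obtain ⟨x₁, y₁, z₁, h1, h2, h3, h4⟩ := red_two d (hd G hG) x y z
    (fun i hi => commutatorElement_eq_one_iff_commute.1 (h i hi))
    (fun h => hxy (commutatorElement_eq_one_iff_commute.2 h))
  obtain ⟨G₂, _, hG₂, x₂, y₂, z₂, a1, a2, a3, a4, _⟩ := step34 hG x₁ y₁ z₁ h1 h2 h4
  obtain ⟨G₃, hGr, hG₃, y₃, x₃, z₃, b1, b2, b3, _, b5⟩ := step34 hG₂ y₂ x₂ z₂
    (fun h => a1 h.symm) (isolated_symm a2) (a4 h3)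
  have b5' := b5 a3
  refine ⟨G₃, hGr, hG₃, z₃, Subgroup.closure {x₃, y₃}, ?_, x₃,
    Subgroup.subset_closure (Or.inl rfl), y₃, Subgroup.subset_closure (Or.inr rfl),
    fun h => b1 (commutatorElement_eq_one_iff_commute.1 h).symm⟩
  -- generators commute
  have c1 : ∀ i : ℤ, i ≠ 0 → Commute y₃ (z₃ ^ i * x₃ * z₃ ^ (-i)) := b2
  have c2 : ∀ i : ℤ, i ≠ 0 → Commute x₃ (z₃ ^ i * y₃ * z₃ ^ (-i)) := isolated_symm b2
  have c3 : ∀ i : ℤ, Commute y₃ (z₃ ^ i * y₃ * z₃ ^ (-i)) := by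
    intro i
    have := b3 0 i
    simpa using this
  have c4 : ∀ i : ℤ, Commute x₃ (z₃ ^ i * x₃ * z₃ ^ (-i)) := by
    intro i
    have := b5' 0 i
    simpa using this
  intro i hi a ha b hb
  have key : ∀ g ∈ ({x₃, y₃} : Set G₃), ∀ b ∈ Subgroup.closure ({x₃, y₃} : Set G₃),
      Commute g (z₃ ^ i * b * z₃ ^ (-i)) := by
    intro g hg b hb
    induction hb using Subgroup.closure_induction with
    | mem b hb =>
      rcases hg with rfl | rfl <;> rcases hb with rfl | rfl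
      · exact c4 i
      · exact c2 i hi
      · exact c1 i hi
      · exact c3 i
    | one => simp
    | mul b b' _ _ h h' =>
      have e : z₃ ^ i * (b * b') * z₃ ^ (-i) =
          (z₃ ^ i * b * z₃ ^ (-i)) * (z₃ ^ i * b' * z₃ ^ (-i)) := by group
      rw [e]
      exact h.mul_right h'
    | inv b _ h =>
      have e : z₃ ^ i * b⁻¹ * z₃ ^ (-i) = (z₃ ^ i * b * z₃ ^ (-i))⁻¹ := by group
      rw [e]
      exact h.inv_right
  exact ((commute_closure (fun g hg => (key g hg b hb).symm) ha).symm).eq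

end Pool.Agent.H53R2
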