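import Pool.Agent.H53R2.CGL
import Pool.Agent.H53R2.CMet
import Pool.Agent.H53R2.CRed
import Pool.Agent.H53R2.CRF

set_option autoImplicit false

namespace Pool.Agent.H53R2

open scoped commutatorElement

/-- finite non-abelian groups all of whose proper subgroups and proper quotients are abelian -/
structure MinNonAb (K : Type) [Group K] : Prop where
  fin : Finite K
  nonab : ∃ a b : K, ⁅a, b⁆ ≠ 1
  sub : ∀ H : Subgroup K, H ≠ ⊤ → ∀ a ∈ H, ∀ b ∈ H, ⁅a, b⁆ = 1
  quot : ∀ (R : Subgroup K) [R.Normal], R ≠ ⊥ → ∀ a b : K, ⁅a, b⁆ ∈ R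

theorem RFin_of_finite (G : Type) [Group G] [Finite G] : RFin G :=
  fun _ hg => ⟨⊥, inferInstance, inferInstance, fun h => hg (Subgroup.mem_bot.1 h)⟩

theorem card_lt_quot {K : Type} [Group K] [Finite K] (R : Subgroup K) [R.Normal] (hR : R ≠ ⊥) :
    Nat.card (K ⧸ R) < Nat.card K := by
  have h1 := Subgroup.card_eq_card_quotient_mul_card_subgroup R
  have h2 : 1 < Nat.card ↥R := by
    by_contra h
    apply hR
    rw [← Subgroup.card_eq_one]
    have := Nat.card_pos (α := ↥R)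
    omega
  have h3 : 0 < Nat.card (K ⧸ R) := Nat.card_pos
  rw [h1]
  nlinarith

/-- existence of a minimal forbidden group -/
theorem exists_min {W : Set (FreeGroup ℕ)} (h : ∃ (K : Type) (_ : Group K), Finite K ∧
    (∃ a b : K, ⁅a, b⁆ ≠ 1) ∧ InVar W (CW K)) :
    ∃ (K : Type) (_ : Group K), MinNonAb K ∧ InVar W (CW K) := by
  classical
  have h' : ∃ n : ℕ, ∃ (K : Type) (_ : Group K), Nat.card K = n ∧ Finite K ∧
      (∃ a b : K, ⁅a, b⁆ ≠ 1) ∧ InVar W (CW K) := by
    obtain ⟨K, hK, h1, h2⟩ := h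
    exact ⟨_, K, hK, rfl, h1, h2⟩
  obtain ⟨K, hK, hcard, hfin, hnab, hW⟩ := Nat.find_spec h'
  have hmin : ∀ (K' : Type) [Group K'], Finite K' → (∃ a b : K', ⁅a, b⁆ ≠ 1) →
      InVar W (CW K') → Nat.card K ≤ Nat.card K' := by
    intro K' _ h1 h2 h3
    rw [hcard]
    exact Nat.find_min' h' ⟨K', inferInstance, rfl, h1, h2, h3⟩
  refine ⟨K, hK, ⟨hfin, hnab, ?_, ?_⟩, hW⟩
  · intro H hH a ha b hb
    by_contra hab
    have hHfin : Finite ↥(H.map (cι K)) := by
      have : Finite ↥H := inferInstance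
      exact Finite.of_surjective _ ((cι K).subgroupMap_surjective H)
    have hcfg : Cfg (cτ K) (H.map (cι K)) := by
      rintro i hi _ ⟨x, _, rfl⟩ _ ⟨y, _, rfl⟩
      exact CW_comm K i hi x y
    have hna : NonAb (H.map (cι K)) := by
      refine ⟨cι K a, ⟨a, ha, rfl⟩, cι K b, ⟨b, hb, rfl⟩, fun h => hab ?_⟩
      rw [← map_commutatorElement] at h
      exact CW_inj K (h.trans (map_one _).symm)
    have hfg : (H.map (cι K)).FG := by
      rw [← Group.fg_iff_subgroup_fg]
      infer_instance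
    obtain ⟨K', hK', ψ, hψ, hfin', hnab', hW'⟩ := C_GL hW (cτ K) (H.map (cι K)) hfg hcfg hna
      (fun R _ => RFin_of_finite _)
    have h1 := hmin K' hfin' hnab' hW'
    have h2 : Nat.card K' ≤ Nat.card ↥(H.map (cι K)) := Nat.card_le_card_of_surjective ψ hψ
    have h3 : Nat.card ↥(H.map (cι K)) ≤ Nat.card ↥H :=
      Nat.card_le_card_of_surjective _ ((cι K).subgroupMap_surjective H)
    have h4 : Nat.card ↥H < Nat.card K := by
      refine lt_of_le_of_ne (Subgroup.card_le_card_group H) fun h => hH ?_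
      exact Subgroup.eq_top_of_card_eq H h
    omega
  · intro R _ hR a b
    by_contra hab
    obtain ⟨f, hf⟩ := CW_map (QuotientGroup.mk' R) (QuotientGroup.mk'_surjective R)
    have h1 := hmin (K ⧸ R) inferInstance ⟨QuotientGroup.mk' R a, QuotientGroup.mk' R b, by
      rw [← map_commutatorElement]
      intro h
      exact hab ((QuotientGroup.eq_one_iff _).1 h)⟩ (hW.of_surjective f hf)
    have h2 := card_lt_quot R hR
    omega

/-- if the variety has an isolated commutator, it contains a forbidden group -/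
theorem exists_CW {W : Set (FreeGroup ℕ)} (d : ℕ)
    (hd : ∀ (G : Type) [Group G], InVar W G → derivedSeries G d = ⊥)
    (G : Type) [Group G] (hG : InVar W G) (x y z : G)
    (h : ∀ i : ℤ, i ≠ 0 → ⁅x, z ^ i * y * z ^ (-i)⁆ = 1) (hxy : ⁅x, y⁆ ≠ 1) :
    ∃ (K : Type) (_ : Group K), MinNonAb K ∧ InVar W (CW K) := by
  obtain ⟨G', hG', hW', t, L, hcfg, hna⟩ := exists_cfg d hd G hG x y z h hxy
  obtain ⟨L₁, hle, hfg, hmet, hna'⟩ := exists_metab d (hd G' hW') L hna
  have hfg' : Group.FG ↥L₁ := (Group.fg_iff_subgroup_fg L₁).2 hfg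
  have hmet' : ⁅⁅(⊤ : Subgroup ↥L₁), (⊤ : Subgroup ↥L₁)⁆, ⁅(⊤ : Subgroup ↥L₁), (⊤ : Subgroup ↥L₁)⁆⁆
      = ⊥ := by
    apply Subgroup.map_injective L₁.subtype_injective
    rw [Subgroup.map_commutator, Subgroup.map_commutator, ← MonoidHom.range_eq_map,
      Subgroup.range_subtype, hmet, Subgroup.map_bot]
  obtain ⟨K, hK, ψ, hψ, hfin, hnab, hWK⟩ := C_GL hW' t L₁ hfg
    (fun i hi a ha b hb => hcfg i hi a (hle ha) b (hle hb)) hna' (by
      intro R _
      have hfgR : Group.FG (↥L₁ ⧸ R) := QuotientGroup.fg R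
      apply RFin_metab
      have h1 : (⊤ : Subgroup (↥L₁ ⧸ R)) = (⊤ : Subgroup ↥L₁).map (QuotientGroup.mk' R) :=
        (Subgroup.map_top_of_surjective _ (QuotientGroup.mk'_surjective R)).symm
      rw [h1, ← Subgroup.map_commutator, ← Subgroup.map_commutator, hmet', Subgroup.map_bot])
  exact exists_min ⟨K, hK, hfin, hnab, hWK⟩

/-- if there are no isolated commutators, the variety contains no forbidden group -/
theorem not_CW {W : Set (FreeGroup ℕ)}
    (h : ∀ (G : Type) [Group G], InVar W G → ∀ x y z : G,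
      (∀ i : ℤ, i ≠ 0 → ⁅x, z ^ i * y * z ^ (-i)⁆ = 1) → ⁅x, y⁆ = 1)
    (K : Type) [Group K] (hnab : ∃ a b : K, ⁅a, b⁆ ≠ 1) : ¬ InVar W (CW K) := by
  obtain ⟨a, b, hab⟩ := hnab
  intro hW
  apply hab
  apply CW_inj K
  rw [map_one, map_commutatorElement]
  apply h _ hW _ _ (cτ K)
  intro i hi
  rw [commutatorElement_eq_one_iff_mul_comm]
  exact CW_comm K i hi a b

end Pool.Agent.H53R2
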