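import Pool.Agent.H53R2.CWr

/-! Task C6 (helper55) -/

set_option autoImplicit false

namespace Pool.Agent.H53R2

open scoped commutatorElement IsMulCommutative

section

variable (K : Type) [Group K]

/-- the sum of the values of a finitely supported function -/
noncomputable def fsum (φ : Multiplicative ℤ →₀ Additive ↥(Subgroup.center K)) :
    Additive ↥(Subgroup.center K) := φ.sum fun _ a => a

theorem fsum_add (φ ψ : Multiplicative ℤ →₀ Additive ↥(Subgroup.center K)) :
    fsum K (φ + ψ) = fsum K φ + fsum K ψ :=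
  Finsupp.sum_add_index' (fun _ => rfl) (fun _ _ _ => rfl)

theorem fsum_neg (φ : Multiplicative ℤ →₀ Additive ↥(Subgroup.center K)) :
    fsum K (-φ) = -fsum K φ := by
  have h := fsum_add K φ (-φ)
  rw [add_neg_cancel] at h
  have h0 : fsum K 0 = 0 := Finsupp.sum_zero_index
  rw [h0] at h
  exact (neg_eq_of_add_eq_zero_right h.symm).symm

/-- central elements of the base group with total product one -/
noncomputable def cM : Subgroup (WP K) where
  carrier := {w | w.right = 1 ∧ ∃ φ : Multiplicative ℤ →₀ Additive ↥(Subgroup.center K),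
    (∀ j, w.left j = ((φ j).toMul : K)) ∧ fsum K φ = 0}
  one_mem' := ⟨rfl, 0, fun _ => rfl, Finsupp.sum_zero_index⟩
  mul_mem' := by
    rintro a b ⟨ha, φ, hφ, hφ0⟩ ⟨hb, ψ, hψ, hψ0⟩
    refine ⟨by rw [RegularWreathProduct.mul_right, ha, hb, one_mul], φ + ψ, ?_, ?_⟩
    · intro j
      rw [RegularWreathProduct.mul_left, Pi.mul_apply, ha, inv_one, one_mul, hφ, hψ]
      rfl
    · rw [fsum_add, hφ0, hψ0, add_zero]
  inv_mem' := by
    rintro a ⟨ha, φ, hφ, hφ0⟩
    refine ⟨by rw [RegularWreathProduct.inv_right, ha, inv_one], -φ, ?_, ?_⟩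
    · intro j
      rw [RegularWreathProduct.inv_left]
      change (a.left (a.right * j))⁻¹ = _
      rw [ha, one_mul, hφ]
      rfl
    · rw [fsum_neg, hφ0, neg_zero]

instance : (cM K).Normal := by
  refine ⟨?_⟩
  rintro a ⟨ha, φ, hφ, hφ0⟩ g
  refine ⟨?_, φ.mapDomain (fun j => g.right * j), ?_, ?_⟩
  · simp [ha]
  · intro j
    have hinj : Function.Injective (fun j : Multiplicative ℤ => g.right * j) :=
      mul_right_injective g.right
    have e : (φ.mapDomain (fun j => g.right * j)) j = φ (g.right⁻¹ * j) := by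
      have h := Finsupp.mapDomain_apply hinj φ (g.right⁻¹ * j)
      rw [mul_inv_cancel_left] at h
      exact h
    rw [e]
    simp only [RegularWreathProduct.mul_left, RegularWreathProduct.inv_left,
      RegularWreathProduct.mul_right, Pi.mul_apply, Pi.inv_apply, ha, mul_one, hφ]
    rw [mul_inv_cancel_left]
    have hc : (((φ (g.right⁻¹ * j)).toMul : ↥(Subgroup.center K)) : K) ∈ Subgroup.center K :=
      ((φ (g.right⁻¹ * j)).toMul).2
    rw [Subgroup.mem_center_iff.1 hc (g.left j), mul_inv_cancel_right]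
  · have h := Finsupp.sum_mapDomain_index (f := fun j => g.right * j) (s := φ)
      (h := fun _ a => a) (fun _ => rfl) (fun _ _ _ => rfl)
    exact h.trans hφ0

/-- Task C6 -/
theorem CW_inj : Function.Injective (cι K) := by
  rw [injective_iff_map_eq_one]
  intro k hk
  rw [cι_eq, ← MonoidHom.mem_ker, QuotientGroup.ker_mk'] at hk
  have hle : CWN K ≤ (cM K).comap (WZ K).subtype := by
    apply Subgroup.normalClosure_le_normal
    rintro x ⟨z, hz, hx⟩
    change (x : WP K) ∈ cM K
    rw [hx]
    have e : ⁅wi K z, ws K⁆ = wpos K 1 z * wpos K (Multiplicative.ofAdd 1) z⁻¹ := by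
      have h1 := conj_ws K 1 z⁻¹
      rw [zpow_one, zpow_neg, zpow_one, map_inv] at h1
      rw [← h1, commutatorElement_def, wpos_one]
      group
    rw [e]
    refine ⟨rfl, Finsupp.single 1 (Additive.ofMul ⟨z, hz⟩) -
      Finsupp.single (Multiplicative.ofAdd 1) (Additive.ofMul ⟨z, hz⟩), ?_, ?_⟩
    · intro j
      simp only [wpos, RegularWreathProduct.mul_left, Pi.mul_apply, inv_one, one_mul,
        Finsupp.sub_apply, toMul_sub]
      have hne : (1 : Multiplicative ℤ) ≠ Multiplicative.ofAdd 1 := by
        intro h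
        have := congrArg Multiplicative.toAdd h
        simp at this
      by_cases h1 : j = 1
      · subst h1
        rw [Pi.mulSingle_eq_same, Pi.mulSingle_eq_of_ne hne, Finsupp.single_eq_same,
          Finsupp.single_eq_of_ne hne]
        simp
      · by_cases h2 : j = Multiplicative.ofAdd 1
        · subst h2
          rw [Pi.mulSingle_eq_same, Pi.mulSingle_eq_of_ne h1, Finsupp.single_eq_same,
            Finsupp.single_eq_of_ne h1]
          simp
        · rw [Pi.mulSingle_eq_of_ne h1, Pi.mulSingle_eq_of_ne h2, Finsupp.single_eq_of_ne h1,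
            Finsupp.single_eq_of_ne h2]
          simp
    · rw [sub_eq_add_neg, fsum_add, fsum_neg, fsum, fsum, Finsupp.sum_single_index rfl,
        Finsupp.sum_single_index rfl, add_neg_cancel]
  have h2 : wi K k ∈ cM K := hle hk
  obtain ⟨-, φ, hφ, hφ0⟩ := h2
  have e : φ = Finsupp.single 1 (φ 1) := by
    ext j
    by_cases h1 : j = 1
    · subst h1
      rw [Finsupp.single_eq_same]
    · rw [Finsupp.single_eq_of_ne h1]
      rw [← hφ j]
      change (Pi.mulSingle 1 k : Multiplicative ℤ → K) j = _
      rw [Pi.mulSingle_eq_of_ne h1]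
      rfl
  rw [e, fsum, Finsupp.sum_single_index rfl] at hφ0
  have h3 := hφ 1
  rw [hφ0] at h3
  change (Pi.mulSingle 1 k : Multiplicative ℤ → K) 1 = _ at h3
  rw [Pi.mulSingle_eq_same] at h3
  rw [h3]
  rfl

end

end Pool.Agent.H53R2
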