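import Pool.Agent.H53R2.CUP
import Pool.Agent.H53R2.CInj
import Pool.Agent.H53R2.CCl2

set_option autoImplicit false

namespace Pool.Agent.H53R2

open scoped commutatorElement

/-- Task C8 -/
theorem C_GL {W : Set (FreeGroup ℕ)} {G : Type} [Group G] (hG : InVar W G) (t : G)
    (L : Subgroup G) (hfg : L.FG) (hcfg : Cfg t L) (hna : NonAb L)
    (hrf : ∀ (R : Subgroup ↥L) [R.Normal], RFin (↥L ⧸ R)) :
    ∃ (K : Type) (_ : Group K) (ψ : ↥L →* K), Function.Surjective ψ ∧ Finite K ∧
      (∃ a b : K, ⁅a, b⁆ ≠ 1) ∧ InVar W (CW K) := by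
  classical
  by_cases hA : ∃ a b : ↥L, ⁅a, b⁆ ∉ Subgroup.center ↥L
  · -- case A
    obtain ⟨a, b, hab⟩ := hA
    obtain ⟨N, hN, hfi, hNab⟩ := hrf (Subgroup.center ↥L) (QuotientGroup.mk ⁅a, b⁆) (by
      intro h
      rw [QuotientGroup.eq_one_iff] at h
      exact hab h)
    let ψ : ↥L →* (↥L ⧸ Subgroup.center ↥L) ⧸ N :=
      (QuotientGroup.mk' N).comp (QuotientGroup.mk' (Subgroup.center ↥L))
    have hψ : Function.Surjective ψ :=
      (QuotientGroup.mk'_surjective N).comp (QuotientGroup.mk'_surjective _)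
    have hz : ∀ z : ↥L, z ∈ Subgroup.center ↥L → ψ z = 1 := by
      intro z hz
      show QuotientGroup.mk' N (QuotientGroup.mk' (Subgroup.center ↥L) z) = 1
      have : QuotientGroup.mk' (Subgroup.center ↥L) z = 1 :=
        (QuotientGroup.eq_one_iff z).2 hz
      rw [this, map_one]
    refine ⟨(↥L ⧸ Subgroup.center ↥L) ⧸ N, inferInstance, ψ, hψ,
      Subgroup.finite_quotient_of_finiteIndex, ⟨ψ a, ψ b, ?_⟩, ?_⟩
    · rw [← map_commutatorElement]
      intro h
      exact hNab ((QuotientGroup.eq_one_iff _).1 h)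
    · refine C_UP hG t L hcfg hna ((cι _).comp ψ) (cτ _) ?_ ?_ ?_
      · rw [← CW_gen]
        congr 2
        rw [MonoidHom.coe_comp, Set.range_comp, hψ.range_eq, Set.image_univ]
      · intro i hi a b
        exact CW_comm _ i hi (ψ a) (ψ b)
      · intro w hw
        have h1 : Subgroup.closure {p : G × CW ((↥L ⧸ Subgroup.center ↥L) ⧸ N) |
            ∃ (z : ↥L) (j : ℤ), z ∈ Subgroup.center ↥L ∧ p = (t ^ j * z * t ^ (-j),
              (cτ _) ^ j * ((cι _).comp ψ) z * (cτ _) ^ (-j))} ≤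
            (MonoidHom.snd G (CW ((↥L ⧸ Subgroup.center ↥L) ⧸ N))).ker := by
          rw [Subgroup.closure_le]
          rintro _ ⟨z, j, hzz, rfl⟩
          rw [SetLike.mem_coe, MonoidHom.mem_ker]
          show (cτ _) ^ j * cι _ (ψ z) * (cτ _) ^ (-j) = 1
          rw [hz z hzz, map_one, mul_one, zpow_neg, mul_inv_cancel]
        exact h1 hw
  · -- case B
    push Not at hA
    obtain ⟨G', hGr, hG', K, s, ψ, hψ, hfin, hcfg', hna', hs⟩ := class2 hG t L hfg hcfg (by
      intro a ha b hb c hc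
      have h1 := (Subgroup.mem_center_iff.1 (hA ⟨a, ha⟩ ⟨b, hb⟩)) ⟨c, hc⟩
      have h2 := congrArg Subtype.val h1
      rw [commutatorElement_eq_one_iff_mul_comm]
      exact h2.symm) hna
    refine ⟨↥K, inferInstance, ψ, hψ, hfin, ?_, ?_⟩
    · obtain ⟨a, ha, b, hb, hab⟩ := hna'
      refine ⟨⟨a, ha⟩, ⟨b, hb⟩, fun h => hab ?_⟩
      exact congrArg Subtype.val h
    · refine C_UP hG' s K hcfg' hna' (cι _) (cτ _) (CW_gen _) (fun i hi a b => CW_comm _ i hi a b) ?_
      intro w hw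
      -- the graph of the centre
      let Γ : Subgroup (G' × CW ↥K) :=
        { carrier := {p | ∃ z : ↥K, z ∈ Subgroup.center ↥K ∧ p = ((z : G'), cι _ z)}
          one_mem' := ⟨1, one_mem _, by rw [map_one]; rfl⟩
          mul_mem' := by
            rintro _ _ ⟨z, hz, rfl⟩ ⟨z', hz', rfl⟩
            exact ⟨z * z', mul_mem hz hz', by rw [map_mul]; rfl⟩
          inv_mem' := by
            rintro _ ⟨z, hz, rfl⟩
            exact ⟨z⁻¹, inv_mem hz, by rw [map_inv]; rfl⟩ }
      have h1 : Subgroup.closure {p : G' × CW ↥K | ∃ (z : ↥K) (j : ℤ),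
          z ∈ Subgroup.center ↥K ∧ p = (s ^ j * z * s ^ (-j),
            (cτ _) ^ j * cι _ z * (cτ _) ^ (-j))} ≤ Γ := by
        rw [Subgroup.closure_le]
        rintro _ ⟨z, j, hz, rfl⟩
        refine ⟨z, hz, ?_⟩
        have e1 : s ^ j * (z : G') * s ^ (-j) = z := by
          have h2 : Commute s (z : G') := hs z hz
          have h3 := h2.zpow_left j
          rw [h3.eq, zpow_neg, mul_inv_cancel_right]
        have e2 : (cτ _) ^ j * cι _ z * (cτ _) ^ (-j) = cι ↥K z := by
          have h2 : Commute (cτ ↥K) (cι _ z) := CW_central _ z hz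
          have h3 := h2.zpow_left j
          rw [h3.eq, zpow_neg, mul_inv_cancel_right]
        rw [e1, e2]
      obtain ⟨z, hz, h2⟩ := h1 hw
      have h3 : (z : G') = 1 := (congrArg Prod.fst h2).symm
      have h4 : w = cι _ z := congrArg Prod.snd h2
      have h5 : z = 1 := Subtype.ext h3
      rw [h4, h5, map_one]

end Pool.Agent.H53R2
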