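import Pool.Agent.H53R2.CDefs

set_option autoImplicit false

namespace Pool.Agent.H53R2

open scoped commutatorElement

section

variable {G C : Type} [Group G] [Group C] (t : G) (L : Subgroup G) (ι : ↥L →* C) (τ : C)

/-- the pairs of conjugates -/
def U_P (j : ℤ) (l : ↥L) : G × C := (t ^ j * (l : G) * t ^ (-j), τ ^ j * ι l * τ ^ (-j))

theorem U_P_zero (l : ↥L) : U_P t L ι τ 0 l = ((l : G), ι l) := by
  simp [U_P]

theorem U_P_conj (n j : ℤ) (l : ↥L) :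
    ((t, τ) : G × C) ^ n * U_P t L ι τ j l * (((t, τ) : G × C) ^ n)⁻¹ = U_P t L ι τ (n + j) l := by
  ext
  · show t ^ n * (t ^ j * (l : G) * t ^ (-j)) * (t ^ n)⁻¹ = t ^ (n + j) * (l : G) * t ^ (-(n + j))
    rw [zpow_add, neg_add, zpow_add, zpow_neg t n, zpow_neg t j]
    have h : (t ^ n)⁻¹ * (t ^ j)⁻¹ = (t ^ j)⁻¹ * (t ^ n)⁻¹ := by
      rw [← mul_inv_rev, ← mul_inv_rev, ← zpow_add, ← zpow_add, add_comm]
    rw [h]
    group
  · show τ ^ n * (τ ^ j * ι l * τ ^ (-j)) * (τ ^ n)⁻¹ = τ ^ (n + j) * ι l * τ ^ (-(n + j))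
    rw [zpow_add, neg_add, zpow_add, zpow_neg τ n, zpow_neg τ j]
    have h : (τ ^ n)⁻¹ * (τ ^ j)⁻¹ = (τ ^ j)⁻¹ * (τ ^ n)⁻¹ := by
      rw [← mul_inv_rev, ← mul_inv_rev, ← zpow_add, ← zpow_add, add_comm]
    rw [h]
    group

/-- generated by the pairs at positions in `I` -/
def U_A (I : Set ℤ) : Subgroup (G × C) := Subgroup.closure {p | ∃ j ∈ I, ∃ l, p = U_P t L ι τ j l}

theorem U_A_mono {I J : Set ℤ} (h : I ⊆ J) : U_A t L ι τ I ≤ U_A t L ι τ J :=
  Subgroup.closure_mono (fun _ ⟨j, hj, l, e⟩ => ⟨j, h hj, l, e⟩)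

theorem U_conj_mem (n : ℤ) {a : G × C} (ha : a ∈ U_A t L ι τ Set.univ) :
    ((t, τ) : G × C) ^ n * a * (((t, τ) : G × C) ^ n)⁻¹ ∈ U_A t L ι τ Set.univ := by
  have h1 : (U_A t L ι τ Set.univ).map (MulAut.conj (((t, τ) : G × C) ^ n)).toMonoidHom ≤
      U_A t L ι τ Set.univ := by
    rw [U_A, MonoidHom.map_closure, Subgroup.closure_le]
    rintro _ ⟨_, ⟨j, _, l, rfl⟩, rfl⟩
    apply Subgroup.subset_closure
    refine ⟨n + j, trivial, l, ?_⟩
    exact U_P_conj t L ι τ n j l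
  exact h1 ⟨a, ha, rfl⟩

/-- the graph -/
def U_S : Subgroup (G × C) :=
  Subgroup.closure (Set.range (fun l : ↥L => ((l : G), ι l)) ∪ {((t, τ) : G × C)})

theorem U_S_form {s : G × C} (hs : s ∈ U_S t L ι τ) :
    ∃ a ∈ U_A t L ι τ Set.univ, ∃ n : ℤ, s = a * ((t, τ) : G × C) ^ n := by
  unfold U_S at hs
  induction hs using Subgroup.closure_induction with
  | mem x hx =>
    rcases hx with ⟨l, rfl⟩ | rfl
    · refine ⟨_, Subgroup.subset_closure ⟨0, trivial, l, rfl⟩, 0, ?_⟩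
      rw [U_P_zero, zpow_zero, mul_one]
    · exact ⟨1, Subgroup.one_mem _, 1, by rw [one_mul, zpow_one]⟩
  | one => exact ⟨1, Subgroup.one_mem _, 0, by rw [zpow_zero, mul_one]⟩
  | mul x y _ _ hx hy =>
    obtain ⟨a, ha, n, rfl⟩ := hx
    obtain ⟨b, hb, m, rfl⟩ := hy
    refine ⟨a * (((t, τ) : G × C) ^ n * b * (((t, τ) : G × C) ^ n)⁻¹),
      Subgroup.mul_mem _ ha (U_conj_mem t L ι τ n hb), n + m, ?_⟩
    rw [zpow_add]
    group
  | inv x _ hx =>
    obtain ⟨a, ha, n, rfl⟩ := hx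
    refine ⟨((t, τ) : G × C) ^ (-n) * a⁻¹ * (((t, τ) : G × C) ^ (-n))⁻¹,
      U_conj_mem t L ι τ (-n) (Subgroup.inv_mem _ ha), -n, ?_⟩
    group

theorem U_A_finite {a : G × C} (ha : a ∈ U_A t L ι τ Set.univ) :
    ∃ I : Finset ℤ, a ∈ U_A t L ι τ (I : Set ℤ) := by
  classical
  unfold U_A at ha
  induction ha using Subgroup.closure_induction with
  | mem x hx =>
    obtain ⟨j, _, l, rfl⟩ := hx
    exact ⟨{j}, Subgroup.subset_closure ⟨j, by simp, l, rfl⟩⟩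
  | one => exact ⟨∅, Subgroup.one_mem _⟩
  | mul x y _ _ hx hy =>
    obtain ⟨I, hI⟩ := hx
    obtain ⟨J, hJ⟩ := hy
    refine ⟨I ∪ J, Subgroup.mul_mem _ ?_ ?_⟩
    · exact U_A_mono t L ι τ (by rw [Finset.coe_union]; exact Set.subset_union_left) hI
    · exact U_A_mono t L ι τ (by rw [Finset.coe_union]; exact Set.subset_union_right) hJ
  | inv x _ hx =>
    obtain ⟨I, hI⟩ := hx
    exact ⟨I, Subgroup.inv_mem _ hI⟩

variable {t L ι τ}

theorem U_comm_G (hcfg : Cfg t L) {i j : ℤ} (hij : i ≠ j) (a b : ↥L) :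
    Commute (t ^ i * (a : G) * t ^ (-i)) (t ^ j * (b : G) * t ^ (-j)) := by
  have h := hcfg (j - i) (sub_ne_zero.2 hij.symm) a a.2 b b.2
  have e : t ^ j * (b : G) * t ^ (-j) =
      t ^ i * (t ^ (j - i) * (b : G) * t ^ (-(j - i))) * t ^ (-i) := by
    have h1 : t ^ j = t ^ i * t ^ (j - i) := by rw [← zpow_add]; congr 1; ring
    have h2 : t ^ (-j) = t ^ (-(j - i)) * t ^ (-i) := by rw [← zpow_add]; congr 1; ring
    rw [h1, h2]
    group
  rw [e]
  show t ^ i * (a : G) * t ^ (-i) * (t ^ i * (t ^ (j - i) * (b : G) * t ^ (-(j - i))) * t ^ (-i)) =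
    t ^ i * (t ^ (j - i) * (b : G) * t ^ (-(j - i))) * t ^ (-i) * (t ^ i * (a : G) * t ^ (-i))
  have e1 : t ^ i * (a : G) * t ^ (-i) * (t ^ i * (t ^ (j - i) * (b : G) * t ^ (-(j - i))) *
      t ^ (-i)) = t ^ i * ((a : G) * (t ^ (j - i) * (b : G) * t ^ (-(j - i)))) * t ^ (-i) := by
    group
  have e2 : t ^ i * (t ^ (j - i) * (b : G) * t ^ (-(j - i))) * t ^ (-i) *
      (t ^ i * (a : G) * t ^ (-i)) =
      t ^ i * ((t ^ (j - i) * (b : G) * t ^ (-(j - i))) * (a : G)) * t ^ (-i) := by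
    group
  rw [e1, e2, h]

theorem U_comm_C (hcomm : ∀ i : ℤ, i ≠ 0 → ∀ a b : ↥L,
      ι a * (τ ^ i * ι b * τ ^ (-i)) = (τ ^ i * ι b * τ ^ (-i)) * ι a) {i j : ℤ} (hij : i ≠ j)
    (a b : ↥L) : Commute (τ ^ i * ι a * τ ^ (-i)) (τ ^ j * ι b * τ ^ (-j)) := by
  have h := hcomm (j - i) (sub_ne_zero.2 hij.symm) a b
  have e : τ ^ j * ι b * τ ^ (-j) =
      τ ^ i * (τ ^ (j - i) * ι b * τ ^ (-(j - i))) * τ ^ (-i) := by
    have h1 : τ ^ j = τ ^ i * τ ^ (j - i) := by rw [← zpow_add]; congr 1; ring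
    have h2 : τ ^ (-j) = τ ^ (-(j - i)) * τ ^ (-i) := by rw [← zpow_add]; congr 1; ring
    rw [h1, h2]
    group
  rw [e]
  show τ ^ i * ι a * τ ^ (-i) * (τ ^ i * (τ ^ (j - i) * ι b * τ ^ (-(j - i))) * τ ^ (-i)) =
    τ ^ i * (τ ^ (j - i) * ι b * τ ^ (-(j - i))) * τ ^ (-i) * (τ ^ i * ι a * τ ^ (-i))
  have e1 : τ ^ i * ι a * τ ^ (-i) * (τ ^ i * (τ ^ (j - i) * ι b * τ ^ (-(j - i))) *
      τ ^ (-i)) = τ ^ i * (ι a * (τ ^ (j - i) * ι b * τ ^ (-(j - i)))) * τ ^ (-i) := by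
    group
  have e2 : τ ^ i * (τ ^ (j - i) * ι b * τ ^ (-(j - i))) * τ ^ (-i) *
      (τ ^ i * ι a * τ ^ (-i)) =
      τ ^ i * ((τ ^ (j - i) * ι b * τ ^ (-(j - i))) * ι a) * τ ^ (-i) := by
    group
  rw [e1, e2, h]

theorem U_comm (hcfg : Cfg t L) (hcomm : ∀ i : ℤ, i ≠ 0 → ∀ a b : ↥L,
      ι a * (τ ^ i * ι b * τ ^ (-i)) = (τ ^ i * ι b * τ ^ (-i)) * ι a) {i j : ℤ} (hij : i ≠ j)
    (a b : ↥L) : Commute (U_P t L ι τ i a) (U_P t L ι τ j b) :=
  Prod.ext (U_comm_G hcfg hij a b) (U_comm_C hcomm hij a b)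

theorem U_A_comm (hcfg : Cfg t L) (hcomm : ∀ i : ℤ, i ≠ 0 → ∀ a b : ↥L,
      ι a * (τ ^ i * ι b * τ ^ (-i)) = (τ ^ i * ι b * τ ^ (-i)) * ι a) {I : Set ℤ} {j : ℤ}
    (hj : j ∉ I) (l : ↥L) {a : G × C} (ha : a ∈ U_A t L ι τ I) :
    Commute a (U_P t L ι τ j l) := by
  unfold U_A at ha
  induction ha using Subgroup.closure_induction with
  | mem x hx =>
    obtain ⟨i, hi, l', rfl⟩ := hx
    have hij : i ≠ j := by
      rintro rfl
      exact hj hi
    exact U_comm hcfg hcomm hij l' l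
  | one => exact Commute.one_left _
  | mul x y _ _ hx hy => exact hx.mul_left hy
  | inv x _ hx => exact hx.inv_left

/-- elements of `A (insert j I)` -/
theorem U_A_insert (hcfg : Cfg t L) (hcomm : ∀ i : ℤ, i ≠ 0 → ∀ a b : ↥L,
      ι a * (τ ^ i * ι b * τ ^ (-i)) = (τ ^ i * ι b * τ ^ (-i)) * ι a) {I : Set ℤ} {j : ℤ}
    (hj : j ∉ I) {a : G × C} (ha : a ∈ U_A t L ι τ (insert j I)) :
    ∃ b ∈ U_A t L ι τ I, ∃ l : ↥L, a = b * U_P t L ι τ j l := by
  have hmul : ∀ l l' : ↥L, U_P t L ι τ j (l * l') = U_P t L ι τ j l * U_P t L ι τ j l' := by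
    intro l l'
    ext
    · show t ^ j * ((l : G) * (l' : G)) * t ^ (-j) =
        t ^ j * (l : G) * t ^ (-j) * (t ^ j * (l' : G) * t ^ (-j))
      group
    · show τ ^ j * ι (l * l') * τ ^ (-j) = τ ^ j * ι l * τ ^ (-j) * (τ ^ j * ι l' * τ ^ (-j))
      rw [map_mul]
      group
  have hone : U_P t L ι τ j 1 = 1 := by
    ext
    · show t ^ j * (1 : G) * t ^ (-j) = 1
      group
    · show τ ^ j * ι 1 * τ ^ (-j) = 1
      rw [map_one]
      group
  have hinv : ∀ l : ↥L, U_P t L ι τ j l⁻¹ = (U_P t L ι τ j l)⁻¹ := by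
    intro l
    rw [eq_inv_iff_mul_eq_one, ← hmul, inv_mul_cancel, hone]
  unfold U_A at ha
  induction ha using Subgroup.closure_induction with
  | mem x hx =>
    obtain ⟨i, hi, l, rfl⟩ := hx
    rcases hi with rfl | hi
    · exact ⟨1, Subgroup.one_mem _, l, by rw [one_mul]⟩
    · exact ⟨_, Subgroup.subset_closure ⟨i, hi, l, rfl⟩, 1, by rw [hone, mul_one]⟩
  | one => exact ⟨1, Subgroup.one_mem _, 1, by rw [hone, mul_one]⟩
  | mul x y _ _ hx hy =>
    obtain ⟨b, hb, l, rfl⟩ := hx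
    obtain ⟨b', hb', l', rfl⟩ := hy
    refine ⟨b * b', Subgroup.mul_mem _ hb hb', l * l', ?_⟩
    have h1 := U_A_comm hcfg hcomm hj l hb'
    rw [hmul, mul_assoc b, ← mul_assoc _ b', ← h1.eq]
    simp only [mul_assoc]
  | inv x _ hx =>
    obtain ⟨b, hb, l, rfl⟩ := hx
    refine ⟨b⁻¹, Subgroup.inv_mem _ hb, l⁻¹, ?_⟩
    have h1 := U_A_comm hcfg hcomm hj l hb
    rw [hinv, mul_inv_rev, ← (h1.inv_inv).eq]

theorem U_claim (hcfg : Cfg t L) (hcomm : ∀ i : ℤ, i ≠ 0 → ∀ a b : ↥L,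
      ι a * (τ ^ i * ι b * τ ^ (-i)) = (τ ^ i * ι b * τ ^ (-i)) * ι a) (I : Finset ℤ) :
    ∀ a : G × C, a ∈ U_A t L ι τ (I : Set ℤ) →
      (∀ (i : ℤ) (l : ↥L), Commute a.1 (t ^ i * (l : G) * t ^ (-i))) →
      a ∈ Subgroup.closure {p : G × C | ∃ (z : ↥L) (j : ℤ),
        z ∈ Subgroup.center ↥L ∧ p = (t ^ j * z * t ^ (-j), τ ^ j * ι z * τ ^ (-j))} := by
  classical
  induction I using Finset.induction_on with
  | empty =>
    intro a ha _
    rw [U_A] at ha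
    have : {p : G × C | ∃ j ∈ ((∅ : Finset ℤ) : Set ℤ), ∃ l, p = U_P t L ι τ j l} = ∅ := by
      ext p
      simp
    rw [this, Subgroup.closure_empty, Subgroup.mem_bot] at ha
    rw [ha]
    exact Subgroup.one_mem _
  | insert j I hj ih =>
    intro a ha hcen
    rw [Finset.coe_insert] at ha
    have hj' : j ∉ (I : Set ℤ) := fun h => hj (Finset.mem_coe.1 h)
    obtain ⟨b, hb, l, rfl⟩ := U_A_insert hcfg hcomm hj' ha
    -- `l` is central in `L`
    have h1 : ∀ l' : ↥L, Commute (t ^ j * (l : G) * t ^ (-j)) (t ^ j * (l' : G) * t ^ (-j)) := by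
      intro l'
      have h2 : Commute b.1 (t ^ j * (l' : G) * t ^ (-j)) :=
        congrArg Prod.fst (U_A_comm hcfg hcomm hj' l' hb).eq
      have h3 : Commute (b.1 * (t ^ j * (l : G) * t ^ (-j))) (t ^ j * (l' : G) * t ^ (-j)) :=
        hcen j l'
      have h4 := (h2.inv_left).mul_left h3
      rwa [inv_mul_cancel_left] at h4
    have hlc : l ∈ Subgroup.center ↥L := by
      rw [Subgroup.mem_center_iff]
      intro l'
      have h2 := (h1 l').eq
      apply Subtype.ext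
      show (l' : G) * (l : G) = (l : G) * (l' : G)
      have e1 : t ^ j * (l : G) * t ^ (-j) * (t ^ j * (l' : G) * t ^ (-j)) =
          t ^ j * ((l : G) * (l' : G)) * t ^ (-j) := by group
      have e2 : t ^ j * (l' : G) * t ^ (-j) * (t ^ j * (l : G) * t ^ (-j)) =
          t ^ j * ((l' : G) * (l : G)) * t ^ (-j) := by group
      rw [e1, e2] at h2
      exact (mul_left_cancel (mul_right_cancel h2)).symm
    have hl : ∀ (i : ℤ) (l' : ↥L),
        Commute (t ^ j * (l : G) * t ^ (-j)) (t ^ i * (l' : G) * t ^ (-i)) := by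
      intro i l'
      by_cases h : j = i
      · subst h; exact h1 l'
      · exact U_comm_G hcfg h l l'
    refine Subgroup.mul_mem _ (ih b hb fun i l' => ?_) (Subgroup.subset_closure ⟨l, j, hlc, rfl⟩)
    have h2 : Commute (b.1 * (t ^ j * (l : G) * t ^ (-j))) (t ^ i * (l' : G) * t ^ (-i)) :=
      hcen i l'
    have h3 := h2.mul_left (hl i l').inv_left
    rwa [mul_inv_cancel_right] at h3

end

/-- Task C4 -/
theorem C_UP {W : Set (FreeGroup ℕ)} {G C : Type} [Group G] [Group C] (hG : InVar W G) (t : G)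
    (L : Subgroup G) (hcfg : Cfg t L) (hna : NonAb L) (ι : ↥L →* C) (τ : C)
    (hgen : Subgroup.closure (Set.range ι ∪ {τ}) = ⊤)
    (hcomm : ∀ i : ℤ, i ≠ 0 → ∀ a b : ↥L,
      ι a * (τ ^ i * ι b * τ ^ (-i)) = (τ ^ i * ι b * τ ^ (-i)) * ι a)
    (hZ : ∀ w : C, ((1 : G), w) ∈ Subgroup.closure {p : G × C | ∃ (z : ↥L) (j : ℤ),
      z ∈ Subgroup.center ↥L ∧ p = (t ^ j * z * t ^ (-j), τ ^ j * ι z * τ ^ (-j))} → w = 1) :
    InVar W C := by
  classical
  let p1 : ↥(U_S t L ι τ) →* G := (MonoidHom.fst G C).comp (U_S t L ι τ).subtype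
  let p2 : ↥(U_S t L ι τ) →* C := (MonoidHom.snd G C).comp (U_S t L ι τ).subtype
  have hsurj : Function.Surjective p2 := by
    rw [← MonoidHom.range_eq_top, MonoidHom.range_comp, Subgroup.range_subtype, U_S,
      MonoidHom.map_closure, ← hgen, Set.image_union, ← Set.range_comp, Set.image_singleton]
    rfl
  have hker : p1.ker ≤ p2.ker := by
    rintro ⟨⟨g, w⟩, hs⟩ hg
    have hg' : g = 1 := hg
    subst hg'
    obtain ⟨a, ha, n, e⟩ := U_S_form t L ι τ hs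
    obtain ⟨I, hI⟩ := U_A_finite t L ι τ ha
    have e1 : (1 : G) = a.1 * t ^ n := by
      have := congrArg Prod.fst e
      rwa [Prod.fst_mul, Prod.pow_fst] at this
    -- `n = 0`
    have hn : n = 0 := by
      by_contra hn
      obtain ⟨x, hx, y, hy, hxy⟩ := hna
      obtain ⟨j, hj⟩ := Infinite.exists_notMem_finset I
      have hj' : j ∉ (I : Set ℤ) := fun h => hj (Finset.mem_coe.1 h)
      apply hxy
      have h1 : Commute a.1 (t ^ j * y * t ^ (-j)) :=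
        congrArg Prod.fst (U_A_comm hcfg hcomm hj' ⟨y, hy⟩ hI).eq
      have h2 : a.1 = (t ^ n)⁻¹ := eq_inv_of_mul_eq_one_left e1.symm
      rw [h2] at h1
      have h3 : Commute (t ^ n) (t ^ j * y * t ^ (-j)) := Commute.inv_left_iff.1 h1
      have h4 : Commute (t ^ n) y := by
        have h5 : t ^ n * (t ^ j * y * t ^ (-j)) = (t ^ j * y * t ^ (-j)) * t ^ n := h3
        show t ^ n * y = y * t ^ n
        have h6 : t ^ j * (t ^ n * y) * t ^ (-j) = t ^ j * (y * t ^ n) * t ^ (-j) := by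
          calc t ^ j * (t ^ n * y) * t ^ (-j) = (t ^ j * t ^ n) * y * t ^ (-j) := by group
            _ = (t ^ n * t ^ j) * y * t ^ (-j) := by rw [← zpow_add, ← zpow_add, add_comm]
            _ = t ^ n * (t ^ j * y * t ^ (-j)) := by group
            _ = (t ^ j * y * t ^ (-j)) * t ^ n := h5
            _ = t ^ j * y * (t ^ (-j) * t ^ n) := by group
            _ = t ^ j * y * (t ^ n * t ^ (-j)) := by rw [← zpow_add, ← zpow_add, add_comm]
            _ = t ^ j * (y * t ^ n) * t ^ (-j) := by group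
        exact mul_left_cancel (mul_right_cancel h6)
      have h7 := hcfg n hn x hx y hy
      have h8 : t ^ n * y * t ^ (-n) = y := by
        rw [h4.eq, zpow_neg, mul_inv_cancel_right]
      rw [h8] at h7
      rw [commutatorElement_eq_one_iff_mul_comm]
      exact h7
    subst hn
    rw [zpow_zero, mul_one] at e e1
    have h1 := U_claim hcfg hcomm I a hI (by
      intro i l
      rw [← e1]
      exact Commute.one_left _)
    rw [← e] at h1
    exact hZ w h1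
  have h1 : InVar W (↥(U_S t L ι τ) ⧸ p1.ker) :=
    hG.of_injective (QuotientGroup.kerLift p1) (QuotientGroup.kerLift_injective p1)
  refine h1.of_surjective (QuotientGroup.lift p1.ker p2 hker) ?_
  intro c
  obtain ⟨s, rfl⟩ := hsurj c
  exact ⟨QuotientGroup.mk s, rfl⟩

end Pool.Agent.H53R2
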