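import Pool.Agent.H53R2.CDefs

/-! Task C5 (helper55) -/

set_option autoImplicit false

namespace Pool.Agent.H53R2

open scoped commutatorElement

section

variable (K : Type) [Group K]

/-- the copy of `K` at position `q` -/
def wpos (q : Multiplicative ℤ) (k : K) : WP K := ⟨Pi.mulSingle q k, 1⟩

theorem wpos_one (k : K) : wpos K 1 k = wi K k := rfl

theorem conj_wpos (q q' : Multiplicative ℤ) (k : K) :
    (RegularWreathProduct.inl q : WP K) * wpos K q' k * (RegularWreathProduct.inl q : WP K)⁻¹ =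
      wpos K (q * q') k := by
  ext x
  · simp only [wpos, RegularWreathProduct.mul_left, RegularWreathProduct.left_inl, Pi.mul_apply,
      Pi.one_apply, one_mul, RegularWreathProduct.mul_right, RegularWreathProduct.right_inl,
      RegularWreathProduct.inv_left, inv_one, mul_one]
    by_cases h : x = q * q'
    · subst h
      rw [inv_mul_cancel_left, Pi.mulSingle_eq_same, Pi.mulSingle_eq_same]
    · rw [Pi.mulSingle_eq_of_ne h, Pi.mulSingle_eq_of_ne]
      intro h2
      exact h (by rw [← h2, mul_inv_cancel_left])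
  · simp [wpos]

theorem ws_zpow (i : ℤ) : ws K ^ i = RegularWreathProduct.inl (Multiplicative.ofAdd i) := by
  rw [ws, ← map_zpow, ← ofAdd_zsmul, smul_eq_mul, mul_one]

theorem conj_ws (i : ℤ) (k : K) :
    ws K ^ i * wi K k * ws K ^ (-i) = wpos K (Multiplicative.ofAdd i) k := by
  rw [zpow_neg, ws_zpow, ← wpos_one, conj_wpos, mul_one]

theorem wpos_comm (q q' : Multiplicative ℤ) (h : q ≠ q') (a b : K) :
    wpos K q a * wpos K q' b = wpos K q' b * wpos K q a := by
  ext x
  · simp only [wpos, RegularWreathProduct.mul_left, inv_one, one_mul]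
    by_cases h1 : x = q
    · subst h1
      simp only [Pi.mul_apply]
      rw [Pi.mulSingle_eq_of_ne h, mul_one, one_mul]
    · simp only [Pi.mul_apply]
      rw [Pi.mulSingle_eq_of_ne h1, mul_one, one_mul]
  · simp [wpos]

/-- the copy of `K` in the central wreath product (Task C5) -/
def cι : K →* CW K :=
  (QuotientGroup.mk' (CWN K)).comp ((wi K).codRestrict (WZ K)
    (fun k => Subgroup.subset_closure (Or.inl ⟨k, rfl⟩)))

/-- the shift (Task C5) -/
def cτ : CW K := QuotientGroup.mk' (CWN K) ⟨ws K, Subgroup.subset_closure (Or.inr rfl)⟩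

/-- Task C5 -/
theorem CW_gen : Subgroup.closure (Set.range (cι K) ∪ {cτ K}) = ⊤ := by
  have h1 : Subgroup.closure ((fun x : ↥(WZ K) => (x : WP K)) ⁻¹' (Set.range (wi K) ∪ {ws K})) =
      ⊤ := Subgroup.closure_closure_coe_preimage
  have h2 : (Subgroup.closure ((fun x : ↥(WZ K) => (x : WP K)) ⁻¹'
      (Set.range (wi K) ∪ {ws K}))).map (QuotientGroup.mk' (CWN K)) = ⊤ := by
    rw [h1, ← MonoidHom.range_eq_map]
    exact MonoidHom.range_eq_top.2 (QuotientGroup.mk'_surjective _)
  rw [MonoidHom.map_closure] at h2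
  rw [eq_top_iff, ← h2]
  apply Subgroup.closure_mono
  rintro x ⟨y, hy, rfl⟩
  rcases hy with ⟨k, hk⟩ | hy
  · left
    refine ⟨k, ?_⟩
    change QuotientGroup.mk' (CWN K) ⟨wi K k, _⟩ = _
    congr 1
    exact Subtype.ext hk
  · right
    change QuotientGroup.mk' (CWN K) y = QuotientGroup.mk' (CWN K) ⟨ws K, _⟩
    congr 1
    exact Subtype.ext hy

/-- the copy of `K` in the wreath product -/
def sι : K →* ↥(WZ K) :=
  (wi K).codRestrict (WZ K) (fun k => Subgroup.subset_closure (Or.inl ⟨k, rfl⟩))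

/-- the shift in the wreath product -/
def sτ : ↥(WZ K) := ⟨ws K, Subgroup.subset_closure (Or.inr rfl)⟩

theorem sι_coe (k : K) : ((sι K k : ↥(WZ K)) : WP K) = wi K k := rfl

theorem sτ_coe : ((sτ K : ↥(WZ K)) : WP K) = ws K := rfl

theorem cι_eq (k : K) : cι K k = QuotientGroup.mk' (CWN K) (sι K k) := rfl

theorem cτ_eq : cτ K = QuotientGroup.mk' (CWN K) (sτ K) := rfl

/-- Task C5 -/
theorem CW_comm (i : ℤ) (hi : i ≠ 0) (a b : K) :
    cι K a * (cτ K ^ i * cι K b * cτ K ^ (-i)) = (cτ K ^ i * cι K b * cτ K ^ (-i)) * cι K a := by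
  have key : sι K a * (sτ K ^ i * sι K b * sτ K ^ (-i)) =
      (sτ K ^ i * sι K b * sτ K ^ (-i)) * sι K a := by
    apply Subtype.ext
    simp only [Subgroup.coe_mul, Subgroup.coe_zpow, sι_coe, sτ_coe]
    rw [conj_ws, ← wpos_one]
    apply wpos_comm
    intro h
    apply hi
    have := congrArg Multiplicative.toAdd h
    simpa using this.symm
  rw [cι_eq, cι_eq, cτ_eq, ← map_zpow, ← map_zpow, ← map_mul, ← map_mul, ← map_mul, ← map_mul,
    key]

/-- Task C5 -/
theorem CW_central (z : K) (hz : z ∈ Subgroup.center K) : cτ K * cι K z = cι K z * cτ K := by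
  have h1 : ⁅sι K z, sτ K⁆ ∈ CWN K := by
    apply Subgroup.subset_normalClosure
    exact ⟨z, hz, rfl⟩
  rw [← QuotientGroup.ker_mk' (CWN K), MonoidHom.mem_ker, map_commutatorElement,
    commutatorElement_eq_one_iff_mul_comm] at h1
  exact h1.symm

end

/-- functoriality of the unrestricted wreath product -/
def WPmap {K K' : Type} [Group K] [Group K'] (φ : K →* K') : WP K →* WP K' where
  toFun w := ⟨fun x => φ (w.left x), w.right⟩
  map_one' := by
    ext
    · simp
    · rfl
  map_mul' a b := by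
    ext x
    · simp
    · rfl

theorem WPmap_wi {K K' : Type} [Group K] [Group K'] (φ : K →* K') (k : K) :
    WPmap φ (wi K k) = wi K' (φ k) := by
  ext x
  · change φ ((Pi.mulSingle 1 k : Multiplicative ℤ → K) x) =
      (Pi.mulSingle 1 (φ k) : Multiplicative ℤ → K') x
    by_cases h : x = 1
    · subst h
      rw [Pi.mulSingle_eq_same, Pi.mulSingle_eq_same]
    · rw [Pi.mulSingle_eq_of_ne h, Pi.mulSingle_eq_of_ne h, map_one]
  · rfl

theorem WPmap_ws {K K' : Type} [Group K] [Group K'] (φ : K →* K') :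
    WPmap φ (ws K) = ws K' := by
  ext x
  · change φ 1 = 1
    exact map_one φ
  · rfl

/-- Task C5 -/
theorem CW_map {K K' : Type} [Group K] [Group K'] (φ : K →* K') (hφ : Function.Surjective φ) :
    ∃ f : CW K →* CW K', Function.Surjective f := by
  have hmap : (WZ K).map (WPmap φ) = WZ K' := by
    rw [WZ, WZ, MonoidHom.map_closure]
    congr 1
    ext x
    constructor
    · rintro ⟨y, hy, rfl⟩
      rcases hy with ⟨k, rfl⟩ | hy
      · left
        exact ⟨φ k, (WPmap_wi φ k).symm⟩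
      · right
        rw [Set.mem_singleton_iff] at hy
        rw [hy, WPmap_ws]
        rfl
    · rintro (⟨k', rfl⟩ | hx)
      · obtain ⟨k, rfl⟩ := hφ k'
        exact ⟨wi K k, Or.inl ⟨k, rfl⟩, WPmap_wi φ k⟩
      · rw [Set.mem_singleton_iff] at hx
        rw [hx]
        exact ⟨ws K, Or.inr rfl, WPmap_ws φ⟩
  have hmem : ∀ x : ↥(WZ K), WPmap φ x ∈ WZ K' := by
    intro x
    rw [← hmap]
    exact ⟨x, x.2, rfl⟩
  let F : ↥(WZ K) →* ↥(WZ K') := ((WPmap φ).comp (WZ K).subtype).codRestrict (WZ K') hmem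
  have hF : Function.Surjective F := by
    rintro ⟨y, hy⟩
    rw [← hmap] at hy
    obtain ⟨x, hx, hxy⟩ := hy
    exact ⟨⟨x, hx⟩, Subtype.ext hxy⟩
  have hle : CWN K ≤ (CWN K').comap F := by
    apply Subgroup.normalClosure_le_normal
    rintro x ⟨z, hz, hx⟩
    change F x ∈ CWN K'
    apply Subgroup.subset_normalClosure
    refine ⟨φ z, ?_, ?_⟩
    · rw [Subgroup.mem_center_iff] at hz ⊢
      intro g'
      obtain ⟨g, rfl⟩ := hφ g'
      rw [← map_mul, hz g, map_mul]
    · change WPmap φ (x : WP K) = _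
      rw [hx, map_commutatorElement, WPmap_wi, WPmap_ws]
  refine ⟨QuotientGroup.map (CWN K) (CWN K') F hle, ?_⟩
  intro y
  obtain ⟨y, rfl⟩ := QuotientGroup.mk'_surjective _ y
  obtain ⟨x, rfl⟩ := hF y
  exact ⟨QuotientGroup.mk' _ x, rfl⟩

end Pool.Agent.H53R2
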