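import Mathlib

set_option autoImplicit false

namespace Pool.Agent.H53R2

open LaurentPolynomial
open scoped commutatorElement

/-- `G` satisfies all the laws in `W`. -/
def InVar (W : Set (FreeGroup ℕ)) (G : Type) [Group G] : Prop :=
  ∀ w ∈ W, ∀ f : ℕ → G, FreeGroup.lift f w = 1

/-- iterated commutator subgroups: `Lw S k X = [X, S, …, S]` (`k` times). -/
def Lw {G : Type} [Group G] (S : Subgroup G) (k : ℕ) (X : Subgroup G) : Subgroup G :=
  (fun Y => ⁅Y, S⁆)^[k] X

/-- the maximal condition on normal subgroups -/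
def MaxN (G : Type) [Group G] : Prop := WellFoundedGT {N : Subgroup G // N.Normal}

/-- nilpotent-by-(nilpotent-by-finite): there is a normal subgroup `G₁` of finite index one of whose
lower central terms is nilpotent. -/
def VN (G : Type) [Group G] : Prop :=
  ∃ G₁ : Subgroup G, G₁.Normal ∧ G₁.FiniteIndex ∧
    ∃ m c, Lw (Lw G₁ m G₁) c (Lw G₁ m G₁) = ⊥

/-- nilpotent-by-finite. -/
def VNil (G : Type) [Group G] : Prop :=
  ∃ G₁ : Subgroup G, G₁.Normal ∧ G₁.FiniteIndex ∧ ∃ m, Lw G₁ m G₁ = ⊥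

section Modules

variable {Q E : Type} [Group Q] [AddCommGroup E] [DistribMulAction Q E]

/-- the elements `e` with `s • e - e ∈ X` for all `s ∈ S` -/
def up (S : Set Q) (X : AddSubgroup E) : AddSubgroup E where
  carrier := {e | ∀ s ∈ S, s • e - e ∈ X}
  zero_mem' := by
    intro s _
    simp
  add_mem' := by
    intro a b ha hb s hs
    have := X.add_mem (ha s hs) (hb s hs)
    have h2 : s • (a + b) - (a + b) = s • a - a + (s • b - b) := by
      rw [smul_add]; abel
    rw [h2]; exact this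
  neg_mem' := by
    intro a ha s hs
    have := X.neg_mem (ha s hs)
    have h2 : s • (-a) - (-a) = -(s • a - a) := by
      rw [smul_neg]; abel
    rw [h2]; exact this

theorem mem_up {S : Set Q} {X : AddSubgroup E} {e : E} :
    e ∈ up S X ↔ ∀ s ∈ S, s • e - e ∈ X := Iff.rfl

/-- upper `S`-central series of `E`: all `k`-fold commutators `[e, s₁, …, s_k]`, `sᵢ ∈ S`, vanish. -/
def Zn (E : Type) [AddCommGroup E] [DistribMulAction Q E] (S : Set Q) (k : ℕ) : AddSubgroup E :=
  (up S)^[k] ⊥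

/-- `S` acts nilpotently on `E`. -/
def ActNil (S : Set Q) (E : Type) [AddCommGroup E] [DistribMulAction Q E] : Prop :=
  ∃ k, Zn E S k = ⊤

/-- the Laurent polynomial ring `ℤ[T, T⁻¹]` acts on `E` with `T` acting as `z`. -/
noncomputable def ev (E : Type) [AddCommGroup E] [DistribMulAction Q E] (z : Q) :
    ℤ[T;T⁻¹] →+* AddMonoid.End E :=
  (AddMonoidAlgebra.lift ℤ (AddMonoid.End E) ℤ
    ((DistribMulAction.toAddMonoidEnd Q E).comp (zpowersHom Q z))).toRingHom

end Modules

/-- data of a universal identity `[b,m] = ∏ₖ γₖ [b, t^iₖ m t^-iₖ]^eₖ γₖ⁻¹`, all `iₖ ≠ 0`. -/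
structure UI where
  n : ℕ
  w : Fin n → FreeGroup (Fin 3)
  i : Fin n → ℤ
  e : Fin n → ℤ
  hi : ∀ k, i k ≠ 0

/-- the universal identity holds in the group `G`. -/
def UI.Grp (u : UI) (G : Type) [Group G] : Prop :=
  ∀ b m t : G, ⁅b, m⁆ = (List.ofFn fun k : Fin u.n =>
    FreeGroup.lift ![b, m, t] (u.w k) * ⁅b, t ^ (u.i k) * m * t ^ (-(u.i k))⁆ ^ (u.e k) *
      (FreeGroup.lift ![b, m, t] (u.w k))⁻¹).prod

/-- the additive form of the universal identity holds in the `Q`-module `E`. -/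
def UI.Mod (u : UI) (Q E : Type) [Group Q] [AddCommGroup E] [DistribMulAction Q E] : Prop :=
  ∀ (m t : Q) (b : E), b - m • b = ∑ k : Fin u.n,
    u.e k • (FreeGroup.lift ![1, m, t] (u.w k) •
      (b - (t ^ (u.i k) * m * t ^ (-(u.i k))) • b))

/-- the substitution `T ↦ T^a`. -/
noncomputable def psi (a : ℤ) : ℤ[T;T⁻¹] →+* ℤ[T;T⁻¹] :=
  (AddMonoidAlgebra.lift ℤ (ℤ[T;T⁻¹]) ℤ
    { toFun := fun j => T (a * j.toAdd)
      map_one' := by simp
      map_mul' := by
        intro x y
        rw [toAdd_mul, mul_add, T_add] } ).toRingHom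

/-- `E` is a model of the section `Y / (X ∩ Y)` of `G`, with `G` acting by conjugation
through `p : G →* Q`. -/
structure SecMod {G Q : Type} [Group G] [Group Q] (p : G →* Q) (X Y : Subgroup G)
    (E : Type) [AddCommGroup E] [DistribMulAction Q E] where
  π : ↥Y →* Multiplicative E
  surj : Function.Surjective π
  ker : ∀ y : ↥Y, π y = 1 ↔ (y : G) ∈ X
  act : ∀ (g : G) (y y' : ↥Y), (y' : G) = g * y * g⁻¹ →
    π y' = Multiplicative.ofAdd (p g • (π y).toAdd)

end Pool.Agent.H53R2
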