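import Pool.Agent.H53R2.Defs

set_option autoImplicit false

namespace Pool.Agent.H53R2

open LaurentPolynomial

theorem psi_T (a n : ℤ) : psi a (T n) = T (a * n) := by
  show (AddMonoidAlgebra.lift ℤ (ℤ[T;T⁻¹]) ℤ _) (AddMonoidAlgebra.single n 1) = _
  rw [AddMonoidAlgebra.lift_single, one_smul]
  rfl

theorem psi_C (a n : ℤ) : psi a (C n) = C n := by
  rw [← single_eq_C]
  show (AddMonoidAlgebra.lift ℤ (ℤ[T;T⁻¹]) ℤ _) (AddMonoidAlgebra.single 0 n) = _
  rw [AddMonoidAlgebra.lift_single]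
  show n • T (a * 0) = _
  rw [mul_zero, T_zero, smul_eq_C_mul, mul_one]
  rfl

theorem ev_T {Q E : Type} [Group Q] [AddCommGroup E] [DistribMulAction Q E] (z : Q) (n : ℤ)
    (e : E) : ev E z (T n) e = z ^ n • e := by
  show (AddMonoidAlgebra.lift ℤ (AddMonoid.End E) ℤ _) (AddMonoidAlgebra.single n 1) e = _
  rw [AddMonoidAlgebra.lift_single, one_smul]
  rfl

theorem ev_C {Q E : Type} [Group Q] [AddCommGroup E] [DistribMulAction Q E] (z : Q) (n : ℤ)
    (e : E) : ev E z (C n) e = n • e := by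
  rw [← single_eq_C]
  show (AddMonoidAlgebra.lift ℤ (AddMonoid.End E) ℤ _) (AddMonoidAlgebra.single 0 n) e = _
  rw [AddMonoidAlgebra.lift_single]
  show n • (z ^ (0 : ℤ) • e) = _
  rw [zpow_zero, one_smul]

theorem ev_mul {Q E : Type} [Group Q] [AddCommGroup E] [DistribMulAction Q E] (z : Q)
    (p q : ℤ[T;T⁻¹]) (e : E) : ev E z (p * q) e = ev E z p (ev E z q e) := by
  rw [map_mul]; rfl

theorem ev_add {Q E : Type} [Group Q] [AddCommGroup E] [DistribMulAction Q E] (z : Q)
    (p q : ℤ[T;T⁻¹]) (e : E) : ev E z (p + q) e = ev E z p e + ev E z q e := by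
  rw [map_add]; rfl

theorem ev_sub {Q E : Type} [Group Q] [AddCommGroup E] [DistribMulAction Q E] (z : Q)
    (p q : ℤ[T;T⁻¹]) (e : E) : ev E z (p - q) e = ev E z p e - ev E z q e := by
  rw [map_sub]; rfl

theorem ev_neg {Q E : Type} [Group Q] [AddCommGroup E] [DistribMulAction Q E] (z : Q)
    (p : ℤ[T;T⁻¹]) (e : E) : ev E z (-p) e = -ev E z p e := by
  rw [map_neg]; rfl

theorem ev_zero {Q E : Type} [Group Q] [AddCommGroup E] [DistribMulAction Q E] (z : Q)
    (e : E) : ev E z 0 e = 0 := by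
  rw [map_zero]; rfl

theorem ev_one {Q E : Type} [Group Q] [AddCommGroup E] [DistribMulAction Q E] (z : Q)
    (e : E) : ev E z 1 e = e := by
  rw [map_one]; rfl

theorem ev_pow {Q E : Type} [Group Q] [AddCommGroup E] [DistribMulAction Q E] (z : Q) (a : ℤ)
    (p : ℤ[T;T⁻¹]) : ev E (z ^ a) p = ev E z (psi a p) := by
  induction p using LaurentPolynomial.induction_on' with
  | add p q hp hq => rw [map_add, map_add, map_add, hp, hq]
  | C_mul_T n c =>
    ext e
    rw [map_mul (psi a), psi_C, psi_T, ev_mul, ev_mul, ev_C, ev_C, ev_T, ev_T, zpow_mul]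

/-- if `q` commutes with `z` on `E` then it commutes with `ev z p` -/
theorem ev_commute {Q E : Type} [Group Q] [AddCommGroup E] [DistribMulAction Q E] (z q : Q)
    (h : ∀ e : E, z • q • e = q • z • e) (p : ℤ[T;T⁻¹]) (e : E) :
    ev E z p (q • e) = q • ev E z p e := by
  have hinv : ∀ e : E, z⁻¹ • q • e = q • z⁻¹ • e := by
    intro e
    rw [inv_smul_eq_iff, h, smul_inv_smul]
  have hnat : ∀ (n : ℕ) (e : E), z ^ n • q • e = q • z ^ n • e := by
    intro n
    induction n with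
    | zero => simp
    | succ n ih => intro e; rw [pow_succ, mul_smul, h, ih, mul_smul]
  have hnat' : ∀ (n : ℕ) (e : E), (z⁻¹) ^ n • q • e = q • (z⁻¹) ^ n • e := by
    intro n
    induction n with
    | zero => simp
    | succ n ih => intro e; rw [pow_succ, mul_smul, hinv, ih, mul_smul]
  have hz : ∀ (n : ℤ) (e : E), z ^ n • q • e = q • z ^ n • e := by
    intro n e
    rcases n with n | n
    · simpa using hnat n e
    · rw [zpow_negSucc, ← inv_pow]; exact hnat' _ e
  induction p using LaurentPolynomial.induction_on' generalizing e with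
  | add p r hp hr => rw [ev_add, ev_add, hp, hr, smul_add]
  | C_mul_T n c =>
    rw [ev_mul, ev_mul, ev_C, ev_C, ev_T, ev_T, hz, smul_comm]

theorem word_eval (γ : FreeGroup (Fin 3)) : ∃ (p : ℤ[T;T⁻¹]) (l : ℤ),
    ∀ (Q M : Type) [Group Q] [AddCommGroup M] [DistribMulAction Q M]
      (ι : Multiplicative M →* Q)
      (_ : ∀ (q : Q) (m : M), ι (Multiplicative.ofAdd (q • m)) =
        q * ι (Multiplicative.ofAdd m) * q⁻¹) (m : M) (t : Q),
      FreeGroup.lift ![1, ι (Multiplicative.ofAdd m), t] γ =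
        ι (Multiplicative.ofAdd (ev M t p m)) * t ^ l := by
  induction γ using FreeGroup.induction_on with
  | C1 =>
    refine ⟨0, 0, ?_⟩
    intro Q M _ _ _ ι hι m t
    rw [ev_zero, map_one, ofAdd_zero, map_one, one_mul, zpow_zero]
  | of i =>
    fin_cases i
    · refine ⟨0, 0, ?_⟩
      intro Q M _ _ _ ι hι m t
      rw [ev_zero, ofAdd_zero, map_one, one_mul, zpow_zero]
      simp
    · refine ⟨1, 0, ?_⟩
      intro Q M _ _ _ ι hι m t
      rw [ev_one, zpow_zero, mul_one]
      simp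
    · refine ⟨0, 1, ?_⟩
      intro Q M _ _ _ ι hι m t
      rw [ev_zero, ofAdd_zero, map_one, one_mul, zpow_one]
      simp
  | inv_of i ih =>
    obtain ⟨p, l, h⟩ := ih
    refine ⟨-(T (-l) * p), -l, ?_⟩
    intro Q M _ _ _ ι hι m t
    rw [map_inv, h Q M ι hι m t, ev_neg, ev_mul, ev_T, ofAdd_neg, map_inv, hι]
    group
  | mul x y hx hy =>
    obtain ⟨p, l, h⟩ := hx
    obtain ⟨p', l', h'⟩ := hy
    refine ⟨p + T l * p', l + l', ?_⟩
    intro Q M _ _ _ ι hι m t
    rw [map_mul, h Q M ι hι m t, h' Q M ι hι m t, ev_add, ev_mul, ev_T, ofAdd_add, map_mul, hι,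
      zpow_add]
    group

end Pool.Agent.H53R2
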