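import Pool.Agent.H53R2.Alg
import Pool.Agent.H53R2.Up

set_option autoImplicit false

namespace Pool.Agent.H53R2

open LaurentPolynomial

section

variable {Q E M : Type} [Group Q] [AddCommGroup E] [DistribMulAction Q E] [AddCommGroup M]

/-- the group ring of `M` acts on `E` through `ι`. -/
noncomputable def C_phi (ι : Multiplicative M →* Q) :
    MonoidAlgebra ℤ (Multiplicative M) →+* AddMonoid.End E :=
  (MonoidAlgebra.lift ℤ (AddMonoid.End E) (Multiplicative M)
    ((DistribMulAction.toAddMonoidEnd Q E).comp ι)).toRingHom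

/-- the module structure -/
@[reducible] noncomputable def C_mod (E : Type) [AddCommGroup E] [DistribMulAction Q E]
    (ι : Multiplicative M →* Q) : Module (MonoidAlgebra ℤ (Multiplicative M)) E :=
  Module.compHom E (C_phi (E := E) ι)

theorem C_of_smul (ι : Multiplicative M →* Q) (x : Multiplicative M) (e : E) :
    (C_mod E ι).toSMul.smul (MonoidAlgebra.of ℤ (Multiplicative M) x) e = ι x • e := by
  show (MonoidAlgebra.lift ℤ (AddMonoid.End E) (Multiplicative M)
    ((DistribMulAction.toAddMonoidEnd Q E).comp ι)) (MonoidAlgebra.of ℤ (Multiplicative M) x) e = _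
  rw [MonoidAlgebra.lift_of]
  rfl

/-- products of differences and the upper central series -/
theorem C_prod_mem (ι : Multiplicative M →* Q) (Y : Set M) (hY : Y.Nonempty) {P : Type} [DecidableEq P]
    (s : Finset P) :
    letI := C_mod E ι
    ∀ e : E, (∀ y : P → M, (∀ p, y p ∈ Y) →
      (∏ p ∈ s, (MonoidAlgebra.of ℤ (Multiplicative M) (Multiplicative.ofAdd (y p)) - 1)) • e = 0) →
    e ∈ Zn E {q : Q | ∃ y ∈ Y, q = ι (Multiplicative.ofAdd y)} s.card := by
  let _ := C_mod E ι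
  induction s using Finset.induction_on with
  | empty =>
    intro e h
    rw [Finset.card_empty, mem_Zn_zero]
    obtain ⟨y, hy⟩ := hY
    simpa using h (fun _ => y) (fun _ => hy)
  | insert p s hp ih =>
    intro e h
    rw [Finset.card_insert_of_notMem hp, mem_Zn_succ]
    rintro _ ⟨y₀, hy₀, rfl⟩
    apply ih
    intro y hy
    have h1 := h (Function.update y p y₀) (by
      intro p'
      by_cases hp' : p' = p
      · subst hp'; simpa using hy₀
      · rw [Function.update_of_ne hp']; exact hy p')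
    rw [Finset.prod_insert hp, Function.update_self, mul_comm, mul_smul] at h1
    have h2 : (MonoidAlgebra.of ℤ (Multiplicative M) (Multiplicative.ofAdd y₀) - 1) • e =
        ι (Multiplicative.ofAdd y₀) • e - e := by
      rw [sub_smul, one_smul]
      congr 1
      exact C_of_smul ι _ e
    rw [h2] at h1
    rw [← h1]
    congr 1
    refine Finset.prod_congr rfl fun p' hp' => ?_
    rw [Function.update_of_ne]
    rintro rfl
    exact hp hp'

/-- the universal identity as a relation between characters -/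
theorem C_relation (u : UI) [DistribMulAction Q M] (hE : u.Mod Q E) (ι : Multiplicative M →* Q)
    (hι : ∀ (q : Q) (m : M), ι (Multiplicative.ofAdd (q • m)) =
        q * ι (Multiplicative.ofAdd m) * q⁻¹)
    (p : Fin u.n → ℤ[T;T⁻¹]) (l : Fin u.n → ℤ)
    (hpl : ∀ k, ∀ (m : M) (t : Q), FreeGroup.lift ![1, ι (Multiplicative.ofAdd m), t] (u.w k) =
        ι (Multiplicative.ofAdd (ev M t (p k) m)) * t ^ (l k)) (m v : M) (t : Q) (b : E) :
    ι (Multiplicative.ofAdd v) • b - ι (Multiplicative.ofAdd (m + v)) • b +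
      ∑ k, (u.e k • ι (Multiplicative.ofAdd (ev M t (p k + T (l k + u.i k)) m + t ^ (l k) • v)) •
        t ^ (l k) • b -
        u.e k • ι (Multiplicative.ofAdd (ev M t (p k) m + t ^ (l k) • v)) • t ^ (l k) • b) = 0 := by
  have h := hE (ι (Multiplicative.ofAdd m)) t (ι (Multiplicative.ofAdd v) • b)
  rw [ofAdd_add, map_mul, mul_smul, h, ← Finset.sum_add_distrib]
  refine Finset.sum_eq_zero fun k _ => ?_
  rw [hpl k, smul_sub (_ * _ : Q), smul_sub, ev_add, ev_T, ofAdd_add, ofAdd_add, map_mul, map_mul,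
    ofAdd_add, map_mul, hι, hι]
  simp only [← mul_smul]
  have e1 : ι (Multiplicative.ofAdd (ev M t (p k) m)) * t ^ l k * ι (Multiplicative.ofAdd v) =
    ι (Multiplicative.ofAdd (ev M t (p k) m)) * (t ^ l k * ι (Multiplicative.ofAdd v) * (t ^ l k)⁻¹) *
      t ^ l k := by group
  have e2 : ι (Multiplicative.ofAdd (ev M t (p k) m)) * t ^ l k *
      (t ^ u.i k * ι (Multiplicative.ofAdd m) * t ^ (-u.i k) * ι (Multiplicative.ofAdd v)) =
    ι (Multiplicative.ofAdd (ev M t (p k) m)) *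
      (t ^ (l k + u.i k) * ι (Multiplicative.ofAdd m) * (t ^ (l k + u.i k))⁻¹) *
      (t ^ l k * ι (Multiplicative.ofAdd v) * (t ^ l k)⁻¹) * t ^ l k := by
    rw [zpow_add]; group
  rw [e1, e2]
  abel

end

/-- the character `(m, v) ↦ of (s m + t^l v)` -/
noncomputable def C_theta {Q M : Type} [Group Q] [AddCommGroup M] [DistribMulAction Q M] (t : Q)
    (s : ℤ[T;T⁻¹]) (l : ℤ) :
    Multiplicative (M × M) →* MonoidAlgebra ℤ (Multiplicative M) :=
  (MonoidAlgebra.of ℤ (Multiplicative M)).comp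
    (AddMonoidHom.toMultiplicative
      (((ev M t s : M →+ M)).comp (AddMonoidHom.fst M M) +
        ((DistribSMul.toAddMonoidHom M (t ^ l)).comp (AddMonoidHom.snd M M))))

theorem C_theta_apply {Q M : Type} [Group Q] [AddCommGroup M] [DistribMulAction Q M] (t : Q)
    (s : ℤ[T;T⁻¹]) (l : ℤ) (m v : M) :
    C_theta (M := M) t s l (Multiplicative.ofAdd (m, v)) =
      MonoidAlgebra.of ℤ (Multiplicative M) (Multiplicative.ofAdd (ev M t s m + t ^ l • v)) := rfl

theorem C_isUnit_of {M : Type} [AddCommGroup M] (x : Multiplicative M) :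
    IsUnit (MonoidAlgebra.of ℤ (Multiplicative M) x) :=
  (Group.isUnit x).map (MonoidAlgebra.of ℤ (Multiplicative M))

theorem C_core {Q E M I : Type} [Group Q] [AddCommGroup E] [DistribMulAction Q E] [AddCommGroup M]
    [DistribMulAction Q M] [Fintype I] [DecidableEq I] (ι : Multiplicative M →* Q) (z : Q) (α : ℤ)
    (a : I → ℤ) (s : I → ℤ[T;T⁻¹]) (L : I → ℤ) (N : Finset I)
    (hrel : ∀ (m v : M) (b : E), ∑ i, a i •
      ι (Multiplicative.ofAdd (ev M (z ^ α) (s i) m + (z ^ α) ^ (L i) • v)) •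
        (z ^ α) ^ (L i) • b = 0)
    (hN : ∀ i ∈ N, L i = 0) (hsum : ∑ i ∈ N, a i = 1) (G : I → I → ℤ[T;T⁻¹])
    (hG1 : ∀ i j, L j = 0 → G i j = psi α (s i - s j))
    (hG2 : ∀ i j, L j ≠ 0 → G i j = psi α (T (L j) - 1))
    (X : AddSubgroup M) (hX : ∀ (s : ℤ[T;T⁻¹]), ∀ x ∈ X, ev M z s x ∈ X) :
    ActNil {q : Q | ∃ x ∈ X, q = ι (Multiplicative.ofAdd
      (ev M z (∏ ij ∈ N ×ˢ Nᶜ, G ij.1 ij.2) x))} E := by
  refine ⟨(N ×ˢ Nᶜ).card, ?_⟩
  rw [eq_top_iff]
  intro b _
  set g₀ := ∏ ij ∈ N ×ˢ Nᶜ, G ij.1 ij.2 with hg₀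
  have hset : {q : Q | ∃ x ∈ X, q = ι (Multiplicative.ofAdd (ev M z g₀ x))} =
      {q : Q | ∃ y ∈ {y : M | ∃ x ∈ X, y = ev M z g₀ x}, q = ι (Multiplicative.ofAdd y)} := by
    ext q
    constructor
    · rintro ⟨x, hx, rfl⟩
      exact ⟨_, ⟨x, hx, rfl⟩, rfl⟩
    · rintro ⟨_, ⟨x, hx, rfl⟩, rfl⟩
      exact ⟨x, hx, rfl⟩
  rw [hset]
  let _ := C_mod E ι
  refine C_prod_mem ι {y : M | ∃ x ∈ X, y = ev M z g₀ x} ⟨0, 0, X.zero_mem, by rw [map_zero]⟩
    (N ×ˢ Nᶜ) b ?_
  intro y hy
  choose x' hx' hyx using hy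
  -- divide by the polynomials
  have hdvd : ∀ i j, ∃ x ∈ X, i ∈ N → j ∈ Nᶜ → y (i, j) = ev M z (G i j) x := by
    intro i j
    by_cases hij : i ∈ N ∧ j ∈ Nᶜ
    · have hmem : (i, j) ∈ N ×ˢ Nᶜ := Finset.mk_mem_product hij.1 hij.2
      have hd : (fun ij : I × I => G ij.1 ij.2) (i, j) ∣ g₀ := Finset.dvd_prod_of_mem _ hmem
      obtain ⟨c, hc⟩ := hd
      refine ⟨ev M z c (x' (i, j)), hX _ _ (hx' _), fun _ _ => ?_⟩
      rw [hyx, hc, ev_mul]
    · exact ⟨0, X.zero_mem, fun h1 h2 => absurd ⟨h1, h2⟩ hij⟩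
  choose x hx hyx' using hdvd
  let h : I → I → Multiplicative (M × M) := fun i j =>
    if L j = 0 then Multiplicative.ofAdd (x i j, 0) else Multiplicative.ofAdd (0, x i j)
  let θ : I → Multiplicative (M × M) →* MonoidAlgebra ℤ (Multiplicative M) :=
    fun i => C_theta (z ^ α) (s i) (L i)
  let A : I → E := fun i => a i • (z ^ α) ^ (L i) • b
  have hrel' : ∀ gg : Multiplicative (M × M), ∑ i, θ i gg • A i = 0 := by
    intro gg
    obtain ⟨m, v⟩ := gg
    rw [← hrel m v b]
    refine Finset.sum_congr rfl fun i _ => ?_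
    show MonoidAlgebra.of ℤ (Multiplicative M) (Multiplicative.ofAdd
      (ev M (z ^ α) (s i) m + (z ^ α) ^ (L i) • v)) • (a i • (z ^ α) ^ (L i) • b) = _
    rw [smul_comm]
    congr 1
    exact C_of_smul ι _ _
  have helim := elim θ A hrel' N h
  have hsumA : ∑ i ∈ N, A i = b := by
    have : ∀ i ∈ N, A i = a i • b := by
      intro i hi
      show a i • (z ^ α) ^ (L i) • b = _
      rw [hN i hi, zpow_zero, one_smul]
    rw [Finset.sum_congr rfl this, ← Finset.sum_smul, hsum, one_smul]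
  rw [hsumA, ← Finset.prod_product'] at helim
  -- the factors
  have hfac : ∀ ij ∈ N ×ˢ Nᶜ, ∃ c : MonoidAlgebra ℤ (Multiplicative M), IsUnit c ∧
      θ ij.1 (h ij.1 ij.2) - θ ij.2 (h ij.1 ij.2) =
        c * (MonoidAlgebra.of ℤ (Multiplicative M) (Multiplicative.ofAdd (y ij)) - 1) := by
    rintro ⟨i, j⟩ hij
    rw [Finset.mem_product] at hij
    have hy1 : y (i, j) = ev M z (G i j) (x i j) := hyx' i j hij.1 hij.2
    by_cases hLj : L j = 0
    · have hh : h i j = Multiplicative.ofAdd (x i j, 0) := if_pos hLj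
      rw [hG1 i j hLj, ← ev_pow, ev_sub] at hy1
      refine ⟨_, C_isUnit_of (Multiplicative.ofAdd (ev M (z ^ α) (s j) (x i j))), ?_⟩
      show C_theta (z ^ α) (s i) (L i) (h i j) - C_theta (z ^ α) (s j) (L j) (h i j) = _
      rw [hh, C_theta_apply, C_theta_apply, smul_zero, smul_zero, add_zero, add_zero, mul_sub,
        mul_one, ← map_mul, ← ofAdd_add, hy1]
      congr 4
      abel
    · have hh : h i j = Multiplicative.ofAdd (0, x i j) := if_neg hLj
      rw [hG2 i j hLj, ← ev_pow, ev_sub, ev_T, ev_one] at hy1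
      refine ⟨-(MonoidAlgebra.of ℤ (Multiplicative M) (Multiplicative.ofAdd (x i j))),
        (C_isUnit_of _).neg, ?_⟩
      show C_theta (z ^ α) (s i) (L i) (h i j) - C_theta (z ^ α) (s j) (L j) (h i j) = _
      rw [hh, C_theta_apply, C_theta_apply, map_zero, map_zero, zero_add, zero_add, neg_mul, mul_sub,
        mul_one, ← map_mul, ← ofAdd_add, hy1, hN i hij.1, zpow_zero, one_smul, neg_sub]
      congr 4
      abel
  choose! c hc1 hc2 using hfac
  rw [Finset.prod_congr rfl hc2, Finset.prod_mul_distrib, mul_smul] at helim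
  have hu : IsUnit (∏ ij ∈ N ×ˢ Nᶜ, c ij) := by
    rw [IsUnit.prod_iff]
    exact hc1
  exact hu.smul_eq_zero.1 helim

theorem lemmaD (u : UI) : ∃ n : ℕ, 0 < n ∧
    ∀ (Q E M : Type) [Group Q] [AddCommGroup E] [DistribMulAction Q E] [AddCommGroup M]
      [DistribMulAction Q M] (_ : u.Mod Q E) (ι : Multiplicative M →* Q)
      (_ : ∀ (q : Q) (m : M), ι (Multiplicative.ofAdd (q • m)) =
        q * ι (Multiplicative.ofAdd m) * q⁻¹) (z : Q) (𝔭 : Ideal ℤ[T;T⁻¹]) (_ : 𝔭.IsPrime)
      (X : AddSubgroup M) (_ : ∀ (s : ℤ[T;T⁻¹]), ∀ x ∈ X, ev M z s x ∈ X)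
      (_ : ∀ g : ℤ[T;T⁻¹], g ∉ 𝔭 →
        ¬ ActNil {q : Q | ∃ x ∈ X, q = ι (Multiplicative.ofAdd (ev M z g x))} E),
      T n - 1 ∈ 𝔭 := by
  classical
  choose p l hpl using fun k => word_eval (u.w k)
  let I := Bool ⊕ (Fin u.n × Bool)
  let a : I → ℤ := Sum.elim (fun b => if b then -1 else 1)
    (fun kb => if kb.2 then u.e kb.1 else -u.e kb.1)
  let s : I → ℤ[T;T⁻¹] := Sum.elim (fun b => if b then 1 else 0)
    (fun kb => if kb.2 then p kb.1 + T (l kb.1 + u.i kb.1) else p kb.1)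
  let L : I → ℤ := Sum.elim (fun _ => 0) (fun kb => l kb.1)
  obtain ⟨n, hn, hroots⟩ := roots
    ((Finset.univ.image fun ij : I × I => s ij.1 - s ij.2) ∪
      (Finset.univ.image fun i : I => T (L i) - 1))
  refine ⟨n, hn, ?_⟩
  intro Q E M _ _ _ _ _ hE ι hι z 𝔭 h𝔭 X hX hact
  apply hroots 𝔭 h𝔭
  intro α hα
  by_contra hcon
  push Not at hcon
  set t : Q := z ^ (α : ℤ) with ht
  have h1 : C (1 : ℤ) ∉ 𝔭 := by
    rw [map_one]; exact (Ideal.ne_top_iff_one 𝔭).1 h𝔭.ne_top
  -- the special terms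
  let N : Finset I := Finset.univ.filter (fun i => L i = 0 ∧ C ((s i).coeff 0) ∈ 𝔭)
  have hN : ∀ i, i ∈ N ↔ L i = 0 ∧ C ((s i).coeff 0) ∈ 𝔭 := by
    intro i; simp [N]
  have hsumN : ∑ i ∈ N, a i = 1 := by
    rw [Finset.sum_filter, Fintype.sum_sum_type, Fintype.sum_bool, Fintype.sum_prod_type]
    have e1 : (if L (Sum.inl true) = 0 ∧ C ((s (Sum.inl true)).coeff 0) ∈ 𝔭
        then a (Sum.inl true) else 0) = 0 := by
      rw [if_neg]
      rintro ⟨_, h⟩
      have : (s (Sum.inl true)).coeff 0 = 1 := by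
        show (1 : ℤ[T;T⁻¹]).coeff 0 = 1
        rw [← T_zero, T_apply, if_pos rfl]
      rw [this] at h
      exact h1 h
    have e2 : (if L (Sum.inl false) = 0 ∧ C ((s (Sum.inl false)).coeff 0) ∈ 𝔭
        then a (Sum.inl false) else 0) = 1 := by
      rw [if_pos]
      · rfl
      · refine ⟨rfl, ?_⟩
        have : (s (Sum.inl false)).coeff 0 = 0 := rfl
        rw [this, map_zero]
        exact 𝔭.zero_mem
    rw [e1, e2, Finset.sum_eq_zero, zero_add, add_zero]
    intro k _
    rw [Fintype.sum_bool]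
    by_cases hl : l k = 0
    · have e3 : (s (Sum.inr (k, true))).coeff 0 = (s (Sum.inr (k, false))).coeff 0 := by
        show (p k + T (l k + u.i k)).coeff 0 = (p k).coeff 0
        have : (T (l k + u.i k) : ℤ[T;T⁻¹]).coeff 0 = 0 := by
          rw [T_apply, if_neg]
          rw [hl, zero_add]
          exact u.hi k
        rw [AddMonoidAlgebra.coeff_add, Finsupp.add_apply, this, add_zero]
      rw [e3]
      have e4 : L (Sum.inr (k, true)) = L (Sum.inr (k, false)) := rfl
      rw [e4]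
      by_cases hc : L (Sum.inr (k, false)) = 0 ∧ C ((s (Sum.inr (k, false))).coeff 0) ∈ 𝔭
      · rw [if_pos hc, if_pos hc]
        show u.e k + -u.e k = 0
        ring
      · rw [if_neg hc, if_neg hc, add_zero]
    · rw [if_neg (fun h => hl h.1), if_neg (fun h => hl h.1), add_zero]
  -- the separating polynomials
  let g : I → I → ℤ[T;T⁻¹] := fun i j => if L j = 0 then s i - s j else T (L j) - 1
  let G : I → I → ℤ[T;T⁻¹] := fun i j => psi α (g i j)
  have hG : ∀ i ∈ N, ∀ j ∈ Nᶜ, G i j ∉ 𝔭 := by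
    intro i hi j hj
    rw [hN] at hi
    rw [Finset.mem_compl, hN] at hj
    by_cases hLj : L j = 0
    · have hg : g i j = s i - s j := if_pos hLj
      refine hcon (g i j) ?_ ⟨0, ?_⟩
      · rw [hg]
        exact Finset.mem_union_left _ (Finset.mem_image_of_mem _ (Finset.mem_univ (i, j)))
      · rw [hg, AddMonoidAlgebra.coeff_sub, Finsupp.sub_apply, map_sub]
        intro h
        refine hj ⟨hLj, ?_⟩
        have := 𝔭.sub_mem hi.2 h
        rwa [sub_sub_cancel] at this
    · have hg : g i j = T (L j) - 1 := if_neg hLj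
      refine hcon (g i j) ?_ ⟨L j, ?_⟩
      · rw [hg]
        exact Finset.mem_union_right _ (Finset.mem_image_of_mem _ (Finset.mem_univ j))
      · rw [hg, AddMonoidAlgebra.coeff_sub, Finsupp.sub_apply, T_apply, if_pos rfl, ← T_zero,
          T_apply, if_neg (fun h => hLj h.symm), sub_zero]
        exact h1
  let g₀ : ℤ[T;T⁻¹] := ∏ ij ∈ N ×ˢ Nᶜ, G ij.1 ij.2
  have hg₀ : g₀ ∉ 𝔭 := by
    intro h
    obtain ⟨ij, hij, h2⟩ := (h𝔭.prod_mem_iff).1 h
    rw [Finset.mem_product] at hij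
    exact hG _ hij.1 _ hij.2 h2
  refine hact g₀ hg₀ (C_core ι z α a s L N ?_ (fun i hi => ((hN i).1 hi).1) hsumN G ?_ ?_ X hX)
  · intro m v b
    have h := C_relation u hE ι hι p l (fun k m t => hpl k Q M ι hι m t) m v t b
    rw [Fintype.sum_sum_type, Fintype.sum_bool, Fintype.sum_prod_type]
    rw [← h]
    congr 1
    · show (-1 : ℤ) • ι (Multiplicative.ofAdd (ev M t 1 m + t ^ (0 : ℤ) • v)) • t ^ (0 : ℤ) • b +
        (1 : ℤ) • ι (Multiplicative.ofAdd (ev M t 0 m + t ^ (0 : ℤ) • v)) • t ^ (0 : ℤ) • b = _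
      rw [ev_one, ev_zero, zpow_zero, one_smul, one_smul, zero_add, neg_smul, one_smul, one_smul]
      abel
    · refine Finset.sum_congr rfl fun k _ => ?_
      rw [Fintype.sum_bool]
      show u.e k • ι (Multiplicative.ofAdd (ev M t (p k + T (l k + u.i k)) m + t ^ (l k) • v)) •
        t ^ (l k) • b +
        (-u.e k) • ι (Multiplicative.ofAdd (ev M t (p k) m + t ^ (l k) • v)) • t ^ (l k) • b = _
      rw [neg_smul, ← sub_eq_add_neg]
  · intro i j hj
    show psi α (g i j) = _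
    congr 1
    exact if_pos hj
  · intro i j hj
    show psi α (g i j) = _
    congr 1
    exact if_neg hj

end Pool.Agent.H53R2
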