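import Pool.Agent.H53R2.LemmaD

set_option autoImplicit false

namespace Pool.Agent.H53R2

open LaurentPolynomial

theorem D_noeth : IsNoetherianRing ℤ[T;T⁻¹] :=
  IsLocalization.isNoetherianRing (Submonoid.powers (Polynomial.X : Polynomial ℤ)) ℤ[T;T⁻¹]
    inferInstance

theorem D_mem_Zn {Q M : Type} [Group Q] [AddCommGroup M] [DistribMulAction Q M] (z : Q) (n h : ℕ)
    (e : M) : e ∈ Zn M ({z ^ n} : Set Q) h ↔ ev M z ((T n - 1) ^ h) e = 0 := by
  induction h generalizing e with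
  | zero => rw [mem_Zn_zero, pow_zero, ev_one]
  | succ h ih =>
    rw [mem_Zn_succ, pow_succ, ev_mul, ev_sub, ev_T, ev_one, zpow_natCast, ← ih]
    constructor
    · intro H; exact H _ rfl
    · rintro H _ rfl; exact H

/-- finitely many conjugates -/
theorem D_closure {Q E M : Type} [Group Q] [AddCommGroup E] [DistribMulAction Q E]
    [AddCommGroup M] [DistribMulAction Q M] (ι : Multiplicative M →* Q)
    (hι : ∀ (q : Q) (m : M), ι (Multiplicative.ofAdd (q • m)) =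
        q * ι (Multiplicative.ofAdd m) * q⁻¹) (Q₁ : Subgroup Q) [Q₁.FiniteIndex]
    (Y : Set Q) (hY : ∀ y ∈ Y, y ∈ ι.range) (hQ : ∀ q ∈ Q₁, ∀ y ∈ Y, q * y * q⁻¹ ∈ Y)
    (h : ActNil Y E) : ActNil (Subgroup.normalClosure Y : Set Q) E := by
  classical
  have hcomm : ∀ a ∈ ι.range, ∀ b ∈ ι.range, a * b = b * a := by
    rintro _ ⟨a, rfl⟩ _ ⟨b, rfl⟩
    rw [← map_mul, ← map_mul, mul_comm]
  have hconj : ∀ q : Q, ∀ a ∈ ι.range, q * a * q⁻¹ ∈ ι.range := by
    rintro q _ ⟨a, rfl⟩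
    exact ⟨Multiplicative.ofAdd (q • a.toAdd), by rw [hι]; rfl⟩
  let Yq : Q → Set Q := fun q => (fun s => q * s * q⁻¹) '' Y
  have hYq : ∀ q, ∀ y ∈ Yq q, y ∈ ι.range := by
    rintro q _ ⟨y, hy, rfl⟩
    exact hconj q y (hY y hy)
  have key : ∀ S : Finset (Q ⧸ Q₁), ActNil (⋃ c ∈ S, Yq c.out) E := by
    intro S
    induction S using Finset.induction_on with
    | empty =>
      refine ⟨1, ?_⟩
      rw [eq_top_iff]
      intro e _
      rw [mem_Zn_succ]
      simp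
    | insert c S hc ih =>
      have : (⋃ c' ∈ insert c S, Yq c'.out) = (⋃ c' ∈ S, Yq c'.out) ∪ Yq c.out := by
        rw [Finset.set_biUnion_insert, Set.union_comm]
      rw [this]
      refine ActNil_union ih (h.conj _) ?_
      intro k s hs e he
      refine Zn_stable_of_commute ?_ k he
      intro s' hs' e'
      rw [← mul_smul, ← mul_smul]
      congr 1
      refine hcomm _ ?_ _ (hYq _ _ hs)
      simp only [Set.mem_iUnion] at hs'
      obtain ⟨c', _, hs'⟩ := hs'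
      exact hYq _ _ hs'
  have := Subgroup.finite_quotient_of_finiteIndex (H := Q₁)
  have := Fintype.ofFinite (Q ⧸ Q₁)
  have h1 := key Finset.univ
  refine ActNil.anti ?_ h1.closure
  have hle : Subgroup.normalClosure Y ≤
      Subgroup.closure (⋃ c ∈ (Finset.univ : Finset (Q ⧸ Q₁)), Yq c.out) := by
    rw [Subgroup.normalClosure, Subgroup.closure_le]
    intro x hx
    rw [Group.mem_conjugatesOfSet_iff] at hx
    obtain ⟨y, hy, hxy⟩ := hx
    obtain ⟨q, hq⟩ := isConj_iff.1 hxy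
    apply Subgroup.subset_closure
    simp only [Set.mem_iUnion]
    refine ⟨(q : Q ⧸ Q₁), Finset.mem_univ _, ?_⟩
    obtain ⟨q₁, hq₁⟩ := QuotientGroup.mk_out_eq_mul Q₁ q
    refine ⟨(q₁ : Q)⁻¹ * y * ((q₁ : Q)⁻¹)⁻¹, hQ _ (inv_mem q₁.2) y hy, ?_⟩
    show (q : Q ⧸ Q₁).out * _ * ((q : Q ⧸ Q₁).out)⁻¹ = x
    rw [hq₁, ← hq]
    group
  exact hle

theorem P1 (u : UI) : ∃ n : ℕ, 0 < n ∧
    ∀ (Q E M : Type) [Group Q] [AddCommGroup E] [DistribMulAction Q E] [AddCommGroup M]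
      [DistribMulAction Q M] (_ : u.Mod Q E)
      (_ : ∀ N : Subgroup Q, N.Normal → ActNil (N : Set Q) E → N = ⊥)
      (ι : Multiplicative M →* Q) (_ : Function.Injective ι)
      (_ : ∀ (q : Q) (m : M), ι (Multiplicative.ofAdd (q • m)) =
        q * ι (Multiplicative.ofAdd m) * q⁻¹)
      (Q₁ : Subgroup Q) (_ : Q₁.Normal) (_ : Q₁.FiniteIndex) (z : Q)
      (_ : ∀ q ∈ Q₁, ∀ b : M, z • q • b = q • z • b),
      ActNil ({z ^ n} : Set Q) M := by
  obtain ⟨n, hn, hD⟩ := lemmaD u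
  refine ⟨n, hn, ?_⟩
  intro Q E M _ _ _ _ _ hE hN ι hinj hι Q₁ _ _ z hz
  by_contra hnot
  have hnoe := D_noeth
  set g : ℤ[T;T⁻¹] := T n - 1 with hg
  let J : Ideal ℤ[T;T⁻¹] := RingHom.ker (ev M z)
  have hJ : ∀ f, f ∈ J ↔ ∀ e : M, ev M z f e = 0 := by
    intro f
    rw [RingHom.mem_ker]
    constructor
    · intro h e; rw [h]; rfl
    · intro h; ext e; exact h e
  have hgJ : ∀ h : ℕ, g ^ h ∉ J := by
    intro h hmem
    apply hnot
    refine ⟨h, ?_⟩
    rw [eq_top_iff]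
    intro e _
    rw [D_mem_Zn]
    exact (hJ _).1 hmem e
  let Ann : ℤ[T;T⁻¹] → Ideal ℤ[T;T⁻¹] := fun r =>
    Submodule.comap (LinearMap.mulRight ℤ[T;T⁻¹] r) J
  have hAnn : ∀ r s, s ∈ Ann r ↔ s * r ∈ J := fun r s => Iff.rfl
  obtain ⟨𝔭, ⟨r, hr, hpr⟩, hmax⟩ := (inferInstance : WellFoundedGT (Ideal ℤ[T;T⁻¹])).wf.has_min
    {I | ∃ r, (∀ h : ℕ, g ^ h * r ∉ J) ∧ I = Ann r}
    ⟨Ann 1, 1, by simpa using hgJ, rfl⟩
  have hmem𝔭 : ∀ s, s ∈ 𝔭 ↔ s * r ∈ J := by intro s; rw [hpr]; exact hAnn r s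
  -- maximality
  have hmax' : ∀ c : ℤ[T;T⁻¹], (∀ h : ℕ, g ^ h * (c * r) ∉ J) → ∀ s, s * (c * r) ∈ J → s ∈ 𝔭 := by
    intro c hc s hs
    have hle : 𝔭 ≤ Ann (c * r) := by
      intro s' hs'
      rw [hmem𝔭] at hs'
      rw [hAnn, mul_left_comm]
      exact J.mul_mem_left c hs'
    have hnlt := hmax (Ann (c * r)) ⟨c * r, hc, rfl⟩
    have heq : Ann (c * r) = 𝔭 := by
      by_contra hne
      exact hnlt (lt_of_le_of_ne hle (Ne.symm hne))
    rw [← heq]
    exact hs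
  have hprime : 𝔭.IsPrime := by
    refine ⟨?_, ?_⟩
    · rw [Ideal.ne_top_iff_one, hmem𝔭]
      have := hr 0
      rwa [pow_zero] at this
    · intro a b hab
      by_cases hc : ∀ h : ℕ, g ^ h * (a * r) ∉ J
      · right
        apply hmax' a hc
        rw [hmem𝔭] at hab
        rwa [← mul_assoc, mul_comm b a]
      · left
        push Not at hc
        obtain ⟨h, hh⟩ := hc
        apply hmax' (g ^ h)
        · intro h'
          rw [← mul_assoc, ← pow_add]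
          exact hr _
        · rwa [mul_left_comm]
  let X : AddSubgroup M :=
    { carrier := {x | ∃ m : M, x = ev M z r m}
      zero_mem' := ⟨0, by rw [map_zero]⟩
      add_mem' := by
        rintro _ _ ⟨a, rfl⟩ ⟨b, rfl⟩
        exact ⟨a + b, by rw [map_add]⟩
      neg_mem' := by
        rintro _ ⟨a, rfl⟩
        exact ⟨-a, by rw [map_neg]⟩ }
  have hX : ∀ (s : ℤ[T;T⁻¹]), ∀ x ∈ X, ev M z s x ∈ X := by
    rintro s _ ⟨m, rfl⟩
    refine ⟨ev M z s m, ?_⟩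
    rw [← ev_mul, ← ev_mul, mul_comm]
  have hfin : g ∈ 𝔭 := by
    refine hD Q E M hE ι hι z 𝔭 hprime X hX ?_
    intro g' hg' hact
    apply hg'
    have h1 := D_closure ι hι Q₁ _ (by
      rintro _ ⟨x, _, rfl⟩
      exact ⟨_, rfl⟩) (by
      rintro q hq _ ⟨_, ⟨m, rfl⟩, rfl⟩
      have hz' : ∀ e : M, z • q • e = q • z • e := hz q hq
      refine ⟨ev M z r (q • m), ⟨_, rfl⟩, ?_⟩
      rw [ev_commute z q hz', ev_commute z q hz', hι]) hact
    have h2 := hN _ Subgroup.normalClosure_normal h1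
    rw [hmem𝔭, hJ]
    intro m
    have h3 : ι (Multiplicative.ofAdd (ev M z g' (ev M z r m))) ∈ (⊥ : Subgroup Q) := by
      rw [← h2]
      exact Subgroup.subset_normalClosure ⟨_, ⟨m, rfl⟩, rfl⟩
    rw [Subgroup.mem_bot] at h3
    have h4 := hinj (h3.trans (map_one ι).symm)
    rw [ev_mul]
    exact h4
  have := (hmem𝔭 g).1 hfin
  apply hr 1
  rwa [pow_one]

end Pool.Agent.H53R2
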