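import Pool.Agent.H53R2.B1

set_option autoImplicit false

namespace Pool.Agent.H53R2

open LaurentPolynomial
open scoped commutatorElement

/-- the climb: if a subgroup of finite index acts nilpotently on the centre of the nilpotent
normal subgroup `F`, then the group is nilpotent-by-finite. -/
theorem climb (u : UI) {Q : Type} [Group Q] [Group.FG Q] (hmax : MaxN Q) (hG : u.Grp Q)
    (Q1 : Subgroup Q) [hQ1n : Q1.Normal] [hQ1f : Q1.FiniteIndex] (m c : ℕ)
    (hc : Lw (Lw Q1 m Q1) c (Lw Q1 m Q1) = ⊥)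
    (hZ : ∃ QZ : Subgroup Q, QZ.Normal ∧ QZ.FiniteIndex ∧ Lw Q1 m Q1 ≤ QZ ∧
      ∃ k, Lw QZ k (H_cen (Lw Q1 m Q1) ⊥) ≤ ⊥) : VNil Q := by
  set F : Subgroup Q := Lw Q1 m Q1 with hF
  have hFn : F.Normal := Lw_normal Q1 m Q1
  have hFQ1 : F ≤ Q1 := Lw_le Q1 Q1 m
  obtain ⟨n, hn0, hn⟩ := roots {H_pol u}
  obtain ⟨QZ, hZ1, hZ2, hZ3, kZ, hZ4⟩ := hZ
  -- all terms of the upper central series are good
  have good : ∀ i, ∃ Q' : Subgroup Q, Q'.Normal ∧ Q'.FiniteIndex ∧ F ≤ Q' ∧ Q' ≤ Q1 ∧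
      ∃ l, Lw Q' l (H_C F i).1 = ⊥ := by
    intro i
    induction i with
    | zero => exact ⟨Q1, hQ1n, hQ1f, hFQ1, le_rfl, 0, rfl⟩
    | succ i ih =>
      obtain ⟨Q', h1, h2, h3, h4, l, h5⟩ := ih
      have hCn := (H_C F i).2
      set K : Subgroup Q := (H_C F i).1 with hK
      have hm' : Lw Q' m Q' ≤ F := Lw_mono h4 h4 m
      have key : ∀ j, ∃ Q'' : Subgroup Q, Q''.Normal ∧ Q''.FiniteIndex ∧ F ≤ Q'' ∧ Q'' ≤ Q' ∧
          ∃ k, Lw Q'' k (H_cen F K) ≤ H_cen F (Lw Q' j K) := by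
        intro j
        induction j with
        | zero => exact ⟨Q', h1, h2, h3, le_rfl, 0, le_rfl⟩
        | succ j ihj =>
          obtain ⟨Q'', g1, g2, g3, g4, k, g5⟩ := ihj
          obtain ⟨Q3, e1, e2, e3, k', e5⟩ := H_step u hmax hG n hn0 hn F Q' (Lw Q' j K)
            (Lw Q' (j + 1) K) h3 m hm' (by rw [Lw_succ])
          refine ⟨Q'' ⊓ Q3, inferInstance, inferInstance, le_inf g3 e3, inf_le_left.trans g4,
            k' + k, ?_⟩
          rw [Lw_add]
          exact (Lw_mono inf_le_right ((Lw_mono inf_le_left le_rfl k).trans g5) k').trans e5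
      obtain ⟨Q'', g1, g2, g3, g4, k, g5⟩ := key l
      refine ⟨Q'' ⊓ QZ, inferInstance, inferInstance, le_inf g3 hZ3,
        (inf_le_left.trans g4).trans h4, kZ + k, ?_⟩
      rw [Lw_add, eq_bot_iff]
      refine le_trans (Lw_mono inf_le_right ?_ kZ) hZ4
      refine (Lw_mono inf_le_left le_rfl k).trans (g5.trans ?_)
      exact H_cen_mono h5.le
  -- the series reaches `F`
  have hreach : ∀ j i, i + j = c → Lw F i F ≤ (H_C F j).1 := by
    intro j
    induction j with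
    | zero =>
      intro i hi
      have : i = c := by omega
      subst this
      rw [hc]
      exact bot_le
    | succ j ih =>
      intro i hi y hy
      refine ⟨Lw_le F F i hy, fun x hx => ?_⟩
      rw [← commutatorElement_inv]
      apply Subgroup.inv_mem
      apply ih (i + 1) (by omega)
      rw [Lw_succ]
      exact Subgroup.commutator_mem_commutator hy hx
  obtain ⟨Q2, h1, h2, h3, h4, l, h5⟩ := good c
  refine ⟨Q2, h1, h2, l + m, ?_⟩
  rw [Lw_add, eq_bot_iff]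
  calc Lw Q2 l (Lw Q2 m Q2) ≤ Lw Q2 l F := Lw_mono le_rfl (Lw_mono h4 h4 m) l
    _ ≤ Lw Q2 l (H_C F c).1 := Lw_mono le_rfl (hreach c 0 (Nat.zero_add c)) l
    _ ≤ ⊥ := h5.le

end Pool.Agent.H53R2
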