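import Pool.Agent.H53R2.RDefs

set_option autoImplicit false

namespace Pool.Agent.H53R2

open Pool.Agent.Helper294.HallC

/-- finitely generated modules stay finitely generated over subgroups of finite index -/
theorem fgm_finiteIndex {Γ A : Type} [Group Γ] [AddCommGroup A] [DistribMulAction Γ A]
    (hA : FGM Γ A) (H : Subgroup Γ) [H.Normal] [H.FiniteIndex] : FGM ↥H A := by
  classical
  obtain ⟨S, hS⟩ := hA
  have hfin : Finite (Γ ⧸ H) := Subgroup.finite_quotient_of_finiteIndex
  have := Fintype.ofFinite (Γ ⧸ H)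
  let S' : Finset A := ((Finset.univ : Finset (Γ ⧸ H)) ×ˢ S).image fun a => a.1.out • a.2
  refine ⟨S', ?_⟩
  rw [eq_top_iff, ← hS, AddSubgroup.closure_le]
  rintro _ ⟨g, s, hs, rfl⟩
  apply AddSubgroup.subset_closure
  obtain ⟨h, hh⟩ := QuotientGroup.mk_out_eq_mul H g
  have hn : H.Normal := inferInstance
  refine ⟨⟨g * (h : Γ)⁻¹ * g⁻¹, hn.conj_mem _ (H.inv_mem h.2) g⟩,
    ((g : Γ ⧸ H)).out • s, Finset.mem_image_of_mem (fun a : (Γ ⧸ H) × A => a.1.out • a.2)
      (Finset.mk_mem_product (Finset.mem_univ _) hs), ?_⟩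
  show g • s = (g * (h : Γ)⁻¹ * g⁻¹) • ((g : Γ ⧸ H)).out • s
  rw [hh, ← mul_smul]
  congr 1
  group

/-- a subgroup of finite index stable under a subgroup of finite index contains a fully stable one -/
theorem stable_core {Γ A : Type} [Group Γ] [AddCommGroup A] [DistribMulAction Γ A]
    (H : Subgroup Γ) [H.Normal] [H.FiniteIndex] (B : AddSubgroup A)
    (hB : ∀ g ∈ H, ∀ x ∈ B, g • x ∈ B) (hfin : Finite (A ⧸ B)) :
    ∃ B' : AddSubgroup A, B' ≤ B ∧ Stb Γ B' ∧ Finite (A ⧸ B') := by
  classical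
  have hn : H.Normal := inferInstance
  have hfinQ : Finite (Γ ⧸ H) := Subgroup.finite_quotient_of_finiteIndex
  let B' : AddSubgroup A :=
    { carrier := {x | ∀ q : Γ, q • x ∈ B}
      zero_mem' := fun q => by rw [smul_zero]; exact B.zero_mem
      add_mem' := fun {a b} ha hb q => by rw [smul_add]; exact B.add_mem (ha q) (hb q)
      neg_mem' := fun {a} ha q => by rw [smul_neg]; exact B.neg_mem (ha q) }
  refine ⟨B', fun x hx => by simpa using hx 1, ?_, ?_⟩
  · intro g x hx q
    rw [← mul_smul]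
    exact hx (q * g)
  · let f : A ⧸ B' → (Γ ⧸ H → A ⧸ B) := Quotient.lift
      (fun (x : A) (q : Γ ⧸ H) => (QuotientAddGroup.mk (q.out • x) : A ⧸ B)) (by
        intro a b hab
        have hab' : -a + b ∈ B' := QuotientAddGroup.leftRel_apply.1 hab
        funext q
        rw [QuotientAddGroup.eq, ← smul_neg, ← smul_add]
        exact hab' _)
    have hf : Function.Injective f := by
      rintro ⟨a⟩ ⟨b⟩ hab
      have h1 : ∀ q : Γ ⧸ H, (QuotientAddGroup.mk (q.out • a) : A ⧸ B) =
          QuotientAddGroup.mk (q.out • b) := fun q => congrFun hab q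
      apply (QuotientAddGroup.eq (s := B')).2
      intro g
      have h2 := h1 (g : Γ ⧸ H)
      rw [QuotientAddGroup.eq, ← smul_neg, ← smul_add] at h2
      obtain ⟨h, hh⟩ := QuotientGroup.mk_out_eq_mul H g
      have h3 := hB _ (hn.conj_mem _ (H.inv_mem h.2) g) _ h2
      rw [hh, ← mul_smul] at h3
      have h4 : g * (h : Γ)⁻¹ * g⁻¹ * (g * (h : Γ)) = g := by group
      rwa [h4] at h3
    exact Finite.of_injective f hf

end Pool.Agent.H53R2
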