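import Pool.Agent.H53R2.RDefs
import Pool.Agent.H53R2.Variety

/-! Task U (helper55) -/

set_option autoImplicit false

namespace Pool.Agent.H53R2

open scoped commutatorElement

/-- Task U: if there are no forbidden triples, then a universal identity holds -/
theorem U_forbidden (W : Set (FreeGroup ℕ))
    (h : ∀ (G : Type) [Group G], InVar W G → ∀ x y z : G,
      (∀ i : ℤ, i ≠ 0 → ⁅x, z ^ i * y * z ^ (-i)⁆ = 1) → ⁅x, y⁆ = 1) :
    ∃ u : UI, ∀ (G : Type) [Group G], InVar W G → u.Grp G := by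
  set b : RF W 3 := RF.gen W 0 with hb
  set m : RF W 3 := RF.gen W 1 with hm
  set t : RF W 3 := RF.gen W 2 with ht
  set S : Set (RF W 3) := {x | ∃ i : ℤ, i ≠ 0 ∧ x = ⁅b, t ^ i * m * t ^ (-i)⁆} with hS
  have hmem : ⁅b, m⁆ ∈ Subgroup.normalClosure S := by
    have h1 := h (RF W 3 ⧸ Subgroup.normalClosure S) ((RF_inVar W 3).quot _)
      (QuotientGroup.mk' _ b) (QuotientGroup.mk' _ m) (QuotientGroup.mk' _ t) (by
        intro i hi
        rw [← map_zpow, ← map_zpow, ← map_mul, ← map_mul, ← map_commutatorElement,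
          ← MonoidHom.mem_ker, QuotientGroup.ker_mk']
        exact Subgroup.subset_normalClosure ⟨i, hi, rfl⟩)
    rw [← map_commutatorElement, ← MonoidHom.mem_ker, QuotientGroup.ker_mk'] at h1
    exact h1
  obtain ⟨n, g, s, e, hs, hx⟩ := mem_normalClosure_prod _ _ hmem
  choose kk hkk0 hkk using hs
  choose w hw using fun i => QuotientGroup.mk'_surjective (verb W 3) (g i)
  refine ⟨⟨n, w, kk, e, hkk0⟩, ?_⟩
  intro G _ hG b' m' t'
  have h1 := congrArg (RF.lift hG ![b', m', t']) hx
  have gb : RF.lift hG ![b', m', t'] b = b' := RF.lift_gen hG ![b', m', t'] 0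
  have gm : RF.lift hG ![b', m', t'] m = m' := RF.lift_gen hG ![b', m', t'] 1
  have gt : RF.lift hG ![b', m', t'] t = t' := RF.lift_gen hG ![b', m', t'] 2
  rw [map_commutatorElement, gb, gm, map_list_prod, List.map_ofFn] at h1
  rw [h1]
  congr 2
  funext i
  change RF.lift hG ![b', m', t'] (g i * s i ^ e i * (g i)⁻¹) = _
  rw [map_mul, map_mul, map_inv, map_zpow, hkk, map_commutatorElement, map_mul, map_mul, map_zpow,
    map_zpow, gb, gm, gt, ← hw i, RF.lift_mk]

end Pool.Agent.H53R2
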