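import Mathlib
import Pool.Agent.H53R2.RDefs

set_option autoImplicit false

namespace Pool.Agent.H53R2

section

variable {R A : Type} [CommRing R] [AddCommGroup A] [Module R A]

/-- Task Q1 -/
theorem PP.trans {g r : R} {Y X W : Submodule R A} (hYX : Y ≤ X) (hXW : X ≤ W)
    (h1 : PP g r Y X) (h2 : PP g r X W) : PP g r Y W := by
  refine ⟨?_, ?_⟩
  · intro x hx hrx
    obtain ⟨n, hn⟩ := h2.1 x hx (hYX hrx)
    have h3 : r • (g ^ n • x) ∈ Y := by
      rw [smul_comm]; exact Y.smul_mem _ hrx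
    obtain ⟨m, hm⟩ := h1.1 _ hn h3
    refine ⟨m + n, ?_⟩
    rw [pow_add, mul_smul]; exact hm
  · intro H x hx
    have hW : ∀ x ∈ W, ∃ n : ℕ, g ^ n • x ∈ X := by
      apply h2.2
      intro x hx
      obtain ⟨n, x', hx', h⟩ := H x hx
      exact ⟨n, x', hx', hYX h⟩
    have hX : ∀ x ∈ X, ∃ n : ℕ, g ^ n • x ∈ Y := by
      apply h1.2
      intro x hx
      obtain ⟨n, x', hx', h⟩ := H x (hXW hx)
      obtain ⟨m, hm⟩ := hW x' hx'
      refine ⟨m + n, g ^ m • x', hm, ?_⟩
      have : g ^ (m + n) • x - r • (g ^ m • x') = g ^ m • (g ^ n • x - r • x') := by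
        rw [smul_sub, pow_add, mul_smul, smul_comm r]
      rw [this]
      exact Y.smul_mem _ h
    obtain ⟨n, hn⟩ := hW x hx
    obtain ⟨m, hm⟩ := hX _ hn
    refine ⟨m + n, ?_⟩
    rw [pow_add, mul_smul]; exact hm

theorem Q1_refl (g r : R) (X : Submodule R A) : PP g r X X :=
  ⟨fun x hx _ => ⟨0, by simpa using hx⟩, fun _ x hx => ⟨0, by simpa using hx⟩⟩

theorem Q1_le {g r : R} (X : ℕ → Submodule R A) (hX : Monotone X)
    (h : ∀ n, PP g r (X n) (X (n + 1))) (m k : ℕ) : PP g r (X m) (X (m + k)) := by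
  induction k with
  | zero => exact Q1_refl g r (X m)
  | succ k ih =>
    exact PP.trans (hX (Nat.le_add_right m k)) (hX (Nat.le_succ (m + k))) ih (h (m + k))

/-- Task Q1 -/
theorem PP.iUnion {g r : R} (X : ℕ → Submodule R A) (hX : Monotone X)
    (h : ∀ n, PP g r (X n) (X (n + 1))) : PP g r (X 0) (⨆ n, X n) := by
  have hmem : ∀ x : A, x ∈ (⨆ n, X n) ↔ ∃ n, x ∈ X n := by
    intro x
    exact Submodule.mem_iSup_of_directed X hX.directed_le
  refine ⟨?_, ?_⟩
  · intro x hx hrx
    obtain ⟨n, hn⟩ := (hmem x).1 hx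
    have := Q1_le X hX h 0 n
    rw [Nat.zero_add] at this
    exact this.1 x hn hrx
  · intro H
    have key : ∀ n : ℕ, ∀ x ∈ X n, ∃ k : ℕ, g ^ k • x ∈ X 0 := by
      intro n
      induction n with
      | zero => intro x hx; exact ⟨0, by simpa using hx⟩
      | succ n ih =>
        intro x hx
        have h2 : ∀ x ∈ X (n + 1), ∃ k : ℕ, g ^ k • x ∈ X n := by
          apply (h n).2
          intro x hx
          obtain ⟨k, x', hx', hk⟩ := H x ((hmem x).2 ⟨_, hx⟩)
          obtain ⟨m, hm⟩ := (hmem x').1 hx'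
          -- may assume m ≥ n+1
          have hm' : x' ∈ X (n + 1 + m) := hX (by omega) hm
          have hr : r • x' ∈ X (n + 1) := by
            have h3 : g ^ k • x - r • x' ∈ X (n + 1) := hX (by omega) hk
            have h4 : g ^ k • x ∈ X (n + 1) := (X (n + 1)).smul_mem _ hx
            have h5 := (X (n + 1)).sub_mem h4 h3
            have h6 : g ^ k • x - (g ^ k • x - r • x') = r • x' := by abel
            rwa [h6] at h5
          obtain ⟨l, hl⟩ := (Q1_le X hX h (n + 1) m).1 x' hm' hr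
          refine ⟨l + k, g ^ l • x', hl, ?_⟩
          have h7 : g ^ (l + k) • x - r • (g ^ l • x') = g ^ l • (g ^ k • x - r • x') := by
            rw [smul_sub, pow_add, mul_smul, smul_comm r]
          rw [h7]
          exact (X n).smul_mem _ (hX (by omega) hk)
        obtain ⟨k, hk⟩ := h2 x hx
        obtain ⟨m, hm⟩ := ih _ hk
        refine ⟨m + k, ?_⟩
        rw [pow_add, mul_smul]; exact hm
    intro x hx
    obtain ⟨n, hn⟩ := (hmem x).1 hx
    exact key n x hn

/-- Task Q1 -/
theorem PP.sup {g r : R} {U V : Submodule R A} (h : PP g r (V ⊓ U) V) : PP g r U (U ⊔ V) := by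
  refine ⟨?_, ?_⟩
  · intro x hx hrx
    obtain ⟨u, hu, v, hv, rfl⟩ := Submodule.mem_sup.1 hx
    have h1 : r • v ∈ U := by
      have h2 := U.sub_mem hrx (U.smul_mem r hu)
      have h3 : r • (u + v) - r • u = r • v := by rw [smul_add]; abel
      rwa [h3] at h2
    obtain ⟨n, hn⟩ := h.1 v hv ⟨V.smul_mem r hv, h1⟩
    refine ⟨n, ?_⟩
    rw [smul_add]
    exact U.add_mem (U.smul_mem _ hu) hn.2
  · intro H x hx
    have hV : ∀ v ∈ V, ∃ n : ℕ, g ^ n • v ∈ V ⊓ U := by
      apply h.2
      intro v hv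
      obtain ⟨n, x', hx', h1⟩ := H v (Submodule.mem_sup_right hv)
      obtain ⟨u', hu', v', hv', rfl⟩ := Submodule.mem_sup.1 hx'
      refine ⟨n, v', hv', ?_, ?_⟩
      · exact V.sub_mem (V.smul_mem _ hv) (V.smul_mem _ hv')
      · have h2 := U.add_mem h1 (U.smul_mem r hu')
        have h3 : g ^ n • v - r • (u' + v') + r • u' = g ^ n • v - r • v' := by
          rw [smul_add]; abel
        rwa [h3] at h2
    obtain ⟨u, hu, v, hv, rfl⟩ := Submodule.mem_sup.1 hx
    obtain ⟨n, hn⟩ := hV v hv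
    refine ⟨n, ?_⟩
    rw [smul_add]
    exact U.add_mem (U.smul_mem _ hu) hn.2

/-- Task Q1 -/
theorem PP.tr {Γ : Type} [Group Γ] [DistribMulAction Γ A] [SMulCommClass Γ R A] {g r : R}
    {Y X : Submodule R A} (t : Γ) (h : PP g r Y X) : PP g r (tr t Y) (tr t X) := by
  refine ⟨?_, ?_⟩
  · intro x hx hrx
    rw [mem_tr] at hx hrx
    rw [smul_comm] at hrx
    obtain ⟨n, hn⟩ := h.1 _ hx hrx
    refine ⟨n, ?_⟩
    rw [mem_tr, smul_comm]; exact hn
  · intro H x hx
    rw [mem_tr] at hx
    have h1 : ∀ x ∈ X, ∃ n : ℕ, g ^ n • x ∈ Y := by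
      apply h.2
      intro x hx
      obtain ⟨n, x', hx', h2⟩ := H (t • x) (by rw [mem_tr, inv_smul_smul]; exact hx)
      rw [mem_tr] at hx' h2
      refine ⟨n, t⁻¹ • x', hx', ?_⟩
      rw [smul_sub, smul_comm t⁻¹ (g ^ n), smul_comm t⁻¹ r, inv_smul_smul] at h2
      exact h2
    obtain ⟨n, hn⟩ := h1 _ hx
    refine ⟨n, ?_⟩
    rw [mem_tr, smul_comm]; exact hn

/-- Task Q1 -/
theorem Good.mul [IsDomain R] {f f' : R} {Y X : Submodule R A} (h : Good f Y X) :
    Good (f * f') Y X ∧ Good (f' * f) Y X := by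
  refine ⟨?_, ?_⟩
  · intro g hg hg0 r hr hn
    exact h g ((Dvd.intro _ rfl).trans hg) hg0 r hr hn
  · intro g hg hg0 r hr hn
    exact h g ((Dvd.intro_left _ rfl).trans hg) hg0 r hr hn

/-- Task Q1: generic freeness for finitely generated modules over a domain -/
theorem good_base [IsDomain R] (Y : Submodule R A) (S : Finset A) :
    ∃ f : R, f ≠ 0 ∧ Good f Y (Y ⊔ Submodule.span R (S : Set A)) := by
  classical
  let v : ↥S → A ⧸ Y := fun s => Y.mkQ (s : A)
  obtain ⟨I, hli, hI⟩ := exists_maximal_linearIndepOn R v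
  have hc : ∀ i : ↥S, ∃ c : R, c ≠ 0 ∧ c • v i ∈ Submodule.span R (v '' I) := by
    intro i
    by_cases hi : i ∈ I
    · exact ⟨1, one_ne_zero, by rw [one_smul]; exact Submodule.subset_span ⟨i, hi, rfl⟩⟩
    · obtain ⟨a, ha, h⟩ := hI i hi
      exact ⟨a, ha, h⟩
  choose c hc0 hc using hc
  have hlin : LinearIndependent R (fun i : I => v i) := hli
  have hspan : Submodule.span R (v '' I) = Submodule.span R (Set.range (fun i : I => v i)) := by
    congr 1
    ext y
    simp
  -- elements of the span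
  have hrep : ∀ y ∈ Submodule.span R (v '' I),
      ∃ l : I →₀ R, Finsupp.linearCombination R (fun i : I => v i) l = y := by
    intro y hy
    rw [hspan] at hy
    exact (Finsupp.mem_span_range_iff_exists_finsupp.1 hy).imp (fun l hl => by
      rw [Finsupp.linearCombination_apply]; exact hl)
  set f : R := ∏ i : ↥S, c i with hf
  have hf0 : f ≠ 0 := Finset.prod_ne_zero_iff.2 (fun i _ => hc0 i)
  have hfv : ∀ i : ↥S, f • v i ∈ Submodule.span R (v '' I) := by
    intro i
    obtain ⟨k, hk⟩ := Finset.dvd_prod_of_mem c (Finset.mem_univ i)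
    rw [hf, hk, mul_comm, mul_smul]
    exact Submodule.smul_mem _ _ (hc i)
  have hfx : ∀ x ∈ Y ⊔ Submodule.span R (S : Set A),
      f • Y.mkQ x ∈ Submodule.span R (v '' I) := by
    intro x hx
    obtain ⟨y, hy, z, hz, rfl⟩ := Submodule.mem_sup.1 hx
    have hy0 : Y.mkQ y = 0 := by simpa using hy
    rw [map_add, hy0, zero_add]
    refine Submodule.span_induction (p := fun z _ => f • Y.mkQ z ∈ Submodule.span R (v '' I))
      ?_ ?_ ?_ ?_ hz
    · intro x hx
      exact hfv ⟨x, hx⟩
    · rw [map_zero, smul_zero]; exact Submodule.zero_mem _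
    · intro a b _ _ ha hb
      rw [map_add, smul_add]; exact Submodule.add_mem _ ha hb
    · intro r a _ ha
      rw [map_smul, smul_comm]; exact Submodule.smul_mem _ _ ha
  have hmk : ∀ x : A, Y.mkQ x = 0 → x ∈ Y := by
    intro x hx
    simpa using hx
  refine ⟨f, hf0, ?_⟩
  rintro g ⟨k, rfl⟩ hg0 r hr hn
  refine ⟨?_, ?_⟩
  · intro x hx hrx
    obtain ⟨l, hl⟩ := hrep _ (hfx x hx)
    have h1 : Y.mkQ (r • x) = 0 := (Submodule.Quotient.mk_eq_zero Y).2 hrx
    have h2 : Finsupp.linearCombination R (fun i : I => v i) (r • l) = 0 := by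
      rw [map_smul, hl, smul_comm, ← map_smul, h1, smul_zero]
    have h3 : r • l = 0 := by
      have := hlin (h2.trans (map_zero _).symm)
      exact this
    have h4 : l = 0 := by
      ext i
      have h5 := DFunLike.congr_fun h3 i
      rw [Finsupp.smul_apply, smul_eq_mul, Finsupp.zero_apply] at h5
      rcases mul_eq_zero.1 h5 with h | h
      · exact absurd h hr
      · rw [h, Finsupp.zero_apply]
    rw [h4, map_zero] at hl
    refine ⟨1, hmk _ ?_⟩
    rw [pow_one, mul_comm, mul_smul, map_smul, map_smul, ← hl, smul_zero]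
  · intro H
    by_cases hne : I.Nonempty
    · exfalso
      obtain ⟨i0, hi0⟩ := hne
      obtain ⟨n, x', hx', h1⟩ := H (i0 : A) (Submodule.mem_sup_right
        (Submodule.subset_span i0.2))
      obtain ⟨l, hl⟩ := hrep _ (hfx x' hx')
      have h2 : (f * k) ^ n • v i0 = r • Y.mkQ x' := by
        have h3 : Y.mkQ ((f * k) ^ n • (i0 : A) - r • x') = 0 :=
          (Submodule.Quotient.mk_eq_zero Y).2 h1
        rw [map_sub, map_smul, map_smul, sub_eq_zero] at h3
        exact h3
      have h4 : Finsupp.linearCombination R (fun i : I => v i)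
          (Finsupp.single (⟨i0, hi0⟩ : I) (f * (f * k) ^ n)) =
          Finsupp.linearCombination R (fun i : I => v i) (r • l) := by
        rw [Finsupp.linearCombination_single, map_smul, hl, mul_smul, h2, smul_comm]
      have h5 := hlin h4
      have h6 := DFunLike.congr_fun h5 (⟨i0, hi0⟩ : I)
      rw [Finsupp.single_eq_same, Finsupp.smul_apply, smul_eq_mul] at h6
      apply hn (n + 1)
      rw [pow_succ']
      refine (Dvd.intro _ h6.symm).trans ?_
      exact mul_dvd_mul_right (Dvd.intro _ rfl) _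
    · intro x hx
      have h1 := hfx x hx
      rw [Set.not_nonempty_iff_eq_empty] at hne
      rw [hne, Set.image_empty, Submodule.span_empty, Submodule.mem_bot] at h1
      refine ⟨1, hmk _ ?_⟩
      rw [pow_one, mul_comm, mul_smul, map_smul, map_smul, h1, smul_zero]

end

end Pool.Agent.H53R2
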