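import Pool.Agent.H53R2.RDefs

/-! Task P (helper55) -/

set_option autoImplicit false

namespace Pool.Agent.H53R2

/-- Task P: Malcev -/
theorem P_malcev {G : Type} [Group G] [Group.FG G] (h : RFin G) (φ : G →* G)
    (hφ : Function.Surjective φ) : Function.Injective φ := by
  rw [injective_iff_map_eq_one]
  intro x hx
  by_contra hne
  obtain ⟨N, hN, hfi, hxN⟩ := h x hne
  have hfin : Finite (G ⧸ N) := Subgroup.finite_quotient_of_finiteIndex
  obtain ⟨S, hS⟩ := Group.fg_def.1 (inferInstance : Group.FG G)
  have hHom : Finite (G →* G ⧸ N) := by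
    refine Finite.of_injective (fun (f : G →* G ⧸ N) (s : S) => f s) ?_
    intro f g hfg
    refine MonoidHom.eq_of_eqOn_top ?_
    rw [← hS]
    refine MonoidHom.eqOn_closure ?_
    intro s hs
    exact congrFun hfg ⟨s, hs⟩
  have hinj : Function.Injective (fun f : G →* G ⧸ N => f.comp φ) := by
    intro f g hfg
    ext y
    obtain ⟨z, rfl⟩ := hφ y
    exact DFunLike.congr_fun hfg z
  obtain ⟨f, hf⟩ := (Finite.surjective_of_injective hinj) (QuotientGroup.mk' N)
  have h1 : (QuotientGroup.mk' N) x = 1 := by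
    rw [← hf]
    change f (φ x) = 1
    rw [hx, map_one]
  rw [← MonoidHom.mem_ker, QuotientGroup.ker_mk'] at h1
  exact hxN h1

end Pool.Agent.H53R2
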