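import Pool.Agent.H53R2.B2

set_option autoImplicit false

namespace Pool.Agent.H53R2

theorem maxN_of_normalClosure {G : Type} [Group G]
    (h : ∀ N : Subgroup G, N.Normal → ∃ S : Finset G, N = Subgroup.normalClosure (S : Set G)) :
    MaxN G := by
  rw [K_maxN_iff]
  intro f hf hn
  have hdir : Directed (· ≤ ·) f := hf.directed_le
  have hmem : ∀ x, x ∈ ⨆ n, f n ↔ ∃ n, x ∈ f n := fun x => Subgroup.mem_iSup_of_directed hdir
  have hN : (⨆ n, f n).Normal := by
    constructor
    intro x hx g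
    obtain ⟨n, hn'⟩ := (hmem x).1 hx
    exact (hmem _).2 ⟨n, (hn n).conj_mem x hn' g⟩
  obtain ⟨S, hS⟩ := h _ hN
  have hSm : ∀ x ∈ S, ∃ n, x ∈ f n := by
    intro x hx
    rw [← hmem, hS]
    exact Subgroup.subset_normalClosure hx
  choose! n hn' using hSm
  have hle : ∀ m, S.sup n ≤ m → (⨆ n, f n) ≤ f m := by
    intro m hm
    rw [hS]
    have := hn m
    apply Subgroup.normalClosure_le_normal
    intro x hx
    exact hf ((Finset.le_sup hx).trans hm) (hn' x hx)
  refine ⟨S.sup n, fun m hm => le_antisymm ?_ (hf hm)⟩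
  exact (le_iSup f m).trans (hle _ le_rfl)

end Pool.Agent.H53R2
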