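import Pool.Agent.H53R2.RDefs

/-! Task R2 (helper55) -/

set_option autoImplicit false

namespace Pool.Agent.H53R2

open Pool.Agent.Helper294.HallC

/-- maximal stable subgroup not containing `a` -/
theorem exists_max_stb {Γ A : Type} [Group Γ] [AddCommGroup A] [DistribMulAction Γ A] (a : A)
    (ha : a ≠ 0) : ∃ B : AddSubgroup A, Stb Γ B ∧ a ∉ B ∧
      ∀ C : AddSubgroup A, Stb Γ C → B ≤ C → a ∉ C → C = B := by
  obtain ⟨B, -, hB⟩ := zorn_le_nonempty₀ {B : AddSubgroup A | Stb Γ B ∧ a ∉ B} (by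
    intro c hc hch y hy
    have hdir : DirectedOn (· ≤ ·) c := hch.directedOn
    refine ⟨sSup c, ⟨?_, ?_⟩, fun z hz => le_sSup hz⟩
    · intro g x hx
      rw [AddSubgroup.mem_sSup_of_directedOn ⟨y, hy⟩ hdir] at hx ⊢
      obtain ⟨B, hB, hxB⟩ := hx
      exact ⟨B, hB, (hc hB).1 g x hxB⟩
    · intro h
      rw [AddSubgroup.mem_sSup_of_directedOn ⟨y, hy⟩ hdir] at h
      obtain ⟨B, hB, hxB⟩ := h
      exact (hc hB).2 hxB) ⊥ ⟨by
        intro g x hx
        rw [AddSubgroup.mem_bot] at hx ⊢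
        rw [hx, smul_zero], by
        intro h
        exact ha (AddSubgroup.mem_bot.1 h)⟩
  refine ⟨B, hB.prop.1, hB.prop.2, ?_⟩
  intro C hC hBC haC
  exact le_antisymm (hB.le_of_ge ⟨hC, haC⟩ hBC) hBC

/-- the quotient action -/
def quotAct {Γ A : Type} [Group Γ] [AddCommGroup A] [DistribMulAction Γ A] (B : AddSubgroup A)
    (hB : Stb Γ B) : DistribMulAction Γ (A ⧸ B) where
  smul g := QuotientAddGroup.map B B (DistribSMul.toAddMonoidHom A g) (fun x hx => hB g x hx)
  one_smul := by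
    intro b
    induction b using QuotientAddGroup.induction_on with
    | H x =>
      change (QuotientAddGroup.mk ((1 : Γ) • x) : A ⧸ B) = QuotientAddGroup.mk x
      rw [one_smul]
  mul_smul := by
    intro g h b
    induction b using QuotientAddGroup.induction_on with
    | H x =>
      change (QuotientAddGroup.mk ((g * h) • x) : A ⧸ B) = QuotientAddGroup.mk (g • h • x)
      rw [mul_smul]
  smul_zero := by
    intro g
    exact map_zero (QuotientAddGroup.map B B (DistribSMul.toAddMonoidHom A g) (fun x hx => hB g x hx))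
  smul_add := by
    intro g a b
    exact map_add (QuotientAddGroup.map B B (DistribSMul.toAddMonoidHom A g) (fun x hx => hB g x hx))
      a b

/-- `R_mod` from `R_mono` -/
theorem R_mod_of (hmono : ∀ {Γ A : Type} [Group Γ] [Group.FG Γ] [Group.IsNilpotent Γ]
    [AddCommGroup A] [DistribMulAction Γ A] (_ : FGM Γ A) (K : AddSubgroup A) (_ : K ≠ ⊥)
    (_ : ∀ B : AddSubgroup A, Stb Γ B → B ≠ ⊥ → K ≤ B), Finite A)
    {Γ A : Type} [Group Γ] [Group.FG Γ] [Group.IsNilpotent Γ] [AddCommGroup A]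
    [DistribMulAction Γ A] (hA : FGM Γ A) (a : A) (ha : a ≠ 0) :
    ∃ B : AddSubgroup A, Stb Γ B ∧ a ∉ B ∧ Finite (A ⧸ B) := by
  obtain ⟨B, hB, haB, hmax⟩ := exists_max_stb (Γ := Γ) a ha
  refine ⟨B, hB, haB, ?_⟩
  letI := quotAct B hB
  have hmk : ∀ (g : Γ) (x : A), (QuotientAddGroup.mk (g • x) : A ⧸ B) =
      g • (QuotientAddGroup.mk x : A ⧸ B) := fun g x => rfl
  have hfg : FGM Γ (A ⧸ B) := by
    classical
    obtain ⟨S, hS⟩ := hA
    refine ⟨S.image (QuotientAddGroup.mk' B), ?_⟩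
    have h1 : (AddSubgroup.closure {a : A | ∃ g : Γ, ∃ s ∈ S, a = g • s}).map
        (QuotientAddGroup.mk' B) = ⊤ := by
      rw [hS, ← AddMonoidHom.range_eq_map]
      exact AddMonoidHom.range_eq_top.2 (QuotientAddGroup.mk'_surjective B)
    rw [AddMonoidHom.map_closure] at h1
    rw [← h1]
    congr 1
    ext x
    constructor
    · rintro ⟨g, s, hs, rfl⟩
      obtain ⟨s', hs', rfl⟩ := Finset.mem_image.1 hs
      exact ⟨g • s', ⟨g, s', hs', rfl⟩, rfl⟩
    · rintro ⟨y, ⟨g, s, hs, rfl⟩, rfl⟩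
      exact ⟨g, QuotientAddGroup.mk' B s, Finset.mem_image_of_mem _ hs, rfl⟩
  refine hmono hfg (AddSubgroup.zmultiples (QuotientAddGroup.mk' B a)) ?_ ?_
  · intro h
    rw [AddSubgroup.zmultiples_eq_bot, ← AddMonoidHom.mem_ker, QuotientAddGroup.ker_mk'] at h
    exact haB h
  · intro C hC hCne
    rw [AddSubgroup.zmultiples_le]
    by_contra hnot
    have h2 : C.comap (QuotientAddGroup.mk' B) = B := by
      refine hmax _ ?_ ?_ ?_
      · intro g x hx
        exact hC g _ hx
      · intro x hx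
        have : (QuotientAddGroup.mk' B) x = 0 := by
          rw [← AddMonoidHom.mem_ker, QuotientAddGroup.ker_mk']
          exact hx
        change (QuotientAddGroup.mk' B) x ∈ C
        rw [this]
        exact C.zero_mem
      · exact hnot
    apply hCne
    rw [eq_bot_iff]
    intro c hc
    obtain ⟨x, rfl⟩ := QuotientAddGroup.mk'_surjective B c
    have h3 : x ∈ C.comap (QuotientAddGroup.mk' B) := hc
    rw [h2] at h3
    rw [AddSubgroup.mem_bot, ← AddMonoidHom.mem_ker, QuotientAddGroup.ker_mk']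
    exact h3

end Pool.Agent.H53R2
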