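import Pool.Agent.H53R2.RMod
import Pool.Agent.H53R2.RMono

set_option autoImplicit false

namespace Pool.Agent.H53R2

open Pool.Agent.Helper294.HallC

/-- Task R2: finitely generated modules over finitely generated nilpotent groups are residually
finite -/
theorem R_mod {Γ A : Type} [Group Γ] [Group.FG Γ] [Group.IsNilpotent Γ] [AddCommGroup A]
    [DistribMulAction Γ A] (hA : FGM Γ A) (a : A) (ha : a ≠ 0) :
    ∃ B : AddSubgroup A, Stb Γ B ∧ a ∉ B ∧ Finite (A ⧸ B) :=
  R_mod_of (@R_mono) hA a ha

end Pool.Agent.H53R2
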