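import Pool.Agent.H53R2.RSimple0

set_option autoImplicit false
set_option linter.unusedVariables false

namespace Pool.Agent.H53R2

open Pool.Agent.Helper294.HallC

theorem sq_dvd_pow_sub_one {R : Type} [CommRing R] (E : ℕ) (hE : (E : R) = 0) (w : R) :
    (w - 1) ^ 2 ∣ w ^ E - 1 := by
  rw [← geom_sum_mul w E, pow_two]
  refine mul_dvd_mul_right ?_ _
  have h1 : ∑ i ∈ Finset.range E, w ^ i = ∑ i ∈ Finset.range E, (w ^ i - 1) := by
    rw [Finset.sum_sub_distrib]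
    simp [hE]
  rw [h1]
  refine Finset.dvd_sum fun i _ => ?_
  have := sub_dvd_pow_sub_pow w 1 i
  rwa [one_pow] at this

theorem unip_tors {R : Type} [CommRing R] (E : ℕ) (hE0 : 0 < E) (hE : (E : R) = 0) (w : R)
    (hw : IsNilpotent (w - 1)) : ∃ M : ℕ, 0 < M ∧ w ^ M = 1 := by
  obtain ⟨s, hs⟩ := hw
  have key : ∀ k : ℕ, (w - 1) ^ (2 ^ k) ∣ w ^ (E ^ k) - 1 := by
    intro k
    induction k with
    | zero => simp
    | succ k ih =>
      rw [pow_succ 2 k, pow_mul, pow_succ E k, pow_mul]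
      exact (pow_dvd_pow_of_dvd ih 2).trans (sq_dvd_pow_sub_one E hE _)
  refine ⟨E ^ s, Nat.pow_pos hE0, ?_⟩
  have h1 : (w - 1) ^ (2 ^ s) = 0 := pow_eq_zero_of_le Nat.lt_two_pow_self.le hs
  have h2 := key s
  rw [h1, zero_dvd_iff, sub_eq_zero] at h2
  exact h2

section

variable {Γ A : Type} [Group Γ] [AddCommGroup A] [DistribMulAction Γ A]

/-- the action on a stable subgroup -/
@[reducible] def stbAct (B : AddSubgroup A) (hB : Stb Γ B) : DistribMulAction Γ ↥B where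
  smul g b := ⟨g • (b : A), hB g b b.2⟩
  one_smul b := Subtype.ext (one_smul Γ (b : A))
  mul_smul g h b := Subtype.ext (mul_smul g h (b : A))
  smul_zero g := Subtype.ext (smul_zero g)
  smul_add g a b := Subtype.ext (smul_add g (a : A) (b : A))

/-- stable subgroup generated by a subgroup -/
def stbCl (Γ : Type) {A : Type} [Group Γ] [AddCommGroup A] [DistribMulAction Γ A]
    (K : AddSubgroup A) : AddSubgroup A :=
  AddSubgroup.closure {a : A | ∃ g : Γ, ∃ k ∈ K, a = g • k}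

theorem stb_stbCl (K : AddSubgroup A) : Stb Γ (stbCl Γ K) := by
  intro g x hx
  unfold stbCl at hx ⊢
  induction hx using AddSubgroup.closure_induction with
  | mem x hx =>
    obtain ⟨g', s, hs, rfl⟩ := hx
    exact AddSubgroup.subset_closure ⟨g * g', s, hs, (mul_smul _ _ _).symm⟩
  | zero => rw [smul_zero]; exact zero_mem _
  | add x y _ _ hx hy => rw [smul_add]; exact add_mem hx hy
  | neg x _ hx => rw [smul_neg]; exact neg_mem hx

theorem le_stbCl (K : AddSubgroup A) : K ≤ stbCl Γ K := fun k hk =>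
  AddSubgroup.subset_closure ⟨1, k, hk, (one_smul _ _).symm⟩

theorem stbCl_le {K B : AddSubgroup A} (hB : Stb Γ B) (h : K ≤ B) : stbCl Γ K ≤ B := by
  unfold stbCl
  rw [AddSubgroup.closure_le]
  rintro _ ⟨g, k, hk, rfl⟩
  exact hB g k (h hk)

theorem R_mono_of (Qg : QGenStmt) (Qf : QFieldStmt) [Group.FG Γ] [Group.IsNilpotent Γ]
    (hA : FGM Γ A) (K : AddSubgroup A) (hK : K ≠ ⊥)
    (hmin : ∀ B : AddSubgroup A, Stb Γ B → B ≠ ⊥ → K ≤ B) : Finite A := by
  classical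
  have hPC : PC Γ := nil_PC Γ
  have hst := stb_stbCl (Γ := Γ) K
  have hmin' : ∀ B : AddSubgroup A, Stb Γ B → B ≠ ⊥ → stbCl Γ K ≤ B :=
    fun B hB hne => stbCl_le hB (hmin B hB hne)
  have hne' : stbCl Γ K ≠ ⊥ := fun h => hK (by rw [eq_bot_iff, ← h]; exact le_stbCl K)
  obtain ⟨k0, hk0, hk0ne⟩ := (AddSubgroup.ne_bot_iff_exists_ne_zero).1 hne' |>.elim
    (fun x hx => (⟨x, x.2, fun h => hx (Subtype.ext h)⟩ : ∃ k : A, k ∈ stbCl Γ K ∧ k ≠ 0))
  -- the socle is finite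
  have hfinK : Finite ↥(stbCl Γ K) := by
    let _ := stbAct (Γ := Γ) (stbCl Γ K) hst
    have hnt : Nontrivial ↥(stbCl Γ K) :=
      ⟨⟨⟨k0, hk0⟩, 0, fun h => hk0ne (congrArg Subtype.val h)⟩⟩
    refine Q_simple_of (Γ := Γ) (A := ↥(stbCl Γ K)) Qg Qf ?_
    intro B hB
    by_cases hB0 : B = ⊥
    · exact Or.inl hB0
    · right
      have h1 : Stb Γ (B.map (stbCl Γ K).subtype) := by
        rintro g _ ⟨b, hb, rfl⟩
        exact ⟨g • b, hB g b hb, rfl⟩
      have h2 : B.map (stbCl Γ K).subtype ≠ ⊥ := by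
        intro h3
        apply hB0
        rw [eq_bot_iff]
        intro b hb
        have h4 : (b : A) ∈ B.map (stbCl Γ K).subtype := ⟨b, hb, rfl⟩
        rw [h3] at h4
        exact AddSubgroup.mem_bot.2 (Subtype.ext (AddSubgroup.mem_bot.1 h4))
      have h3 := hmin' _ h1 h2
      rw [eq_top_iff]
      intro b _
      obtain ⟨c, hc, hcb⟩ := h3 b.2
      have : c = b := Subtype.ext hcb
      rw [← this]
      exact hc
  -- elements killing the socle are nilpotent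
  have hnoe := noe_of_fg hPC hA
  have hnil : ∀ r : RT Γ A, (∀ k ∈ stbCl Γ K, r • k = 0) → IsNilpotent r := by
    intro r hr
    have hmono : Monotone (fun n : ℕ => kerR (r ^ n)) := by
      refine monotone_nat_of_le_succ fun n x hx => ?_
      rw [mem_kerR] at hx ⊢
      have e : (r ^ (n + 1)) • x = r • (r ^ n • x) := by rw [smul_smul, ← pow_succ']
      rw [e, hx, smul_zero]
    obtain ⟨N, hN⟩ := hnoe (fun n => kerR (r ^ n)) hmono (fun n => stb_kerR _)
    refine ⟨N + 1, ?_⟩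
    have hdis : ∀ x, x ∈ kerR (r ^ (N + 1)) → x ∈ imR (r ^ (N + 1)) → x = 0 := by
      rintro x hx hx2
      obtain ⟨b, rfl⟩ := mem_imR.1 hx2
      rw [mem_kerR, ← mul_smul, ← pow_add] at hx
      have h1 : b ∈ kerR (r ^ (N + 1 + (N + 1))) := hx
      have h2 : kerR (r ^ (N + 1 + (N + 1))) = kerR (r ^ N) := hN _ (by omega)
      have h3 : kerR (r ^ (N + 1)) = kerR (r ^ N) := hN _ (by omega)
      rw [h2, ← h3] at h1
      exact h1
    have him : imR (r ^ (N + 1)) = ⊥ := by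
      by_contra hne
      have h1 := hmin' _ (stb_imR _) hne hk0
      have h2 : k0 ∈ kerR (r ^ (N + 1)) := by
        have e : (r ^ (N + 1)) • k0 = r ^ N • (r • k0) := by rw [smul_smul, ← pow_succ]
        rw [mem_kerR, e, hr k0 hk0, smul_zero]
      exact hk0ne (hdis k0 h2 h1)
    apply RT_ext
    intro a
    rw [zero_smul]
    have h1 : r ^ (N + 1) • a ∈ imR (r ^ (N + 1)) := mem_imR.2 ⟨a, rfl⟩
    rw [him] at h1
    exact AddSubgroup.mem_bot.1 h1
  -- exponent of `A`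
  obtain ⟨E, hE0, hE⟩ : ∃ E : ℕ, 0 < E ∧ (E : RT Γ A) = 0 := by
    obtain ⟨n, hn⟩ := hnil ((Nat.card ↥(stbCl Γ K) : ℕ) : RT Γ A) (by
      intro k hk
      rw [Nat.cast_smul_eq_nsmul]
      have h1 : Nat.card ↥(stbCl Γ K) • (⟨k, hk⟩ : ↥(stbCl Γ K)) = 0 := card_nsmul_eq_zero'
      exact congrArg Subtype.val h1)
    refine ⟨Nat.card ↥(stbCl Γ K) ^ n, Nat.pow_pos Nat.card_pos, ?_⟩
    rw [Nat.cast_pow, hn]
  have hact : Finite ↥(MulAction.toPermHom Γ A).range := by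
    apply fin_act
    intro z hz
    -- a power of `z` acts trivially on the socle
    obtain ⟨j, hj, hjk⟩ : ∃ j : ℕ, 0 < j ∧ ∀ k ∈ stbCl Γ K, z ^ j • k = k := by
      let _ := stbAct (Γ := Γ) (stbCl Γ K) hst
      have hp : Finite (Equiv.Perm ↥(stbCl Γ K)) := inferInstance
      refine ⟨Nat.card (Equiv.Perm ↥(stbCl Γ K)), Nat.card_pos, fun k hk => ?_⟩
      have h1 : (MulAction.toPermHom Γ ↥(stbCl Γ K) z) ^ Nat.card (Equiv.Perm ↥(stbCl Γ K)) = 1 :=
        pow_card_eq_one'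
      rw [← map_pow] at h1
      have h2 := congrArg (fun p : Equiv.Perm ↥(stbCl Γ K) => p ⟨k, hk⟩) h1
      exact congrArg Subtype.val h2
    have hzj : z ^ j ∈ ZS Γ A := pow_mem hz j
    have h1 : IsNilpotent (rhoS Γ A ⟨z ^ j, hzj⟩ - 1) := by
      apply hnil
      intro k hk
      rw [sub_smul, one_smul, ← rhoS_smul, hjk k hk, sub_self]
    obtain ⟨M, hM0, hM⟩ := unip_tors E hE0 hE _ h1
    refine ⟨j * M, Nat.mul_pos hj hM0, fun a => ?_⟩
    have h2 := rhoS_smul ((⟨z ^ j, hzj⟩ : ↥(ZS Γ A)) ^ M) a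
    rw [map_pow, hM, one_smul, Subgroup.coe_pow] at h2
    rw [pow_mul]
    exact h2
  refine fin_mod Γ A hact hA E hE0 ?_
  intro a
  have h2 : E • a = (E : RT Γ A) • a := by
    rw [Nat.cast_smul_eq_nsmul]
  rw [h2, hE, zero_smul]

end

end Pool.Agent.H53R2
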