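import Pool.Agent.H53R2.RDefs
import Pool.Agent.H53R2.FinNil
import Pool.Agent.Helper294.HallC.NoeOfFg

set_option autoImplicit false
set_option linter.unusedVariables false
set_option linter.deprecated false

namespace Pool.Agent.H53R2

open Pool.Agent.Helper294.HallC

section

variable (Γ A : Type) [Group Γ] [AddCommGroup A] [DistribMulAction Γ A]

/-- the elements of `Γ` whose action on `A` commutes with the action of `Γ` -/
def ZS : Subgroup Γ where
  carrier := {z | ∀ (g : Γ) (a : A), z • g • a = g • z • a}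
  one_mem' := by intro g a; simp
  mul_mem' := by
    intro x y hx hy g a
    rw [mul_smul, mul_smul, hy g a, hx g (y • a)]
  inv_mem' := by
    intro x hx g a
    rw [inv_smul_eq_iff, hx g (x⁻¹ • a), smul_inv_smul]

theorem mem_ZS {z : Γ} : z ∈ ZS Γ A ↔ ∀ (g : Γ) (a : A), z • g • a = g • z • a := Iff.rfl

instance ZS_normal : (ZS Γ A).Normal := by
  constructor
  intro z hz g h a
  have h1 : ∀ b : A, (g * z * g⁻¹) • b = z • b := by
    intro b
    rw [mul_smul, mul_smul, ← hz g (g⁻¹ • b), smul_inv_smul]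
  rw [h1, h1, hz h a]

/-- the ring generated by the action of `ZS` -/
def RS : Subring (AddMonoid.End A) :=
  Subring.closure ((DistribMulAction.toAddMonoidEnd Γ A) '' (ZS Γ A : Set Γ))

theorem RS_comm : ∀ x ∈ (DistribMulAction.toAddMonoidEnd Γ A) '' (ZS Γ A : Set Γ),
    ∀ y ∈ (DistribMulAction.toAddMonoidEnd Γ A) '' (ZS Γ A : Set Γ), x * y = y * x := by
  rintro _ ⟨x, hx, rfl⟩ _ ⟨y, hy, rfl⟩
  ext a
  exact hx y a

/-- the commutative ring generated by the action of `ZS` -/
def RT : Type := ↥(RS Γ A)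

noncomputable instance : CommRing (RT Γ A) := Subring.closureCommRingOfComm (RS_comm Γ A)

noncomputable instance : Module (RT Γ A) A where
  smul r a := r.1 a
  one_smul a := rfl
  mul_smul r s a := rfl
  smul_zero r := r.1.map_zero
  smul_add r a b := r.1.map_add a b
  add_smul r s a := rfl
  zero_smul a := rfl

variable {Γ A}

theorem RT_ext {r s : RT Γ A} (h : ∀ a : A, r • a = s • a) : r = s :=
  Subtype.ext (AddMonoidHom.ext h)

theorem RT_comm (r : RT Γ A) (g : Γ) (a : A) : g • (r • a) = r • (g • a) := by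
  obtain ⟨r, hr⟩ := r
  show g • (r a) = r (g • a)
  revert a
  refine Subring.closure_induction (p := fun r _ => ∀ a : A, g • (r a) = r (g • a))
    ?_ ?_ ?_ ?_ ?_ ?_ hr
  · rintro _ ⟨z, hz, rfl⟩ a
    exact (hz g a).symm
  · intro a; simp
  · intro a; rfl
  · intro x y _ _ hx hy a
    show g • (x a + y a) = x (g • a) + y (g • a)
    rw [smul_add, hx, hy]
  · intro x _ hx a
    show g • (- x a) = - x (g • a)
    rw [smul_neg, hx]
  · intro x y _ _ hx hy a
    show g • (x (y a)) = x (y (g • a))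
    rw [hx, hy]

instance : SMulCommClass Γ (RT Γ A) A := ⟨fun g r a => RT_comm r g a⟩

variable (Γ A)

/-- the action of `ZS` as a homomorphism to `RT` -/
noncomputable def rhoS : ↥(ZS Γ A) →* RT Γ A where
  toFun z := ⟨DistribMulAction.toAddMonoidEnd Γ A z, Subring.subset_closure ⟨z, z.2, rfl⟩⟩
  map_one' := by
    apply RT_ext
    intro a
    exact one_smul Γ a
  map_mul' := by
    intro x y
    apply RT_ext
    intro a
    exact mul_smul (x : Γ) (y : Γ) a

variable {Γ A}

theorem rhoS_smul (z : ↥(ZS Γ A)) (a : A) : (z : Γ) • a = rhoS Γ A z • a := rfl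

theorem RT_gen : AddSubgroup.closure (Set.range (rhoS Γ A)) = ⊤ := by
  have hmul : ∀ x ∈ AddSubgroup.closure (Set.range (rhoS Γ A)),
      ∀ y ∈ AddSubgroup.closure (Set.range (rhoS Γ A)),
      x * y ∈ AddSubgroup.closure (Set.range (rhoS Γ A)) := by
    intro x hx y hy
    induction hx using AddSubgroup.closure_induction with
    | mem x hx =>
      obtain ⟨z, rfl⟩ := hx
      induction hy using AddSubgroup.closure_induction with
      | mem y hy =>
        obtain ⟨w, rfl⟩ := hy
        rw [← map_mul]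
        exact AddSubgroup.subset_closure ⟨_, rfl⟩
      | zero => rw [mul_zero]; exact zero_mem _
      | add a b _ _ ha hb => rw [mul_add]; exact add_mem ha hb
      | neg a _ ha => rw [mul_neg]; exact neg_mem ha
    | zero => rw [zero_mul]; exact zero_mem _
    | add a b _ _ ha hb => rw [add_mul]; exact add_mem ha hb
    | neg a _ ha => rw [neg_mul]; exact neg_mem ha
  rw [eq_top_iff]
  rintro ⟨r, hr⟩ -
  refine Subring.closure_induction (p := fun r hr =>
    (⟨r, hr⟩ : RT Γ A) ∈ AddSubgroup.closure (Set.range (rhoS Γ A))) ?_ ?_ ?_ ?_ ?_ ?_ hr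
  · rintro _ ⟨z, hz, rfl⟩
    exact AddSubgroup.subset_closure ⟨⟨z, hz⟩, rfl⟩
  · exact zero_mem _
  · have : (rhoS Γ A 1) ∈ AddSubgroup.closure (Set.range (rhoS Γ A)) :=
      AddSubgroup.subset_closure ⟨1, rfl⟩
    rw [map_one] at this
    exact this
  · intro x y hx hy h1 h2
    exact add_mem h1 h2
  · intro x hx h1
    exact neg_mem h1
  · intro x y hx hy h1 h2
    exact hmul _ h1 _ h2

theorem RT_ft (h : (ZS Γ A).FG) : Algebra.FiniteType ℤ (RT Γ A) := by
  have h1 : Group.FG ↥(ZS Γ A) := (Group.fg_iff_subgroup_fg _).2 h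
  have h2 : Monoid.FG ↥(ZS Γ A) := Group.fg_iff_monoid_fg.1 h1
  let F : MonoidAlgebra ℤ ↥(ZS Γ A) →ₐ[ℤ] RT Γ A := MonoidAlgebra.lift ℤ (RT Γ A) _ (rhoS Γ A)
  have hF : Function.Surjective F := by
    intro x
    have hx : x ∈ AddSubgroup.closure (Set.range (rhoS Γ A)) := by rw [RT_gen]; trivial
    induction hx using AddSubgroup.closure_induction with
    | mem x hx =>
      obtain ⟨z, rfl⟩ := hx
      exact ⟨MonoidAlgebra.of ℤ _ z, by simp [F]⟩
    | zero => exact ⟨0, map_zero _⟩
    | add a b _ _ ha hb =>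
      obtain ⟨a', rfl⟩ := ha
      obtain ⟨b', rfl⟩ := hb
      exact ⟨a' + b', map_add _ _ _⟩
    | neg a _ ha =>
      obtain ⟨a', rfl⟩ := ha
      exact ⟨-a', map_neg _ _⟩
  exact Algebra.FiniteType.of_surjective F hF

/-- kernel of an element of `RT` -/
noncomputable def kerR (r : RT Γ A) : AddSubgroup A :=
  AddMonoidHom.ker (DistribSMul.toAddMonoidHom A r)
/-- image of an element of `RT` -/
noncomputable def imR (r : RT Γ A) : AddSubgroup A :=
  AddMonoidHom.range (DistribSMul.toAddMonoidHom A r)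

theorem mem_kerR {r : RT Γ A} {a : A} : a ∈ kerR r ↔ r • a = 0 := Iff.rfl
theorem mem_imR {r : RT Γ A} {a : A} : a ∈ imR r ↔ ∃ b : A, r • b = a := Iff.rfl

theorem stb_kerR (r : RT Γ A) : Stb Γ (kerR r) := by
  intro g x hx
  rw [mem_kerR] at hx ⊢
  rw [← RT_comm, hx, smul_zero]

theorem stb_imR (r : RT Γ A) : Stb Γ (imR r) := by
  intro g x hx
  obtain ⟨b, hb⟩ := mem_imR.1 hx
  exact mem_imR.2 ⟨g • b, by rw [← RT_comm, hb]⟩

theorem Finite_of_add_tors (B : Type) [AddCommGroup B] (S : Set B) (hS : S.Finite)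
    (hcl : AddSubgroup.closure S = ⊤) (e : ℕ) (he : 0 < e) (h : ∀ b : B, e • b = 0) : Finite B := by
  have hfg : AddGroup.FG B := by
    rw [AddGroup.fg_iff]
    exact ⟨S, hcl, hS⟩
  apply AddCommGroup.finite_of_fg_isAddTorsion
  intro b
  exact isOfFinAddOrder_iff_nsmul_eq_zero.2 ⟨e, he, h b⟩

theorem fin_center (H : Type) [Group H] (hfg : Group.FG ↥(Subgroup.center H))
    (ht : ∀ z : ↥(Subgroup.center H), IsOfFinOrder z) : Finite ↥(Subgroup.center H) := by
  let C : CommGroup ↥(Subgroup.center H) :=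
    { (inferInstance : Group ↥(Subgroup.center H)) with
      mul_comm := fun a b => Subtype.ext ((Subgroup.mem_center_iff.1 b.2) a) }
  exact @CommGroup.finite_of_fg_isMulTorsion _ C hfg ht

variable (Γ A)

/-- if every element of `ZS` has finite order on `A` then `Γ` acts on `A` through a finite group. -/
theorem fin_act [Group.FG Γ] [Group.IsNilpotent Γ]
    (h : ∀ z ∈ ZS Γ A, ∃ n : ℕ, 0 < n ∧ ∀ a : A, z ^ n • a = a) :
    Finite ↥(MulAction.toPermHom Γ A).range := by
  have hsurj : Function.Surjective (MulAction.toPermHom Γ A).rangeRestrict :=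
    MonoidHom.rangeRestrict_surjective _
  have hfg : Group.FG ↥(MulAction.toPermHom Γ A).range := Group.fg_of_surjective hsurj
  have hnil : Group.IsNilpotent ↥(MulAction.toPermHom Γ A).range :=
    Group.nilpotent_of_surjective _ hsurj
  -- the centre is finite
  have hcfg : (Subgroup.center ↥(MulAction.toPermHom Γ A).range).FG := nil_maxC _ _
  have hcfg' : Group.FG ↥(Subgroup.center ↥(MulAction.toPermHom Γ A).range) :=
    (Group.fg_iff_subgroup_fg _).2 hcfg
  have hfin : Finite ↥(Subgroup.center ↥(MulAction.toPermHom Γ A).range) := by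
    refine fin_center _ hcfg' ?_
    rintro ⟨w, hw⟩
    obtain ⟨z, hz⟩ := hsurj w
    have hzZ : z ∈ ZS Γ A := by
      intro g a
      have h1 := (Subgroup.mem_center_iff.1 hw) ((MulAction.toPermHom Γ A).rangeRestrict g)
      rw [← hz] at h1
      have h2 : (MulAction.toPermHom Γ A) g * (MulAction.toPermHom Γ A) z =
          (MulAction.toPermHom Γ A) z * (MulAction.toPermHom Γ A) g := congrArg Subtype.val h1
      have h3 := congrArg (fun p : Equiv.Perm A => p a) h2
      exact h3.symm
    obtain ⟨n, hn, hna⟩ := h z hzZ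
    rw [isOfFinOrder_iff_pow_eq_one]
    refine ⟨n, hn, ?_⟩
    apply Subtype.ext
    rw [Subgroup.coe_pow, Subgroup.coe_one]
    show w ^ n = 1
    rw [← hz, ← map_pow]
    apply Subtype.ext
    apply Equiv.ext
    intro a
    exact hna a
  refine fin_nil _ (Nat.card ↥(Subgroup.center ↥(MulAction.toPermHom Γ A).range))
    Nat.card_pos ?_
  intro w hw
  have h1 : (⟨w, hw⟩ : ↥(Subgroup.center ↥(MulAction.toPermHom Γ A).range)) ^
      (Nat.card ↥(Subgroup.center ↥(MulAction.toPermHom Γ A).range)) = 1 := pow_card_eq_one'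
  exact congrArg Subtype.val h1

/-- a finitely generated module on which `Γ` acts through a finite group and of bounded exponent
is finite. -/
theorem fin_mod (hact : Finite ↥(MulAction.toPermHom Γ A).range) (hA : FGM Γ A) (e : ℕ)
    (he : 0 < e) (h : ∀ a : A, e • a = 0) : Finite A := by
  obtain ⟨S, hS⟩ := hA
  refine Finite_of_add_tors A _ ?_ hS e he h
  have h1 : {a : A | ∃ g : Γ, ∃ s ∈ S, a = g • s} ⊆
      (fun p : ↥(MulAction.toPermHom Γ A).range × A => (p.1 : Equiv.Perm A) p.2) ''
        (Set.univ ×ˢ (S : Set A)) := by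
    rintro a ⟨g, s, hs, rfl⟩
    exact ⟨(⟨MulAction.toPermHom Γ A g, ⟨g, rfl⟩⟩, s), ⟨trivial, hs⟩, rfl⟩
  exact (Set.Finite.image _ (Set.finite_univ.prod S.finite_toSet)).subset h1

theorem nil_PC [Group.FG Γ] [Group.IsNilpotent Γ] : PC Γ :=
  ⟨(inferInstance : Group.IsSolvable Γ), nil_maxC Γ⟩

end

end Pool.Agent.H53R2
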