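import Pool.Agent.H53R2.RDefs
import Pool.Agent.H53R2.FinNil
import Pool.Agent.Helper111.EN.Resid

/-! Task T (helper55) -/

set_option autoImplicit false

namespace Pool.Agent.H53R2

/-- Task T: finitely generated nilpotent-by-finite groups are residually finite -/
theorem T_vnil {G : Type} [Group G] [Group.FG G] (h : VNil G) : RFin G := by
  obtain ⟨G₁, hn, hfi, m, hm⟩ := h
  have hfg : Group.FG ↥G₁ := Subgroup.fg_of_index_ne_zero G₁
  have hnil : Group.IsNilpotent ↥G₁ := by
    refine E_nilp m ?_
    have h1 := E_map_mk G₁ m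
    rw [hm] at h1
    exact (Subgroup.map_eq_bot_iff_of_injective _ G₁.subtype_injective).1 h1
  intro g hg
  by_cases hgG : g ∈ G₁
  · have hg1 : (⟨g, hgG⟩ : ↥G₁) ≠ 1 := by
      intro h0
      exact hg (congrArg Subtype.val h0)
    obtain ⟨r, -, -, N, hN, hgN, hfin, -⟩ := Pool.Agent.Helper111.EN.resid (K := ↥G₁) ∅
      (by intro p hp; exact absurd hp (Set.notMem_empty p)) 2 Nat.prime_two
      (Set.notMem_empty 2) (by intro p hp; exact absurd hp (Set.notMem_empty p)) ⟨g, hgG⟩ hg1
    have hNfi : N.FiniteIndex := Subgroup.finiteIndex_of_finite_quotient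
    refine ⟨(N.map G₁.subtype).normalCore, inferInstance, ?_, ?_⟩
    · have h2 : (N.map G₁.subtype).FiniteIndex := by
        refine ⟨?_⟩
        rw [Subgroup.index_map]
        rw [Subgroup.ker_subtype, sup_bot_eq, Subgroup.range_subtype]
        exact mul_ne_zero hNfi.index_ne_zero hfi.index_ne_zero
      exact (N.map G₁.subtype).finiteIndex_normalCore
    · intro h3
      have h4 := Subgroup.normalCore_le _ h3
      obtain ⟨y, hy, hyg⟩ := h4
      have h5 : y = ⟨g, hgG⟩ := Subtype.ext hyg
      rw [h5] at hy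
      exact hgN hy
  · exact ⟨G₁, hn, hfi, hgG⟩

end Pool.Agent.H53R2
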