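import Pool.Agent.H53R2.Step
import Pool.Agent.H53R2.B2

set_option autoImplicit false

namespace Pool.Agent.H53R2

/-- the maximal condition on normal subgroups in terms of normal generation -/
theorem MaxN.normalClosure {G : Type} [Group G] (h : MaxN G) (N : Subgroup G) (hN : N.Normal) :
    ∃ S : Finset G, N = Subgroup.normalClosure (S : Set G) := by
  classical
  obtain ⟨M, ⟨hM, S, hS, rfl⟩, hmax⟩ := h.exists_max
    (fun M => M.Normal ∧ ∃ S : Finset G, (S : Set G) ⊆ N ∧ M = Subgroup.normalClosure (S : Set G))
    (fun M hM => hM.1) ⟨⊥, inferInstance, ∅, by simp, by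
      rw [Finset.coe_empty]
      exact Subgroup.normalClosure_empty.symm⟩
  refine ⟨S, le_antisymm ?_ (Subgroup.normalClosure_le_normal hS)⟩
  intro x hx
  have h1 := hmax (Subgroup.normalClosure ((insert x S : Finset G) : Set G))
    ⟨Subgroup.normalClosure_normal, insert x S, by
      rw [Finset.coe_insert]
      exact Set.insert_subset hx hS, rfl⟩
    (Subgroup.normalClosure_mono (by rw [Finset.coe_insert]; exact Set.subset_insert _ _))
  rw [← h1]
  apply Subgroup.subset_normalClosure
  rw [Finset.coe_insert]
  exact Set.mem_insert _ _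

/-- if the relatively free groups of finite rank have the maximal condition on normal subgroups,
then there are only countably many isomorphism classes of finitely generated groups -/
theorem countable_of_maxN (W : Set (FreeGroup ℕ)) (h : ∀ n, MaxN (RF W n)) (ι : Type)
    (G : ι → Type) [∀ i, Group (G i)] (hfg : ∀ i, Group.FG (G i)) (hG : ∀ i, InVar W (G i))
    (hne : ∀ i j, Nonempty (G i ≃* G j) → i = j) : Countable ι := by
  classical
  have key : ∀ i, ∃ x : (Σ n : ℕ, Finset (RF W n)),
      Nonempty (RF W x.1 ⧸ Subgroup.normalClosure (x.2 : Set (RF W x.1)) ≃* G i) := by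
    intro i
    obtain ⟨α, hα, ψ, hψ⟩ := Group.fg_iff_exists_freeGroup_hom_surjective_finite.1 (hfg i)
    obtain ⟨n, ⟨e⟩⟩ := Finite.exists_equiv_fin α
    let f : Fin n → G i := fun j => ψ (FreeGroup.of (e.symm j))
    let Φ : RF W n →* G i := RF.lift (hG i) f
    have hΦ : Function.Surjective Φ := by
      intro g
      obtain ⟨x, rfl⟩ := hψ g
      refine ⟨QuotientGroup.mk (FreeGroup.map e x), ?_⟩
      have h1 : (Φ.comp (QuotientGroup.mk' (verb W n))).comp (FreeGroup.map e) = ψ := by
        apply FreeGroup.ext_hom
        intro a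
        show RF.lift (hG i) f (QuotientGroup.mk' (verb W n) (FreeGroup.map e (FreeGroup.of a))) = _
        rw [FreeGroup.map.of, RF.lift_mk, FreeGroup.lift_apply_of]
        show ψ (FreeGroup.of (e.symm (e a))) = _
        rw [Equiv.symm_apply_apply]
      exact congrArg (fun φ => φ x) h1
    obtain ⟨S, hS⟩ := (h n).normalClosure Φ.ker inferInstance
    exact ⟨⟨n, S⟩, ⟨(QuotientGroup.quotientMulEquivOfEq hS.symm).trans
      (QuotientGroup.quotientKerEquivOfSurjective Φ hΦ)⟩⟩
  choose x hx using key
  have hinj : Function.Injective x := by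
    intro i j hij
    apply hne
    obtain ⟨e⟩ := hx i
    obtain ⟨e'⟩ := hx j
    rw [← hij] at e'
    exact ⟨e.symm.trans e'⟩
  have : ∀ n, Countable (RF W n) := fun n =>
    (QuotientGroup.mk'_surjective (verb W n)).countable
  exact hinj.countable

end Pool.Agent.H53R2
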