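import Pool.Agent.H53R2.B1
import Pool.Agent.H53R2.Variety

set_option autoImplicit false

namespace Pool.Agent.H53R2

open scoped commutatorElement

theorem step (u : UI) {G : Type} [Group G] [Group.FG G] (hG : u.Grp G)
    (D : Subgroup G) [D.Normal] (hD : ⁅D, D⁆ = ⊥) (hmax : MaxN (G ⧸ D)) (hvn : VN (G ⧸ D)) :
    VN G := by
  classical
  -- a maximal normal subgroup containing `D` and acting nilpotently on `D`
  obtain ⟨U, hU1, hDU, ⟨r, hr⟩, hUmax⟩ : ∃ U : Subgroup G, U.Normal ∧ D ≤ U ∧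
      (∃ k, Lw U k D = ⊥) ∧ ∀ U' : Subgroup G, U'.Normal → U ≤ U' → (∃ k, Lw U' k D = ⊥) →
        U' ≤ U := by
    obtain ⟨V, hV, hVmax⟩ := hmax.exists_max
      (fun V => V.Normal ∧ ∃ k, Lw (V.comap (QuotientGroup.mk' D)) k D = ⊥)
      (fun V hV => hV.1) ⟨⊥, inferInstance, 1, by
        rw [Lw_succ, Lw_zero]
        rw [MonoidHom.comap_bot, QuotientGroup.ker_mk', hD]⟩
    refine ⟨V.comap (QuotientGroup.mk' D), hV.1.comap _, ?_, hV.2, ?_⟩
    · intro x hx
      rw [Subgroup.mem_comap, QuotientGroup.mk'_apply, (QuotientGroup.eq_one_iff x).2 hx]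
      exact one_mem _
    · intro U' hU' hle hk
      have hDU' : D ≤ U' := le_trans (by
        intro x hx
        rw [Subgroup.mem_comap, QuotientGroup.mk'_apply, (QuotientGroup.eq_one_iff x).2 hx]
        exact one_mem _) hle
      have hc : (U'.map (QuotientGroup.mk' D)).comap (QuotientGroup.mk' D) = U' := by
        rw [Subgroup.comap_map_eq, QuotientGroup.ker_mk', sup_eq_left.2 hDU']
      have h1 := hVmax (U'.map (QuotientGroup.mk' D))
        ⟨hU'.map _ (QuotientGroup.mk'_surjective D), by rw [hc]; exact hk⟩ (by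
          rw [← Subgroup.map_comap_eq_self_of_surjective (QuotientGroup.mk'_surjective D) V]
          exact Subgroup.map_mono hle)
      rw [← h1, hc]
  have := hU1
  let p : G →* G ⧸ U := QuotientGroup.mk' U
  have hp : Function.Surjective p := QuotientGroup.mk'_surjective U
  have hker : p.ker = U := QuotientGroup.ker_mk' U
  -- the quotient `G/U` is a quotient of `G/D`
  let q : G ⧸ D →* G ⧸ U := QuotientGroup.map D U (MonoidHom.id G) (by
    rw [Subgroup.comap_id]; exact hDU)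
  have hq : Function.Surjective q := by
    intro x
    obtain ⟨g, rfl⟩ := QuotientGroup.mk_surjective x
    exact ⟨QuotientGroup.mk g, rfl⟩
  have hmaxQ : MaxN (G ⧸ U) := hmax.of_surjective q hq
  have hvnQ : VN (G ⧸ U) := hvn.of_surjective q hq
  have hGQ : u.Grp (G ⧸ U) := hG.of_surjective p hp
  obtain ⟨E, _, _, hE, hEN⟩ := exists_prod_secMod p hp u hG (fun i => Lw U i D)
    (fun i => inferInstance) (fun i => by rw [hker]; exact (Lw_le U D i).trans hDU)
    (fun i => by rw [hker, Lw_succ]) r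
  have hN : ∀ N : Subgroup (G ⧸ U), N.Normal → ActNil (N : Set (G ⧸ U)) E → N = ⊥ := by
    intro N hN1 hN2
    have h1 := hEN N hN2
    have h2 : ∀ i ≤ r, ∃ k, Lw (N.comap p) k D ≤ Lw U i D := by
      intro i
      induction i with
      | zero => intro _; exact ⟨0, le_rfl⟩
      | succ i ih =>
        intro hi
        obtain ⟨k, hk⟩ := ih (by omega)
        obtain ⟨l, hl⟩ := h1 i (by omega)
        refine ⟨l + k, ?_⟩
        rw [Lw_add]
        exact (Lw_mono le_rfl hk l).trans hl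
    obtain ⟨k, hk⟩ := h2 r le_rfl
    rw [hr, le_bot_iff] at hk
    have h3 := hUmax (N.comap p) (hN1.comap p) (by
      intro x hx
      rw [Subgroup.mem_comap]
      have : p x = 1 := (QuotientGroup.eq_one_iff x).2 hx
      rw [this]; exact one_mem _) ⟨k, hk⟩
    rw [eq_bot_iff]
    intro x hx
    obtain ⟨g, rfl⟩ := hp x
    rw [Subgroup.mem_bot]
    exact (QuotientGroup.eq_one_iff g).2 (h3 hx)
  obtain ⟨Q₁, hQ1, hQ2, m, hm⟩ := lemmaB1 u hmaxQ hvnQ hGQ hE hN
  obtain ⟨H₁, hH1, hH2, m₀, c₀, hc₀⟩ := hvn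
  set G₂ := Q₁.comap p with hG2
  set G₀ := H₁.comap (QuotientGroup.mk' D) with hG0
  have : G₂.Normal := hQ1.comap p
  have : G₀.Normal := hH1.comap _
  have : G₂.FiniteIndex := by
    constructor
    rw [hG2, Subgroup.index_comap_of_surjective _ hp]
    exact hQ2.index_ne_zero
  have : G₀.FiniteIndex := by
    constructor
    rw [hG0, Subgroup.index_comap_of_surjective _ (QuotientGroup.mk'_surjective D)]
    exact hH2.index_ne_zero
  have e2 : Lw G₂ m G₂ ≤ U := by
    refine (Lw_comap_le p Q₁ m Q₁).trans ?_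
    rw [hm, MonoidHom.comap_bot, hker]
  have e0 : Lw (Lw G₀ m₀ G₀) c₀ (Lw G₀ m₀ G₀) ≤ D := by
    have h1 : Lw G₀ m₀ G₀ ≤ (Lw H₁ m₀ H₁).comap (QuotientGroup.mk' D) :=
      Lw_comap_le (QuotientGroup.mk' D) H₁ m₀ H₁
    refine (Lw_mono h1 h1 c₀).trans ((Lw_comap_le _ _ _ _).trans ?_)
    rw [hc₀, MonoidHom.comap_bot, QuotientGroup.ker_mk']
  refine ⟨G₀ ⊓ G₂, inferInstance, inferInstance, max m m₀, r + c₀, ?_⟩
  set N := Lw (G₀ ⊓ G₂) (max m m₀) (G₀ ⊓ G₂) with hNdef
  have n1 : N ≤ Lw G₀ m₀ G₀ :=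
    (Lw_anti _ _ (le_max_right m m₀)).trans (Lw_mono inf_le_left inf_le_left m₀)
  have n2 : N ≤ U :=
    ((Lw_anti _ _ (le_max_left m m₀)).trans (Lw_mono inf_le_right inf_le_right m)).trans e2
  rw [Lw_add, eq_bot_iff, ← hr]
  exact Lw_mono n2 ((Lw_mono n1 n1 c₀).trans e0) r

/-- the main induction on the derived length -/
theorem main_induction (u : UI) (W : Set (FreeGroup ℕ))
    (hu : ∀ (G : Type) [Group G], InVar W G → u.Grp G)
    (hB2 : ∀ (G : Type) [Group G] [Group.FG G], InVar W G → VN G → MaxN G) (d : ℕ) :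
    ∀ (G : Type) [Group G] [Group.FG G], InVar W G → derivedSeries G d = ⊥ → VN G ∧ MaxN G := by
  induction d with
  | zero =>
    intro G _ _ hG h
    have hvn : VN G := by
      refine ⟨⊤, inferInstance, inferInstance, 0, 0, ?_⟩
      rw [Lw_zero, Lw_zero]
      simpa using h
    exact ⟨hvn, hB2 G hG hvn⟩
  | succ d ih =>
    intro G _ _ hG h
    let D : Subgroup G := derivedSeries G d
    have : D.Normal := derivedSeries_normal G d
    have hD : ⁅D, D⁆ = ⊥ := h
    have hq : derivedSeries (G ⧸ D) d = ⊥ := by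
      have h1 := map_derivedSeries_eq (f := QuotientGroup.mk' D) (QuotientGroup.mk'_surjective D) d
      rw [← h1, eq_bot_iff]
      rintro _ ⟨x, hx, rfl⟩
      exact (QuotientGroup.eq_one_iff x).2 hx
    obtain ⟨h1, h2⟩ := ih (G ⧸ D) (hG.quot D) hq
    have hvn : VN G := step u (hu G hG) D hD h2 h1
    exact ⟨hvn, hB2 G hG hvn⟩

end Pool.Agent.H53R2
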