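import Pool.Agent.H53R2.UB
import Pool.Agent.H53R2.B2
import Pool.Agent.H53R2.Step

set_option autoImplicit false

namespace Pool.Agent.H53R2

open scoped commutatorElement

section

variable {G : Type} [Group G]

/-- generation of the factors of the lower central series of `N` -/
theorem S_step (N : Subgroup G) [N.Normal] (r : ℕ) (t : Fin r → G)
    (ht : ∀ g : G, ∃ k : Fin r → ℤ, ∃ ν ∈ N, g = ν * (List.ofFn fun i => t i ^ k i).prod)
    (K : Finset (Fin r → ℤ))
    (hK : ∀ j, ∀ y ∈ Lw N j N, ∀ x ∈ N, ∀ (k : Fin r → ℤ),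
      ⁅y, (List.ofFn fun i => t i ^ k i).prod * x * ((List.ofFn fun i => t i ^ k i).prod)⁻¹⁆ ∈
        Subgroup.normalClosure {g : G | ∃ k' ∈ K, g =
          ⁅y, (List.ofFn fun i => t i ^ k' i).prod * x *
            ((List.ofFn fun i => t i ^ k' i).prod)⁻¹⁆} ⊔ Lw N (j + 2) N)
    (S₀ : Finset G) (hS₀ : (S₀ : Set G) ⊆ N)
    (hS₀' : N ≤ Subgroup.normalClosure (S₀ : Set G) ⊔ ⁅N, N⁆) (j : ℕ) :
    ∃ S : Finset G, (S : Set G) ⊆ Lw N j N ∧
      Lw N j N ≤ Subgroup.normalClosure (S : Set G) ⊔ Lw N (j + 1) N := by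
  classical
  induction j with
  | zero => exact ⟨S₀, hS₀, by rw [Lw_succ]; exact hS₀'⟩
  | succ j ih =>
    obtain ⟨S, hS, hS'⟩ := ih
    let w : (Fin r → ℤ) → G := fun k => (List.ofFn fun i => t i ^ k i).prod
    have hwN : ∀ k, ∀ x ∈ N, w k * x * (w k)⁻¹ ∈ N := fun k x hx =>
      (inferInstance : N.Normal).conj_mem x hx (w k)
    let S' : Finset G := ((S ×ˢ S₀) ×ˢ K).image fun a => ⁅a.1.1, w a.2 * a.1.2 * (w a.2)⁻¹⁆
    have hmem : ∀ y ∈ S, ∀ x ∈ S₀, ∀ k ∈ K, ⁅y, w k * x * (w k)⁻¹⁆ ∈ S' := by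
      intro y hy x hx k hk
      exact Finset.mem_image_of_mem (fun a : (G × G) × (Fin r → ℤ) =>
        ⁅a.1.1, w a.2 * a.1.2 * (w a.2)⁻¹⁆)
        (Finset.mk_mem_product (Finset.mk_mem_product hy hx) hk)
    refine ⟨S', ?_, ?_⟩
    · intro x hx
      rw [Finset.mem_coe, Finset.mem_image] at hx
      obtain ⟨⟨⟨y, x⟩, k⟩, ha, rfl⟩ := hx
      rw [Finset.mem_product, Finset.mem_product] at ha
      rw [Lw_succ]
      exact Subgroup.commutator_mem_commutator (hS ha.1.1) (hwN k x (hS₀ ha.1.2))
    · set R := Subgroup.normalClosure (S' : Set G) ⊔ Lw N (j + 2) N with hR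
      have hRn : R.Normal := by rw [hR]; infer_instance
      have hR2 : Lw N (j + 2) N ≤ R := le_sup_right
      have hR1 : Subgroup.normalClosure (S' : Set G) ≤ R := le_sup_left
      -- the subgroup of elements commuting with `y` modulo `R`
      have comm_iff : ∀ a b : G, ⁅a, b⁆ ∈ R ↔
          QuotientGroup.mk' R a * QuotientGroup.mk' R b =
            QuotientGroup.mk' R b * QuotientGroup.mk' R a := by
        intro a b
        rw [← commutatorElement_eq_one_iff_mul_comm, ← map_commutatorElement]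
        exact (QuotientGroup.eq_one_iff _).symm
      have step1 : ∀ y ∈ S, ∀ x ∈ N, ⁅y, x⁆ ∈ R := by
        intro y hy
        let Cy : Subgroup G := (Subgroup.centralizer {QuotientGroup.mk' R y}).comap
          (QuotientGroup.mk' R)
        have hCy : ∀ x, x ∈ Cy ↔ ⁅y, x⁆ ∈ R := by
          intro x
          rw [comm_iff]
          show x ∈ (Subgroup.centralizer {QuotientGroup.mk' R y}).comap (QuotientGroup.mk' R) ↔ _
          rw [Subgroup.mem_comap, Subgroup.mem_centralizer_singleton_iff]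
          exact eq_comm
        have h1 : ⁅N, N⁆ ≤ Cy := by
          intro x hx
          rw [hCy]
          have h2 : ⁅Lw N j N, ⁅N, N⁆⁆ ≤ R := by
            apply K_three
            rw [← Lw_succ, ← Lw_succ]
            exact hR2
          exact h2 (Subgroup.commutator_mem_commutator (hS hy) hx)
        have h2 : ∀ x ∈ S₀, ∀ k, w k * x * (w k)⁻¹ ∈ Cy := by
          intro x hx k
          rw [hCy]
          refine (sup_le (Subgroup.normalClosure_mono ?_ |>.trans hR1) hR2)
            (hK j y (hS hy) x (hS₀ hx) k)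
          rintro _ ⟨k', hk', rfl⟩
          exact hmem y hy x hx k' hk'
        have h3 : Subgroup.normalClosure (S₀ : Set G) ≤ Cy := by
          rw [Subgroup.normalClosure, Subgroup.closure_le]
          intro x hx
          rw [Group.mem_conjugatesOfSet_iff] at hx
          obtain ⟨x₀, hx₀, hc⟩ := hx
          obtain ⟨g, hg⟩ := isConj_iff.1 hc
          obtain ⟨k, ν, hν, rfl⟩ := ht g
          have h4 : x = ⁅ν, w k * x₀ * (w k)⁻¹⁆ * (w k * x₀ * (w k)⁻¹) := by
            rw [← hg, commutatorElement_def]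
            show ν * w k * x₀ * (ν * w k)⁻¹ = _
            group
          rw [h4]
          exact Cy.mul_mem (h1 (Subgroup.commutator_mem_commutator hν (hwN k _ (hS₀ hx₀))))
            (h2 x₀ hx₀ k)
        have h5 : N ≤ Cy := hS₀'.trans (sup_le h3 h1)
        intro x hx
        exact (hCy x).1 (h5 hx)
      -- the subgroup of elements commuting with `N` modulo `R`
      let D : Subgroup G := (Subgroup.centralizer (N.map (QuotientGroup.mk' R) :
        Set (G ⧸ R))).comap (QuotientGroup.mk' R)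
      have hNn : (N.map (QuotientGroup.mk' R)).Normal :=
        (inferInstance : N.Normal).map _ (QuotientGroup.mk'_surjective R)
      have hDn : D.Normal := Subgroup.Normal.comap inferInstance _
      have hD : ∀ y, y ∈ D ↔ ∀ x ∈ N, ⁅y, x⁆ ∈ R := by
        intro y
        show y ∈ (Subgroup.centralizer (N.map (QuotientGroup.mk' R) :
          Set (G ⧸ R))).comap (QuotientGroup.mk' R) ↔ _
        rw [Subgroup.mem_comap, Subgroup.mem_centralizer_iff]
        constructor
        · intro h x hx
          rw [comm_iff]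
          exact (h _ ⟨x, hx, rfl⟩).symm
        · rintro h _ ⟨x, hx, rfl⟩
          exact ((comm_iff _ _).1 (h x hx)).symm
      have h6 : Lw N j N ≤ D := by
        refine hS'.trans (sup_le (Subgroup.normalClosure_le_normal ?_) ?_)
        · intro y hy
          rw [SetLike.mem_coe, hD]
          exact step1 y hy
        · intro y hy
          rw [hD]
          intro x hx
          apply hR2
          rw [Lw_succ N (j + 1)]
          exact Subgroup.commutator_mem_commutator hy hx
      rw [Lw_succ, Subgroup.commutator_le]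
      intro y hy x hx
      exact (hD y).1 (h6 hy) x hx

end

theorem U_B2core (u : UI) (G : Type) [Group G]
    [Group.FG G] (hG : u.Grp G) (m c : ℕ)
    (h : Lw (Lw (⊤ : Subgroup G) m ⊤) c (Lw (⊤ : Subgroup G) m ⊤) = ⊥) : MaxN G := by
  set N := Lw (⊤ : Subgroup G) m ⊤ with hN
  have hNn : N.Normal := by rw [hN]; infer_instance
  let p : G →* G ⧸ N := QuotientGroup.mk' N
  have hp : Function.Surjective p := QuotientGroup.mk'_surjective N
  have hker : p.ker = N := QuotientGroup.ker_mk' N
  have hfg : Group.FG (G ⧸ N) := QuotientGroup.fg _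
  have hnil : Group.IsNilpotent (G ⧸ N) := by
    apply E_nilp m
    have h3 := map_Lw p (⊤ : Subgroup G) m ⊤
    rw [Subgroup.map_top_of_surjective _ hp] at h3
    rw [← h3, eq_bot_iff]
    rintro _ ⟨x, hx, rfl⟩
    exact (QuotientGroup.eq_one_iff x).2 hx
  have hmaxc := nil_maxC (G ⧸ N)
  have hpc : Helper294.HallC.PC (G ⧸ N) :=
    ⟨(inferInstance : Group.IsSolvable (G ⧸ N)), hmaxc⟩
  obtain ⟨r, t', ht'⟩ := nil_bddGen (G ⧸ N)
  choose t ht using fun i => hp (t' i)
  have hgen : ∀ g : G, ∃ k : Fin r → ℤ, ∃ ν ∈ N, g = ν * (List.ofFn fun i => t i ^ k i).prod := by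
    intro g
    obtain ⟨k, hk⟩ := ht' (p g)
    refine ⟨k, g * ((List.ofFn fun i => t i ^ k i).prod)⁻¹, ?_, by group⟩
    rw [← hker, MonoidHom.mem_ker, map_mul, map_inv, map_list_prod, List.map_ofFn]
    have : (⇑p ∘ fun i => t i ^ k i) = fun i => t' i ^ k i := by
      ext i; simp [ht]
    rw [this, ← hk, mul_inv_cancel]
  obtain ⟨K, hK⟩ := U_multi u
  obtain ⟨S₀, hS₀⟩ := K_nfg (G := G) m
  have hS₀N : (S₀ : Set G) ⊆ N := by
    rw [hN, hS₀]; exact Subgroup.subset_normalClosure
  have hgenj := S_step N r t hgen (Fintype.piFinset fun _ => K) (fun j y hy x hx k => by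
      refine hK r G hG N (Lw N j N) _ (Lw_le N N j) ?_ y hy x hx t ?_ k
      · rw [← Lw_succ, ← Lw_succ]
        exact le_sup_right
      · intro k' hk'
        apply Subgroup.mem_sup_left
        exact Subgroup.subset_normalClosure ⟨k', Fintype.mem_piFinset.2 hk', rfl⟩) S₀ hS₀N
    (by rw [← hS₀]; exact le_sup_left)
  -- the chain condition on all the sections
  have hacc : ∀ j, K_acc (Lw N (j + 1) N) (Lw N j N) := by
    intro j
    obtain ⟨E, _, _, ⟨s⟩⟩ := exists_secMod p hp (Lw N (j + 1) N) (Lw N j N)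
      (by rw [Lw_succ]; exact Subgroup.commutator_mono le_rfl (Lw_le N N j))
      (by rw [Lw_succ, hker])
    obtain ⟨S, hS1, hS2⟩ := hgenj j
    exact K_acc_of_noe hp s (Helper294.HallC.noe_of_fg hpc
      (K_fgm s S hS1 hS2 (Lw_succ_le N j N)))
  have hacc2 : ∀ j, K_acc (Lw N j N) N := by
    intro j
    induction j with
    | zero =>
      intro f hf hn
      exact ⟨0, fun m _ => inf_le_right.trans le_sup_right⟩
    | succ j ih => exact K_acc_trans (Lw_le N N j) (hacc j) ih
  have hacc3 : K_acc N (⊤ : Subgroup G) := by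
    intro f hf hn
    have hwf := Helper294.HallC.MaxC.wf hmaxc
    rw [wellFoundedGT_iff_monotone_chain_condition] at hwf
    obtain ⟨n, hn'⟩ := hwf ⟨fun i => (f i).map p, fun i j hij => Subgroup.map_mono (hf hij)⟩
    refine ⟨n, fun m hm => ?_⟩
    rw [inf_top_eq, inf_top_eq, ← hker, ← Subgroup.comap_map_eq]
    have h1 : (f n).map p = (f m).map p := hn' m hm
    rw [h1]
    exact Subgroup.le_comap_map _ _
  have h4 := hacc2 c
  rw [h] at h4
  exact K_maxN_of_acc (K_acc_trans le_top h4 hacc3)

theorem UI.Grp.subgroup {u : UI} {G : Type} [Group G] (hG : u.Grp G) (H : Subgroup G) :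
    u.Grp ↥H := by
  intro b m t
  apply Subtype.ext
  have h := hG (b : G) m t
  rw [show ((⁅b, m⁆ : ↥H) : G) = ⁅(b : G), (m : G)⁆ from rfl, h, ← Subgroup.coe_subtype,
    map_list_prod, List.map_ofFn]
  congr 2
  funext k
  have e : ∀ γ : FreeGroup (Fin 3), H.subtype (FreeGroup.lift ![b, m, t] γ) =
      FreeGroup.lift ![(b : G), m, t] γ := by
    intro γ
    have h1 : (H.subtype).comp (FreeGroup.lift ![b, m, t]) = FreeGroup.lift ![(b : G), m, t] := by
      apply FreeGroup.ext_hom
      intro i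
      fin_cases i <;> simp
    rw [← h1]; rfl
  rw [Function.comp_apply, map_mul, map_mul, map_inv, e, map_zpow, map_commutatorElement]
  rfl

theorem U_lemmaB2 (u : UI) (G : Type) [Group G] [Group.FG G] (hG : u.Grp G)
    (hvn : VN G) : MaxN G := by
  obtain ⟨G₁, h1, h2, m, c, h3⟩ := hvn
  have hfg : Group.FG ↥G₁ := Subgroup.fg_of_index_ne_zero G₁
  refine maxN_of_finiteIndex G₁ (U_B2core u ↥G₁ (hG.subgroup G₁) m c ?_)
  apply Subgroup.map_injective G₁.subtype_injective
  rw [map_Lw, E_map_mk, Subgroup.map_bot, h3]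

/-- main theorem: finitely generated soluble groups with the universal identity -/
theorem U_main (u : UI) (d : ℕ) : ∀ (G : Type) [Group G] [Group.FG G], u.Grp G →
    derivedSeries G d = ⊥ → VN G ∧ MaxN G := by
  induction d with
  | zero =>
    intro G _ _ hG h
    have hvn : VN G := by
      refine ⟨⊤, inferInstance, inferInstance, 0, 0, ?_⟩
      rw [Lw_zero, Lw_zero]
      simpa using h
    exact ⟨hvn, U_lemmaB2 u G hG hvn⟩
  | succ d ih =>
    intro G _ _ hG h
    let D : Subgroup G := derivedSeries G d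
    have : D.Normal := derivedSeries_normal G d
    have hD : ⁅D, D⁆ = ⊥ := h
    have hq : derivedSeries (G ⧸ D) d = ⊥ := by
      have h1 := map_derivedSeries_eq (f := QuotientGroup.mk' D) (QuotientGroup.mk'_surjective D) d
      rw [← h1, eq_bot_iff]
      rintro _ ⟨x, hx, rfl⟩
      exact (QuotientGroup.eq_one_iff x).2 hx
    obtain ⟨h1, h2⟩ := ih (G ⧸ D) (hG.of_surjective (QuotientGroup.mk' D)
      (QuotientGroup.mk'_surjective D)) hq
    have hvn : VN G := step u hG D hD h2 h1
    exact ⟨hvn, U_lemmaB2 u G hG hvn⟩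

end Pool.Agent.H53R2
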