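import Pool.Agent.H53R2.RClimb
import Pool.Agent.H53R2.RFG
import Pool.Agent.H53R2.Small
import Pool.Agent.H53R2.UB2
import Pool.Agent.H53R2.RMod2
import Pool.Agent.H53R2.RVnil

set_option autoImplicit false

namespace Pool.Agent.H53R2

open Pool.Agent.Helper294.HallC
open scoped commutatorElement

theorem finiteIndex_comap {G H : Type} [Group G] [Group H] (f : G →* H)
    (hf : Function.Surjective f) (N : Subgroup H) (hN : N.FiniteIndex) : (N.comap f).FiniteIndex :=
  ⟨by rw [Subgroup.index_comap_of_surjective N hf]; exact hN.index_ne_zero⟩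

/-- centralizers of finite normal subgroups have finite index -/
theorem finiteIndex_centralizer {G : Type} [Group G] (Z : Subgroup G) [Z.Normal] [Finite ↥Z] :
    (Subgroup.centralizer (Z : Set G)).FiniteIndex := by
  have h1 : Finite (MulAut ↥Z) :=
    Finite.of_injective (fun e : MulAut ↥Z => (e : ↥Z → ↥Z)) DFunLike.coe_injective
  have h2 : (MulAut.conjNormal : G →* MulAut ↥Z).ker ≤ Subgroup.centralizer (Z : Set G) := by
    intro x hx
    rw [Subgroup.mem_centralizer_iff]
    intro z hz
    have h3 : (MulAut.conjNormal x : MulAut ↥Z) ⟨z, hz⟩ = ⟨z, hz⟩ := by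
      rw [MonoidHom.mem_ker] at hx
      rw [hx]; rfl
    have h4 := congrArg Subtype.val h3
    rw [MulAut.conjNormal_apply] at h4
    have h5 : x * z * x⁻¹ = z := h4
    rw [mul_inv_eq_iff_eq_mul] at h5
    exact h5.symm
  have h6 : (MulAut.conjNormal : G →* MulAut ↥Z).ker.FiniteIndex := inferInstance
  exact Subgroup.finiteIndex_of_le h2

/-- the centre of `F` is finite, if it is contained in the subgroup `F`, the quotient by which is
virtually nilpotent, and `g` lies in all nontrivial normal subgroups -/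
theorem finite_of_monolith {G : Type} [Group G] [Group.FG G] (hmax : MaxN G) (F Z G1 : Subgroup G)
    [F.Normal] [Z.Normal] [G1.Normal] [G1.FiniteIndex] (m : ℕ) (hm : Lw G1 m G1 ≤ F)
    (hZF : ⁅Z, F⁆ = ⊥) (hZ : ⁅Z, Z⁆ = ⊥) (g : G) (hg : g ≠ 1)
    (hmon : ∀ N : Subgroup G, N.Normal → N ≠ ⊥ → g ∈ N) : Finite ↥Z := by
  classical
  by_cases hZ0 : Z = ⊥
  · rw [hZ0]; infer_instance
  let p : G →* G ⧸ F := QuotientGroup.mk' F
  have hp : Function.Surjective p := QuotientGroup.mk'_surjective F
  have hker : p.ker = F := QuotientGroup.ker_mk' F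
  obtain ⟨E, _, _, ⟨s⟩⟩ := exists_secMod p hp (⊥ : Subgroup G) Z (by rw [hZ])
    (by rw [hker, hZF])
  obtain ⟨S, hS⟩ := hmax.normalClosure Z inferInstance
  have hSZ : (S : Set G) ⊆ Z := by
    rw [hS]; exact Subgroup.subset_normalClosure
  have hfgm : FGM (G ⧸ F) E := K_fgm s S hSZ (by rw [← hS]; exact le_sup_left) bot_le
  have hqfg : Group.FG (G ⧸ F) := QuotientGroup.fg _
  let Γ : Subgroup (G ⧸ F) := G1.map p
  have hΓn : Γ.Normal := (inferInstance : G1.Normal).map p hp
  have hΓf : Γ.FiniteIndex := by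
    constructor
    have := Subgroup.index_map_dvd G1 hp
    exact fun h0 => (inferInstance : G1.FiniteIndex).index_ne_zero
      (Nat.eq_zero_of_zero_dvd (h0 ▸ this))
  have hfg : Group.FG ↥Γ := Subgroup.fg_of_index_ne_zero Γ
  have hnil : Group.IsNilpotent ↥Γ := by
    apply E_nilp m
    apply Subgroup.map_injective Γ.subtype_injective
    rw [E_map_mk, Subgroup.map_bot]
    have h1 := map_Lw p G1 m G1
    rw [← h1, eq_bot_iff]
    rintro _ ⟨x, hx, rfl⟩
    exact (QuotientGroup.eq_one_iff x).2 (hm hx)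
  have hgZ : g ∈ Z := hmon Z inferInstance hZ0
  set e : E := (s.π ⟨g, hgZ⟩).toAdd with he
  have hrep : s.rep g e := ⟨hgZ, rfl⟩
  have he0 : e ≠ 0 := by
    intro h0
    have h1 : s.π ⟨g, hgZ⟩ = 1 := by
      have : s.π ⟨g, hgZ⟩ = Multiplicative.ofAdd e := rfl
      rw [this, h0]; rfl
    exact hg (Subgroup.mem_bot.1 ((s.ker _).1 h1))
  obtain ⟨B, hB1, hB2, hB3⟩ := R_mod (fgm_finiteIndex hfgm Γ) e he0
  obtain ⟨B', hle, hst, hfin⟩ := stable_core Γ B (fun g hg x hx => hB1 ⟨g, hg⟩ x hx) hB3
  -- the normal subgroup corresponding to `B'`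
  let N : Subgroup G :=
    { carrier := {x | ∃ b ∈ B', s.rep x b}
      one_mem' := ⟨0, B'.zero_mem, s.rep_one⟩
      mul_mem' := by
        rintro a b ⟨a', ha, ha'⟩ ⟨b', hb, hb'⟩
        exact ⟨a' + b', B'.add_mem ha hb, SecMod.rep_mul ha' hb'⟩
      inv_mem' := by
        rintro a ⟨a', ha, ha'⟩
        exact ⟨-a', B'.neg_mem ha, SecMod.rep_inv ha'⟩ }
  have hNn : N.Normal := by
    constructor
    rintro x ⟨b, hb, hxb⟩ y
    exact ⟨p y • b, hst _ _ hb, SecMod.rep_conj hxb y⟩
  have hgN : g ∉ N := by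
    rintro ⟨b, hb, hgb⟩
    rw [SecMod.rep_unique hrep hgb] at hB2
    exact hB2 (hle hb)
  have hNbot : N = ⊥ := by
    by_contra h
    exact hgN (hmon N hNn h)
  have hB0 : B' = ⊥ := by
    rw [eq_bot_iff]
    intro b hb
    obtain ⟨x, hx⟩ := s.exists_rep b
    have h1 : x ∈ N := ⟨b, hb, hx⟩
    rw [hNbot] at h1
    exact SecMod.rep_mem_zero hx h1
  subst hB0
  have hEfin : Finite E := by
    refine Finite.of_injective (QuotientAddGroup.mk : E → E ⧸ (⊥ : AddSubgroup E)) ?_
    intro a b hab
    rw [QuotientAddGroup.eq, AddSubgroup.mem_bot] at hab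
    rw [← sub_eq_zero, ← neg_eq_zero, neg_sub, sub_eq_neg_add]
    exact hab
  have hMfin : Finite (Multiplicative E) := hEfin
  refine Finite.of_injective s.π ?_
  rw [injective_iff_map_eq_one]
  intro y hy
  have := (s.ker y).1 hy
  exact Subtype.ext this

/-- finitely generated soluble groups satisfying a universal identity are residually finite -/
theorem S_RF (u : UI) {G : Type} [Group G] [Group.FG G] (hmax : MaxN G) (hvn : VN G)
    (hG : u.Grp G) : RFin G := by
  classical
  by_contra hnot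
  -- a maximal normal subgroup whose quotient is not residually finite
  obtain ⟨N, ⟨hN, hNr⟩, hNmax⟩ := hmax.exists_max
    (fun N => ∃ _ : N.Normal, ¬ RFin (G ⧸ N)) (fun N hN => hN.1) ⟨⊥, inferInstance, by
      intro h
      apply hnot
      intro g hg
      obtain ⟨N, h1, h2, h3⟩ := h (QuotientGroup.mk' ⊥ g) (by
        intro h
        rw [QuotientGroup.mk'_apply, QuotientGroup.eq_one_iff, Subgroup.mem_bot] at h
        exact hg h)
      exact ⟨N.comap (QuotientGroup.mk' ⊥), h1.comap _,
        finiteIndex_comap _ (QuotientGroup.mk'_surjective ⊥) N h2, h3⟩⟩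
  have hQfg : Group.FG (G ⧸ N) := QuotientGroup.fg _
  have hQmax : MaxN (G ⧸ N) := hmax.of_surjective _ (QuotientGroup.mk'_surjective N)
  have hQvn : VN (G ⧸ N) := hvn.of_surjective _ (QuotientGroup.mk'_surjective N)
  have hQu : u.Grp (G ⧸ N) := hG.of_surjective (QuotientGroup.mk' N)
    (QuotientGroup.mk'_surjective N)
  have hNr' := hNr
  unfold RFin at hNr
  push Not at hNr
  obtain ⟨g, hg, hgfi⟩ := hNr
  -- `g` lies in all nontrivial normal subgroups
  have hmon : ∀ M : Subgroup (G ⧸ N), M.Normal → M ≠ ⊥ → g ∈ M := by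
    intro M hM hM0
    by_contra hgM
    have hMr : RFin (G ⧸ M.comap (QuotientGroup.mk' N)) := by
      by_contra h
      have h1 := hNmax (M.comap (QuotientGroup.mk' N)) ⟨hM.comap _, h⟩ (by
        intro x hx
        rw [Subgroup.mem_comap, QuotientGroup.mk'_apply, (QuotientGroup.eq_one_iff x).2 hx]
        exact M.one_mem)
      apply hM0
      rw [eq_bot_iff]
      intro x hx
      obtain ⟨y, rfl⟩ := QuotientGroup.mk'_surjective N x
      have h2 : y ∈ M.comap (QuotientGroup.mk' N) := hx
      rw [h1] at h2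
      exact (QuotientGroup.eq_one_iff y).2 h2
    obtain ⟨y, rfl⟩ := QuotientGroup.mk'_surjective N g
    obtain ⟨K, h1, h2, h3⟩ := hMr (QuotientGroup.mk' _ y) (by
      intro h
      rw [QuotientGroup.mk'_apply, QuotientGroup.eq_one_iff] at h
      exact hgM h)
    have hle : N ≤ K.comap (QuotientGroup.mk' (M.comap (QuotientGroup.mk' N))) := by
      intro x hx
      rw [Subgroup.mem_comap]
      have h4 : (QuotientGroup.mk' (M.comap (QuotientGroup.mk' N))) x = 1 := by
        rw [QuotientGroup.mk'_apply, QuotientGroup.eq_one_iff, Subgroup.mem_comap,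
          QuotientGroup.mk'_apply, (QuotientGroup.eq_one_iff x).2 hx]
        exact M.one_mem
      rw [h4]; exact K.one_mem
    have hn1 : (K.comap (QuotientGroup.mk' (M.comap (QuotientGroup.mk' N)))).Normal := h1.comap _
    have hfi : (K.comap (QuotientGroup.mk' (M.comap (QuotientGroup.mk' N)))).FiniteIndex :=
      finiteIndex_comap _ (QuotientGroup.mk'_surjective _) K h2
    have h5 := hgfi ((K.comap (QuotientGroup.mk' (M.comap (QuotientGroup.mk' N)))).map
      (QuotientGroup.mk' N)) (hn1.map _ (QuotientGroup.mk'_surjective N)) (by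
        constructor
        have := Subgroup.index_map_dvd (K.comap (QuotientGroup.mk' (M.comap (QuotientGroup.mk' N))))
          (QuotientGroup.mk'_surjective N)
        exact fun h0 => hfi.index_ne_zero (Nat.eq_zero_of_zero_dvd (h0 ▸ this)))
    obtain ⟨z, hz, hzy⟩ := h5
    apply h3
    have h6 : z⁻¹ * y ∈ N := by
      rw [QuotientGroup.mk'_apply, QuotientGroup.mk'_apply, QuotientGroup.eq] at hzy
      exact hzy
    have h7 := (K.comap (QuotientGroup.mk' (M.comap (QuotientGroup.mk' N)))).mul_mem hz (hle h6)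
    rwa [mul_inv_cancel_left] at h7
  -- the structure
  obtain ⟨G1, hG1n, hG1f, m, c, hc⟩ := hQvn
  set F := Lw G1 m G1 with hF
  have hFn : F.Normal := Lw_normal G1 m G1
  have hvnil : VNil (G ⧸ N) := by
    apply climb u hQmax hQu G1 m c hc
    have hZn : (H_cen F ⊥).Normal := inferInstance
    have hZF : ⁅H_cen F ⊥, F⁆ = ⊥ := by
      rw [eq_bot_iff, Subgroup.commutator_le]
      intro a ha b hb
      rw [← commutatorElement_inv]
      exact Subgroup.inv_mem _ (ha.2 b hb)
    have hfin : Finite ↥(H_cen F ⊥) := finite_of_monolith hQmax F (H_cen F ⊥) G1 m le_rfl hZF (by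
      rw [eq_bot_iff]
      exact (Subgroup.commutator_mono le_rfl H_cen_le).trans hZF.le) g hg hmon
    refine ⟨Subgroup.centralizer (H_cen F ⊥ : Set (G ⧸ N)), inferInstance,
      finiteIndex_centralizer _, ?_, 1, ?_⟩
    · intro x hx
      rw [Subgroup.mem_centralizer_iff]
      intro y hy
      have h1 := hy.2 x hx
      rw [Subgroup.mem_bot, commutatorElement_eq_one_iff_mul_comm] at h1
      exact h1.symm
    · rw [Lw_succ, Lw_zero, Subgroup.commutator_le]
      intro a ha b hb
      rw [Subgroup.mem_centralizer_iff] at hb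
      rw [Subgroup.mem_bot, commutatorElement_eq_one_iff_mul_comm]
      exact hb a ha
  exact hNr' (T_vnil hvnil)

end Pool.Agent.H53R2
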