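import Pool.Agent.H53R2.RRing

set_option autoImplicit false
set_option linter.unusedVariables false

namespace Pool.Agent.H53R2

open Pool.Agent.Helper294.HallC

/-- statement of `Q_generic` -/
def QGenStmt : Prop := ∀ {Γ A R : Type} [Group Γ] [AddCommGroup A] [DistribMulAction Γ A]
    [CommRing R] [IsDomain R] [Module R A] [SMulCommClass Γ R A] (hΓ : PC Γ) (Z : Subgroup Γ)
    [Z.Normal] (ρ : ↥Z →* R) (hρ : ∀ (z : ↥Z) (a : A), (z : Γ) • a = ρ z • a)
    (hR : AddSubgroup.closure (Set.range ρ) = ⊤) (S : Finset A),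
    ∃ f : R, f ≠ 0 ∧ Good f (⊥ : Submodule R A) (gen R (⊤ : Subgroup Γ) S)

/-- statement of `Q_field` -/
def QFieldStmt : Prop := ∀ (R : Type) [CommRing R] [IsDomain R] [Algebra.FiniteType ℤ R] (f : R)
    (hf : f ≠ 0) (h : ∀ r : R, r ≠ 0 → ∃ n : ℕ, r ∣ f ^ n), Finite R

section

variable {Γ A : Type} [Group Γ] [AddCommGroup A] [DistribMulAction Γ A]

theorem simple_inj (h : ∀ B : AddSubgroup A, Stb Γ B → B = ⊥ ∨ B = ⊤) (r : RT Γ A) (hr : r ≠ 0)
    (a : A) (ha : r • a = 0) : a = 0 := by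
  rcases h (kerR r) (stb_kerR r) with h1 | h1
  · have : a ∈ kerR r := ha
    rw [h1] at this
    exact AddSubgroup.mem_bot.1 this
  · exfalso
    apply hr
    apply RT_ext
    intro b
    have : b ∈ kerR r := by rw [h1]; trivial
    rw [zero_smul]
    exact this

theorem simple_surj (h : ∀ B : AddSubgroup A, Stb Γ B → B = ⊥ ∨ B = ⊤) (r : RT Γ A) (hr : r ≠ 0)
    (a : A) : ∃ b : A, r • b = a := by
  rcases h (imR r) (stb_imR r) with h1 | h1
  · exfalso
    apply hr
    apply RT_ext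
    intro b
    have : r • b ∈ imR r := ⟨b, rfl⟩
    rw [h1] at this
    rw [zero_smul]
    exact AddSubgroup.mem_bot.1 this
  · have : a ∈ imR r := by rw [h1]; trivial
    exact mem_imR.1 this

theorem simple_domain [Nontrivial A] (h : ∀ B : AddSubgroup A, Stb Γ B → B = ⊥ ∨ B = ⊤) :
    IsDomain (RT Γ A) := by
  obtain ⟨a, ha⟩ := exists_ne (0 : A)
  have h1 : Nontrivial (RT Γ A) := by
    refine ⟨⟨1, 0, fun h2 => ha ?_⟩⟩
    rw [← one_smul (RT Γ A) a, h2, zero_smul]
  have h2 : NoZeroDivisors (RT Γ A) := by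
    refine ⟨fun {r s} hrs => ?_⟩
    by_contra hne
    push_neg at hne
    apply hne.2
    apply RT_ext
    intro b
    rw [zero_smul]
    apply simple_inj h r hne.1
    rw [← mul_smul, hrs, zero_smul]
  exact NoZeroDivisors.to_isDomain _

theorem Q_simple_of (Qg : QGenStmt) (Qf : QFieldStmt) [Group.FG Γ] [Group.IsNilpotent Γ]
    [Nontrivial A] (h : ∀ B : AddSubgroup A, Stb Γ B → B = ⊥ ∨ B = ⊤) : Finite A := by
  classical
  obtain ⟨a, ha⟩ := exists_ne (0 : A)
  have hdom : IsDomain (RT Γ A) := simple_domain h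
  have hPC : PC Γ := nil_PC Γ
  obtain ⟨f, hf, hgood⟩ := Qg hPC (ZS Γ A) (rhoS Γ A) rhoS_smul RT_gen {a}
  have hft : Algebra.FiniteType ℤ (RT Γ A) := RT_ft (nil_maxC Γ _)
  have hamem : a ∈ gen (RT Γ A) (⊤ : Subgroup Γ) {a} :=
    Submodule.subset_span ⟨1, trivial, a, by simp, (one_smul _ _).symm⟩
  have htop : gen (RT Γ A) (⊤ : Subgroup Γ) {a} = ⊤ := by
    have hstb : Stb Γ (gen (RT Γ A) (⊤ : Subgroup Γ) {a}).toAddSubgroup := by
      intro g x hx
      have hx' : x ∈ gen (RT Γ A) (⊤ : Subgroup Γ) {a} := hx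
      show g • x ∈ gen (RT Γ A) (⊤ : Subgroup Γ) {a}
      refine Submodule.span_induction (p := fun x _ => g • x ∈ gen (RT Γ A) (⊤ : Subgroup Γ) {a})
        ?_ ?_ ?_ ?_ hx'
      · rintro _ ⟨g', -, s, hs, rfl⟩
        exact Submodule.subset_span ⟨g * g', trivial, s, hs, (mul_smul _ _ _).symm⟩
      · rw [smul_zero]; exact zero_mem _
      · intro x y _ _ hx hy
        rw [smul_add]; exact add_mem hx hy
      · intro r x _ hx
        rw [smul_comm]; exact Submodule.smul_mem _ _ hx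
    rcases h _ hstb with h1 | h1
    · exfalso
      apply ha
      have : a ∈ (gen (RT Γ A) (⊤ : Subgroup Γ) {a}).toAddSubgroup := hamem
      rw [h1] at this
      exact AddSubgroup.mem_bot.1 this
    · rw [eq_top_iff]
      intro x _
      have : x ∈ (gen (RT Γ A) (⊤ : Subgroup Γ) {a}).toAddSubgroup := by rw [h1]; trivial
      exact this
  have hfin : Finite (RT Γ A) := by
    refine Qf (RT Γ A) f hf ?_
    intro r hr
    by_contra hne
    push_neg at hne
    have hPP := (hgood f dvd_rfl hf r hr hne).2 (by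
      intro x _
      obtain ⟨x', hx'⟩ := simple_surj h r hr x
      refine ⟨0, x', by rw [htop]; trivial, ?_⟩
      rw [pow_zero, one_smul, hx', sub_self]
      exact zero_mem _) a hamem
    obtain ⟨n, hn⟩ := hPP
    rw [Submodule.mem_bot] at hn
    exact ha (simple_inj h (f ^ n) (pow_ne_zero n hf) a hn)
  have hact : Finite ↥(MulAction.toPermHom Γ A).range := by
    apply fin_act
    intro z hz
    have hu : Finite (RT Γ A)ˣ := inferInstance
    refine ⟨Nat.card (RT Γ A)ˣ, Nat.card_pos, ?_⟩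
    intro b
    have h1 : ((rhoS Γ A).toHomUnits ⟨z, hz⟩) ^ Nat.card (RT Γ A)ˣ = 1 := pow_card_eq_one'
    have h2 := congrArg Units.val h1
    rw [Units.val_pow_eq_pow_val, MonoidHom.coe_toHomUnits, Units.val_one, ← map_pow] at h2
    have h3 := rhoS_smul ((⟨z, hz⟩ : ↥(ZS Γ A)) ^ Nat.card (RT Γ A)ˣ) b
    rw [h2, one_smul] at h3
    exact h3
  have hFGM : FGM Γ A := by
    refine ⟨{a}, ?_⟩
    have hstb : Stb Γ (AddSubgroup.closure {x : A | ∃ g : Γ, ∃ s ∈ ({a} : Finset A), x = g • s}) := by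
      intro g x hx
      induction hx using AddSubgroup.closure_induction with
      | mem x hx =>
        obtain ⟨g', s, hs, rfl⟩ := hx
        exact AddSubgroup.subset_closure ⟨g * g', s, hs, (mul_smul _ _ _).symm⟩
      | zero => rw [smul_zero]; exact zero_mem _
      | add x y _ _ hx hy => rw [smul_add]; exact add_mem hx hy
      | neg x _ hx => rw [smul_neg]; exact neg_mem hx
    rcases h _ hstb with h1 | h1
    · exfalso
      apply ha
      have : a ∈ AddSubgroup.closure {x : A | ∃ g : Γ, ∃ s ∈ ({a} : Finset A), x = g • s} :=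
        AddSubgroup.subset_closure ⟨1, a, by simp, (one_smul _ _).symm⟩
      rw [h1] at this
      exact AddSubgroup.mem_bot.1 this
    · exact h1
  refine fin_mod Γ A hact hFGM (Nat.card (RT Γ A)) Nat.card_pos ?_
  intro b
  have h1 : (Nat.card (RT Γ A)) • (1 : RT Γ A) = 0 := card_nsmul_eq_zero'
  have h2 : (Nat.card (RT Γ A)) • b = ((Nat.card (RT Γ A)) • (1 : RT Γ A)) • b := by
    rw [smul_assoc, one_smul]
  rw [h2, h1, zero_smul]

end

end Pool.Agent.H53R2
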