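import Pool.Agent.H53R2.SDefs

set_option autoImplicit false

namespace Pool.Agent.H53R2

open scoped commutatorElement Cardinal

theorem L_countable (P : Type) [Group P] (hfg : Group.FG P) : Countable P := by
  obtain ⟨S, hS, φ, hφ⟩ := Group.fg_iff_exists_freeGroup_hom_surjective_finite.mp hfg
  exact hφ.countable

theorem L_hom_countable (P H : Type) [Group P] [Group H] [Countable H] (hfg : Group.FG P) :
    Countable (P →* H) := by
  obtain ⟨S, hS, φ, hφ⟩ := Group.fg_iff_exists_freeGroup_hom_surjective_finite.mp hfg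
  have : Function.Injective (fun (f : P →* H) (s : S) => f (φ (FreeGroup.of s))) := by
    intro f g hfg'
    have h1 : f.comp φ = g.comp φ := by
      apply FreeGroup.ext_hom
      intro a
      exact congrFun hfg' a
    ext x
    obtain ⟨y, rfl⟩ := hφ x
    exact DFunLike.congr_fun h1 y
  exact this.countable

/-- Task L -/
theorem small_no_cantor {W : Set (FreeGroup ℕ)} (hW : SmallVar W) (P : Type) [Group P]
    (hfg : Group.FG P) (hP : InVar W P) (N : (ℕ → Bool) → Subgroup P)
    (hN : ∀ s, (N s).Normal) : ¬ Function.Injective N := by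
  intro hinj
  let r : Setoid (ℕ → Bool) :=
    { r := fun s s' => Nonempty ((P ⧸ N s) ≃* (P ⧸ N s'))
      iseqv := ⟨fun s => ⟨MulEquiv.refl _⟩, fun ⟨e⟩ => ⟨e.symm⟩, fun ⟨e⟩ ⟨f⟩ => ⟨e.trans f⟩⟩ }
  have h1 : Cardinal.mk (Quotient r) < Cardinal.continuum := by
    refine hW (Quotient r) (fun q => P ⧸ N q.out) (fun q => ?_) (fun q => ?_) ?_
    · exact QuotientGroup.fg (N q.out)
    · exact hP.quot (N q.out)
    · intro i j hij
      rw [← Quotient.out_eq i, ← Quotient.out_eq j]
      exact Quotient.sound hij
  have h2 : ∀ q : Quotient r, Countable {s : ℕ → Bool // (Quotient.mk r s) = q} := by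
    intro q
    have hPc := L_countable P hfg
    have hQc : Countable (P ⧸ N q.out) := (QuotientGroup.mk'_surjective (N q.out)).countable
    have hHc := L_hom_countable P (P ⧸ N q.out) hfg
    have h3 : ∀ s : {s : ℕ → Bool // (Quotient.mk r s) = q},
        Nonempty ((P ⧸ N s.1) ≃* (P ⧸ N q.out)) := by
      rintro ⟨s, hs⟩
      have : r s q.out := Quotient.exact (by rw [Quotient.out_eq, hs])
      exact this
    let e := fun s => (h3 s).some
    have h4 : Function.Injective (fun s : {s : ℕ → Bool // (Quotient.mk r s) = q} =>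
        (e s).toMonoidHom.comp (QuotientGroup.mk' (N s.1))) := by
      intro s t hst
      have h5 := congrArg MonoidHom.ker hst
      have h6 : ∀ s : {s : ℕ → Bool // (Quotient.mk r s) = q},
          ((e s).toMonoidHom.comp (QuotientGroup.mk' (N s.1))).ker = N s.1 := by
        intro s
        rw [← MonoidHom.comap_ker, (MonoidHom.ker_eq_bot_iff _).mpr (e s).injective]
        show (QuotientGroup.mk' (N s.1)).ker = _
        exact QuotientGroup.ker_mk' _
      simp only [h6] at h5
      exact Subtype.ext (hinj h5)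
    exact h4.countable
  have h3 : Cardinal.mk (ℕ → Bool) ≤ Cardinal.mk (Quotient r) * Cardinal.aleph0 := by
    rw [← Cardinal.mk_congr (Equiv.sigmaFiberEquiv (Quotient.mk r)), Cardinal.mk_sigma,
      ← Cardinal.sum_const']
    exact Cardinal.sum_le_sum _ _ fun q => Cardinal.mk_le_aleph0_iff.mpr (h2 q)
  have h4 : Cardinal.mk (ℕ → Bool) = Cardinal.continuum := by
    simp
  rw [h4] at h3
  exact absurd h3 (not_le.mpr (Cardinal.mul_lt_of_lt Cardinal.aleph0_le_continuum h1
    Cardinal.aleph0_lt_continuum))

end Pool.Agent.H53R2
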