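import Pool.Agent.H53R2.SDDefs

/-! Monomial space versus degree: algebra (helper53). -/

set_option autoImplicit false
set_option linter.unusedSectionVars false

namespace Pool.Agent.H53R2.SD

open MvPolynomial

/-- finite sets with union as multiplication -/
def UF (V : Type) := Finset V

section
variable {V : Type} [DecidableEq V]

def toF (A : UF V) : Finset V := A
def ofF (A : Finset V) : UF V := A

instance : DecidableEq (UF V) := inferInstanceAs (DecidableEq (Finset V))

instance : CommMonoid (UF V) where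
  mul A B := ofF (toF A ∪ toF B)
  one := ofF ∅
  mul_assoc A B C := Finset.union_assoc _ _ _
  one_mul A := Finset.empty_union _
  mul_one A := Finset.union_empty _
  mul_comm A B := Finset.union_comm _ _

lemma toF_mul (A B : UF V) : toF (A * B) = toF A ∪ toF B := rfl
lemma toF_one : toF (1 : UF V) = ∅ := rfl
lemma toF_ofF (A : Finset V) : toF (ofF A) = A := rfl
lemma ofF_toF (A : UF V) : ofF (toF A) = A := rfl
lemma toF_inj {A B : UF V} (h : toF A = toF B) : A = B := h

variable {F : Type} [Field F]

/-- reduction modulo the Boolean ideal -/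
noncomputable def red : MvPolynomial V F →ₐ[F] MonoidAlgebra F (UF V) :=
  aeval (fun v => MonoidAlgebra.single (ofF {v}) (1 : F))

lemma red_X (v : V) : red (X v : MvPolynomial V F) = MonoidAlgebra.single (ofF {v}) (1 : F) := by
  rw [red, aeval_X]

lemma red_C (c : F) : red (C c : MvPolynomial V F) = MonoidAlgebra.single 1 c := by
  rw [red, aeval_C]
  rfl

lemma red_bool (v : V) : red (X v ^ 2 - X v : MvPolynomial V F) = 0 := by
  rw [map_sub, map_pow, red_X, MonoidAlgebra.single_pow, one_pow, sub_eq_zero]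
  congr 1
  rw [pow_two]
  exact toF_inj (by rw [toF_mul, toF_ofF, Finset.union_self])

/-- coefficients vanish above size `k` -/
def Deg (φ : MonoidAlgebra F (UF V)) (k : ℕ) : Prop := ∀ T : UF V, k < (toF T).card → φ.coeff T = 0

lemma Deg.add {φ ψ : MonoidAlgebra F (UF V)} {k : ℕ} (h1 : Deg φ k) (h2 : Deg ψ k) : Deg (φ + ψ) k := by
  intro T hT
  rw [MonoidAlgebra.coeff_add, Finsupp.add_apply, h1 T hT, h2 T hT, add_zero]

lemma Deg.smul {φ : MonoidAlgebra F (UF V)} {k : ℕ} (h1 : Deg φ k) (c : F) :
    Deg (MonoidAlgebra.single 1 c * φ) k := by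
  intro T hT
  rw [MonoidAlgebra.coeff_single_one_mul, h1 T hT, mul_zero]

lemma Deg.mono {φ : MonoidAlgebra F (UF V)} {k l : ℕ} (h1 : Deg φ k) (h : k ≤ l) : Deg φ l :=
  fun T hT => h1 T (lt_of_le_of_lt h hT)

lemma Deg.zero (k : ℕ) : Deg (0 : MonoidAlgebra F (UF V)) k := fun T _ => rfl

lemma Deg.one (k : ℕ) : Deg (1 : MonoidAlgebra F (UF V)) k := by
  intro T hT
  rw [MonoidAlgebra.one_def, MonoidAlgebra.coeff_single, Finsupp.single_apply, if_neg]
  rintro rfl
  rw [toF_one, Finset.card_empty] at hT
  omega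

lemma Deg.single (A : UF V) (c : F) (k : ℕ) (h : (toF A).card ≤ k) :
    Deg (MonoidAlgebra.single A c) k := by
  intro T hT
  rw [MonoidAlgebra.coeff_single, Finsupp.single_apply, if_neg]
  rintro rfl
  omega

lemma Deg.sum {ι : Type} (s : Finset ι) (f : ι → MonoidAlgebra F (UF V)) (k : ℕ) (h : ∀ i ∈ s, Deg (f i) k) :
    Deg (∑ i ∈ s, f i) k := by
  classical
  induction s using Finset.induction_on with
  | empty => rw [Finset.sum_empty]; exact Deg.zero k
  | insert a s ha ih =>
    rw [Finset.sum_insert ha]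
    exact (h a (Finset.mem_insert_self a s)).add (ih (fun i hi => h i (Finset.mem_insert_of_mem hi)))

/-- multiplication by a variable raises the degree by at most one -/
lemma Deg.mulX {φ : MonoidAlgebra F (UF V)} {k : ℕ} (h1 : Deg φ k) (v : V) :
    Deg (MonoidAlgebra.single (ofF {v}) (1 : F) * φ) (k + 1) := by
  classical
  have e : φ = φ.coeff.sum MonoidAlgebra.single := (MonoidAlgebra.sum_coeff_single φ).symm
  rw [e, Finsupp.sum, Finset.mul_sum]
  apply Deg.sum
  intro A hA
  rw [MonoidAlgebra.single_mul_single]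
  apply Deg.single
  rw [toF_mul, toF_ofF]
  have hA' : (toF A).card ≤ k := by
    by_contra hc
    push Not at hc
    exact (Finsupp.mem_support_iff.mp hA) (h1 A hc)
  calc ({v} ∪ toF A).card ≤ ({v} : Finset V).card + (toF A).card := Finset.card_union_le _ _
    _ ≤ k + 1 := by rw [Finset.card_singleton]; omega

lemma red_monomial (m : V →₀ ℕ) (c : F) :
    red (monomial m c : MvPolynomial V F) = MonoidAlgebra.single (ofF m.support) c := by
  classical
  rw [monomial_eq, map_mul, red_C, Finsupp.prod, map_prod]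
  have h : ∀ s : Finset V, (∀ v ∈ s, m v ≠ 0) → ∏ v ∈ s, red (X v ^ m v : MvPolynomial V F) = MonoidAlgebra.single (ofF s) (1 : F) := by
    intro s
    induction s using Finset.induction_on with
    | empty => intro _; rw [Finset.prod_empty, MonoidAlgebra.one_def]; rfl
    | insert a s ha ih =>
      intro hs
      rw [Finset.prod_insert ha, ih (fun v hv => hs v (Finset.mem_insert_of_mem hv)), map_pow, red_X,
        MonoidAlgebra.single_pow, MonoidAlgebra.single_mul_single, one_pow, one_mul]
      congr 1
      have hp : ∀ n : ℕ, n ≠ 0 → (ofF {a} : UF V) ^ n = ofF {a} := by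
        intro n hn
        induction n with
        | zero => exact absurd rfl hn
        | succ n ih =>
          by_cases h0 : n = 0
          · rw [h0, zero_add, pow_one]
          · rw [pow_succ, ih h0]
            exact toF_inj (by rw [toF_mul, toF_ofF, Finset.union_self])
      rw [hp _ (hs a (Finset.mem_insert_self a s))]
      apply toF_inj
      rw [toF_mul, toF_ofF, toF_ofF, toF_ofF, Finset.insert_eq]
  rw [h _ (fun v hv => Finsupp.mem_support_iff.mp hv), MonoidAlgebra.single_mul_single, one_mul, mul_one]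

lemma Deg.red {g : MvPolynomial V F} {k : ℕ} (h : g.totalDegree ≤ k) : Deg (red g) k := by
  classical
  rw [g.as_sum, map_sum]
  apply Deg.sum
  intro m hm
  rw [red_monomial]
  apply Deg.single
  rw [toF_ofF]
  have h1 : (m.sum fun _ e => e) ≤ g.totalDegree := le_totalDegree hm
  have h2 : m.support.card ≤ m.sum fun _ e => e := by
    rw [Finsupp.sum, Finset.card_eq_sum_ones]
    apply Finset.sum_le_sum
    intro v hv
    exact Nat.one_le_iff_ne_zero.mpr (Finsupp.mem_support_iff.mp hv)
  omega

/-- multiplication by `P` is injective on top parts of degree `j` -/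
def Inj (P : MonoidAlgebra F (UF V)) (d j : ℕ) : Prop :=
  ∀ φ : MonoidAlgebra F (UF V), Deg φ j → (∀ U : UF V, (toF U).card = j + d → (φ * P).coeff U = 0) →
    ∀ T : UF V, (toF T).card = j → φ.coeff T = 0

lemma lower_aux (p : MvPolynomial V F) (d k : ℕ) (hinj : ∀ j, j ≤ k + 1 → Inj (red p) d j)
    (L : List (MvPolynomial V F)) (hL : IsDer {p} L) (hdeg : ∀ g ∈ L, g.totalDegree ≤ d + k) :
    ∀ g ∈ L, ∃ φ : MonoidAlgebra F (UF V), Deg φ k ∧ red g = φ * red p := by
  induction L with
  | nil => intro g hg; simp at hg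
  | cons h L ih =>
    obtain ⟨hs, hL'⟩ := hL
    have ih' := ih hL' (fun g hg => hdeg g (List.mem_cons_of_mem h hg))
    intro g hg
    rcases List.mem_cons.mp hg with rfl | hg
    swap
    · exact ih' g hg
    rcases hs with h1 | ⟨v, h1⟩ | ⟨a, ha, b, hb, α, β, h1⟩ | ⟨a, ha, v, h1⟩
    · rw [Set.mem_singleton_iff] at h1
      exact ⟨1, Deg.one k, by rw [h1, one_mul]⟩
    · exact ⟨0, Deg.zero k, by rw [h1, red_bool, zero_mul]⟩
    · obtain ⟨φ, h2, h3⟩ := ih' a ha
      obtain ⟨ψ, h4, h5⟩ := ih' b hb
      refine ⟨MonoidAlgebra.single 1 α * φ + MonoidAlgebra.single 1 β * ψ, (h2.smul α).add (h4.smul β), ?_⟩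
      rw [h1, map_add, map_mul, map_mul, red_C, red_C, h3, h5]
      ring
    · obtain ⟨φ, h2, h3⟩ := ih' a ha
      refine ⟨MonoidAlgebra.single (ofF {v}) 1 * φ, ?_, by rw [h1, map_mul, red_X, h3, mul_assoc]⟩
      have h4 : Deg (MonoidAlgebra.single (ofF {v}) (1 : F) * φ) (k + 1) := h2.mulX v
      have h5 : red g = (MonoidAlgebra.single (ofF {v}) 1 * φ) * red p := by
        rw [h1, map_mul, red_X, h3, mul_assoc]
      have h6 : Deg (red g) (d + k) := Deg.red (hdeg g hg)
      have h7 := hinj (k + 1) le_rfl _ h4 (by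
        intro U hU
        rw [← h5]
        exact h6 U (by omega))
      intro T hT
      rcases Nat.lt_or_ge (k + 1) (toF T).card with h8 | h8
      · exact h4 T h8
      · exact h7 T (by omega)

/-- the degree lower bound -/
theorem lower (p : MvPolynomial V F) (d k : ℕ) (hd : 0 < d) (hinj : ∀ j, j ≤ k + 1 → Inj (red p) d j)
    (L : List (MvPolynomial V F)) (hL : IsDer {p} L) (h1 : 1 ∈ L) (hdeg : ∀ g ∈ L, g.totalDegree ≤ d + k) : False := by
  obtain ⟨φ, h2, h3⟩ := lower_aux p d k hinj L hL hdeg 1 h1
  rw [map_one] at h3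
  have key : ∀ i, i ≤ k → Deg φ (k - i) := by
    intro i
    induction i with
    | zero => intro _; exact h2
    | succ i ih =>
      intro hi
      have h4 := ih (by omega)
      have h5 := hinj (k - i) (by omega) φ h4 (by
        intro U hU
        rw [← h3]
        exact Deg.one (0) U (by omega))
      intro T hT
      rcases Nat.lt_or_ge (k - i) (toF T).card with h8 | h8
      · exact h4 T h8
      · exact h5 T (by omega)
  have h4 := key k le_rfl
  rw [Nat.sub_self] at h4
  have h5 := hinj 0 (by omega) φ h4 (by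
        intro U hU
        rw [← h3]
        exact Deg.one (0) U (by omega))
  have h6 : φ = 0 := by
    apply MonoidAlgebra.coeff_injective
    ext T
    rcases Nat.eq_zero_or_pos (toF T).card with h | h
    · rw [h5 T h]; rfl
    · rw [h4 T h]; rfl
  rw [h6, zero_mul] at h3
  have h7 : (1 : MonoidAlgebra F (UF V)).coeff 1 = 1 := MonoidAlgebra.coeff_one_one
  rw [h3] at h7
  simp at h7

end

end Pool.Agent.H53R2.SD
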