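import Pool.Agent.H53R2.SD1

/-! Monomial space versus degree: injectivity on top parts (helper53). -/

set_option autoImplicit false
set_option linter.unusedSectionVars false

namespace Pool.Agent.H53R2.SD

open MvPolynomial

section
variable {V : Type} [DecidableEq V] {F : Type} [Field F]

lemma coeff_mul_single' (φ : MonoidAlgebra F (UF V)) (W U : UF V) (c : F) :
    (φ * MonoidAlgebra.single W c).coeff U =
      ∑ A ∈ φ.coeff.support, if A * W = U then φ.coeff A * c else 0 := by
  rw [MonoidAlgebra.coeff_mul, Finsupp.sum]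
  apply Finset.sum_congr rfl
  intro A _
  rw [MonoidAlgebra.coeff_single, Finsupp.sum_single_index]
  simp

lemma coeff_zero_of (φ : MonoidAlgebra F (UF V)) (W U : UF V) (c : F) (j : ℕ) (h : Deg φ j)
    (h2 : ∀ A : UF V, (toF A).card ≤ j → toF A ∪ toF W ≠ toF U) :
    (φ * MonoidAlgebra.single W c).coeff U = 0 := by
  rw [coeff_mul_single']
  apply Finset.sum_eq_zero
  intro A hA
  rw [if_neg]
  intro hh
  apply h2 A _ (by rw [← hh]; rfl)
  by_contra hc
  push Not at hc
  exact (Finsupp.mem_support_iff.mp hA) (h A hc)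

lemma coeff_disj (φ : MonoidAlgebra F (UF V)) (T W U : UF V) (c : F) (j : ℕ) (h : Deg φ j)
    (hT : (toF T).card = j) (hd : Disjoint (toF T) (toF W)) (hU : toF U = toF T ∪ toF W) :
    (φ * MonoidAlgebra.single W c).coeff U = φ.coeff T * c := by
  apply MonoidAlgebra.coeff_mul_single_eq_coeff_mul
  intro A hA
  constructor
  · intro hh
    have h1 : toF A ∪ toF W = toF T ∪ toF W := by rw [← hU, ← hh]; rfl
    have h2 : toF T ⊆ toF A := by
      intro x hx
      have : x ∈ toF A ∪ toF W := by rw [h1]; exact Finset.mem_union_left _ hx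
      rcases Finset.mem_union.mp this with h3 | h3
      · exact h3
      · exact absurd h3 (Finset.disjoint_left.mp hd hx)
    have h3 : (toF A).card ≤ j := by
      by_contra hc
      push Not at hc
      exact (Finsupp.mem_support_iff.mp hA) (h A hc)
    exact toF_inj (Finset.eq_of_subset_of_card_le h2 (by omega)).symm
  · rintro rfl
    exact toF_inj (by rw [hU]; rfl)

end

/-! ### blocks -/

section
variable {F : Type} [Field F] (m e : ℕ)

def Bl (i : Fin m) : Finset (Fin m × Fin e) := Finset.univ.image (fun k => (i, k))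

variable {m e}

lemma card_Bl (i : Fin m) : (Bl m e i).card = e := by
  rw [Bl, Finset.card_image_of_injective _ (fun a b h => by simpa using h), Finset.card_univ, Fintype.card_fin]

lemma mem_Bl (i : Fin m) (x : Fin m × Fin e) : x ∈ Bl m e i ↔ x.1 = i := by
  rw [Bl, Finset.mem_image]
  constructor
  · rintro ⟨k, _, rfl⟩; rfl
  · rintro rfl; exact ⟨x.2, Finset.mem_univ _, rfl⟩

lemma Bl_disj (i l : Fin m) (h : i ≠ l) : Disjoint (Bl m e i) (Bl m e l) := by
  rw [Finset.disjoint_left]
  intro x hx hx'
  rw [mem_Bl] at hx hx'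
  exact h (hx.symm.trans hx')

variable (F m e) in
/-- sum of the block monomials -/
noncomputable def Rp : MvPolynomial (Fin m × Fin e) F := ∑ i : Fin m, ∏ k : Fin e, X (i, k)

lemma red_Rp : red (Rp F m e) = ∑ i : Fin m, MonoidAlgebra.single (ofF (Bl m e i)) (1 : F) := by
  rw [Rp, map_sum]
  apply Finset.sum_congr rfl
  intro i _
  rw [map_prod]
  have : ∀ s : Finset (Fin e), ∏ k ∈ s, red (X (i, k) : MvPolynomial (Fin m × Fin e) F) =
      MonoidAlgebra.single (ofF (s.image (fun k => (i, k)))) (1 : F) := by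
    intro s
    induction s using Finset.induction_on with
    | empty => rw [Finset.prod_empty, MonoidAlgebra.one_def]; rfl
    | insert a s ha ih =>
      rw [Finset.prod_insert ha, ih, red_X, MonoidAlgebra.single_mul_single, one_mul, Finset.image_insert]
      congr 1
  exact this _

lemma exists_free (T : Finset (Fin m × Fin e)) (h : T.card < m) : ∃ i : Fin m, Disjoint T (Bl m e i) := by
  have h1 : (T.image Prod.fst).card < (Finset.univ : Finset (Fin m)).card := by
    rw [Finset.card_univ, Fintype.card_fin]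
    exact lt_of_le_of_lt Finset.card_image_le h
  obtain ⟨i, _, hi⟩ := Finset.exists_mem_notMem_of_card_lt_card h1
  refine ⟨i, ?_⟩
  rw [Finset.disjoint_left]
  intro x hx hx'
  rw [mem_Bl] at hx'
  exact hi (Finset.mem_image.mpr ⟨x, hx, hx'⟩)

lemma exists_free2 (T : Finset (Fin m × Fin e)) (h : T.card + 1 < m) :
    ∃ i l : Fin m, i ≠ l ∧ Disjoint T (Bl m e i) ∧ Disjoint T (Bl m e l) := by
  obtain ⟨i, hi⟩ := exists_free T (by omega)
  have h1 : (insert i (T.image Prod.fst)).card < (Finset.univ : Finset (Fin m)).card := by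
    rw [Finset.card_univ, Fintype.card_fin]
    calc (insert i (T.image Prod.fst)).card ≤ (T.image Prod.fst).card + 1 := Finset.card_insert_le _ _
      _ ≤ T.card + 1 := by have := Finset.card_image_le (s := T) (f := Prod.fst); omega
      _ < m := h
  obtain ⟨l, _, hl⟩ := Finset.exists_mem_notMem_of_card_lt_card h1
  rw [Finset.mem_insert, not_or] at hl
  refine ⟨i, l, fun h => hl.1 h.symm, hi, ?_⟩
  rw [Finset.disjoint_left]
  intro x hx hx'
  rw [mem_Bl] at hx'
  exact hl.2 (Finset.mem_image.mpr ⟨x, hx, hx'⟩)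

/-- `B_a` is not inside `T ∪ (other blocks)` when `T` is small -/
lemma not_cover (T W : Finset (Fin m × Fin e)) (a : Fin m) (hT : T.card < e) (hW : Disjoint (Bl m e a) W)
    (h : Bl m e a ⊆ T ∪ W) : False := by
  have : Bl m e a ⊆ T := by
    intro x hx
    rcases Finset.mem_union.mp (h hx) with h1 | h1
    · exact h1
    · exact absurd h1 (Finset.disjoint_left.mp hW hx)
  have := Finset.card_le_card this
  rw [card_Bl] at this
  omega

theorem inj1 (r : F) (j : ℕ) (hj : j < m) (hje : j < e) : Inj (red (Rp F m e - C r)) e j := by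
  intro φ hφ h T hT
  obtain ⟨i, hi⟩ := exists_free (toF T) (by omega)
  have hU : (toF (ofF (toF T ∪ Bl m e i))).card = j + e := by
    rw [toF_ofF, Finset.card_union_of_disjoint hi, hT, card_Bl]
  have h1 := h _ hU
  rw [map_sub, red_C, red_Rp, mul_sub, Finset.mul_sum, MonoidAlgebra.coeff_sub, MonoidAlgebra.coeff_sum,
    Finsupp.sub_apply, Finsupp.finsetSum_apply, Finset.sum_eq_single i] at h1
  · rw [coeff_disj φ T (ofF (Bl m e i)) (ofF (toF T ∪ Bl m e i)) 1 j hφ hT hi rfl,
      coeff_zero_of φ 1 _ r j hφ, mul_one, sub_zero] at h1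
    · exact h1
    · intro A hA hh
      rw [toF_one, Finset.union_empty] at hh
      rw [← hh] at hU
      omega
  · intro l _ hl
    apply coeff_zero_of φ _ _ _ j hφ
    intro A hA hh
    rw [toF_ofF, toF_ofF] at hh
    exact not_cover (toF T) (Bl m e i) l (by omega) (Bl_disj l i hl) (by rw [← hh]; exact Finset.subset_union_right)
  · intro hh; exact absurd (Finset.mem_univ i) hh

theorem inj2 (ν : F) (h2 : (2 : F) ≠ 0) (j : ℕ) (hj : j + 1 < m) (hje : j < e) :
    Inj (red (Rp F m e ^ 2 - C ν)) (2 * e) j := by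
  intro φ hφ h T hT
  obtain ⟨i, l, hil, hi, hl⟩ := exists_free2 (toF T) (by omega)
  have hdis : Disjoint (toF T) (Bl m e i ∪ Bl m e l) := Finset.disjoint_union_right.mpr ⟨hi, hl⟩
  have hcard : (Bl m e i ∪ Bl m e l).card = 2 * e := by
    rw [Finset.card_union_of_disjoint (Bl_disj i l hil), card_Bl, card_Bl]; ring
  have hU : (toF (ofF (toF T ∪ (Bl m e i ∪ Bl m e l)))).card = j + 2 * e := by
    rw [toF_ofF, Finset.card_union_of_disjoint hdis, hT, hcard]
  have h1 := h _ hU
  have e0 : red (Rp F m e ^ 2 - C ν) =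
      (∑ a : Fin m, ∑ b : Fin m, MonoidAlgebra.single (ofF (Bl m e a ∪ Bl m e b)) (1 : F)) -
        MonoidAlgebra.single 1 ν := by
    rw [map_sub, red_C, map_pow, red_Rp, sq, Finset.sum_mul_sum]
    congr 1
    apply Finset.sum_congr rfl
    intro a _
    apply Finset.sum_congr rfl
    intro b _
    rw [MonoidAlgebra.single_mul_single, one_mul]
    rfl
  rw [e0, mul_sub, Finset.mul_sum, MonoidAlgebra.coeff_sub, MonoidAlgebra.coeff_sum,
    Finsupp.sub_apply, Finsupp.finsetSum_apply] at h1
  have hbad : ∀ W A : Finset (Fin m × Fin e), A.card ≤ j → ∀ a : Fin m, Bl m e a ⊆ W → a ≠ i → a ≠ l →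
      A ∪ W ≠ toF T ∪ (Bl m e i ∪ Bl m e l) := by
    intro W A hA a ha hai hal hh
    exact not_cover (toF T) (Bl m e i ∪ Bl m e l) a (by omega)
      (Finset.disjoint_union_right.mpr ⟨Bl_disj a i hai, Bl_disj a l hal⟩)
      (by rw [← hh]; exact ha.trans Finset.subset_union_right)
  have hsame : ∀ (A : Finset (Fin m × Fin e)) (a b : Fin m), a ≠ b → A.card ≤ j →
      A ∪ (Bl m e a ∪ Bl m e a) = toF T ∪ (Bl m e i ∪ Bl m e l) → Bl m e b ⊆ Bl m e i ∪ Bl m e l → False := by
    intro A a b hab hA hh hb
    rw [Finset.union_self] at hh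
    exact not_cover A (Bl m e a) b (by omega) (Bl_disj b a hab.symm)
      (by rw [hh]; exact hb.trans Finset.subset_union_right)
  have hval : ∀ a b : Fin m, (φ * MonoidAlgebra.single (ofF (Bl m e a ∪ Bl m e b)) (1 : F)).coeff
      (ofF (toF T ∪ (Bl m e i ∪ Bl m e l))) =
      (if a = i ∧ b = l then φ.coeff T else 0) + (if a = l ∧ b = i then φ.coeff T else 0) := by
    intro a b
    by_cases c1 : a = i ∧ b = l
    · have c2 : ¬ (a = l ∧ b = i) := fun h => hil (c1.1.symm.trans h.1)
      rw [if_pos c1, if_neg c2, add_zero, c1.1, c1.2]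
      rw [coeff_disj φ T (ofF (Bl m e i ∪ Bl m e l)) (ofF (toF T ∪ (Bl m e i ∪ Bl m e l))) 1 j hφ hT hdis rfl,
        mul_one]
    · by_cases c2 : a = l ∧ b = i
      · rw [if_neg c1, if_pos c2, zero_add, c2.1, c2.2]
        rw [coeff_disj φ T (ofF (Bl m e l ∪ Bl m e i)) (ofF (toF T ∪ (Bl m e i ∪ Bl m e l))) 1 j hφ hT
          (by rw [toF_ofF, Finset.union_comm]; exact hdis)
          (by rw [toF_ofF, toF_ofF, Finset.union_comm (Bl m e i)]), mul_one]
      · rw [if_neg c1, if_neg c2, add_zero]
        apply coeff_zero_of φ _ _ _ j hφ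
        intro A hA hh
        rw [toF_ofF, toF_ofF] at hh
        by_cases a1 : a = i
        · by_cases b1 : b = i
          · rw [a1, b1] at hh
            exact hsame (toF A) i l hil hA hh Finset.subset_union_right
          · have b2 : b ≠ l := fun h => c1 ⟨a1, h⟩
            exact hbad _ _ hA b Finset.subset_union_right b1 b2 hh
        · by_cases a2 : a = l
          · by_cases b1 : b = l
            · rw [a2, b1] at hh
              exact hsame (toF A) l i hil.symm hA hh Finset.subset_union_left
            · have b2 : b ≠ i := fun h => c2 ⟨a2, h⟩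
              exact hbad _ _ hA b Finset.subset_union_right b2 b1 hh
          · exact hbad _ _ hA a Finset.subset_union_left a1 a2 hh
  have hsum : ∑ a : Fin m, (φ * ∑ b : Fin m, MonoidAlgebra.single (ofF (Bl m e a ∪ Bl m e b)) (1 : F)).coeff
      (ofF (toF T ∪ (Bl m e i ∪ Bl m e l))) = 2 * φ.coeff T := by
    have : ∀ a : Fin m, (φ * ∑ b : Fin m, MonoidAlgebra.single (ofF (Bl m e a ∪ Bl m e b)) (1 : F)).coeff
      (ofF (toF T ∪ (Bl m e i ∪ Bl m e l))) = (if a = i then φ.coeff T else 0) + (if a = l then φ.coeff T else 0) := by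
      intro a
      rw [Finset.mul_sum, MonoidAlgebra.coeff_sum, Finsupp.finsetSum_apply]
      simp only [hval]
      rw [Finset.sum_add_distrib]
      congr 1
      · by_cases ha : a = i
        · simp [ha]
        · simp [ha]
      · by_cases ha : a = l
        · simp [ha]
        · simp [ha]
    simp only [this]
    rw [Finset.sum_add_distrib]
    simp
    ring
  rw [hsum, coeff_zero_of φ 1 _ ν j hφ, sub_zero] at h1
  · rcases mul_eq_zero.mp h1 with h3 | h3
    · exact absurd h3 h2
    · exact h3
  · intro A hA hh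
    rw [toF_one, Finset.union_empty] at hh
    rw [← hh] at hU
    omega

end

end Pool.Agent.H53R2.SD
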