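import Pool.Agent.H53R2.SD2

/-! Monomial space versus degree: injectivity for the sum of all variables (helper53). -/

set_option autoImplicit false
set_option linter.unusedSectionVars false

namespace Pool.Agent.H53R2.SD

open MvPolynomial

section
variable {n : ℕ} {F : Type} [Field F]

def up (f : Finset (Fin n) → F) (T : Finset (Fin n)) : F := ∑ v ∈ T, f (T.erase v)
def dn (f : Finset (Fin n) → F) (T : Finset (Fin n)) : F := ∑ v ∈ Tᶜ, f (insert v T)

lemma comm (f : Finset (Fin n) → F) (T : Finset (Fin n)) :
    dn (up f) T - up (dn f) T = ((n : F) - 2 * (T.card : F)) * f T := by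
  have h1 : dn (up f) T = (Tᶜ.card : F) * f T + ∑ v ∈ Tᶜ, ∑ w ∈ T, f (insert v (T.erase w)) := by
    rw [dn, ← nsmul_eq_mul, ← Finset.sum_const, ← Finset.sum_add_distrib]
    apply Finset.sum_congr rfl
    intro v hv
    rw [Finset.mem_compl] at hv
    rw [up, Finset.sum_insert hv, Finset.erase_insert hv]
    congr 1
    apply Finset.sum_congr rfl
    intro w hw
    rw [Finset.erase_insert_of_ne (by rintro rfl; exact hv hw)]
  have h2 : up (dn f) T = (T.card : F) * f T + ∑ w ∈ T, ∑ v ∈ Tᶜ, f (insert v (T.erase w)) := by
    rw [up, ← nsmul_eq_mul, ← Finset.sum_const, ← Finset.sum_add_distrib]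
    apply Finset.sum_congr rfl
    intro w hw
    rw [dn, Finset.compl_erase, Finset.sum_insert (by rw [Finset.mem_compl]; exact fun h => h hw),
      Finset.insert_erase hw]
  rw [h1, h2, Finset.sum_comm]
  have h3 : (Tᶜ.card : F) = (n : F) - (T.card : F) := by
    rw [Finset.card_compl, Fintype.card_fin, Nat.cast_sub]
    have := Finset.card_le_univ T
    rwa [Fintype.card_fin] at this
  rw [h3]
  ring

/-- iterated lowering -/
def it (f : Finset (Fin n) → F) : ℕ → Finset (Fin n) → F
  | 0 => f
  | k + 1 => dn (it f k)

lemma it_supp (f : Finset (Fin n) → F) (j : ℕ) (hf : ∀ T, T.card ≠ j → f T = 0) (k : ℕ) :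
    ∀ T, T.card + k ≠ j → it f k T = 0 := by
  induction k with
  | zero => intro T hT; exact hf T (by omega)
  | succ k ih =>
    intro T hT
    show dn (it f k) T = 0
    apply Finset.sum_eq_zero
    intro v hv
    rw [Finset.mem_compl] at hv
    apply ih
    rw [Finset.card_insert_of_notMem hv]
    omega

lemma it_up (f : Finset (Fin n) → F) (j : ℕ) (hf : ∀ T, T.card ≠ j → f T = 0) (h0 : ∀ T, up f T = 0) (k : ℕ) :
    ∀ T, up (it f (k + 1)) T = -(((k : F) + 1) * ((n : F) - 2 * j) + ((k : F) + 1) * k) * it f k T := by
  induction k with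
  | zero =>
    intro T
    have h1 := comm f T
    have h2 : dn (up f) T = 0 := Finset.sum_eq_zero (fun v _ => h0 _)
    rw [h2] at h1
    show up (dn f) T = _ * f T
    by_cases hT : T.card = j
    · rw [hT] at h1
      push_cast
      linear_combination -h1
    · rw [hf T hT] at h1 ⊢
      linear_combination -h1
  | succ k ih =>
    intro T
    have h1 := comm (it f (k + 1)) T
    have h2 : dn (up (it f (k + 1))) T =
        -(((k : F) + 1) * ((n : F) - 2 * j) + ((k : F) + 1) * k) * it f (k + 1) T := by
      show ∑ v ∈ Tᶜ, up (it f (k + 1)) (insert v T) = _ * ∑ v ∈ Tᶜ, it f k (insert v T)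
      rw [Finset.mul_sum]
      exact Finset.sum_congr rfl (fun v _ => ih _)
    rw [h2] at h1
    show up (dn (it f (k + 1))) T = _
    by_cases hT : T.card + (k + 1) = j
    · have h3 : (j : F) = (T.card : F) + ((k : F) + 1) := by rw [← hT]; push_cast; ring
      rw [h3] at h1 ⊢
      push_cast
      linear_combination -h1
    · rw [it_supp f j hf (k + 1) T hT] at h1 ⊢
      linear_combination -h1

theorem up_inj [CharZero F] (f : Finset (Fin n) → F) (j : ℕ) (hj : 2 * j < n) (hf : ∀ T, T.card ≠ j → f T = 0)
    (h0 : ∀ T, up f T = 0) : ∀ T, f T = 0 := by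
  have key : ∀ i, i ≤ j + 1 → ∀ T, it f (j + 1 - i) T = 0 := by
    intro i
    induction i with
    | zero =>
      intro _ T
      exact it_supp f j hf (j + 1) T (by omega)
    | succ i ih =>
      intro hi T
      have h1 := ih (by omega)
      have e : j + 1 - i = (j + 1 - (i + 1)) + 1 := by omega
      rw [e] at h1
      have h2 := it_up f j hf h0 (j + 1 - (i + 1)) T
      have h3 : up (it f (j + 1 - (i + 1) + 1)) T = 0 := Finset.sum_eq_zero (fun v _ => h1 _)
      rw [h3] at h2
      generalize j + 1 - (i + 1) = k at *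
      obtain ⟨s, hs⟩ : ∃ s, n = 2 * j + 1 + s := ⟨n - (2 * j + 1), by omega⟩
      have h4 : (((k : F) + 1) * ((n : F) - 2 * j) + ((k : F) + 1) * k) = (((k + 1) * (1 + s + k) : ℕ) : F) := by
        rw [hs]
        push_cast
        ring
      rw [h4] at h2
      have h5 : (((k + 1) * (1 + s + k) : ℕ) : F) ≠ 0 := Nat.cast_ne_zero.mpr (by positivity)
      rcases mul_eq_zero.mp h2.symm with h6 | h6
      · exact absurd (neg_eq_zero.mp h6) h5
      · exact h6
  have := key (j + 1) le_rfl
  rw [Nat.sub_self] at this
  exact this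

variable (F n) in
/-- the sum of all variables -/
noncomputable def Lp : MvPolynomial (Fin n) F := ∑ v : Fin n, X v

theorem inj3 [CharZero F] (r : F) (j : ℕ) (hj : 2 * j < n) : Inj (red (Lp n F - C r)) 1 j := by
  intro φ hφ h
  have e0 : red (Lp n F - C r) = (∑ v : Fin n, MonoidAlgebra.single (ofF {v}) (1 : F)) - MonoidAlgebra.single 1 r := by
    rw [map_sub, red_C, Lp, map_sum]
    simp only [red_X]
  let f : Finset (Fin n) → F := fun T => if T.card = j then φ.coeff (ofF T) else 0
  have hf : ∀ T : Finset (Fin n), T.card ≠ j → f T = 0 := fun T hT => if_neg hT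
  have h0 : ∀ U, up f U = 0 := by
    intro U
    by_cases hU : U.card = j + 1
    · have h1 := h (ofF U) hU
      rw [e0, mul_sub, MonoidAlgebra.coeff_sub, Finsupp.sub_apply, Finset.mul_sum, MonoidAlgebra.coeff_sum,
        Finsupp.finsetSum_apply, coeff_zero_of φ 1 (ofF U) r j hφ (by
          intro A hA hh
          rw [toF_one, Finset.union_empty, toF_ofF] at hh
          rw [← hh] at hU
          omega), sub_zero] at h1
      have h2 : ∀ v : Fin n, (φ * MonoidAlgebra.single (ofF {v}) (1 : F)).coeff (ofF U) =
          if v ∈ U then f (U.erase v) else 0 := by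
        intro v
        by_cases hv : v ∈ U
        · rw [if_pos hv]
          have hc : (U.erase v).card = j := by rw [Finset.card_erase_of_mem hv]; omega
          rw [coeff_disj φ (ofF (U.erase v)) (ofF {v}) (ofF U) 1 j hφ hc
            (by rw [toF_ofF, toF_ofF, Finset.disjoint_singleton_right]; exact Finset.notMem_erase v U)
            (by rw [toF_ofF, toF_ofF, toF_ofF, Finset.union_comm, ← Finset.insert_eq, Finset.insert_erase hv]),
            mul_one]
          show _ = if (U.erase v).card = j then φ.coeff (ofF (U.erase v)) else 0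
          rw [if_pos hc]
        · rw [if_neg hv]
          apply coeff_zero_of φ _ _ _ j hφ
          intro A _ hh
          apply hv
          rw [toF_ofF, toF_ofF] at hh
          rw [← hh]
          exact Finset.mem_union_right _ (Finset.mem_singleton_self v)
      simp only [h2] at h1
      rw [Finset.sum_ite_mem, Finset.univ_inter] at h1
      exact h1
    · apply Finset.sum_eq_zero
      intro v hv
      apply hf
      rw [Finset.card_erase_of_mem hv]
      have := Finset.card_pos.mpr ⟨v, hv⟩
      omega
  intro T hT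
  have h3 := up_inj f j hj hf h0 (toF T)
  have h4 : f (toF T) = φ.coeff T := if_pos hT
  rw [← h4]
  exact h3

end

end Pool.Agent.H53R2.SD
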