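import Pool.Agent.H53R2.SDDefs

/-! Monomial space versus degree: ideals, completeness (helper53). -/

set_option autoImplicit false
set_option linter.unusedSectionVars false

namespace Pool.Agent.H53R2.SD

open MvPolynomial

section
variable {V F : Type} [Field F]

theorem one_mem_of_unsat (P : Set (MvPolynomial V F)) (h : Unsat P) :
    (1 : MvPolynomial V F) ∈ boolIdeal V F ⊔ Ideal.span P := by
  classical
  by_contra hne
  have hI : boolIdeal V F ⊔ Ideal.span P ≠ ⊤ := fun hh => hne ((Ideal.eq_top_iff_one _).mp hh)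
  obtain ⟨M, hM, hle⟩ := Ideal.exists_le_maximal _ hI
  have hp : M.IsPrime := hM.isPrime
  let a : V → F := fun v => if (X v : MvPolynomial V F) ∈ M then 0 else 1
  have ha : ∀ v, a v = 0 ∨ a v = 1 := by
    intro v
    by_cases hv : (X v : MvPolynomial V F) ∈ M
    · left; exact if_pos hv
    · right; exact if_neg hv
  have hX : ∀ v, (X v - C (a v) : MvPolynomial V F) ∈ M := by
    intro v
    by_cases hv : (X v : MvPolynomial V F) ∈ M
    · have : a v = 0 := if_pos hv
      rw [this, C_0, sub_zero]
      exact hv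
    · have : a v = 1 := if_neg hv
      rw [this, C_1]
      have h1 : (X v ^ 2 - X v : MvPolynomial V F) ∈ M :=
        hle (Ideal.mem_sup_left (Ideal.subset_span ⟨v, rfl⟩))
      have h2 : (X v : MvPolynomial V F) * (X v - 1) ∈ M := by
        have : (X v : MvPolynomial V F) * (X v - 1) = X v ^ 2 - X v := by ring
        rw [this]; exact h1
      exact (hp.mem_or_mem h2).resolve_left hv
  have hg : ∀ g : MvPolynomial V F, g - C (eval a g) ∈ M := by
    intro g
    induction g using MvPolynomial.induction_on with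
    | C c => rw [eval_C, sub_self]; exact M.zero_mem
    | add p q hp hq =>
      rw [map_add, C_add]
      have : p + q - (C (eval a p) + C (eval a q)) = (p - C (eval a p)) + (q - C (eval a q)) := by ring
      rw [this]
      exact M.add_mem hp hq
    | mul_X p v hp =>
      rw [map_mul, eval_X, C_mul]
      have : p * X v - C (eval a p) * C (a v) = X v * (p - C (eval a p)) + C (eval a p) * (X v - C (a v)) := by ring
      rw [this]
      exact M.add_mem (M.mul_mem_left _ hp) (M.mul_mem_left _ (hX v))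
  obtain ⟨p, hpP, hne0⟩ := h a ha
  have h1 : p ∈ M := hle (Ideal.mem_sup_right (Ideal.subset_span hpP))
  have h2 : (C (eval a p) : MvPolynomial V F) ∈ M := by
    have := M.sub_mem h1 (hg p)
    rwa [sub_sub_cancel] at this
  have h3 : (1 : MvPolynomial V F) ∈ M := by
    have := M.mul_mem_left (C (eval a p)⁻¹) h2
    rwa [← C_mul, inv_mul_cancel₀ hne0, C_1] at this
  exact hM.ne_top ((Ideal.eq_top_iff_one _).mpr h3)

lemma Step.mono {P : Set (MvPolynomial V F)} {L L' : List (MvPolynomial V F)} {g : MvPolynomial V F}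
    (h : Step P L g) (hL : ∀ x ∈ L, x ∈ L') : Step P L' g := by
  rcases h with h1 | h1 | ⟨a, ha, b, hb, h1⟩ | ⟨a, ha, h1⟩
  · exact Or.inl h1
  · exact Or.inr (Or.inl h1)
  · exact Or.inr (Or.inr (Or.inl ⟨a, hL a ha, b, hL b hb, h1⟩))
  · exact Or.inr (Or.inr (Or.inr ⟨a, hL a ha, h1⟩))

lemma IsDer.append {P : Set (MvPolynomial V F)} {L L' : List (MvPolynomial V F)} (h : IsDer P L)
    (h' : IsDer P L') : IsDer P (L ++ L') := by
  induction L with
  | nil => exact h'
  | cons g L ih =>
    exact ⟨h.1.mono (fun x hx => List.mem_append_left _ hx), ih h.2⟩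

/-- derivable polynomials -/
def Dble (P : Set (MvPolynomial V F)) (g : MvPolynomial V F) : Prop := ∃ L, IsDer P L ∧ g ∈ L

lemma Dble.comb {P : Set (MvPolynomial V F)} {a b : MvPolynomial V F} (ha : Dble P a) (hb : Dble P b)
    (α β : F) : Dble P (C α * a + C β * b) := by
  obtain ⟨L, h1, h2⟩ := ha
  obtain ⟨L', h3, h4⟩ := hb
  exact ⟨(C α * a + C β * b) :: (L ++ L'), ⟨Or.inr (Or.inr (Or.inl ⟨a, List.mem_append_left _ h2, b,
    List.mem_append_right _ h4, α, β, rfl⟩)), h1.append h3⟩, List.mem_cons_self⟩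

lemma Dble.add {P : Set (MvPolynomial V F)} {a b : MvPolynomial V F} (ha : Dble P a) (hb : Dble P b) :
    Dble P (a + b) := by
  have := ha.comb hb 1 1
  rwa [C_1, one_mul, one_mul] at this

lemma Dble.smul {P : Set (MvPolynomial V F)} {a : MvPolynomial V F} (ha : Dble P a) (α : F) :
    Dble P (C α * a) := by
  have := ha.comb ha α 0
  rwa [C_0, zero_mul, add_zero] at this

lemma Dble.mulX {P : Set (MvPolynomial V F)} {a : MvPolynomial V F} (ha : Dble P a) (v : V) :
    Dble P (X v * a) := by
  obtain ⟨L, h1, h2⟩ := ha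
  exact ⟨(X v * a) :: L, ⟨Or.inr (Or.inr (Or.inr ⟨a, h2, v, rfl⟩)), h1⟩, List.mem_cons_self⟩

lemma Dble.base {P : Set (MvPolynomial V F)} {g : MvPolynomial V F} (h : Step P [] g) : Dble P g :=
  ⟨[g], ⟨h, trivial⟩, List.mem_cons_self⟩

theorem dble_of_mem (P : Set (MvPolynomial V F)) (hP : P.Nonempty) (g : MvPolynomial V F)
    (hg : g ∈ boolIdeal V F ⊔ Ideal.span P) : Dble P g := by
  rw [boolIdeal, ← Ideal.span_union] at hg
  induction hg using Submodule.span_induction with
  | mem x hx =>
    rcases hx with ⟨v, rfl⟩ | hx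
    · exact Dble.base (Or.inr (Or.inl ⟨v, rfl⟩))
    · exact Dble.base (Or.inl hx)
  | zero =>
    obtain ⟨p, hp⟩ := hP
    have := (Dble.base (P := P) (g := p) (Or.inl hp)).smul 0
    rwa [C_0, zero_mul] at this
  | add x y _ _ hx hy => exact hx.add hy
  | smul a x _ hx =>
    rw [smul_eq_mul]
    induction a using MvPolynomial.induction_on with
    | C c => exact hx.smul c
    | add p q hp hq => rw [add_mul]; exact hp.add hq
    | mul_X p v hp =>
      have : p * X v * x = X v * (p * x) := by ring
      rw [this]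
      exact hp.mulX v

lemma unsat_nonempty (P : Set (MvPolynomial V F)) (h : Unsat P) : P.Nonempty := by
  obtain ⟨p, hp, _⟩ := h (fun _ => 0) (fun _ => Or.inl rfl)
  exact ⟨p, hp⟩

theorem exists_ref (P : Set (MvPolynomial V F)) (h : Unsat P) : ∃ L, IsPCRef P L := by
  obtain ⟨L, h1, h2⟩ := dble_of_mem P (unsat_nonempty P h) 1 (one_mem_of_unsat P h)
  refine ⟨1 :: L, ⟨Or.inr (Or.inr (Or.inl ⟨1, h2, 1, h2, 1, 0, ?_⟩)), h1⟩, rfl⟩
  rw [C_1, C_0]; ring

lemma le_pcDegree (L : List (MvPolynomial V F)) (g : MvPolynomial V F) (hg : g ∈ L) :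
    g.totalDegree ≤ pcDegree L := by
  induction L with
  | nil => simp at hg
  | cons h L ih =>
    show _ ≤ max h.totalDegree (pcDegree L)
    rcases List.mem_cons.mp hg with rfl | hg
    · exact le_max_left _ _
    · exact (ih hg).trans (le_max_right _ _)

/-- the two-step semantic refutation -/
noncomputable def M01 (i : ℕ) : Finset (MvPolynomial V F) := if i = 0 then ∅ else {1}

theorem semRef (p : MvPolynomial V F) (h : Unsat {p}) : IsSemRef {p} 1 (M01 : ℕ → Finset (MvPolynomial V F)) := by
  refine ⟨if_pos rfl, ?_, ?_⟩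
  · rw [M01, if_neg (by norm_num)]; exact Finset.mem_singleton_self _
  · intro i hi
    refine ⟨p, rfl, ?_⟩
    intro g hg
    rw [M01, if_neg (by omega), Finset.mem_singleton] at hg
    rw [hg, sup_assoc]
    exact Ideal.mem_sup_right (one_mem_of_unsat {p} h)

theorem semSpace_M01 : semSpace 1 (M01 : ℕ → Finset (MvPolynomial V F)) = 1 := by
  classical
  have h0 : MSp (M01 0 : Finset (MvPolynomial V F)) = 0 := by
    rw [MSp, M01, if_pos rfl, Finset.biUnion_empty, Finset.card_empty]
  have h1 : MSp (M01 1 : Finset (MvPolynomial V F)) = 1 := by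
    rw [MSp, M01, if_neg (by norm_num), Finset.singleton_biUnion]
    rw [support_one, Finset.card_singleton]
  rw [semSpace]
  have : Finset.range (1 + 1) = {0, 1} := by decide
  rw [this, Finset.sup_insert, Finset.sup_singleton, h0, h1]
  rfl

end

end Pool.Agent.H53R2.SD
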