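import Pool.Agent.H53R2.SD3
import Pool.Agent.H53R2.SD4

/-! Monomial space versus degree: the three families (helper53). -/

set_option autoImplicit false
set_option linter.unusedSectionVars false

namespace Pool.Agent.H53R2.SD

open MvPolynomial

section
variable {V F : Type} [Field F] [DecidableEq V]

theorem package (p : MvPolynomial V F) (d N : ℕ) (hd : 0 < d) (hdeg : p.totalDegree ≤ d)
    (hun : Unsat {p}) (hinj : ∀ j, j ≤ N + 1 → Inj (red p) d j) :
    (∃ M : ℕ → Finset (MvPolynomial V F), IsSemRef {p} 1 M ∧ semSpace 1 M = 1) ∧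
      ∃ D : ℕ, IsLeast {k | ∃ L, IsPCRef {p} L ∧ pcDegree L = k} D ∧ p.totalDegree + N ≤ D := by
  refine ⟨⟨M01, semRef p hun, semSpace_M01⟩, ?_⟩
  have hne : {k | ∃ L, IsPCRef {p} L ∧ pcDegree L = k}.Nonempty := by
    obtain ⟨L, hL⟩ := exists_ref {p} hun
    exact ⟨pcDegree L, L, hL, rfl⟩
  refine ⟨sInf {k | ∃ L, IsPCRef {p} L ∧ pcDegree L = k}, ⟨Nat.sInf_mem hne, fun k hk => Nat.sInf_le hk⟩, ?_⟩
  obtain ⟨L, hL, hLk⟩ := Nat.sInf_mem hne
  rw [← hLk]
  by_contra hc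
  push Not at hc
  refine lower p d N hd hinj L hL.1 (List.mem_of_head? hL.2) (fun g hg => ?_)
  have := le_pcDegree L g hg
  omega

end

section
variable {F : Type} [Field F]

lemma eval_Rp_nat (m e : ℕ) (a : Fin m × Fin e → F) (ha : ∀ v, a v = 0 ∨ a v = 1) :
    ∃ t : ℕ, eval a (Rp F m e) = (t : F) := by
  classical
  rw [Rp, map_sum]
  have h : ∀ i : Fin m, ∃ t : ℕ, eval a (∏ k : Fin e, X (i, k) : MvPolynomial (Fin m × Fin e) F) = (t : F) := by
    intro i
    rw [map_prod]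
    have : ∀ k : Fin e, ∃ t : ℕ, eval a (X (i, k) : MvPolynomial (Fin m × Fin e) F) = (t : F) := by
      intro k
      rw [eval_X]
      rcases ha (i, k) with h | h
      · exact ⟨0, by rw [h]; simp⟩
      · exact ⟨1, by rw [h]; simp⟩
    choose t ht using this
    exact ⟨∏ k, t k, by rw [Nat.cast_prod]; exact Finset.prod_congr rfl (fun k _ => ht k)⟩
  choose t ht using h
  exact ⟨∑ i, t i, by rw [Nat.cast_sum]; exact Finset.sum_congr rfl (fun k _ => ht k)⟩

lemma eval_Lp_nat (n : ℕ) (a : Fin n → F) (ha : ∀ v, a v = 0 ∨ a v = 1) :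
    ∃ t : ℕ, eval a (Lp n F) = (t : F) := by
  classical
  rw [Lp, map_sum]
  have h : ∀ i : Fin n, ∃ t : ℕ, eval a (X i : MvPolynomial (Fin n) F) = (t : F) := by
    intro k
    rw [eval_X]
    rcases ha k with h | h
    · exact ⟨0, by rw [h]; simp⟩
    · exact ⟨1, by rw [h]; simp⟩
  choose t ht using h
  exact ⟨∑ i, t i, by rw [Nat.cast_sum]; exact Finset.sum_congr rfl (fun k _ => ht k)⟩

lemma deg_Rp (m e : ℕ) : (Rp F m e).totalDegree ≤ e := by
  classical
  rw [Rp]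
  apply totalDegree_finsetSum_le
  intro i _
  refine (totalDegree_finset_prod _ _).trans ?_
  calc ∑ k : Fin e, (X (i, k) : MvPolynomial (Fin m × Fin e) F).totalDegree ≤ ∑ k : Fin e, 1 := by
        apply Finset.sum_le_sum
        intro k _
        rw [totalDegree_X]
    _ = e := by simp

lemma deg_Lp (n : ℕ) (r : F) (hn : 0 < n) : (Lp n F - C r).totalDegree = 1 := by
  classical
  apply le_antisymm
  · refine (totalDegree_sub _ _).trans ?_
    rw [totalDegree_C, max_le_iff]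
    refine ⟨?_, by norm_num⟩
    rw [Lp]
    apply totalDegree_finsetSum_le
    intro i _
    rw [totalDegree_X]
  · have h1 : (Finsupp.single (⟨0, hn⟩ : Fin n) 1) ∈ (Lp n F - C r).support := by
      rw [mem_support_iff, coeff_sub, Lp, coeff_sum, Finset.sum_eq_single (⟨0, hn⟩ : Fin n)]
      · have e1 : coeff (Finsupp.single (⟨0, hn⟩ : Fin n) 1) (X (⟨0, hn⟩ : Fin n) : MvPolynomial (Fin n) F) = 1 := by
          rw [coeff_X, if_pos rfl]
        have e2 : coeff (Finsupp.single (⟨0, hn⟩ : Fin n) 1) (C r : MvPolynomial (Fin n) F) = 0 := by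
          rw [coeff_C, if_neg]
          intro h
          have := Finsupp.single_eq_zero.mp h.symm
          omega
        rw [e1, e2, sub_zero]
        exact one_ne_zero
      · intro b _ hb
        rw [coeff_X, if_neg]
        intro h
        rw [Finsupp.single_left_inj (by norm_num)] at h
        exact hb h
      · intro h; exact absurd (Finset.mem_univ _) h
    have := le_totalDegree h1
    rwa [Finsupp.sum_single_index rfl] at this

theorem fam1 (N : ℕ) (r : F) (hr : ∀ t : ℕ, (t : F) ≠ r) :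
    Unsat {(Rp F (N + 2) (N + 2) - C r)} ∧
    (∃ M : ℕ → Finset (MvPolynomial _ F), IsSemRef {(Rp F (N + 2) (N + 2) - C r)} 1 M ∧ semSpace 1 M = 1) ∧
      ∃ D : ℕ, IsLeast {k | ∃ L, IsPCRef {(Rp F (N + 2) (N + 2) - C r)} L ∧ pcDegree L = k} D ∧
        (Rp F (N + 2) (N + 2) - C r).totalDegree + N ≤ D := by
  have hun : Unsat {(Rp F (N + 2) (N + 2) - C r)} := by
    intro a ha
    refine ⟨_, rfl, ?_⟩
    obtain ⟨t, ht⟩ := eval_Rp_nat (N + 2) (N + 2) a ha
    rw [map_sub, eval_C, ht, sub_ne_zero]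
    exact hr t
  refine ⟨hun, package _ (N + 2) N (by omega) ?_ hun ?_⟩
  · refine (totalDegree_sub _ _).trans ?_
    rw [totalDegree_C, max_le_iff]
    exact ⟨deg_Rp _ _, by omega⟩
  · intro j hj
    exact inj1 r j (by omega) (by omega)

theorem fam2 (N : ℕ) (ν : F) (h2 : (2 : F) ≠ 0) (hν : ¬ IsSquare ν) :
    Unsat {(Rp F (N + 3) (N + 2) ^ 2 - C ν)} ∧
    (∃ M : ℕ → Finset (MvPolynomial _ F), IsSemRef {(Rp F (N + 3) (N + 2) ^ 2 - C ν)} 1 M ∧ semSpace 1 M = 1) ∧
      ∃ D : ℕ, IsLeast {k | ∃ L, IsPCRef {(Rp F (N + 3) (N + 2) ^ 2 - C ν)} L ∧ pcDegree L = k} D ∧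
        (Rp F (N + 3) (N + 2) ^ 2 - C ν).totalDegree + N ≤ D := by
  have hun : Unsat {(Rp F (N + 3) (N + 2) ^ 2 - C ν)} := by
    intro a ha
    refine ⟨_, rfl, ?_⟩
    rw [map_sub, eval_C, map_pow, sub_ne_zero]
    intro h
    exact hν ⟨_, by rw [← h, sq]⟩
  refine ⟨hun, package _ (2 * (N + 2)) N (by omega) ?_ hun ?_⟩
  · refine (totalDegree_sub _ _).trans ?_
    rw [totalDegree_C, max_le_iff]
    refine ⟨(totalDegree_pow _ _).trans ?_, by omega⟩
    exact Nat.mul_le_mul_left 2 (deg_Rp _ _)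
  · intro j hj
    exact inj2 ν h2 j (by omega) (by omega)

theorem fam3 [CharZero F] (N : ℕ) :
    (Lp (2 * N + 3) F - C (-1)).totalDegree = 1 ∧ Unsat {(Lp (2 * N + 3) F - C (-1))} ∧
    (∃ M : ℕ → Finset (MvPolynomial _ F), IsSemRef {(Lp (2 * N + 3) F - C (-1))} 1 M ∧ semSpace 1 M = 1) ∧
      ∃ D : ℕ, IsLeast {k | ∃ L, IsPCRef {(Lp (2 * N + 3) F - C (-1))} L ∧ pcDegree L = k} D ∧
        (Lp (2 * N + 3) F - C (-1)).totalDegree + N ≤ D := by
  have hun : Unsat {(Lp (2 * N + 3) F - C (-1))} := by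
    intro a ha
    refine ⟨_, rfl, ?_⟩
    obtain ⟨t, ht⟩ := eval_Lp_nat (2 * N + 3) a ha
    rw [map_sub, eval_C, ht, sub_neg_eq_add]
    exact Nat.cast_add_one_ne_zero t
  have hd := deg_Lp (2 * N + 3) (-1 : F) (by omega)
  refine ⟨hd, hun, package _ 1 N (by omega) hd.le hun ?_⟩
  intro j hj
  exact inj3 (-1) j (by omega)

end

end Pool.Agent.H53R2.SD
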