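import Mathlib

/-! Monomial space versus degree in polynomial calculus: definitions (helper53). -/

set_option autoImplicit false

namespace Pool.Agent.H53R2.SD

open MvPolynomial

section
variable {V F : Type} [Field F]

/-- `P` is unsatisfiable: no point of `{0,1}^V` is a common zero of all `p ∈ P` -/
def Unsat (P : Set (MvPolynomial V F)) : Prop :=
  ∀ a : V → F, (∀ v, a v = 0 ∨ a v = 1) → ∃ p ∈ P, eval a p ≠ 0

variable (V F) in
/-- the Boolean ideal, generated by the polynomials `x ^ 2 - x`, `x ∈ V` -/
noncomputable def boolIdeal : Ideal (MvPolynomial V F) :=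
  Ideal.span (Set.range fun v : V => (X v ^ 2 - X v : MvPolynomial V F))

open Classical in
/-- number of distinct monomials occurring in the polynomials of `S` -/
noncomputable def MSp (S : Finset (MvPolynomial V F)) : ℕ := (S.biUnion fun g => g.support).card

/-- `(M 0, ..., M ℓ)` is a semantic polynomial calculus refutation of `P`: `M 0` is empty, `1 ∈ M ℓ`,
and every `M (i+1)` with `i < ℓ` lies in the sum of the ideal generated by `M i`, the Boolean ideal
and the ideal generated by one `p ∈ P` -/
def IsSemRef (P : Set (MvPolynomial V F)) (ℓ : ℕ) (M : ℕ → Finset (MvPolynomial V F)) : Prop :=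
  M 0 = ∅ ∧ 1 ∈ M ℓ ∧ ∀ i < ℓ, ∃ p ∈ P, ∀ g ∈ M (i + 1),
    g ∈ Ideal.span (M i : Set (MvPolynomial V F)) ⊔ boolIdeal V F ⊔ Ideal.span {p}

/-- monomial space of `(M 0, ..., M ℓ)`: the maximum of `MSp (M i)` over `i ≤ ℓ` -/
noncomputable def semSpace (ℓ : ℕ) (M : ℕ → Finset (MvPolynomial V F)) : ℕ :=
  (Finset.range (ℓ + 1)).sup fun i => MSp (M i)

/-- `g` is a polynomial of `P`, or a Boolean axiom `x ^ 2 - x`, or a linear combination of two lines
of the list `L`, or a variable times a line of `L` -/
def Step (P : Set (MvPolynomial V F)) (L : List (MvPolynomial V F)) (g : MvPolynomial V F) : Prop :=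
  g ∈ P ∨ (∃ v, g = X v ^ 2 - X v) ∨
    (∃ a ∈ L, ∃ b ∈ L, ∃ α β : F, g = C α * a + C β * b) ∨ (∃ a ∈ L, ∃ v, g = X v * a)

/-- polynomial calculus derivations from `P`, as lists of lines with the newest line first:
every line is obtained by `Step` from the lines after it in the list -/
def IsDer (P : Set (MvPolynomial V F)) : List (MvPolynomial V F) → Prop
  | [] => True
  | g :: L => Step P L g ∧ IsDer P L

/-- polynomial calculus refutation: a derivation whose newest line is `1` -/
def IsPCRef (P : Set (MvPolynomial V F)) (L : List (MvPolynomial V F)) : Prop :=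
  IsDer P L ∧ L.head? = some 1

/-- maximum degree of a line -/
noncomputable def pcDegree (L : List (MvPolynomial V F)) : ℕ := (L.map fun g => g.totalDegree).foldr max 0

end

end Pool.Agent.H53R2.SD
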