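import Pool.Agent.H53R2.MultiHopf
import Pool.Agent.H53R2.LwBasic

set_option autoImplicit false

namespace Pool.Agent.H53R2

open scoped commutatorElement

/-- small varieties: every family of pairwise non-isomorphic finitely generated groups in the
variety has fewer than continuum many members. -/
def SmallVar (W : Set (FreeGroup ℕ)) : Prop :=
  ∀ (ι : Type) (G : ι → Type) [∀ i, Group (G i)], (∀ i, Group.FG (G i)) →
    (∀ i, InVar W (G i)) → (∀ i j, Nonempty (G i ≃* G j) → i = j) →
    Cardinal.mk ι < Cardinal.continuum

/-- one-sided orbit property -/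
def OA {P : Type} [Group P] (α : MulAut P) (ρ : P) : Prop :=
  ρ ∈ Subgroup.normalClosure {x : P | ∃ k : ℕ, x = (α ^ (-((k : ℤ) + 1))) ρ}

end Pool.Agent.H53R2
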