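import Pool.Agent.H53R2.SUI
import Pool.Agent.H53R2.UB2
import Pool.Agent.H53R2.Small

set_option autoImplicit false

namespace Pool.Agent.H53R2

/-- groups with the maximal condition on normal subgroups are Hopfian -/
theorem hopfian_of_maxN {G : Type} [Group G] (h : MaxN G) (φ : G →* G)
    (hφ : Function.Surjective φ) : Function.Injective φ := by
  rw [K_maxN_iff] at h
  let ψ : ℕ → (G →* G) := fun n => Nat.rec (MonoidHom.id G) (fun _ f => φ.comp f) n
  have hs : ∀ (n : ℕ) (x : G), ψ (n + 1) x = φ (ψ n x) := fun n x => rfl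
  have hsurj : ∀ n : ℕ, Function.Surjective (ψ n) := by
    intro n
    induction n with
    | zero => intro x; exact ⟨x, rfl⟩
    | succ n ih =>
      intro x
      obtain ⟨y, rfl⟩ := hφ x
      obtain ⟨z, rfl⟩ := ih y
      exact ⟨z, rfl⟩
  have hmono : Monotone (fun n => (ψ n).ker) := by
    refine monotone_nat_of_le_succ fun n x hx => ?_
    rw [MonoidHom.mem_ker] at hx ⊢
    rw [hs, hx, map_one]
  obtain ⟨n, hn⟩ := h (fun n => (ψ n).ker) hmono (fun n => MonoidHom.normal_ker _)
  rw [injective_iff_map_eq_one]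
  intro x hx
  obtain ⟨y, rfl⟩ := hsurj n x
  have h1 : y ∈ (ψ (n + 1)).ker := by
    rw [MonoidHom.mem_ker, hs, hx]
  have h2 : (ψ (n + 1)).ker = (ψ n).ker := hn (n + 1) (Nat.le_succ n)
  rw [h2] at h1
  exact h1

theorem maxN_of_small {W : Set (FreeGroup ℕ)} (hW : SmallVar W) (d : ℕ)
    (hd : ∀ (G : Type) [Group G], InVar W G → derivedSeries G d = ⊥) (G : Type) [Group G]
    [Group.FG G] (hG : InVar W G) : MaxN G := by
  obtain ⟨u, hu⟩ := exists_UI_small hW
  exact (U_main u d G (hu G hG) (hd G hG)).2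

end Pool.Agent.H53R2
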