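import Pool.Agent.H53R2.SCard

set_option autoImplicit false

namespace Pool.Agent.H53R2

open scoped commutatorElement

/-- extraction of the data of a universal identity -/
theorem M_extract (W : Set (FreeGroup ℕ))
    (h : ⁅(RF.gen W 0 : RF W 3), RF.gen W 1⁆ ∈ Subgroup.normalClosure
      {x : RF W 3 | ∃ j : ℤ, j ≠ 0 ∧
        x = ⁅(RF.gen W 0 : RF W 3), RF.gen W 2 ^ j * RF.gen W 1 * RF.gen W 2 ^ (-j)⁆}) :
    ∃ u : UI, ∀ (G : Type) [Group G], InVar W G → u.Grp G := by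
  obtain ⟨n, g, s, e, hs, hx⟩ := mem_normalClosure_prod _ _ h
  choose kk hk0 hkk using hs
  choose w hw using fun i => QuotientGroup.mk'_surjective (verb W 3) (g i)
  refine ⟨⟨n, w, kk, e, hk0⟩, ?_⟩
  intro G _ hG b' m' t'
  have h1 := congrArg (RF.lift hG ![b', m', t']) hx
  have gb : RF.lift hG ![b', m', t'] (RF.gen W 0) = b' := RF.lift_gen hG ![b', m', t'] 0
  have gm : RF.lift hG ![b', m', t'] (RF.gen W 1) = m' := RF.lift_gen hG ![b', m', t'] 1
  have gt : RF.lift hG ![b', m', t'] (RF.gen W 2) = t' := RF.lift_gen hG ![b', m', t'] 2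
  rw [map_commutatorElement, gb, gm, map_list_prod, List.map_ofFn] at h1
  rw [h1]
  congr 2
  funext i
  change RF.lift hG ![b', m', t'] (g i * s i ^ e i * (g i)⁻¹) = _
  rw [map_mul, map_mul, map_inv, map_zpow, hkk, map_commutatorElement, map_mul, map_mul, map_zpow,
    map_zpow, gb, gm, gt, ← hw i, RF.lift_mk]

/-- Task M -/
theorem exists_UI_small {W : Set (FreeGroup ℕ)} (hW : SmallVar W) :
    ∃ u : UI, ∀ (G : Type) [Group G], InVar W G → u.Grp G := by
  classical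
  set b : RF W 3 := RF.gen W 0 with hb
  set m : RF W 3 := RF.gen W 1 with hm
  set t : RF W 3 := RF.gen W 2 with ht
  obtain ⟨α, hα1, hα2⟩ := J_aut W 3 1 2 (by decide)
  have hαb : α b = b := hα1 0 (by decide)
  have hαt : α t = t := hα1 2 (by decide)
  have hαm : α m = t * m * t⁻¹ := hα2
  let ρ : ℤ → RF W 3 := fun j => ⁅b, t ^ j * m * t ^ (-j)⁆
  have hρ : ∀ i j : ℤ, (α ^ i) (ρ j) = ρ (i + j) := by
    intro i j
    change (α ^ i) ⁅b, t ^ j * m * t ^ (-j)⁆ = ⁅b, t ^ (i + j) * m * t ^ (-(i + j))⁆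
    rw [map_commutatorElement, zpow_fixed α b hαb, map_mul, map_mul, map_zpow, map_zpow,
      zpow_fixed α t hαt, zpow_conj α t m hαt hαm]
    congr 1
    rw [zpow_neg, zpow_neg, zpow_neg, zpow_add]
    group
  have hfg : Group.FG (RF W 3) := QuotientGroup.fg _
  let e : ℤ ≃ ℕ := Equiv.intEquivNat
  have hnot := small_no_cantor hW (RF W 3) hfg (RF_inVar W 3)
    (fun s => Subgroup.normalClosure {x | ∃ j : ℤ, s (e j) = true ∧ x = ρ j})
    (fun s => Subgroup.normalClosure_normal)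
  have hex : ∃ i : ℤ, ρ i ∈ Subgroup.normalClosure {x | ∃ j : ℤ, j ≠ i ∧ x = ρ j} := by
    by_contra hcon
    push Not at hcon
    apply hnot
    have key : ∀ s s' : ℕ → Bool,
        Subgroup.normalClosure {x | ∃ j : ℤ, s (e j) = true ∧ x = ρ j} =
        Subgroup.normalClosure {x | ∃ j : ℤ, s' (e j) = true ∧ x = ρ j} →
        ∀ j : ℤ, s (e j) = true → s' (e j) = true := by
      intro s s' hss j hj
      by_contra hj'
      apply hcon j
      have h1 : ρ j ∈ Subgroup.normalClosure {x | ∃ j : ℤ, s (e j) = true ∧ x = ρ j} :=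
        Subgroup.subset_normalClosure ⟨j, hj, rfl⟩
      rw [hss] at h1
      refine Subgroup.normalClosure_mono ?_ h1
      rintro x ⟨l, hl, rfl⟩
      refine ⟨l, ?_, rfl⟩
      rintro rfl
      exact hj' hl
    intro s s' hss
    funext n
    obtain ⟨j, rfl⟩ := e.surjective n
    rw [Bool.eq_iff_iff]
    exact ⟨key s s' hss j, key s' s hss.symm j⟩
  obtain ⟨i, hi⟩ := hex
  apply M_extract W
  have h1 : (α ^ (-i)) (ρ i) ∈ (Subgroup.normalClosure {x | ∃ j : ℤ, j ≠ i ∧ x = ρ j}).map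
      ((α ^ (-i) : MulAut (RF W 3)) : RF W 3 ≃* RF W 3).toMonoidHom := ⟨ρ i, hi, rfl⟩
  rw [map_normalClosure_aut, hρ, neg_add_cancel] at h1
  have h2 : ρ 0 = ⁅b, m⁆ := by
    change ⁅b, t ^ (0 : ℤ) * m * t ^ (-(0 : ℤ))⁆ = ⁅b, m⁆
    simp
  rw [h2] at h1
  refine Subgroup.normalClosure_mono ?_ h1
  rintro _ ⟨_, ⟨j, hj, rfl⟩, rfl⟩
  refine ⟨-i + j, fun h => hj (by omega), ?_⟩
  exact hρ (-i) j

end Pool.Agent.H53R2
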