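import Pool.Agent.H53R2.Alg
import Pool.Agent.H53R2.SecMod

set_option autoImplicit false

namespace Pool.Agent.H53R2

open scoped commutatorElement

/-- the group ring of `ℤ × ℤ` -/
abbrev U_C : Type := AddMonoidAlgebra ℤ (ℤ × ℤ)

/-- monomials `U^i T^j` -/
noncomputable def U_m (i j : ℤ) : U_C := AddMonoidAlgebra.single (i, j) 1

theorem U_m_mul (i j i' j' : ℤ) : U_m i j * U_m i' j' = U_m (i + i') (j + j') := by
  unfold U_m
  rw [AddMonoidAlgebra.single_mul_single, mul_one]
  rfl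

theorem U_m_zero : U_m 0 0 = 1 := rfl

/-- the additive span of the monomials `U^i T^k`, `i ∈ ℤ`, `k ∈ K` -/
noncomputable def U_span (K : Finset ℤ) : AddSubgroup U_C :=
  AddSubgroup.closure {c | ∃ i : ℤ, ∃ k ∈ K, c = U_m i k}

theorem U_span_mono {K K' : Finset ℤ} (h : K ⊆ K') : U_span K ≤ U_span K' := by
  apply AddSubgroup.closure_mono
  rintro c ⟨i, k, hk, rfl⟩
  exact ⟨i, k, h hk, rfl⟩

theorem U_induction {p : U_C → Prop} (c : U_C) (h0 : p 0) (hadd : ∀ a b, p a → p b → p (a + b))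
    (hsingle : ∀ (i j : ℤ) (n : ℤ), p (n • U_m i j)) : p c := by
  induction c using AddMonoidAlgebra.induction_linear with
  | zero => exact h0
  | add f g hf hg => exact hadd _ _ hf hg
  | single a b =>
    have : (AddMonoidAlgebra.single a b : U_C) = b • U_m a.1 a.2 := by
      unfold U_m
      rw [AddMonoidAlgebra.smul_single]
      simp
    rw [this]
    exact hsingle _ _ _

/-- multiplication by a fixed element maps spans into spans -/
theorem U_mul_span (P : U_C) (K : Finset ℤ) : ∃ K' : Finset ℤ, ∀ σ ∈ U_span K, P * σ ∈ U_span K' := by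
  classical
  induction P using U_induction with
  | h0 => exact ⟨∅, fun σ _ => by rw [zero_mul]; exact zero_mem _⟩
  | hadd a b ha hb =>
    obtain ⟨K₁, h₁⟩ := ha
    obtain ⟨K₂, h₂⟩ := hb
    refine ⟨K₁ ∪ K₂, fun σ hσ => ?_⟩
    rw [add_mul]
    exact add_mem (U_span_mono Finset.subset_union_left (h₁ σ hσ))
      (U_span_mono Finset.subset_union_right (h₂ σ hσ))
  | hsingle i j n =>
    refine ⟨K.image (fun k => j + k), fun σ hσ => ?_⟩
    rw [smul_mul_assoc]
    apply zsmul_mem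
    induction hσ using AddSubgroup.closure_induction with
    | mem x hx =>
      obtain ⟨i', k, hk, rfl⟩ := hx
      rw [U_m_mul]
      exact AddSubgroup.subset_closure ⟨_, _, Finset.mem_image_of_mem _ hk, rfl⟩
    | zero => rw [mul_zero]; exact zero_mem _
    | add x y _ _ hx hy => rw [mul_add]; exact add_mem hx hy
    | neg x _ hx => rw [mul_neg]; exact neg_mem hx

/-- reduction modulo `1 - U^l T^i` -/
theorem U_reduce (l i : ℤ) (hi : i ≠ 0) : ∃ K : Finset ℤ, ∀ q : U_C, ∃ σ ∈ U_span K, ∃ q' : U_C,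
    q = σ + (1 - U_m l i) * q' := by
  classical
  refine ⟨(Finset.range i.natAbs).image (fun n : ℕ => (n : ℤ)), fun q => ?_⟩
  induction q using U_induction with
  | h0 => exact ⟨0, zero_mem _, 0, by simp⟩
  | hadd a b ha hb =>
    obtain ⟨σ, hσ, q₁, h₁⟩ := ha
    obtain ⟨τ, hτ, q₂, h₂⟩ := hb
    exact ⟨σ + τ, add_mem hσ hτ, q₁ + q₂, by rw [h₁, h₂]; ring⟩
  | hsingle a b n =>
    -- powers of `U^l T^i` are `1` modulo `1 - U^l T^i`
    have hpow : ∀ r : ℤ, ∃ q' : U_C, U_m (r * l) (r * i) = 1 + (1 - U_m l i) * q' := by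
      intro r
      induction r using Int.induction_on with
      | zero => exact ⟨0, by simp [U_m_zero]⟩
      | succ r ih =>
        obtain ⟨q', hq'⟩ := ih
        refine ⟨U_m l i * q' - 1, ?_⟩
        have : U_m ((r + 1 : ℤ) * l) ((r + 1 : ℤ) * i) = U_m (r * l) (r * i) * U_m l i := by
          rw [U_m_mul]; congr 1 <;> ring
        rw [this, hq']; ring
      | pred r ih =>
        obtain ⟨q', hq'⟩ := ih
        refine ⟨U_m (-l) (-i) * q' + U_m (-l) (-i), ?_⟩
        have h1 : U_m ((-r - 1 : ℤ) * l) ((-r - 1 : ℤ) * i) = U_m (-r * l) (-r * i) * U_m (-l) (-i) := by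
          rw [U_m_mul]; congr 1 <;> ring
        have h2 : U_m l i * U_m (-l) (-i) = 1 := by
          rw [U_m_mul, add_neg_cancel, add_neg_cancel, U_m_zero]
        rw [h1, hq']
        linear_combination h2
    obtain ⟨q', hq'⟩ := hpow (b / i)
    have hb : b % i ∈ (Finset.range i.natAbs).image (fun n : ℕ => (n : ℤ)) := by
      rw [Finset.mem_image]
      refine ⟨(b % i).toNat, ?_, Int.toNat_of_nonneg (Int.emod_nonneg b hi)⟩
      rw [Finset.mem_range]
      have := Int.emod_lt_abs b hi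
      have h2 := Int.emod_nonneg b hi
      rw [Int.abs_eq_natAbs] at this
      omega
    have hmem : U_m (a - (b / i) * l) (b % i) ∈
        U_span ((Finset.range i.natAbs).image (fun n : ℕ => (n : ℤ))) :=
      AddSubgroup.subset_closure ⟨_, _, hb, rfl⟩
    refine ⟨n • U_m (a - (b / i) * l) (b % i), zsmul_mem hmem _,
      n • (U_m (a - (b / i) * l) (b % i) * q'), ?_⟩
    · have h1 : U_m a b = U_m (a - (b / i) * l) (b % i) * U_m ((b / i) * l) ((b / i) * i) := by
        rw [U_m_mul]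
        congr 1
        · ring
        · have := Int.emod_add_mul_ediv b i
          linarith
      rw [h1, hq', mul_add, mul_one, smul_add, mul_smul_comm]
      congr 2
      ring

/-- finite generation modulo the product -/
theorem U_fin {n : ℕ} (l i : Fin n → ℤ) (hi : ∀ k, i k ≠ 0) (s : Finset (Fin n)) :
    ∃ K : Finset ℤ, ∀ j : ℤ, ∃ σ ∈ U_span K, ∃ q : U_C,
      U_m 0 j = σ + (∏ k ∈ s, (1 - U_m (l k) (i k))) * q := by
  classical
  induction s using Finset.induction_on with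
  | empty => exact ⟨∅, fun j => ⟨0, zero_mem _, U_m 0 j, by simp⟩⟩
  | insert a s ha ih =>
    obtain ⟨K, hK⟩ := ih
    obtain ⟨K₁, hK₁⟩ := U_reduce (l a) (i a) (hi a)
    obtain ⟨K₂, hK₂⟩ := U_mul_span (∏ k ∈ s, (1 - U_m (l k) (i k))) K₁
    refine ⟨K ∪ K₂, fun j => ?_⟩
    obtain ⟨σ, hσ, q, hq⟩ := hK j
    obtain ⟨τ, hτ, q', hq'⟩ := hK₁ q
    refine ⟨σ + (∏ k ∈ s, (1 - U_m (l k) (i k))) * τ,
      add_mem (U_span_mono Finset.subset_union_left hσ)
        (U_span_mono Finset.subset_union_right (hK₂ τ hτ)), q', ?_⟩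
    rw [Finset.prod_insert ha, hq, hq']
    ring

/-- the ideal of the universal relations -/
noncomputable def U_J {n : ℕ} (e l i : Fin n → ℤ) : Ideal U_C :=
  Ideal.span {c | ∃ a : ℤ, c = 1 - ∑ k, e k • U_m (a * l k) (a * i k)}

theorem U_prod_mem {n : ℕ} (e l i : Fin n → ℤ) : ∏ k, (1 - U_m (l k) (i k)) ∈ U_J e l i := by
  classical
  let J := U_J e l i
  let θ : Option (Fin n) → Multiplicative ℤ →* U_C := fun o =>
    match o with
    | none => 1
    | some k =>
      { toFun := fun a => U_m (a.toAdd * l k) (a.toAdd * i k)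
        map_one' := by simp [U_m_zero]
        map_mul' := by
          intro a b
          rw [U_m_mul, toAdd_mul, add_mul, add_mul] }
  let A : Option (Fin n) → (U_C ⧸ J) := fun o =>
    match o with
    | none => Ideal.Quotient.mk J 1
    | some k => Ideal.Quotient.mk J (-(e k • 1))
  have h := elim θ A (by
    intro g
    rw [Fintype.sum_option]
    show (1 : U_C) • Ideal.Quotient.mk J 1 + ∑ k, U_m (g.toAdd * l k) (g.toAdd * i k) •
      Ideal.Quotient.mk J (-(e k • 1)) = 0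
    have : ∀ c d : U_C, c • Ideal.Quotient.mk J d = Ideal.Quotient.mk J (c * d) := fun c d => rfl
    simp only [this]
    rw [← map_sum, ← map_add, Ideal.Quotient.eq_zero_iff_mem]
    apply Ideal.subset_span
    refine ⟨g.toAdd, ?_⟩
    rw [mul_one, sub_eq_add_neg, ← Finset.sum_neg_distrib]
    congr 1
    refine Finset.sum_congr rfl fun k _ => ?_
    rw [mul_neg, mul_smul_comm, mul_one]) {none} (fun _ _ => Multiplicative.ofAdd 1)
  rw [Finset.prod_singleton, Finset.sum_singleton] at h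
  have h2 : ({none} : Finset (Option (Fin n)))ᶜ = Finset.univ.map Function.Embedding.some := by
    ext o
    cases o <;> simp
  rw [h2, Finset.prod_map] at h
  have h3 : ∀ k : Fin n, θ none (Multiplicative.ofAdd 1) - θ (Function.Embedding.some k)
      (Multiplicative.ofAdd 1) = 1 - U_m (l k) (i k) := by
    intro k
    show (1 : U_C) - U_m (1 * l k) (1 * i k) = _
    rw [one_mul, one_mul]
  rw [Finset.prod_congr rfl (fun k _ => h3 k)] at h
  have h4 : (∏ k, (1 - U_m (l k) (i k))) • Ideal.Quotient.mk J 1 =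
    Ideal.Quotient.mk J (∏ k, (1 - U_m (l k) (i k))) := by
    show Ideal.Quotient.mk J ((∏ k, (1 - U_m (l k) (i k))) * 1) = _
    rw [mul_one]
  rw [← Ideal.Quotient.eq_zero_iff_mem]
  exact h4.symm.trans h

/-- exponent sum of the third generator -/
def U_exp (γ : FreeGroup (Fin 3)) : ℤ :=
  (FreeGroup.lift ![1, 1, Multiplicative.ofAdd (1 : ℤ)] γ).toAdd

theorem U_exp_spec {G : Type} [Group G] (t : G) (γ : FreeGroup (Fin 3)) :
    FreeGroup.lift ![1, 1, t] γ = t ^ U_exp γ := by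
  have h : (zpowersHom G t).comp (FreeGroup.lift ![1, 1, Multiplicative.ofAdd (1 : ℤ)]) =
      FreeGroup.lift ![1, 1, t] := by
    apply FreeGroup.ext_hom
    intro i
    fin_cases i <;> simp
  rw [← h]
  rfl

/-- the additive map from the group ring given by a function on pairs of integers -/
noncomputable def U_phi {E : Type} [AddCommGroup E] (v : ℤ → ℤ → E) : U_C →+ E :=
  (Finsupp.liftAddHom fun x : ℤ × ℤ => (smulAddHom ℤ E).flip (v x.1 x.2)).comp
    AddMonoidAlgebra.coeffAddEquiv.toAddMonoidHom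

theorem U_phi_m {E : Type} [AddCommGroup E] (v : ℤ → ℤ → E) (i j : ℤ) :
    U_phi v (U_m i j) = v i j := by
  unfold U_phi U_m
  simp

theorem U_one (u : UI) : ∃ K : Finset ℤ, ∀ (G : Type) [Group G], u.Grp G →
    ∀ (N Y R : Subgroup G) [N.Normal] [Y.Normal] [R.Normal], Y ≤ N → ⁅⁅Y, N⁆, N⁆ ≤ R →
    ∀ y ∈ Y, ∀ x ∈ N, ∀ t : G, (∀ k ∈ K, ⁅y, t ^ k * x * t ^ (-k)⁆ ∈ R) →
    ∀ j : ℤ, ⁅y, t ^ j * x * t ^ (-j)⁆ ∈ R := by
  obtain ⟨K, hK⟩ := U_fin (fun k => U_exp (u.w k)) u.i u.hi Finset.univ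
  refine ⟨K, ?_⟩
  intro G _ hG N Y R _ _ _ hYN hR y hy x hx t hk j
  let p : G →* G ⧸ N := QuotientGroup.mk' N
  have hp : Function.Surjective p := QuotientGroup.mk'_surjective N
  have hker : p.ker = N := QuotientGroup.ker_mk' N
  obtain ⟨E, _, _, ⟨s⟩⟩ := exists_secMod p hp R ⁅Y, N⁆
    ((Subgroup.commutator_mono le_rfl ((Subgroup.commutator_le_left Y N).trans hYN)).trans hR)
    (by rw [hker]; exact hR)
  have hN : N.Normal := inferInstance
  have hY : Y.Normal := inferInstance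
  have hyi : ∀ i : ℤ, t ^ i * y * t ^ (-i) ∈ Y := fun i => by
    rw [zpow_neg]; exact hY.conj_mem y hy _
  have hxi : ∀ i : ℤ, t ^ i * x * t ^ (-i) ∈ N := fun i => by
    rw [zpow_neg]; exact hN.conj_mem x hx _
  have hex : ∀ i j : ℤ, ∃ e, s.rep ⁅t ^ i * y * t ^ (-i), t ^ (i + j) * x * t ^ (-(i + j))⁆ e := by
    intro i j
    exact ⟨_, Subgroup.commutator_mem_commutator (hyi i) (hxi (i + j)), rfl⟩
  choose v hv using hex
  -- translation
  have htr : ∀ i a j : ℤ, v (i + a) j = p (t ^ a) • v i j := by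
    intro i a j
    refine SecMod.rep_unique (hv (i + a) j) ?_
    have h1 := SecMod.rep_conj (hv i j) (t ^ a)
    have h2 : t ^ a * ⁅t ^ i * y * t ^ (-i), t ^ (i + j) * x * t ^ (-(i + j))⁆ * (t ^ a)⁻¹ =
        ⁅t ^ (i + a) * y * t ^ (-(i + a)), t ^ (i + a + j) * x * t ^ (-(i + a + j))⁆ := by
      rw [conjugate_commutatorElement]
      congr 1 <;> group
    rwa [h2] at h1
  -- the universal relation
  have hrel : ∀ a i j : ℤ, v i j = ∑ k, u.e k • v (i + a * U_exp (u.w k)) (j + a * u.i k) := by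
    intro a i j
    have h1 := hG (t ^ i * y * t ^ (-i)) (t ^ (i + j) * x * t ^ (-(i + j))) (t ^ a)
    have h2 := hv i j
    rw [h1] at h2
    refine SecMod.rep_unique h2 (SecMod.rep_prod _ _ fun k => ?_)
    set g := FreeGroup.lift ![t ^ i * y * t ^ (-i), t ^ (i + j) * x * t ^ (-(i + j)), t ^ a] (u.w k)
      with hg
    have h3 : p g = p (t ^ (a * U_exp (u.w k))) := by
      have h4 : p.comp (FreeGroup.lift
          ![t ^ i * y * t ^ (-i), t ^ (i + j) * x * t ^ (-(i + j)), t ^ a]) =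
          FreeGroup.lift ![1, 1, p (t ^ a)] := by
        apply FreeGroup.ext_hom
        intro l
        rw [MonoidHom.comp_apply, FreeGroup.lift_apply_of, FreeGroup.lift_apply_of]
        fin_cases l
        · exact (QuotientGroup.eq_one_iff _).2 (hYN (hyi i))
        · exact (QuotientGroup.eq_one_iff _).2 (hxi (i + j))
        · rfl
      have h5 : p g = FreeGroup.lift ![1, 1, p (t ^ a)] (u.w k) := by rw [← h4]; rfl
      rw [h5, U_exp_spec, ← map_zpow, ← zpow_mul]
    rw [htr, ← h3, smul_comm]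
    refine SecMod.rep_conj (SecMod.rep_zpow ?_ _) g
    have h6 := hv i (j + a * u.i k)
    have h7 : (t ^ a) ^ u.i k * (t ^ (i + j) * x * t ^ (-(i + j))) * (t ^ a) ^ (-u.i k) =
        t ^ (i + (j + a * u.i k)) * x * t ^ (-(i + (j + a * u.i k))) := by
      rw [← zpow_mul, ← zpow_mul]
      have e1 : t ^ (i + (j + a * u.i k)) = t ^ (a * u.i k) * t ^ (i + j) := by
        rw [← zpow_add]; congr 1; ring
      have e2 : t ^ (-(i + (j + a * u.i k))) = t ^ (-(i + j)) * t ^ (a * -u.i k) := by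
        rw [← zpow_add]; congr 1; ring
      rw [e1, e2]; group
    rw [h7]
    exact h6
  -- `U_phi v` vanishes on the ideal and on the span
  have hJ : ∀ c ∈ U_J u.e (fun k => U_exp (u.w k)) u.i, ∀ b : U_C, U_phi v (b * c) = 0 := by
    intro c hc
    unfold U_J at hc
    induction hc using Submodule.span_induction with
    | zero => intro b; rw [mul_zero, map_zero]
    | add x y _ _ hx hy => intro b; rw [mul_add, map_add, hx, hy, add_zero]
    | mem x hx =>
      obtain ⟨a, rfl⟩ := hx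
      intro b
      induction b using U_induction with
      | h0 => rw [zero_mul, map_zero]
      | hadd b b' hb hb' => rw [add_mul, map_add, hb, hb', add_zero]
      | hsingle i j n =>
        rw [smul_mul_assoc, map_zsmul, mul_sub, mul_one, Finset.mul_sum, map_sub, map_sum,
          U_phi_m, hrel a i j, ← Finset.sum_sub_distrib]
        rw [Finset.sum_eq_zero, smul_zero]
        intro k _
        rw [mul_smul_comm, map_zsmul, U_m_mul, U_phi_m, sub_self]
    | smul b' x _ hx => intro b; rw [smul_eq_mul, ← mul_assoc]; exact hx _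
  have hspan : ∀ σ ∈ U_span K, U_phi v σ = 0 := by
    intro σ hσ
    induction hσ using AddSubgroup.closure_induction with
    | zero => exact map_zero _
    | add x y _ _ hx hy => rw [map_add, hx, hy, add_zero]
    | neg x _ hx => rw [map_neg, hx, neg_zero]
    | mem x hx =>
      obtain ⟨i, k, hkK, rfl⟩ := hx
      rw [U_phi_m]
      have h0 : v 0 k = 0 := by
        refine SecMod.rep_unique (hv 0 k) ?_
        have h1 : ⁅t ^ (0 : ℤ) * y * t ^ (-(0 : ℤ)), t ^ (0 + k) * x * t ^ (-(0 + k))⁆ =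
            ⁅y, t ^ k * x * t ^ (-k)⁆ := by simp
        rw [h1]
        have h2 : ⁅y, t ^ k * x * t ^ (-k)⁆ ∈ ⁅Y, N⁆ :=
          Subgroup.commutator_mem_commutator hy (hxi k)
        exact ⟨h2, (s.ker ⟨_, h2⟩).2 (hk k hkK)⟩
      have h1 := htr 0 i k
      rw [zero_add] at h1
      rw [h1, h0, smul_zero]
  obtain ⟨σ, hσ, q, hq⟩ := hK j
  have hv0 : v 0 j = 0 := by
    rw [← U_phi_m v 0 j, hq, map_add, hspan σ hσ, zero_add, mul_comm]
    exact hJ _ (U_prod_mem _ _ _) q
  obtain ⟨h1, h2⟩ := hv 0 j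
  rw [hv0] at h2
  have h3 := (s.ker ⟨_, h1⟩).1 h2
  have h4 : ⁅t ^ (0 : ℤ) * y * t ^ (-(0 : ℤ)), t ^ (0 + j) * x * t ^ (-(0 + j))⁆ =
      ⁅y, t ^ j * x * t ^ (-j)⁆ := by simp
  rw [← h4]
  exact h3

/-- several variables -/
theorem U_multi (u : UI) : ∃ K : Finset ℤ, ∀ (r : ℕ) (G : Type) [Group G], u.Grp G →
    ∀ (N Y R : Subgroup G) [N.Normal] [Y.Normal] [R.Normal], Y ≤ N → ⁅⁅Y, N⁆, N⁆ ≤ R →
    ∀ y ∈ Y, ∀ x ∈ N, ∀ t : Fin r → G,
    (∀ k : Fin r → ℤ, (∀ i, k i ∈ K) → ⁅y, (List.ofFn fun i => t i ^ k i).prod * x *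
      ((List.ofFn fun i => t i ^ k i).prod)⁻¹⁆ ∈ R) →
    ∀ k : Fin r → ℤ, ⁅y, (List.ofFn fun i => t i ^ k i).prod * x *
      ((List.ofFn fun i => t i ^ k i).prod)⁻¹⁆ ∈ R := by
  obtain ⟨K, hK⟩ := U_one u
  refine ⟨K, ?_⟩
  intro r G _ hG N Y R _ _ hRn hYN hR y hy x hx t h
  have hN : N.Normal := inferInstance
  have hY : Y.Normal := inferInstance
  induction r generalizing y with
  | zero =>
    intro k
    exact h k (fun i => i.elim0)
  | succ r ih =>
    -- the first exponent arbitrary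
    have h1 : ∀ (k₀ : ℤ) (k : Fin r → ℤ), (∀ i, k i ∈ K) →
        ⁅y, t 0 ^ k₀ * ((List.ofFn fun i => t (Fin.succ i) ^ k i).prod * x *
          ((List.ofFn fun i => t (Fin.succ i) ^ k i).prod)⁻¹) * t 0 ^ (-k₀)⁆ ∈ R := by
      intro k₀ k hk
      refine hK G hG N Y R hYN hR y hy _ (hN.conj_mem x hx _) (t 0) ?_ k₀
      intro k₁ hk₁
      have h2 := h (Fin.cons k₁ k) (by
        intro i
        refine Fin.cases ?_ (fun j => ?_) i
        · exact hk₁
        · exact hk j)
      rw [List.ofFn_succ, List.prod_cons] at h2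
      simp only [Fin.cons_zero, Fin.cons_succ] at h2
      have e1 : t 0 ^ k₁ * ((List.ofFn fun i => t (Fin.succ i) ^ k i).prod * x *
          ((List.ofFn fun i => t (Fin.succ i) ^ k i).prod)⁻¹) * t 0 ^ (-k₁) =
          t 0 ^ k₁ * (List.ofFn fun i => t (Fin.succ i) ^ k i).prod * x *
          (t 0 ^ k₁ * (List.ofFn fun i => t (Fin.succ i) ^ k i).prod)⁻¹ := by group
      rw [e1]
      exact h2
    intro k
    have h3 := ih (t 0 ^ (-k 0) * y * (t 0 ^ (-k 0))⁻¹) (hY.conj_mem y hy _)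
      (fun i => t (Fin.succ i)) (by
        intro k' hk'
        have h4 := hRn.conj_mem _ (h1 (k 0) k' hk') (t 0 ^ (-k 0))
        rw [conjugate_commutatorElement] at h4
        have e2 : t 0 ^ (-k 0) * (t 0 ^ (k 0) * ((List.ofFn fun i => t (Fin.succ i) ^ k' i).prod * x *
          ((List.ofFn fun i => t (Fin.succ i) ^ k' i).prod)⁻¹) * t 0 ^ (-(k 0))) *
            (t 0 ^ (-k 0))⁻¹ = (List.ofFn fun i => t (Fin.succ i) ^ k' i).prod * x *
          ((List.ofFn fun i => t (Fin.succ i) ^ k' i).prod)⁻¹ := by group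
        rw [e2] at h4
        exact h4) (fun i => k (Fin.succ i))
    have h5 := hRn.conj_mem _ h3 (t 0 ^ (k 0))
    rw [conjugate_commutatorElement] at h5
    rw [List.ofFn_succ, List.prod_cons]
    have e3 : t 0 ^ (k 0) * (t 0 ^ (-k 0) * y * (t 0 ^ (-k 0))⁻¹) * (t 0 ^ (k 0))⁻¹ = y := by group
    have e4 : t 0 ^ (k 0) * ((List.ofFn fun i => t (Fin.succ i) ^ k (Fin.succ i)).prod * x *
          ((List.ofFn fun i => t (Fin.succ i) ^ k (Fin.succ i)).prod)⁻¹) * (t 0 ^ (k 0))⁻¹ =
        t 0 ^ (k 0) * (List.ofFn fun i => t (Fin.succ i) ^ k (Fin.succ i)).prod * x *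
          (t 0 ^ (k 0) * (List.ofFn fun i => t (Fin.succ i) ^ k (Fin.succ i)).prod)⁻¹ := by group
    rw [e3, e4] at h5
    exact h5

end Pool.Agent.H53R2
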